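import Pool.Agent.Lib.MP_c03ca8_nt.H.ProbA

set_option autoImplicit false

noncomputable section

namespace Pool.Agent.Lib.MP_c03ca8_nt.H

open Finset Filter Q
open P3 (Rough om xi Xi bxB bil Adm)
open scoped Classical

/-! The certificate gives a step function. -/

variable {ι : Type} [Fintype ι] [DecidableEq ι]

/-- The step function of the data. -/
def Dat.F (D : Dat) (j : ι → ℕ) : ℝ :=
  if (∀ l, j l < D.M) ∧ ∑ l, D.ρ (j l) ≤ D.B then D.h (∑ l, D.lam (j l)) * ∏ l, D.g (j l) else 0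

variable {D : Dat} {n : ℕ} {r : ℝ}

theorem probb_prod {A : Type} [CommMonoid A] (f : ℕ → A) (j : ι → ℕ) (i : ι) (c : ℕ) :
    ∏ l, f (Function.update j i c l) = f c * ∏ l ∈ univ.erase i, f (j l) := by
  rw [← Finset.mul_prod_erase univ _ (mem_univ i), Function.update_self]
  congr 1
  exact Finset.prod_congr rfl fun l hl => by rw [Function.update_of_ne (ne_of_mem_erase hl)]

theorem probb_sum {A : Type} [AddCommMonoid A] (f : ℕ → A) (j : ι → ℕ) (i : ι) (c : ℕ) :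
    ∑ l, f (Function.update j i c l) = f c + ∑ l ∈ univ.erase i, f (j l) := by
  rw [← Finset.add_sum_erase univ _ (mem_univ i), Function.update_self]
  congr 1
  exact Finset.sum_congr rfl fun l hl => by rw [Function.update_of_ne (ne_of_mem_erase hl)]

theorem probb_len (hD : D.OK n r) (c : ℕ) : 0 ≤ len D.α c :=
  sub_nonneg.2 (hD.mono (Nat.le_succ c))

theorem probb_w (hD : D.OK n r) (c : ℕ) : 0 ≤ D.w c :=
  mul_nonneg (sq_nonneg _) (probb_len hD c)

theorem probb_prod_w (D : Dat) (A : Finset ι) (j : ι → ℕ) :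
    (∏ l ∈ A, D.g (j l)) ^ 2 * ∏ l ∈ A, len D.α (j l) = ∏ l ∈ A, D.w (j l) := by
  rw [← Finset.prod_pow, ← Finset.prod_mul_distrib]
  rfl

/-- `h s ≠ 0` gives `s + 1 ≤ Λ`, so `∑ α (j l + 1) ≤ δ s + ∑ ρ ≤ δ Λ - δ + B ≤ 1`. -/
theorem F_supp (hD : D.OK n r) (j : ι → ℕ) (hj : D.F j ≠ 0) : ∑ l, D.α (j l + 1) ≤ 1 := by
  unfold Dat.F at hj
  split_ifs at hj with h
  swap
  · exact absurd rfl hj
  have h1 : ∑ l, D.lam (j l) < D.Λ := by
    by_contra hc
    exact hj (by rw [hD.hΛ _ (not_lt.1 hc), zero_mul])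
  have h2 : ((∑ l, D.lam (j l) : ℕ) : ℝ) + 1 ≤ D.Λ := by exact_mod_cast h1
  have h3 : ∑ l, D.α (j l + 1) ≤ ∑ l, (D.δ * D.lam (j l) + D.ρ (j l)) :=
    Finset.sum_le_sum fun l _ => hD.cell _ (h.1 l)
  rw [Finset.sum_add_distrib, ← Finset.mul_sum, ← Nat.cast_sum] at h3
  have h4 := mul_le_mul_of_nonneg_left h2 hD.δ0
  have h5 := hD.lev
  have h6 := h.2
  linarith

/-- Drop the cut off, `sum_ce`, `sum_Q` with `φ = Θ`. -/
theorem iv_le (hD : D.OK n r) (hn : Fintype.card ι = n + 1) (i : ι) :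
    Iv D.M (D.F (ι := ι)) (len D.α) ≤ ∑ s ∈ range D.Λ, D.Q n s * D.Θ s := by
  have hΘ : ∀ s, D.Λ ≤ s → D.Θ s = 0 := fun s hs =>
    Finset.sum_eq_zero fun c _ => by
      rw [hD.hΛ _ (hs.trans (Nat.le_add_right _ _))]; simp
  have hQ := sum_Q D hD.M_pos i D.Θ hΘ
  rw [hn, Nat.add_sub_cancel] at hQ
  rw [← hQ]
  calc Iv D.M (D.F (ι := ι)) (len D.α)
      ≤ ∑ j ∈ Ce ι D.M, D.h (∑ l, D.lam (j l)) ^ 2 * ∏ l, D.w (j l) := by
        refine Finset.sum_le_sum fun j _ => ?_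
        unfold Dat.F
        split_ifs
        · rw [mul_pow, mul_assoc, probb_prod_w]
        · rw [zero_pow two_ne_zero, zero_mul]
          exact mul_nonneg (sq_nonneg _) (Finset.prod_nonneg fun l _ => probb_w hD _)
    _ = _ := by
        rw [sum_ce D.M i]
        refine Finset.sum_congr rfl fun j _ => ?_
        unfold Dat.Θ
        rw [Finset.mul_sum]
        refine Finset.sum_congr rfl fun c _ => ?_
        rw [probb_prod D.w, probb_sum D.lam, add_comm (D.lam c)]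
        ring

/-- If `∑ l ≠ i, ρ (j l) ≤ B - ρm` the marginal is `Φ s * ∏ l ≠ i, g (j l)`; the other terms are
nonnegative, and `Φ s ^ 2 ≤ Φm ^ 2` (`0 ≤ Φ s`). `sum_Q` with `φ = Φ ^ 2`, `tail_le`. -/
theorem le_jv (hD : D.OK n r) (hn : Fintype.card ι = n + 1) (i : ι) :
    ∑ s ∈ range D.Λ, D.Q n s * D.Φ s ^ 2 - D.Φm ^ 2 * D.Tl n ≤ Jv D.M D.F (len D.α) i := by
  have hΦ : ∀ s, D.Λ ≤ s → D.Φ s ^ 2 = 0 := fun s hs => by
    have : D.Φ s = 0 := Finset.sum_eq_zero fun c _ => by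
      rw [hD.hΛ _ (hs.trans (Nat.le_add_right _ _)), mul_zero]
    rw [this, zero_pow two_ne_zero]
  have hΦ0 : ∀ s, 0 ≤ D.Φ s := fun s => Finset.sum_nonneg fun c _ =>
    mul_nonneg (mul_nonneg (hD.g0 c) (probb_len hD c)) (hD.h0 _)
  have hQ := sum_Q D hD.M_pos i (fun s => D.Φ s ^ 2) hΦ
  have hT := tail_le D hD.M_pos (probb_w hD) hD.τ0 i
  rw [hn, Nat.add_sub_cancel] at hQ hT
  have hT' := mul_le_mul_of_nonneg_left hT (sq_nonneg D.Φm)
  rw [Finset.sum_filter, Finset.mul_sum] at hT'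
  rw [← hQ]
  refine le_trans (sub_le_sub_left hT' _) ?_
  rw [← Finset.sum_sub_distrib]
  refine Finset.sum_le_sum fun j hj => ?_
  have hw : 0 ≤ ∏ l ∈ univ.erase i, D.w (j l) := Finset.prod_nonneg fun l _ => probb_w hD _
  split_ifs with h
  · have h1 : D.Φ (∑ l ∈ univ.erase i, D.lam (j l)) ^ 2 ≤ D.Φm ^ 2 :=
      pow_le_pow_left₀ (hΦ0 _) (hD.Φle _) 2
    have h2 := mul_le_mul_of_nonneg_left h1 hw
    have h3 : 0 ≤ (∑ c ∈ range D.M, D.F (Function.update j i c) * len D.α c) ^ 2 *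
        ∏ l ∈ univ.erase i, len D.α (j l) :=
      mul_nonneg (sq_nonneg _) (Finset.prod_nonneg fun l _ => probb_len hD _)
    linarith
  · have hjM : ∀ l, j l < D.M := fun l =>
      mem_range.1 (Fintype.mem_piFinset.1 (mem_filter.1 hj).1 l)
    have e : ∑ c ∈ range D.M, D.F (Function.update j i c) * len D.α c =
        D.Φ (∑ l ∈ univ.erase i, D.lam (j l)) * ∏ l ∈ univ.erase i, D.g (j l) := by
      unfold Dat.Φ
      rw [Finset.sum_mul]
      refine Finset.sum_congr rfl fun c hc => ?_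
      have hc' := mem_range.1 hc
      unfold Dat.F
      rw [if_pos, probb_prod D.g, probb_sum D.lam, add_comm (D.lam c)]
      · ring
      · refine ⟨fun l => ?_, ?_⟩
        · by_cases hl : l = i
          · rw [hl, Function.update_self]; exact hc'
          · rw [Function.update_of_ne hl]; exact hjM l
        · rw [probb_sum D.ρ]
          have := hD.ρle c hc'
          linarith [not_lt.1 h]
    rw [e, mul_pow, mul_assoc, probb_prod_w, mul_zero, sub_zero, mul_comm]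

theorem var_of_ok (hD : D.OK n r) (hr : 0 ≤ r) (hn : Fintype.card ι = n + 1) : Var ι r := by
  have hne : Nonempty ι := Fintype.card_pos_iff.1 (by omega)
  obtain ⟨i⟩ := hne
  refine ⟨D.M, D.α, D.F, hD.α0, hD.mono, hD.αM, F_supp hD, ?_⟩
  have h1 := mul_le_mul_of_nonneg_left (iv_le hD hn i) hr
  have h2 : ∑ _i : ι, (∑ s ∈ range D.Λ, D.Q n s * D.Φ s ^ 2 - D.Φm ^ 2 * D.Tl n) ≤
      ∑ i : ι, Jv D.M D.F (len D.α) i := Finset.sum_le_sum fun i _ => le_jv hD hn i
  rw [Finset.sum_const, Finset.card_univ, hn, nsmul_eq_mul, Nat.cast_succ] at h2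
  have h3 := hD.ineq
  linarith

end Pool.Agent.Lib.MP_c03ca8_nt.H
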