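import Pool.Agent.Lib.MP_c03ca8_nt.H.Dir

set_option autoImplicit false

noncomputable section

namespace Pool.Agent.Lib.MP_c03ca8_nt.H

open Finset Filter Q
open P3 (Rough om xi Xi bxB bil Adm)
open scoped Classical

/-! Tiling. Models: `H/Dir.lean` (`dir`), `P3/Core.lean`. -/

/-- `γ = t / 4`, `f` as in `dir`. For `y ≤ x ≤ K' y`, `X = ⌈γ x⌉₊`:
`∑ f ≤ (1 + γ) log x * ∑ J i * card ≤ C1 X + 2 C (2 log y) ^ (j + 1) * card`, `C1 = (1 + γ) (1 - t) S / φ W`,
`log x ≤ 2 log y` if `K' ≤ y`. `P3.tile` with `Z = K' y` and `g n = 2 C (2 log y) ^ (j + 1)` if `n ≡ a` and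
`g y n`, else `0`; `dir_low`. Choose `K'` with
`S (log K' / φ W - C0) - C1 ((1 + 2 γ) log K' + 2 γ) ≥ 1`, and `K = 2 K'`. -/
theorem dir_count (ι : Type) [Fintype ι] [DecidableEq ι] {t : ℝ} (ht : 0 < t) (ht1 : t < 1) :
    ∃ γ : ℝ, 0 < γ ∧ γ ≤ 1 / 2 ∧ ∀ (h : ι → ℕ) (J : ι → ℝ), (∀ i, 0 ≤ J i) → 0 < ∑ i, J i →
    ∀ W a : ℕ, 1 ≤ W → (∀ i, Nat.Coprime (a + h i) W) → ∀ (j : ℕ) (C : ℝ) (g : ℕ → ℕ → Prop), 0 < C →
    (∀ y x n, 1 ≤ y → y ≤ x → g x n → g y n) →
    (∀ᶠ x : ℕ in atTop, ∑ i, J i * (prm (cls x ⌈γ * x⌉₊ W a) (h i)).card ≤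
      (1 - t) * (∑ i, J i) * (⌈γ * x⌉₊ / (Nat.totient W * Real.log x)) +
        C * Real.log x ^ j * ((cls x ⌈γ * x⌉₊ W a).filter (g x)).card) →
    ∃ (K y0 : ℕ) (δ : ℝ), 1 ≤ K ∧ 0 < δ ∧ ∀ y : ℕ, y0 ≤ y →
      δ * y / Real.log y ^ (j + 1) ≤ ((cls y (K * y - y) W a).filter (g y)).card := by
  obtain ⟨γ, hγ, hγt⟩ : ∃ γ : ℝ, 0 < γ ∧ 4 * γ = t := ⟨t / 4, by positivity, by ring⟩
  refine ⟨γ, hγ, by linarith, fun h J hJ hS W a hW ha j C g hC hg hev => ?_⟩
  have hφ : (0 : ℝ) < Nat.totient W := by exact_mod_cast Nat.totient_pos.2 hW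
  have ht2 : 0 < 1 - t := by linarith
  have hlog : Tendsto (fun x : ℕ => Real.log x) atTop atTop :=
    Real.tendsto_log_atTop.comp tendsto_natCast_atTop_atTop
  obtain ⟨C0, hC0⟩ := dir_low hW
  have hκ : (1 + γ) * (1 - t) * (1 + 2 * γ) < 1 := by
    have e1 : (1 + γ) * (1 + 2 * γ) ≤ 1 + t := by nlinarith
    nlinarith [mul_le_mul_of_nonneg_right e1 ht2.le]
  obtain ⟨K, hK1, hK⟩ := ((eventually_ge_atTop 1).and ((hlog.const_mul_atTop
    (sub_pos.2 hκ)).eventually_ge_atTop (Nat.totient W * C0 + (1 + γ) * (1 - t) * (2 * γ) +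
      Nat.totient W / ∑ i, J i))).exists
  obtain ⟨y0, hy⟩ := eventually_atTop.1 (hev.and
    ((eventually_all.2 fun i => eventually_ge_atTop (h i + 1)).and
    (((tendsto_natCast_atTop_atTop.const_mul_atTop hγ).eventually_ge_atTop 1).and
    (((hlog.const_mul_atTop hγ).eventually_ge_atTop (Real.log 3)).and
      ((hlog.eventually_gt_atTop 0).and (eventually_ge_atTop K))))))
  refine ⟨2 * K, y0, 1 / (2 * C * 2 ^ (j + 1)), by omega, by positivity, fun y hy0 => ?_⟩
  obtain ⟨-, y1, y2, -, y4, y5⟩ := hy y hy0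
  have hyp : (0 : ℝ) < y := pos_of_mul_pos_left (b := γ) (by linarith) hγ.le
  have hyZ : y ≤ K * y := Nat.le_mul_of_pos_left y hK1
  have hD : 0 < 2 * C * (2 * Real.log y) ^ (j + 1) := by positivity
  have hsum : ∀ x X : ℕ, ∑ n ∈ Ioc x (x + X), (if n ≡ a [MOD W] ∧ g y n then
      2 * C * (2 * Real.log y) ^ (j + 1) else 0) =
      ((cls x X W a).filter (g y)).card * (2 * C * (2 * Real.log y) ^ (j + 1)) := fun x X => by
    rw [← sum_filter, cls, filter_filter, sum_const, nsmul_eq_mul]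
  have h1 := P3.tile (f := fun n => ∑ i, J i * (if n ≡ a [MOD W] ∧ (n + h i).Prime then
      Real.log ((n + h i : ℕ) : ℝ) else 0))
    (g := fun n => if n ≡ a [MOD W] ∧ g y n then 2 * C * (2 * Real.log y) ^ (j + 1) else 0)
    (C := (1 + γ) * (1 - t) * (∑ i, J i) / Nat.totient W)
    (fun n => sum_nonneg fun i _ => mul_nonneg (hJ i) (by
      split_ifs
      · exact Real.log_natCast_nonneg _
      · exact le_rfl)) (fun _ => by split_ifs; exacts [hD.le, le_rfl]) hγ (by linarith)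
      (by positivity) y2 hyZ fun x hx hxZ => by
      obtain ⟨x0, x1, x2, x3, x4, -⟩ := hy x (hy0.trans hx)
      have hx0 : (0 : ℝ) < x := hyp.trans_le (by exact_mod_cast hx)
      have hX : ⌈γ * x⌉₊ ≤ x := Nat.ceil_le.2 (mul_le_of_le_one_left hx0.le (by linarith))
      have e2 : Real.log (3 * x) ≤ (1 + γ) * Real.log x := by
        rw [Real.log_mul (by norm_num) hx0.ne']
        linarith
      have e3 : Real.log x ≤ 2 * Real.log y := by
        have : (x : ℝ) ≤ y * y := by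
          exact_mod_cast hxZ.trans (Nat.mul_le_mul_right y y5)
        rw [two_mul, ← Real.log_mul hyp.ne' hyp.ne']
        exact Real.log_le_log hx0 this
      have e4 : (((cls x ⌈γ * x⌉₊ W a).filter (g x)).card : ℝ) ≤
          ((cls x ⌈γ * x⌉₊ W a).filter (g y)).card := by
        exact_mod_cast card_le_card (monotone_filter_right _ fun n _ =>
          hg y x n (by exact_mod_cast hyp) hx)
      have e5 : (1 + γ) * C * Real.log x ^ (j + 1) ≤ 2 * C * (2 * Real.log y) ^ (j + 1) :=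
        mul_le_mul (mul_le_mul_of_nonneg_right (by linarith) hC.le)
          (pow_le_pow_left₀ x4.le e3 _) (by positivity) (by positivity)
      have e6 := mul_le_mul e4 e5 (by positivity) (Nat.cast_nonneg _)
      rw [hsum, sum_comm]
      simp only [← mul_sum]
      refine (sum_le_sum fun i _ => mul_le_mul_of_nonneg_left
        (dir_tile (by have := x1 i; omega) hX e2) (hJ i)).trans ?_
      simp only [← mul_assoc]
      rw [← sum_mul, ← sum_mul, mul_assoc]
      refine (mul_le_mul_of_nonneg_right x0 (by positivity)).trans ?_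
      refine le_trans (le_of_eq ?_) (add_le_add_right (e6.trans (le_of_eq (by ring))) _)
      field_simp
      ring
  have h2 : (∑ i, J i) * (Real.log ((K * y : ℕ) / y) / Nat.totient W - C0) ≤
      ∑ n ∈ Ioc y (K * y), (∑ i, J i * (if n ≡ a [MOD W] ∧ (n + h i).Prime then
        Real.log ((n + h i : ℕ) : ℝ) else 0)) / n := by
    simp only [sum_div, mul_div_assoc]
    rw [sum_comm, sum_mul]
    refine sum_le_sum fun i _ => ?_
    rw [← mul_sum]
    exact mul_le_mul_of_nonneg_left (hC0 a (h i) y _ (ha i) (y1 i) hyZ) (hJ i)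
  have h3 := h2.trans h1
  have h4 : 2 * (K * y) = y + (2 * K * y - y) := by
    rw [mul_assoc]
    omega
  rw [h4, hsum, Nat.cast_mul, mul_div_cancel_right₀ _ hyp.ne'] at h3
  have h5 := mul_le_mul_of_nonneg_left hK (div_pos hS hφ).le
  have h6 : (∑ i, J i) / Nat.totient W * (Nat.totient W * C0 + (1 + γ) * (1 - t) * (2 * γ) +
      Nat.totient W / ∑ i, J i) = (∑ i, J i) * C0 +
      (1 + γ) * (1 - t) * (∑ i, J i) / Nat.totient W * (2 * γ) + 1 := by field_simp
  have h7 : (∑ i, J i) / Nat.totient W * ((1 - (1 + γ) * (1 - t) * (1 + 2 * γ)) * Real.log K) =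
      (∑ i, J i) * (Real.log K / Nat.totient W) -
      (1 + γ) * (1 - t) * (∑ i, J i) / Nat.totient W * ((1 + 2 * γ) * Real.log K) := by ring
  have h8 : 1 ≤ 1 / y * (((cls y (2 * K * y - y) W a).filter (g y)).card *
      (2 * C * (2 * Real.log y) ^ (j + 1))) := by linarith
  rw [one_div_mul_eq_div, le_div_iff₀ hyp, one_mul, mul_pow] at h8
  rw [one_div_mul_eq_div, div_div, div_le_iff₀ (by positivity)]
  linarith

end Pool.Agent.Lib.MP_c03ca8_nt.H
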