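import Pool.Agent.Lib.MP_c03ca8_nt.H.Defs

set_option autoImplicit false

noncomputable section

namespace Pool.Agent.Lib.MP_c03ca8_nt.H

open Finset Filter Q
open P3 (Rough om xi Xi bxB bil Adm)
open scoped Classical

/-! From primes among the forms to gaps between primes. -/

variable {ι : Type} [Fintype ι] [DecidableEq ι]

/-- Copy `Q.exists_residue`. -/
theorem exists_res (h : ι → ℕ) (adm : ∀ p : ℕ, p.Prime → ∃ a, ∀ l, ¬ p ∣ a + h l) (w : ℕ) :
    ∃ a, ∀ l, Nat.Coprime (a + h l) (primorial w) := by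
  choose! r hr using adm
  have hS : ∀ p ∈ (range (w + 1)).filter Nat.Prime, p.Prime := fun p hp => (mem_filter.1 hp).2
  obtain ⟨a, ha⟩ := Nat.chineseRemainderOfFinset r id ((range (w + 1)).filter Nat.Prime)
    (fun p hp => (hS p hp).ne_zero)
    (fun p hp q hq hpq => (Nat.coprime_primes (hS p hp) (hS q hq)).2 hpq)
  refine ⟨a, fun l => ?_⟩
  unfold primorial
  refine Nat.Coprime.prod_right fun p hp => ?_
  have hp' := hS p hp
  refine ((Nat.Prime.coprime_iff_not_dvd hp').2 ?_).symm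
  intro hd
  apply hr p hp' l
  have h1 : a + h l ≡ r p + h l [MOD p] := (ha p hp).add_right _
  exact (h1.dvd_iff (dvd_refl p)).1 hd

/-- Let `p0` be the least of the primes `n + b`, `N = Nat.count Nat.Prime p0`, so `nth N = p0`
(`Nat.nth_count`). The `m + 1` primes lie in `[p0, p0 + D]`, so `N + m < count (p0 + D + 1)`
(`Nat.count_eq_card_filter_range`), `Nat.nth_lt_of_lt_count`. `N` is large when `n` is
(`Nat.lt_nth_iff_count_lt` or `nth N = p0 ≥ n > nth N0` and monotonicity, `Nat.infinite_setOf_prime`). -/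
theorem gap_of (H : Finset ℕ) (D m : ℕ) (hD : ∀ b ∈ H, b ≤ D)
    (hH : ∃ᶠ n : ℕ in atTop, m + 1 ≤ (H.filter fun b => (n + b).Prime).card) :
    ∃ᶠ N : ℕ in atTop, Nat.nth Nat.Prime (N + m) ≤ Nat.nth Nat.Prime N + D := by
  rw [frequently_atTop] at hH ⊢
  intro N0
  obtain ⟨n, hn, hc⟩ := hH (Nat.nth Nat.Prime N0)
  set S := H.filter fun b => (n + b).Prime with hS
  have hne : S.Nonempty := card_pos.1 (by omega)
  have hb0 : S.min' hne ∈ S := min'_mem S hne
  have hp0 : (n + S.min' hne).Prime := (mem_filter.1 hb0).2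
  have hnth : Nat.nth Nat.Prime (Nat.count Nat.Prime (n + S.min' hne)) = n + S.min' hne :=
    Nat.nth_count hp0
  refine ⟨Nat.count Nat.Prime (n + S.min' hne), ?_, ?_⟩
  · by_contra hlt
    have h1 : Nat.nth Nat.Prime (Nat.count Nat.Prime (n + S.min' hne)) < Nat.nth Nat.Prime N0 :=
      Nat.nth_strictMono Nat.infinite_setOfPred_prime (not_le.1 hlt)
    rw [hnth] at h1
    omega
  · rw [hnth]
    have hlt : Nat.count Nat.Prime (n + S.min' hne) + m <
        Nat.count Nat.Prime (n + S.min' hne + D + 1) := by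
      rw [Nat.count_eq_card_filter_range, Nat.count_eq_card_filter_range]
      have hdis : Disjoint ((range (n + S.min' hne)).filter Nat.Prime) (S.image fun b => n + b) := by
        rw [disjoint_left]
        intro x hx hx'
        obtain ⟨b, hb, rfl⟩ := mem_image.1 hx'
        have h1 := mem_range.1 (mem_filter.1 hx).1
        have h2 := min'_le S b hb
        omega
      have hsub : ((range (n + S.min' hne)).filter Nat.Prime) ∪ (S.image fun b => n + b) ⊆
          (range (n + S.min' hne + D + 1)).filter Nat.Prime := by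
        intro x hx
        rcases mem_union.1 hx with hx | hx
        · have h1 := mem_range.1 (mem_filter.1 hx).1
          exact mem_filter.2 ⟨mem_range.2 (by omega), (mem_filter.1 hx).2⟩
        · obtain ⟨b, hb, rfl⟩ := mem_image.1 hx
          have h1 := hD b (mem_filter.1 hb).1
          exact mem_filter.2 ⟨mem_range.2 (by omega), (mem_filter.1 hb).2⟩
      have h1 := card_le_card hsub
      rw [card_union_of_disjoint hdis,
        card_image_of_injective S (fun a b (hab : n + a = n + b) => by omega)] at h1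
      exact lt_of_lt_of_le (Nat.add_lt_add_left (Nat.lt_of_succ_le hc) _) h1
    have := Nat.nth_lt_of_lt_count hlt
    omega

/-- A prime above the size of the set: the classes `-b` do not cover all residues. -/
theorem adm_large (H : Finset ℕ) {p : ℕ} (hp : H.card < p) : ∃ a, ∀ b ∈ H, ¬ p ∣ a + b := by
  have : NeZero p := ⟨by omega⟩
  have hlt : (H.image fun b : ℕ => -(b : ZMod p)).card < (univ : Finset (ZMod p)).card := by
    rw [card_univ, ZMod.card]
    exact lt_of_le_of_lt card_image_le hp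
  obtain ⟨z, -, hz⟩ := exists_mem_notMem_of_card_lt_card hlt
  refine ⟨z.val, fun b hb hd => hz (mem_image.2 ⟨b, hb, ?_⟩)⟩
  have h1 : ((z.val + b : ℕ) : ZMod p) = 0 := (ZMod.natCast_eq_zero_iff _ _).2 hd
  rw [Nat.cast_add, ZMod.natCast_zmod_val] at h1
  exact neg_eq_of_add_eq_zero_left h1

/-- The choice of the small parameters, by continuity at `θ = 1 / 4`, `t = 0`. -/
theorem main_num (k m : ℕ) {I J : ℝ} (hI : 0 ≤ I) (hJ : 4 * m * I < J) : ∃ θ t : ℝ, 0 < θ ∧ θ < 1 / 4 ∧
    0 < t ∧ t < 1 ∧ m * (θ ^ k * (I + t) + t) + k * t < θ ^ (k + 1) * ((1 - t) * (J - k * t)) := by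
  have hm : (0 : ℝ) ≤ m * I := mul_nonneg (Nat.cast_nonneg m) hI
  have hJ0 : 0 < J := by nlinarith
  obtain ⟨θ, hθ1, hθ2⟩ := exists_between (show m * I / J < 1 / 4 by
    rw [div_lt_iff₀ hJ0]; nlinarith)
  have hθ0 : 0 < θ := lt_of_le_of_lt (div_nonneg hm hJ0.le) hθ1
  have hθ3 : m * I < θ * J := (div_lt_iff₀ hJ0).1 hθ1
  have hc1 : Continuous fun t : ℝ => m * (θ ^ k * (I + t) + t) + k * t := by fun_prop
  have hc2 : Continuous fun t : ℝ => θ ^ (k + 1) * ((1 - t) * (J - k * t)) := by fun_prop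
  have h0 : (fun t : ℝ => m * (θ ^ k * (I + t) + t) + k * t) 0 <
      (fun t : ℝ => θ ^ (k + 1) * ((1 - t) * (J - k * t))) 0 := by
    have hk : 0 < θ ^ k := pow_pos hθ0 k
    have := mul_lt_mul_of_pos_left hθ3 hk
    simp only [add_zero, mul_zero, sub_zero, one_mul, pow_succ]
    nlinarith
  have hev := (hc1.continuousAt.eventually_lt hc2.continuousAt h0).and
    (eventually_lt_nhds (show (0 : ℝ) < 1 by norm_num))
  have hev2 := (hev.filter_mono (nhdsWithin_le_nhds (s := Set.Ioi (0 : ℝ)))).and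
    self_mem_nhdsWithin
  obtain ⟨t, ⟨ht1, ht2⟩, ht3⟩ := hev2.exists
  exact ⟨θ, t, hθ0, hθ2, ht3, ht2, ht1⟩

/-- Pigeonhole: if every `n ∈ I` has at most `m` prime forms then `∑ i, ∑ prm ≤ m ∑`. -/
theorem main_count (I : Finset ℕ) (h : ι → ℕ) (m : ℕ) (f : ℕ → ℝ) (hf : ∀ n, 0 ≤ f n)
    (hlt : m * ∑ n ∈ I, f n < ∑ i, ∑ n ∈ prm I (h i), f n) :
    ∃ n ∈ I, m + 1 ≤ (univ.filter fun l => (n + h l).Prime).card := by
  by_contra hcon
  push Not at hcon
  have h1 : ∑ i, ∑ n ∈ prm I (h i), f n =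
      ∑ n ∈ I, ((univ.filter fun l => (n + h l).Prime).card : ℝ) * f n := by
    simp only [prm, sum_filter]
    rw [sum_comm]
    refine sum_congr rfl fun n _ => ?_
    rw [← sum_filter, sum_const, nsmul_eq_mul]
  rw [h1, mul_sum] at hlt
  refine absurd hlt (not_lt.2 (sum_le_sum fun n hn => ?_))
  refine mul_le_mul_of_nonneg_right ?_ (hf n)
  exact_mod_cast Nat.lt_succ_iff.1 (hcon n hn)

end Pool.Agent.Lib.MP_c03ca8_nt.H
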