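import Pool.Agent.Lib.MP_c03ca8_nt.H.Defs

set_option autoImplicit false

noncomputable section

namespace Pool.Agent.Lib.MP_c03ca8_nt.H

open Finset Filter Q
open P3 (Rough om xi Xi bxB bil Adm)
open scoped Classical

/-! Local estimates. -/

variable {ι : Type} [Fintype ι] [DecidableEq ι] {q : ℕ} {S S' : Finset ι}

theorem uu_pos (hq : 2 ≤ q) : 0 < uu q := by
  have h : (2 : ℝ) ≤ q := by exact_mod_cast hq
  unfold uu
  exact one_div_pos.2 (by linarith)

theorem uu_le_one (hq : 2 ≤ q) : uu q ≤ 1 := by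
  have h : (2 : ℝ) ≤ q := by exact_mod_cast hq
  unfold uu
  rw [div_le_one (by linarith)]
  linarith

theorem uu_le (hq : 2 ≤ q) : uu q ≤ 2 / q := by
  have h : (2 : ℝ) ≤ q := by exact_mod_cast hq
  unfold uu
  rw [div_le_div_iff₀ (by linarith) (by linarith)]
  linarith

theorem vl_none (q : ℕ) (S S' : Finset ι) : vl q S S' none = uu q ^ (S.card + S'.card) := by
  simp [vl, pow_add]

theorem loc_prod_le (hq : 2 ≤ q) (S : Finset ι) (o : Option ι) :
    |∏ l ∈ S, if o = some l then (-1 : ℝ) else uu q| ≤ 1 := by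
  rw [Finset.abs_prod]
  refine Finset.prod_le_one (fun _ _ => abs_nonneg _) fun l _ => ?_
  split_ifs
  · simp
  · rw [abs_of_pos (uu_pos hq)]; exact uu_le_one hq

theorem loc_prod_le_uu (hq : 2 ≤ q) {S : Finset ι} {o : Option ι} {k : ι} (hk : k ∈ S)
    (ho : o ≠ some k) : |∏ l ∈ S, if o = some l then (-1 : ℝ) else uu q| ≤ uu q := by
  rw [← Finset.mul_prod_erase _ _ hk, if_neg ho, abs_mul, abs_of_pos (uu_pos hq)]
  exact mul_le_of_le_one_right (uu_pos hq).le (loc_prod_le hq _ o)

theorem loc_vl_le_uu (hq : 2 ≤ q) {o : Option ι} {k : ι} (hk : k ∈ S ∪ S') (ho : o ≠ some k) :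
    |vl q S S' o| ≤ uu q := by
  unfold vl
  rw [abs_mul]
  rcases Finset.mem_union.1 hk with h | h
  · exact (mul_le_of_le_one_right (abs_nonneg _) (loc_prod_le hq _ o)).trans
      (loc_prod_le_uu hq h ho)
  · exact (mul_le_of_le_one_left (abs_nonneg _) (loc_prod_le hq _ o)).trans
      (loc_prod_le_uu hq h ho)

theorem abs_vl_le (hq : 2 ≤ q) (S S' : Finset ι) (o : Option ι) : |vl q S S' o| ≤ 1 := by
  unfold vl
  rw [abs_mul]
  exact mul_le_one₀ (loc_prod_le hq _ o) (abs_nonneg _) (loc_prod_le hq _ o)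

theorem abs_ee_le (hq : 2 ≤ q) (S S' : Finset ι) (l : ι) : |ee q S S' l| ≤ 2 := by
  unfold ee
  have h := abs_sub (vl q S S' (some l)) (vl q S S' none)
  have h1 := abs_vl_le hq S S' (some l)
  have h2 := abs_vl_le hq S S' none
  linarith

theorem ee_eq_zero {l : ι} (h : l ∉ S) (h' : l ∉ S') : ee q S S' l = 0 := by
  have k : ∀ A : Finset ι, l ∉ A → (∏ j ∈ A, if some l = some j then (-1 : ℝ) else uu q) =
      ∏ j ∈ A, if (none : Option ι) = some j then (-1 : ℝ) else uu q := fun A hA =>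
    Finset.prod_congr rfl fun j hj => by
      rw [if_neg (fun e => hA (by rw [Option.some.inj e]; exact hj)), if_neg (by simp)]
  unfold ee vl
  rw [k S h, k S' h', sub_self]

/-- `1 + 2 |S ∪ S'| ≤ 3 ^ (|S| + |S'|)`. -/
theorem loc_err (hq : 2 ≤ q) (S S' : Finset ι) :
    |vl q S S' none| + ∑ l, |ee q S S' l| ≤ 3 ^ S.card * 3 ^ S'.card := by
  have h1 : ∑ l, |ee q S S' l| = ∑ l ∈ S ∪ S', |ee q S S' l| := by
    refine (Finset.sum_subset (Finset.subset_univ _) fun l _ hl => ?_).symm
    rw [Finset.mem_union, not_or] at hl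
    rw [ee_eq_zero hl.1 hl.2, abs_zero]
  have h2 : ∑ l ∈ S ∪ S', |ee q S S' l| ≤ ((S ∪ S').card : ℝ) * 2 := by
    simpa using Finset.sum_le_card_nsmul (S ∪ S') _ 2 fun l _ => abs_ee_le hq S S' l
  have h3 : ((S ∪ S').card : ℝ) ≤ ((S.card + S'.card : ℕ) : ℝ) := by
    exact_mod_cast Finset.card_union_le S S'
  have h4 := one_add_mul_le_pow (a := (2 : ℝ)) (by norm_num) (S.card + S'.card)
  have h5 := abs_vl_le hq S S' none
  rw [h1, ← pow_add]
  norm_num at h4
  push_cast at h3
  linarith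

/-- Let `u = uu q`, `r = u + e`, so `0 ≤ r ≤ 2 u`. If `S ∪ S' ⊆ {l}`: both empty gives `0`, one slot gives
`-u ^ 2 - e (1 + u)`, both slots give `u ^ 2 + e (1 - u ^ 2) - u ^ 3`. If `S ∪ S'` has two elements then
`|vl none| ≤ u ^ 2`, `|vl (some l)| ≤ u` (a slot of another form gives a factor `u`), `vI ≤ u ^ 2`. -/
theorem av_near (hq : 2 ≤ q) {r : ℝ} (hr : |r - uu q| ≤ uu q ^ 2) (S S' : Finset ι) :
    |av r q S S' - vI q S S'| ≤ (4 * Fintype.card ι + 3) * uu q ^ 2 := by
  have u0 := uu_pos hq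
  have u1 := uu_le_one hq
  have hk0 : (0 : ℝ) ≤ Fintype.card ι := Nat.cast_nonneg _
  have u2 : uu q ^ 2 ≤ uu q := by nlinarith
  have u20 : 0 < uu q ^ 2 := by positivity
  obtain ⟨hr1, hr2⟩ := abs_le.1 hr
  have r0 : 0 ≤ r := by linarith
  have r2 : r ≤ 2 * uu q := by linarith
  by_cases hc : (S ∪ S').card ≤ 1
  · obtain h0 | ⟨l, hl⟩ : S ∪ S' = ∅ ∨ ∃ l, S ∪ S' = {l} := by
      rcases Nat.le_one_iff_eq_zero_or_eq_one.1 hc with h | h
      · exact Or.inl (Finset.card_eq_zero.1 h)
      · exact Or.inr (Finset.card_eq_one.1 h)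
    · obtain ⟨rfl, rfl⟩ := Finset.union_eq_empty.1 h0
      have : av r q (∅ : Finset ι) ∅ - vI q (∅ : Finset ι) ∅ = 0 := by simp [av, vI, ee, vl]
      rw [this, abs_zero]
      positivity
    · have hk1 : (1 : ℝ) ≤ Fintype.card ι := by
        exact_mod_cast Fintype.card_pos_iff.2 ⟨l⟩
      have hs : ∑ j, ee q S S' j = ee q S S' l := by
        refine Finset.sum_eq_single l (fun j _ hj => ?_) (by simp)
        have : j ∉ S ∪ S' := by rw [hl]; simpa using hj
        rw [Finset.mem_union, not_or] at this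
        exact ee_eq_zero this.1 this.2
      have hb : 4 * uu q ^ 2 ≤ (4 * Fintype.card ι + 3) * uu q ^ 2 :=
        mul_le_mul_of_nonneg_right (by linarith) u20.le
      refine le_trans ?_ hb
      unfold av
      rw [hs]
      have hS : S = ∅ ∨ S = {l} := Finset.subset_singleton_iff.1 (hl ▸ Finset.subset_union_left)
      have hS' : S' = ∅ ∨ S' = {l} :=
        Finset.subset_singleton_iff.1 (hl ▸ Finset.subset_union_right)
      have m1 : (r - uu q) * uu q ≤ uu q ^ 2 := by nlinarith
      have m2 : -uu q ^ 2 ≤ (r - uu q) * uu q := by nlinarith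
      have m3 : r * uu q ^ 2 ≤ 2 * uu q ^ 2 := mul_le_mul_of_nonneg_right (by linarith) u20.le
      have m4 : 0 ≤ r * uu q ^ 2 := by positivity
      rcases hS with rfl | rfl <;> rcases hS' with rfl | rfl
      · simp at hl
      · have e : vl q (∅ : Finset ι) {l} none + r * ee q ∅ {l} l - vI q (∅ : Finset ι) {l} =
            uu q + r * (-1 - uu q) := by
          simp [vI, ee, vl, (Finset.singleton_ne_empty l).symm]
        rw [e, abs_le]
        constructor <;> nlinarith
      · have e : vl q {l} (∅ : Finset ι) none + r * ee q {l} ∅ l - vI q {l} (∅ : Finset ι) =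
            uu q + r * (-1 - uu q) := by
          simp [vI, ee, vl]
        rw [e, abs_le]
        constructor <;> nlinarith
      · have e : vl q {l} {l} none + r * ee q {l} {l} l - vI q {l} {l} =
            uu q * uu q + r * (1 - uu q * uu q) - uu q := by
          simp [vI, ee, vl]
        rw [e, abs_le]
        constructor <;> nlinarith
  · have hc2 : 2 ≤ (S ∪ S').card := by omega
    have hp : ∀ n, 2 ≤ n → uu q ^ n ≤ uu q ^ 2 := fun n hn => pow_le_pow_of_le_one u0.le u1 hn
    have h1 : vl q S S' none ≤ uu q ^ 2 := by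
      rw [vl_none]; exact hp _ (hc2.trans (Finset.card_union_le S S'))
    have h1' : 0 ≤ vl q S S' none := by rw [vl_none]; positivity
    have h2 : vI q S S' ≤ uu q ^ 2 := by
      unfold vI
      split_ifs with h
      · subst h
        exact hp _ (by simpa using hc2)
      · exact u20.le
    have h2' : 0 ≤ vI q S S' := by
      unfold vI
      split_ifs
      · positivity
      · exact le_rfl
    have h3 : ∀ l, |ee q S S' l| ≤ 2 * uu q := fun l => by
      obtain ⟨k, hk, hkl⟩ := Finset.exists_mem_ne (by omega : 1 < (S ∪ S').card) l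
      have a1 := loc_vl_le_uu hq (o := some l) hk fun e => hkl (Option.some.inj e).symm
      have a2 := abs_sub (vl q S S' (some l)) (vl q S S' none)
      rw [abs_of_nonneg h1'] at a2
      unfold ee
      linarith
    have h4 : |∑ l, ee q S S' l| ≤ Fintype.card ι * (2 * uu q) := by
      refine (Finset.abs_sum_le_sum_abs _ _).trans ?_
      simpa using Finset.sum_le_card_nsmul univ _ _ fun l _ => h3 l
    have h5 : |r * ∑ l, ee q S S' l| ≤ 2 * uu q * (Fintype.card ι * (2 * uu q)) := by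
      rw [abs_mul, abs_of_nonneg r0]
      exact mul_le_mul r2 h4 (abs_nonneg _) (by positivity)
    obtain ⟨h6, h7⟩ := abs_le.1 h5
    unfold av
    rw [abs_le]
    constructor <;> nlinarith

theorem near_vA {P : Finset ℕ} (hP : ∀ q ∈ P, q.Prime) : Near P (vA (ι := ι)) := by
  intro q hq S S'
  have h2 := (hP q hq).two_le
  have h : (2 : ℝ) ≤ q := by exact_mod_cast h2
  refine av_near h2 ?_ S S'
  have e : 1 / (q : ℝ) - uu q = -(1 / (q * ((q : ℝ) - 1))) := by
    unfold uu
    have : (q : ℝ) - 1 ≠ 0 := ne_of_gt (by linarith)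
    field_simp
    ring
  have h1 : (0 : ℝ) < q - 1 := by linarith
  rw [e, abs_neg, abs_of_pos (by positivity)]
  unfold uu
  rw [div_pow, one_pow]
  exact one_div_le_one_div_of_le (by positivity) (by nlinarith)

theorem near_vU {P : Finset ℕ} (hP : ∀ q ∈ P, q.Prime) : Near P (vU (ι := ι)) := by
  intro q hq S S'
  refine av_near (hP q hq).two_le ?_ S S'
  rw [sub_self, abs_zero]
  positivity

theorem vI_nonneg (hq : 2 ≤ q) (S S' : Finset ι) : 0 ≤ vI q S S' := by
  have := uu_pos hq
  unfold vI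
  split_ifs
  · positivity
  · exact le_rfl

/-- `Finset.sum_pow_mul_eq_add_pow` or `Finset.prod_one_add`. -/
theorem sum_pow_card (u : ℝ) (A : Finset ι) : ∑ S ∈ A.powerset, u ^ S.card = (1 + u) ^ A.card := by
  have h := Finset.prod_one_add (f := fun _ : ι => u) A
  simp only [Finset.prod_const] at h
  exact h.symm

theorem mert_eq (P : Finset ℕ) : mert P = ∏ q ∈ P, (1 + uu q) := rfl

theorem one_le_mert {P : Finset ℕ} (hP : ∀ q ∈ P, q.Prime) : 1 ≤ mert P := by
  rw [mert_eq]
  exact Finset.one_le_prod fun q hq => by linarith [uu_pos (hP q hq).two_le]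

theorem sum_wt (P : Finset ℕ) : ∑ T ∈ P.powerset, wt T = mert P :=
  (Finset.prod_one_add (f := fun q : ℕ => 1 / ((q : ℝ) - 1)) P).symm

end Pool.Agent.Lib.MP_c03ca8_nt.H
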