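import Pool.Agent.Lib.MP_c03ca8_nt.H.Cfg
import Pool.Agent.Lib.MP_c03ca8_nt.H.Loc

set_option autoImplicit false

noncomputable section

namespace Pool.Agent.Lib.MP_c03ca8_nt.H

open Finset Filter Q
open P3 (Rough om xi Xi bxB bil Adm)
open scoped Classical

/-! Decoupling of the forms. Models: `Q/Decouple.lean`, team-store `p3_Dec3.lean`. -/

variable {ι : Type} [Fintype ι] [DecidableEq ι]

theorem dec_two {P : Finset ℕ} (hP : ∀ q ∈ P, q.Prime) {q : ℕ} (hq : q ∈ P) : 2 ≤ q :=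
  (hP q hq).two_le

theorem dec_wt {P : Finset ℕ} {T : ι → Finset ℕ} (hT : T ∈ Tu ι P) :
    ∏ l, wt (T l) = ∏ q ∈ P, uu q ^ (cf T q).card := by
  have h := prod_cf hT fun q _ => uu q
  simp only [prod_const] at h
  rw [h]
  rfl

theorem dec_ind {Z : (ι → Finset ℕ) → ℝ} {A : Finset ι} (hZ : Bd Z A) (P : Finset ℕ)
    (T : ι → Finset ℕ) : |Z T| ≤ ∏ q ∈ P, (if cf T q ∈ A.powerset then (1 : ℝ) else 0) := by
  by_cases h : Z T = 0
  · rw [h, abs_zero]
    exact prod_nonneg fun q _ => by split_ifs <;> norm_num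
  · refine (hZ.bd T).trans (le_of_eq (prod_eq_one fun q _ => if_pos ?_).symm)
    refine mem_powerset.2 fun l hl => ?_
    by_contra hA
    have h1 := hZ.al T h l hA
    have h2 : q ∈ T l := (mem_filter.1 hl).2
    rw [h1] at h2
    exact notMem_empty q h2

theorem dec_ind2 {Z : (ι → Finset ℕ) → ℝ} {A : Finset ι} (hZ : Bd Z A) (P : Finset ℕ)
    (T T' : ι → Finset ℕ) :
    |Z T * Z T'| ≤ ∏ q ∈ P, (if cf T q ∈ A.powerset then (1 : ℝ) else 0) := by
  rw [abs_mul]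
  exact (mul_le_of_le_one_right (abs_nonneg _) (hZ.bd T')).trans (dec_ind hZ P T)

theorem dec_sum_ind (F : Finset (Finset ι)) (g : Finset ι → ℝ) :
    ∑ S, (if S ∈ F then (1 : ℝ) else 0) * g S = ∑ S ∈ F, g S := by
  simp only [ite_mul, one_mul, zero_mul]
  rw [sum_ite_mem, univ_inter]

theorem dec_sum_ind2 (F : Finset (Finset ι)) (g : Finset ι → Finset ι → ℝ) :
    ∑ S, ∑ S', (if S ∈ F then (1 : ℝ) else 0) * g S S' = ∑ S ∈ F, ∑ S', g S S' := by
  rw [← dec_sum_ind F]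
  exact sum_congr rfl fun S _ => (mul_sum _ _ _).symm

omit [DecidableEq ι] in
theorem dec_const (F : Finset (Finset ι)) {c : ℝ} (hc : 0 ≤ c) :
    ∑ _S ∈ F, ∑ _S' : Finset ι, c ≤ 4 ^ Fintype.card ι * c := by
  have h1 : ∑ _S ∈ F, ∑ _S' : Finset ι, c ≤ ∑ _S : Finset ι, ∑ _S' : Finset ι, c :=
    sum_le_sum_of_subset_of_nonneg (subset_univ F) fun _ _ _ => sum_nonneg fun _ _ => hc
  refine h1.trans (le_of_eq ?_)
  simp only [sum_const, card_univ, Fintype.card_finset, nsmul_eq_mul]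
  push_cast
  rw [← mul_assoc, ← mul_pow]
  norm_num

/-- The local constant. -/
def dec_K (ι : Type) [Fintype ι] : ℝ := 4 ^ Fintype.card ι * ((4 * Fintype.card ι + 3) * 4)

omit [DecidableEq ι] in
theorem dec_one_le : 1 ≤ dec_K ι := by
  have h1 : (1 : ℝ) ≤ 4 ^ Fintype.card ι := one_le_pow₀ (by norm_num)
  have h2 : (0 : ℝ) ≤ Fintype.card ι := Nat.cast_nonneg _
  exact one_le_mul_of_one_le_of_one_le h1 (by linarith)

theorem dec_d {q : ℕ} (hq : 2 ≤ q) {v : Finset ι → Finset ι → ℝ}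
    (hv : ∀ S S', |v S S' - vI q S S'| ≤ (4 * Fintype.card ι + 3) * uu q ^ 2)
    (F : Finset (Finset ι)) :
    ∑ S ∈ F, ∑ S', |v S S' - vI q S S'| ≤ dec_K ι / (q : ℝ) ^ 2 := by
  have h1 : uu q ^ 2 ≤ (2 / (q : ℝ)) ^ 2 := pow_le_pow_left₀ (uu_pos hq).le (uu_le hq) 2
  calc ∑ S ∈ F, ∑ S', |v S S' - vI q S S'|
      ≤ ∑ _S ∈ F, ∑ _S' : Finset ι, (4 * (Fintype.card ι : ℝ) + 3) * (2 / (q : ℝ)) ^ 2 :=
        sum_le_sum fun S _ => sum_le_sum fun S' _ =>
          (hv S S').trans (mul_le_mul_of_nonneg_left h1 (by positivity))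
    _ ≤ 4 ^ Fintype.card ι * ((4 * (Fintype.card ι : ℝ) + 3) * (2 / (q : ℝ)) ^ 2) :=
        dec_const F (by positivity)
    _ = dec_K ι / (q : ℝ) ^ 2 := by
        unfold dec_K
        ring

theorem dec_max {q : ℕ} (hq : 2 ≤ q) {v : Finset ι → Finset ι → ℝ}
    (hv : ∀ S S', |v S S' - vI q S S'| ≤ (4 * Fintype.card ι + 3) * uu q ^ 2)
    (F : Finset (Finset ι)) :
    ∑ S ∈ F, ∑ S', max |v S S'| |vI q S S'| ≤ ∑ S ∈ F, uu q ^ S.card + dec_K ι / (q : ℝ) ^ 2 := by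
  have h1 : ∀ S : Finset ι, ∑ S', vI q S S' = uu q ^ S.card := by
    intro S
    unfold vI
    rw [sum_ite_eq, if_pos (mem_univ S)]
  calc ∑ S ∈ F, ∑ S', max |v S S'| |vI q S S'|
      ≤ ∑ S ∈ F, ∑ S', (vI q S S' + |v S S' - vI q S S'|) := by
        refine sum_le_sum fun S _ => sum_le_sum fun S' _ => ?_
        have h2 := vI_nonneg hq S S'
        have h3 := abs_nonneg (v S S' - vI q S S')
        have h4 := abs_sub_abs_le_abs_sub (v S S') (vI q S S')
        rw [abs_of_nonneg h2] at h4 ⊢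
        exact max_le (by linarith) (by linarith)
    _ = ∑ S ∈ F, uu q ^ S.card + ∑ S ∈ F, ∑ S', |v S S' - vI q S S'| := by
        simp only [sum_add_distrib, h1]
    _ ≤ _ := by
        have := dec_d hq hv F
        linarith

theorem dec_max_pow {q : ℕ} (hq : 2 ≤ q) {v : Finset ι → Finset ι → ℝ}
    (hv : ∀ S S', |v S S' - vI q S S'| ≤ (4 * Fintype.card ι + 3) * uu q ^ 2) (A : Finset ι) :
    ∑ S ∈ A.powerset, ∑ S', max |v S S'| |vI q S S'| ≤
      (1 + 1 / ((q : ℝ) - 1)) ^ A.card * (1 + dec_K ι / (q : ℝ) ^ 2) := by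
  have h1 := dec_max hq hv A.powerset
  rw [sum_pow_card] at h1
  have h2 : 1 ≤ (1 + uu q) ^ A.card := one_le_pow₀ (by have := uu_pos hq; linarith)
  have h3 : 0 ≤ dec_K ι / (q : ℝ) ^ 2 := div_nonneg (zero_le_one.trans dec_one_le) (by positivity)
  change _ ≤ (1 + uu q) ^ A.card * _
  nlinarith

theorem dec_not_mem (i : ι) :
    univ.filter (fun S : Finset ι => ¬ i ∈ S) = (univ.erase i).powerset := by
  ext S
  simp only [mem_filter, mem_univ, true_and, mem_powerset, subset_erase, subset_univ]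

theorem dec_sum_mem (u : ℝ) (i : ι) :
    ∑ S ∈ univ.filter (fun S : Finset ι => i ∈ S), u ^ S.card =
      u * (1 + u) ^ (Fintype.card ι - 1) := by
  have h1 := sum_filter_add_sum_filter_not univ (fun S : Finset ι => i ∈ S) fun S => u ^ S.card
  have h2 := sum_pow_card u (univ : Finset ι)
  have h3 : Fintype.card ι - 1 + 1 = Fintype.card ι :=
    Nat.sub_add_cancel (Fintype.card_pos_iff.2 ⟨i⟩)
  rw [powerset_univ, card_univ, ← h3, pow_succ] at h2
  rw [dec_not_mem, sum_pow_card, card_erase_of_mem (mem_univ i), card_univ, h2] at h1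
  linarith

theorem dec_fix {q : ℕ} (hq : 2 ≤ q) {v : Finset ι → Finset ι → ℝ}
    (hv : ∀ S S', |v S S' - vI q S S'| ≤ (4 * Fintype.card ι + 3) * uu q ^ 2) (i : ι)
    (T0 : Finset ℕ) {K : ℝ} (hK : dec_K ι + 2 ≤ K) :
    ∑ S ∈ univ.filter (fun S : Finset ι => i ∈ S ↔ q ∈ T0), ∑ S', |v S S'| ≤
      (1 + 1 / ((q : ℝ) - 1)) ^ (Fintype.card ι - 1) * (1 + dec_K ι / (q : ℝ) ^ 2) *
        (if q ∈ T0 then (1 + K / q) / q else 1) := by
  have h0 : ∀ F : Finset (Finset ι), ∑ S ∈ F, ∑ S', |v S S'| ≤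
      ∑ S ∈ F, ∑ S', max |v S S'| |vI q S S'| := fun F =>
    sum_le_sum fun S _ => sum_le_sum fun S' _ => le_max_left _ _
  refine (h0 _).trans ?_
  by_cases h : q ∈ T0
  · simp only [h, iff_true, if_true]
    refine (dec_max hq hv _).trans ?_
    rw [dec_sum_mem]
    change _ ≤ (1 + uu q) ^ (Fintype.card ι - 1) * _ * _
    have hq' : (2 : ℝ) ≤ q := by exact_mod_cast hq
    have hq0 : (0 : ℝ) < q := by linarith
    have hK1 : 1 ≤ dec_K ι := dec_one_le
    have h2 : 1 ≤ (1 + uu q) ^ (Fintype.card ι - 1) := one_le_pow₀ (by have := uu_pos hq; linarith)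
    have h3 : 0 ≤ dec_K ι / (q : ℝ) ^ 2 := by positivity
    have h4 : uu q ≤ 1 / q + 2 / (q : ℝ) ^ 2 := by
      unfold uu
      rw [div_add_div _ _ hq0.ne' (by positivity), div_le_div_iff₀ (by linarith) (by positivity)]
      have : 0 ≤ (q : ℝ) * ((q : ℝ) - 2) := mul_nonneg hq0.le (by linarith)
      nlinarith
    have h5 : uu q + dec_K ι / (q : ℝ) ^ 2 ≤ (1 + K / q) / q := by
      have e1 : (1 + K / q) / q = 1 / q + K / (q : ℝ) ^ 2 := by field_simp
      have e2 : 2 / (q : ℝ) ^ 2 + dec_K ι / (q : ℝ) ^ 2 ≤ K / (q : ℝ) ^ 2 := by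
        rw [← add_div]
        exact div_le_div_of_nonneg_right (by linarith) (by positivity)
      linarith
    have h6 : 0 ≤ (1 + K / q) / q := by
      have : 0 ≤ K := by linarith
      positivity
    set E := (1 + uu q) ^ (Fintype.card ι - 1)
    calc uu q * E + dec_K ι / (q : ℝ) ^ 2 ≤ E * (uu q + dec_K ι / (q : ℝ) ^ 2) := by nlinarith
      _ ≤ E * ((1 + K / q) / q) := mul_le_mul_of_nonneg_left h5 (by linarith)
      _ ≤ E * (1 + dec_K ι / (q : ℝ) ^ 2) * ((1 + K / q) / q) :=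
          mul_le_mul_of_nonneg_right (le_mul_of_one_le_right (by linarith) (by linarith)) h6
  · simp only [h, iff_false, if_false, mul_one]
    rw [dec_not_mem]
    have h1 := dec_max_pow hq hv (univ.erase i)
    rwa [card_erase_of_mem (mem_univ i), card_univ] at h1

theorem dec_prod_ite {P U : Finset ℕ} (hU : U ⊆ P) (g : ℕ → ℝ) :
    ∏ q ∈ P, (if q ∈ U then g q else 1) = ∏ q ∈ U, g q := by
  rw [prod_ite_mem, inter_eq_right.2 hU]

theorem dg_nonneg {P : Finset ℕ} (hP : ∀ q ∈ P, q.Prime) (Z : (ι → Finset ℕ) → ℝ) : 0 ≤ Dg P Z := by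
  refine sum_nonneg fun T hT => mul_nonneg (sq_nonneg _) ?_
  rw [dec_wt hT]
  exact prod_nonneg fun q hq => pow_nonneg (uu_pos (dec_two hP hq)).le _

/-- `Z T ^ 2 ≤ ∏ q ∈ P, 1 {cf T q ⊆ A}`, `prod_cf`, `Q.sum_cfg`, `sum_pow_card`. -/
theorem dg_le {P : Finset ℕ} (hP : ∀ q ∈ P, q.Prime) {Z : (ι → Finset ℕ) → ℝ} {A : Finset ι}
    (hZ : Bd Z A) : Dg P Z ≤ mert P ^ A.card := by
  calc Dg P Z ≤ ∑ T ∈ Tu ι P, ∏ q ∈ P,
        ((if cf T q ∈ A.powerset then (1 : ℝ) else 0) * uu q ^ (cf T q).card) := by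
        refine sum_le_sum fun T hT => ?_
        rw [dec_wt hT, prod_mul_distrib]
        refine mul_le_mul_of_nonneg_right ?_
          (prod_nonneg fun q hq => pow_nonneg (uu_pos (dec_two hP hq)).le _)
        rw [sq]
        exact (le_abs_self _).trans (dec_ind2 hZ P T T)
    _ = ∏ q ∈ P, ∑ S : Finset ι, (if S ∈ A.powerset then (1 : ℝ) else 0) * uu q ^ S.card :=
        sum_cfg P fun q S => (if S ∈ A.powerset then (1 : ℝ) else 0) * uu q ^ S.card
    _ = mert P ^ A.card := by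
        rw [mert_eq, ← prod_pow]
        exact prod_congr rfl fun q _ => by rw [dec_sum_ind, sum_pow_card]

/-- `md_vI`, `abs_prod_sub_prod`, `|Z T Z T'| ≤ ∏ q ∈ P, 1 {cf T q ⊆ A}`, `sum_pair`. With `k = card ι`
and `K1 = 4 ^ k (4 k + 3)`: `∑ |v - vI| ≤ K1 u ^ 2`, `∑ S ⊆ A, ∑ S', max |v| vI ≤ (1 + u) ^ |A| + K1 u ^ 2`,
`u ≤ 2 / q`, `decouple_sum_sq`, `decouple_prod_c`. -/
theorem dec (ι : Type) [Fintype ι] [DecidableEq ι] : ∃ K : ℝ, 1 ≤ K ∧ ∀ (w : ℕ) (P : Finset ℕ),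
    10 ≤ w → (∀ q ∈ P, q.Prime ∧ w < q) → ∀ v : ℕ → Finset ι → Finset ι → ℝ, Near P v →
    ∀ (Z : (ι → Finset ℕ) → ℝ) (A : Finset ι), Bd Z A →
      |Md P v Z - Dg P Z| ≤ K / w * mert P ^ A.card := by
  have hK : 1 ≤ dec_K ι := dec_one_le
  have hK0 : 0 ≤ dec_K ι := by linarith
  have hE : 1 ≤ Real.exp (dec_K ι) := Real.one_le_exp hK0
  refine ⟨dec_K ι * Real.exp (dec_K ι), one_le_mul_of_one_le_of_one_le hK hE,
    fun w P hw hP v hv Z A hZ => ?_⟩
  have h11 : ∀ q ∈ P, 11 ≤ q := fun q hq => by have := (hP q hq).2; omega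
  have hm := decouple_mert_nonneg hw hP
  set g : ℕ → ℕ → Finset ι → Finset ι → ℝ := fun q0 q S S' =>
    if q = q0 then |v q S S' - vI q S S'| else max |v q S S'| |vI q S S'| with hg
  have hg0 : ∀ q0 q S S', 0 ≤ g q0 q S S' := by
    intro q0 q S S'
    simp only [hg]
    split_ifs
    · exact abs_nonneg _
    · exact le_max_of_le_left (abs_nonneg _)
  have hstep : ∀ q0 ∈ P, ∏ q ∈ P, ∑ S : Finset ι, ∑ S' : Finset ι,
      (if S ∈ A.powerset then (1 : ℝ) else 0) * g q0 q S S' ≤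
      mert P ^ A.card * Real.exp (dec_K ι) * dec_K ι * (1 / (q0 : ℝ) ^ 2) := by
    intro q0 hq0
    calc ∏ q ∈ P, ∑ S : Finset ι, ∑ S' : Finset ι,
        (if S ∈ A.powerset then (1 : ℝ) else 0) * g q0 q S S'
        ≤ ∏ q ∈ P, ((1 + 1 / ((q : ℝ) - 1)) ^ A.card * (1 + dec_K ι / (q : ℝ) ^ 2) *
            (if q = q0 then dec_K ι / (q : ℝ) ^ 2 else 1)) := by
          refine prod_le_prod (fun q _ => ?_) fun q hq => ?_
          · rw [dec_sum_ind2]
            exact sum_nonneg fun S _ => sum_nonneg fun S' _ => hg0 _ _ _ _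
          · rw [dec_sum_ind2]
            have hq2 : 2 ≤ q := (hP q hq).1.two_le
            have hc := decouple_one_le (h11 q hq) hK0 A.card
            by_cases h : q = q0
            · simp only [hg, if_pos h]
              exact (dec_d hq2 (hv q hq) _).trans (le_mul_of_one_le_left (by positivity) hc)
            · simp only [hg, if_neg h, mul_one]
              exact dec_max_pow hq2 (hv q hq) A
      _ = (∏ q ∈ P, ((1 + 1 / ((q : ℝ) - 1)) ^ A.card * (1 + dec_K ι / (q : ℝ) ^ 2))) *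
            (dec_K ι / (q0 : ℝ) ^ 2) := by
          rw [prod_mul_distrib, prod_ite_eq' P q0 (fun q : ℕ => dec_K ι / (q : ℝ) ^ 2), if_pos hq0]
      _ ≤ mert P ^ A.card * Real.exp (dec_K ι) * (dec_K ι / (q0 : ℝ) ^ 2) :=
          mul_le_mul_of_nonneg_right (decouple_prod_c hw hP hK0 A.card) (by positivity)
      _ = _ := by ring
  rw [← md_vI, Md, Md, ← sum_sub_distrib]
  calc |∑ T ∈ Tu ι P, (∑ T' ∈ Tu ι P, Z T * Z T' * ∏ q ∈ P, v q (cf T q) (cf T' q) -
        ∑ T' ∈ Tu ι P, Z T * Z T' * ∏ q ∈ P, vI q (cf T q) (cf T' q))|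
      ≤ ∑ T ∈ Tu ι P, ∑ T' ∈ Tu ι P, ∑ q0 ∈ P, ∏ q ∈ P,
          ((if cf T q ∈ A.powerset then (1 : ℝ) else 0) * g q0 q (cf T q) (cf T' q)) := by
        refine (abs_sum_le_sum_abs _ _).trans (sum_le_sum fun T _ => ?_)
        rw [← sum_sub_distrib]
        refine (abs_sum_le_sum_abs _ _).trans (sum_le_sum fun T' _ => ?_)
        rw [← mul_sub, abs_mul]
        simp only [prod_mul_distrib]
        rw [← mul_sum]
        exact mul_le_mul (dec_ind2 hZ P T T') (abs_prod_sub_prod P _ _) (abs_nonneg _)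
          ((abs_nonneg _).trans (dec_ind2 hZ P T T'))
    _ = ∑ q0 ∈ P, ∑ T ∈ Tu ι P, ∑ T' ∈ Tu ι P, ∏ q ∈ P,
          ((if cf T q ∈ A.powerset then (1 : ℝ) else 0) * g q0 q (cf T q) (cf T' q)) := by
        rw [sum_comm (s := P)]
        exact sum_congr rfl fun T _ => sum_comm
    _ = ∑ q0 ∈ P, ∏ q ∈ P, ∑ S : Finset ι, ∑ S' : Finset ι,
          (if S ∈ A.powerset then (1 : ℝ) else 0) * g q0 q S S' :=
        sum_congr rfl fun q0 _ => sum_pair P fun q S S' =>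
          (if S ∈ A.powerset then (1 : ℝ) else 0) * g q0 q S S'
    _ ≤ mert P ^ A.card * Real.exp (dec_K ι) * dec_K ι * ∑ q0 ∈ P, 1 / (q0 : ℝ) ^ 2 := by
        rw [mul_sum]
        exact sum_le_sum hstep
    _ ≤ mert P ^ A.card * Real.exp (dec_K ι) * dec_K ι * (1 / w) :=
        mul_le_mul_of_nonneg_left (decouple_sum_sq hw hP) (by positivity)
    _ = _ := by ring

/-- `sum_pair_fix` for `|v|`. For `q ∈ T0` the local sum is at most
`u (1 + u) ^ (k - 1) + K1 u ^ 2 ≤ (1 + u) ^ (k - 1) (1 + K / q) / q`, for `q ∉ T0` at most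
`(1 + u) ^ (k - 1) (1 + 4 K1 / q ^ 2)`. -/
theorem abs_fix (ι : Type) [Fintype ι] [DecidableEq ι] : ∃ K : ℝ, 1 ≤ K ∧ ∀ (w : ℕ) (P : Finset ℕ),
    10 ≤ w → (∀ q ∈ P, q.Prime ∧ w < q) → ∀ v : ℕ → Finset ι → Finset ι → ℝ, Near P v →
    ∀ (Z : (ι → Finset ℕ) → ℝ) (i : ι) (f : Finset ℕ → ℝ), (∀ T, |Z T| ≤ 1) → (∀ T, |Z T| ≤ f (T i)) →
    (∀ T, 0 ≤ f T) → |Md P v Z| ≤ K * mert P ^ (Fintype.card ι - 1) *
        ∑ T0 ∈ P.powerset, f T0 * rw K T0 := by
  have hK : 1 ≤ dec_K ι := dec_one_le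
  have hK0 : 0 ≤ dec_K ι := by linarith
  have hE : 1 ≤ Real.exp (dec_K ι) := Real.one_le_exp hK0
  refine ⟨dec_K ι + 2 + Real.exp (dec_K ι), by linarith, fun w P hw hP v hv Z i f h1 hf hf0 => ?_⟩
  set K := dec_K ι + 2 + Real.exp (dec_K ι) with hKd
  have hm := decouple_mert_nonneg hw hP
  have hKp : 0 ≤ K := by linarith
  calc |Md P v Z| ≤ ∑ T ∈ Tu ι P, ∑ T' ∈ Tu ι P, f (T i) * ∏ q ∈ P, |v q (cf T q) (cf T' q)| := by
        refine (abs_sum_le_sum_abs _ _).trans (sum_le_sum fun T _ => ?_)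
        refine (abs_sum_le_sum_abs _ _).trans (sum_le_sum fun T' _ => ?_)
        rw [abs_mul, abs_prod P, abs_mul]
        exact mul_le_mul_of_nonneg_right
          ((mul_le_of_le_one_right (abs_nonneg _) (h1 T')).trans (hf T))
          (prod_nonneg fun q _ => abs_nonneg _)
    _ = ∑ T0 ∈ P.powerset, f T0 * ∏ q ∈ P,
          ∑ S ∈ univ.filter (fun S : Finset ι => i ∈ S ↔ q ∈ T0), ∑ S', |v q S S'| :=
        sum_pair_fix P i f fun q S S' => |v q S S'|
    _ ≤ ∑ T0 ∈ P.powerset, K * mert P ^ (Fintype.card ι - 1) * (f T0 * rw K T0) := by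
        refine sum_le_sum fun T0 hT0 => ?_
        have hr : 0 ≤ rw K T0 := prod_nonneg fun q _ => by positivity
        have h2 : ∏ q ∈ P, ∑ S ∈ univ.filter (fun S : Finset ι => i ∈ S ↔ q ∈ T0),
            ∑ S', |v q S S'| ≤ K * mert P ^ (Fintype.card ι - 1) * rw K T0 := by
          calc ∏ q ∈ P, ∑ S ∈ univ.filter (fun S : Finset ι => i ∈ S ↔ q ∈ T0), ∑ S', |v q S S'|
              ≤ ∏ q ∈ P, ((1 + 1 / ((q : ℝ) - 1)) ^ (Fintype.card ι - 1) *
                  (1 + dec_K ι / (q : ℝ) ^ 2) * (if q ∈ T0 then (1 + K / q) / q else 1)) :=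
                prod_le_prod (fun q _ => sum_nonneg fun S _ => sum_nonneg fun S' _ => abs_nonneg _)
                  fun q hq => dec_fix (hP q hq).1.two_le (hv q hq) i T0 (by linarith)
            _ = (∏ q ∈ P, ((1 + 1 / ((q : ℝ) - 1)) ^ (Fintype.card ι - 1) *
                  (1 + dec_K ι / (q : ℝ) ^ 2))) * rw K T0 := by
                rw [prod_mul_distrib, dec_prod_ite (mem_powerset.1 hT0)]
                rfl
            _ ≤ mert P ^ (Fintype.card ι - 1) * Real.exp (dec_K ι) * rw K T0 :=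
                mul_le_mul_of_nonneg_right (decouple_prod_c hw hP hK0 _) hr
            _ ≤ mert P ^ (Fintype.card ι - 1) * K * rw K T0 :=
                mul_le_mul_of_nonneg_right
                  (mul_le_mul_of_nonneg_left (by linarith) (pow_nonneg hm _)) hr
            _ = _ := by ring
        calc _ ≤ f T0 * (K * mert P ^ (Fintype.card ι - 1) * rw K T0) :=
              mul_le_mul_of_nonneg_left h2 (hf0 T0)
          _ = _ := by ring
    _ = _ := by rw [mul_sum]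

/-- `sum_pair` with the local factor `1` on `U`, where the local sum is at most `4 ^ k`. -/
theorem sum_off (ι : Type) [Fintype ι] [DecidableEq ι] : ∃ K : ℝ, 1 ≤ K ∧ ∀ (w : ℕ) (P : Finset ℕ),
    10 ≤ w → (∀ q ∈ P, q.Prime ∧ w < q) → ∀ v : ℕ → Finset ι → Finset ι → ℝ, Near P v →
    ∀ (Z : (ι → Finset ℕ) → ℝ) (A : Finset ι), Bd Z A → ∀ U ⊆ P,
      ∑ T ∈ Tu ι P, ∑ T' ∈ Tu ι P, |Z T * Z T'| * ∏ q ∈ P \ U, |v q (cf T q) (cf T' q)| ≤
        K ^ (U.card + 1) * mert P ^ A.card := by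
  have hK : 1 ≤ dec_K ι := dec_one_le
  have hK0 : 0 ≤ dec_K ι := by linarith
  have hE : 1 ≤ Real.exp (dec_K ι) := Real.one_le_exp hK0
  have h4 : (1 : ℝ) ≤ 4 ^ Fintype.card ι := one_le_pow₀ (by norm_num)
  refine ⟨4 ^ Fintype.card ι + Real.exp (dec_K ι), by linarith,
    fun w P hw hP v hv Z A hZ U hU => ?_⟩
  set K := 4 ^ Fintype.card ι + Real.exp (dec_K ι) with hKd
  have h11 : ∀ q ∈ P, 11 ≤ q := fun q hq => by have := (hP q hq).2; omega
  have hm := decouple_mert_nonneg hw hP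
  have hKp : 0 ≤ K := by linarith
  calc ∑ T ∈ Tu ι P, ∑ T' ∈ Tu ι P, |Z T * Z T'| * ∏ q ∈ P \ U, |v q (cf T q) (cf T' q)|
      ≤ ∑ T ∈ Tu ι P, ∑ T' ∈ Tu ι P, ∏ q ∈ P, ((if cf T q ∈ A.powerset then (1 : ℝ) else 0) *
          (if q ∈ P \ U then |v q (cf T q) (cf T' q)| else 1)) := by
        refine sum_le_sum fun T _ => sum_le_sum fun T' _ => ?_
        rw [prod_mul_distrib, dec_prod_ite sdiff_subset]
        exact mul_le_mul_of_nonneg_right (dec_ind2 hZ P T T') (prod_nonneg fun q _ => abs_nonneg _)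
    _ = ∏ q ∈ P, ∑ S : Finset ι, ∑ S' : Finset ι, (if S ∈ A.powerset then (1 : ℝ) else 0) *
          (if q ∈ P \ U then |v q S S'| else 1) :=
        sum_pair P fun q S S' => (if S ∈ A.powerset then (1 : ℝ) else 0) *
          (if q ∈ P \ U then |v q S S'| else 1)
    _ ≤ ∏ q ∈ P, ((1 + 1 / ((q : ℝ) - 1)) ^ A.card * (1 + dec_K ι / (q : ℝ) ^ 2) *
          (if q ∈ U then K else 1)) := by
        refine prod_le_prod (fun q _ => ?_) fun q hq => ?_
        · rw [dec_sum_ind2]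
          refine sum_nonneg fun S _ => sum_nonneg fun S' _ => ?_
          split_ifs
          · exact abs_nonneg _
          · exact zero_le_one
        · rw [dec_sum_ind2]
          have hc := decouple_one_le (h11 q hq) hK0 A.card
          by_cases h : q ∈ U
          · have h' : q ∉ P \ U := fun hh => (mem_sdiff.1 hh).2 h
            simp only [if_pos h, if_neg h']
            refine (dec_const _ zero_le_one).trans ?_
            rw [mul_one]
            exact (le_add_of_nonneg_right (by linarith)).trans (le_mul_of_one_le_left hKp hc)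
          · have h' : q ∈ P \ U := mem_sdiff.2 ⟨hq, h⟩
            simp only [if_neg h, if_pos h', mul_one]
            exact (sum_le_sum fun S _ => sum_le_sum fun S' _ => le_max_left _ _).trans
              (dec_max_pow (hP q hq).1.two_le (hv q hq) A)
    _ = (∏ q ∈ P, ((1 + 1 / ((q : ℝ) - 1)) ^ A.card * (1 + dec_K ι / (q : ℝ) ^ 2))) *
          K ^ U.card := by
        rw [prod_mul_distrib, dec_prod_ite hU, prod_const]
    _ ≤ mert P ^ A.card * Real.exp (dec_K ι) * K ^ U.card :=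
        mul_le_mul_of_nonneg_right (decouple_prod_c hw hP hK0 _) (pow_nonneg hKp _)
    _ ≤ mert P ^ A.card * K * K ^ U.card :=
        mul_le_mul_of_nonneg_right (mul_le_mul_of_nonneg_left (by linarith) (pow_nonneg hm _))
          (pow_nonneg hKp _)
    _ = _ := by ring

end Pool.Agent.Lib.MP_c03ca8_nt.H
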