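import Pool.Agent.Lib.MP_c03ca8_nt.H.Loc

set_option autoImplicit false

noncomputable section

namespace Pool.Agent.Lib.MP_c03ca8_nt.H

open Finset Filter Q
open P3 (Rough om xi Xi bxB bil Adm)
open scoped Classical

/-! The filter `Evn` and the sizes. Models: `Q/ErrA.lean` (`ev_tame`, `erra_ev_rpow`, `erra_ev_log`). -/

/-- `mert_PP` with `y = 3 x`, `log (3 x) ≤ 3 log x`. -/
theorem exists_Cm : ∃ C : ℝ, 1 ≤ C ∧ ∀ w x : ℕ, 2 ≤ x → w ≤ x → mert (Ps w x) ≤ C * LL w x := by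
  obtain ⟨C, hC, H⟩ := mert_PP
  refine ⟨max 1 (3 * C), le_max_left _ _, fun w x h2 hw => ?_⟩
  have h1 := H w (3 * x) (by omega) (by omega)
  have hx : (2 : ℝ) ≤ x := by exact_mod_cast h2
  have hl : Real.log ((3 * x : ℕ) : ℝ) ≤ 3 * Real.log x := by
    have e : Real.log ((x : ℝ) ^ 3) = 3 * Real.log x := by
      rw [Real.log_pow]; norm_num
    rw [← e]
    push_cast
    refine Real.log_le_log (by linarith) ?_
    have : (4 : ℝ) ≤ (x : ℝ) ^ 2 := by nlinarith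
    nlinarith
  have hc := cW_pos w
  have hl0 : 0 ≤ Real.log x := Real.log_nonneg (by linarith)
  have hL : 0 ≤ LL w x := mul_nonneg hc.le hl0
  calc mert (Ps w x) ≤ C * (cW w * Real.log ((3 * x : ℕ) : ℝ)) := h1
    _ ≤ C * (cW w * (3 * Real.log x)) := by gcongr
    _ = 3 * C * LL w x := by unfold LL; ring
    _ ≤ max 1 (3 * C) * LL w x := mul_le_mul_of_nonneg_right (le_max_right _ _) hL

/-- The constant of `exists_Cm`. -/
def Cm : ℝ := Classical.choose exists_Cm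

theorem one_le_Cm : 1 ≤ Cm := (Classical.choose_spec exists_Cm).1

theorem mert_le_Cm {w x : ℕ} (h2 : 2 ≤ x) (hw : w ≤ x) : mert (Ps w x) ≤ Cm * LL w x :=
  (Classical.choose_spec exists_Cm).2 w x h2 hw

variable {ι : Type} [Fintype ι] [DecidableEq ι]

/-- Everything subpolynomial is at most `G`. -/
structure Gd (h : ι → ℕ) (w x : ℕ) (G : ℝ) : Prop where
  tame : Tame (3 * (x : ℝ)) G
  sh : Sh h w (Ps w x)
  cop : ∀ q ∈ Ps w x, Nat.Coprime (primorial w) q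
  mG : mert (Ps w x) ≤ G
  mL : mert (Ps w x) ≤ Cm * LL w x
  L1 : 1 ≤ LL w x
  LG : LL w x ≤ G
  WG : (primorial w : ℝ) ≤ G
  wG : (w : ℝ) ≤ G
  wx : 2 * w ≤ x

variable {h : ι → ℕ} {γ : ℝ} {Φ Ψ : ℕ → ℕ → ℕ → ℕ → Prop}

theorem Evn.mono (H : Evn h γ Φ) (hi : ∀ w x a X : ℕ, (∀ l, Nat.Coprime (a + h l) (primorial w)) →
    γ * x ≤ X → X ≤ x → Φ w x a X → Ψ w x a X) : Evn h γ Ψ := by
  unfold Evn at H ⊢
  filter_upwards [H] with w hw
  filter_upwards [hw] with x hx a X h1 h2 h3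
  exact hi w x a X h1 h2 h3 (hx a X h1 h2 h3)

theorem Evn.and (H : Evn h γ Φ) (H' : Evn h γ Ψ) :
    Evn h γ fun w x a X => Φ w x a X ∧ Ψ w x a X := by
  unfold Evn at H H' ⊢
  filter_upwards [H, H'] with w hw hw'
  filter_upwards [hw, hw'] with x hx hx' a X h1 h2 h3
  exact ⟨hx a X h1 h2 h3, hx' a X h1 h2 h3⟩

theorem evn_w {p : ℕ → Prop} (H : ∀ᶠ w in atTop, p w) : Evn h γ fun w _ _ _ => p w := by
  unfold Evn
  filter_upwards [H] with w hw
  exact Eventually.of_forall fun _ _ _ _ _ _ => hw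

theorem evn_x {p : ℕ → ℕ → Prop} (H : ∀ᶠ w in atTop, ∀ᶠ x in atTop, p w x) :
    Evn h γ fun w x _ _ => p w x := by
  unfold Evn
  filter_upwards [H] with w hw
  filter_upwards [hw] with x hx _ _ _ _ _
  exact hx

theorem evn_div (h : ι → ℕ) (γ C : ℝ) {ε : ℝ} (hε : 0 < ε) :
    Evn h γ fun w _ _ _ => C ≤ (w : ℝ) ∧ C / w ≤ ε := by
  refine evn_w (p := fun w => C ≤ (w : ℝ) ∧ C / w ≤ ε) ?_
  have t : Tendsto (fun w : ℕ => (w : ℝ)) atTop atTop := tendsto_natCast_atTop_atTop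
  filter_upwards [t.eventually_ge_atTop C, t.eventually_ge_atTop (C / ε),
    t.eventually_gt_atTop 0] with w h1 h2 h3
  refine ⟨h1, ?_⟩
  rw [div_le_iff₀ hε] at h2
  rw [div_le_iff₀ h3]
  linarith

theorem evn_rpow (h : ι → ℕ) (γ C : ℝ) {δ : ℝ} (hδ : 0 < δ) :
    Evn h γ fun w x _ _ => C ≤ (x : ℝ) ^ δ ∧ (w : ℝ) < (x : ℝ) ^ δ := by
  refine evn_x (p := fun w x => C ≤ (x : ℝ) ^ δ ∧ (w : ℝ) < (x : ℝ) ^ δ) ?_
  refine Eventually.of_forall fun w => ?_
  filter_upwards [erra_ev_rpow hδ C, erra_ev_rpow hδ ((w : ℝ) + 1)] with x h1 h2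
  exact ⟨h1, by linarith⟩

theorem ev_cW_le_one (w : ℕ) : cW w ≤ 1 := by
  unfold cW
  refine prod_le_one (fun q hq => ?_) fun q _ => ?_
  · have : (2 : ℝ) ≤ q := by exact_mod_cast (Nat.prime_of_mem_primesLE hq).two_le
    have h1 : 1 / (q : ℝ) ≤ 1 := by
      rw [div_le_one (by linarith)]
      linarith
    linarith
  · have : 0 ≤ 1 / (q : ℝ) := by positivity
    linarith

theorem ev_log_le {s : ℝ} (hs : 0 < s) {C : ℝ} (hC : 0 ≤ C) :
    ∀ᶠ x : ℕ in atTop, C * Real.log x ≤ (x : ℝ) ^ s := by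
  filter_upwards [erra_ev_rpow (half_pos hs) (C / (s / 2)), eventually_ge_atTop 1] with x h1 h2
  have hx : (0 : ℝ) < x := by exact_mod_cast h2
  have h3 : Real.log x ≤ (x : ℝ) ^ (s / 2) / (s / 2) := Real.log_le_rpow_div hx.le (half_pos hs)
  have h4 : (x : ℝ) ^ s = (x : ℝ) ^ (s / 2) * (x : ℝ) ^ (s / 2) := by
    rw [← Real.rpow_add hx, add_halves]
  have h5 : 0 ≤ (x : ℝ) ^ (s / 2) := by positivity
  calc C * Real.log x ≤ C * ((x : ℝ) ^ (s / 2) / (s / 2)) := by gcongr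
    _ = C / (s / 2) * (x : ℝ) ^ (s / 2) := by ring
    _ ≤ (x : ℝ) ^ (s / 2) * (x : ℝ) ^ (s / 2) := by gcongr
    _ = _ := h4.symm

theorem ev_LL_le (w : ℕ) {x : ℕ} (hx : 1 ≤ x) : LL w x ≤ Real.log x := by
  have h0 : 0 ≤ Real.log x := Real.log_nonneg (by exact_mod_cast hx)
  have := mul_le_mul_of_nonneg_right (ev_cW_le_one w) h0
  unfold LL
  linarith

theorem ev_memP {w x q : ℕ} (hq : q ∈ Ps w x) : q.Prime ∧ w < q := by
  unfold Ps PP at hq
  rw [mem_filter] at hq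
  exact ⟨Nat.prime_of_mem_primesLE hq.1, hq.2⟩

/-- `G = x ^ (δ / (j + 1))`, `tame_eventually`; `Cm * LL w x ≤ Cm log x ≤ G` for large `x` (`cW ≤ 1`). -/
theorem ev_gd (hinj : Function.Injective h) (γ : ℝ) {δ : ℝ} (hδ : 0 < δ) (j : ℕ) :
    Evn h γ fun w x _ _ => ∃ G, Gd h w x G ∧ G ^ j ≤ (x : ℝ) ^ δ := by
  refine evn_x (p := fun w x => ∃ G, Gd h w x G ∧ G ^ j ≤ (x : ℝ) ^ δ) ?_
  have hk : (0 : ℝ) < (j : ℝ) + 1 := by positivity
  have hs : 0 < δ / ((j : ℝ) + 1) := by positivity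
  obtain ⟨x1, hx1⟩ := tame_eventually hs
  have hC := one_le_Cm
  have hlt : ∀ᶠ w : ℕ in atTop, ∀ l, h l < w :=
    eventually_all.2 fun l => eventually_gt_atTop (h l)
  filter_upwards [hlt, eventually_ge_atTop 10] with w hw hw10
  have hc := cW_pos w
  filter_upwards [eventually_ge_atTop x1, eventually_ge_atTop (2 * w),
    ev_log_le hs (C := Cm) (by linarith), erra_ev_log (1 / cW w),
    erra_ev_rpow hs (primorial w : ℝ), erra_ev_rpow hs (w : ℝ)] with x a1 a2 a3 a4 a5 a6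
  have hx2 : 2 ≤ x := by omega
  have hx1' : (1 : ℝ) ≤ x := by exact_mod_cast (by omega : 1 ≤ x)
  have hL := ev_LL_le w (x := x) (by omega)
  have hl0 : 0 ≤ Real.log x := Real.log_nonneg hx1'
  have hm := mert_le_Cm (w := w) hx2 (by omega)
  have b1 : Cm * LL w x ≤ Cm * Real.log x := mul_le_mul_of_nonneg_left hL (by linarith)
  have b2 : Real.log x ≤ Cm * Real.log x := by nlinarith
  refine ⟨(x : ℝ) ^ (δ / ((j : ℝ) + 1)),
    ⟨hx1 x a1, ⟨hinj, hw, hw10, fun q hq => ev_memP hq⟩, fun q hq => ?_, by linarith, hm, ?_,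
      by linarith, a5, a6, a2⟩, ?_⟩
  · obtain ⟨h1, h2⟩ := ev_memP hq
    refine ((Nat.Prime.coprime_iff_not_dvd h1).mpr ?_).symm
    rw [h1.dvd_primorial_iff]
    omega
  · rw [div_le_iff₀ hc] at a4
    unfold LL
    linarith
  · rw [← Real.rpow_natCast, ← Real.rpow_mul (by linarith)]
    refine Real.rpow_le_rpow_of_exponent_le hx1' ?_
    rw [div_mul_eq_mul_div, div_le_iff₀ hk]
    nlinarith

/-- A power saving: `W L ≤ W log x ≤ ε γ x ^ δ` for large `x`. -/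
theorem ev_small (h : ι → ℕ) (hγ : 0 < γ) {δ ε : ℝ} (hδ : 0 < δ) (hε : 0 < ε) :
    Evn h γ fun w x _ X => (x : ℝ) ^ (1 - δ) ≤ ε * (X / (primorial w * LL w x)) := by
  unfold Evn
  refine Eventually.of_forall fun w => ?_
  have hW : (0 : ℝ) < primorial w := by exact_mod_cast primorial_pos w
  have heg : 0 < ε * γ := mul_pos hε hγ
  filter_upwards [ev_log_le hδ (C := (primorial w : ℝ) / (ε * γ)) (by positivity),
    eventually_ge_atTop 2] with x a1 a2 a X _ hX _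
  have hx : (2 : ℝ) ≤ x := by exact_mod_cast a2
  have hx0 : (0 : ℝ) < x := by linarith
  have hL0 : 0 < LL w x := mul_pos (cW_pos w) (Real.log_pos (by linarith))
  have hL := ev_LL_le w (x := x) (by omega)
  have b1 : (primorial w : ℝ) * LL w x ≤ ε * γ * (x : ℝ) ^ δ := by
    rw [div_mul_eq_mul_div, div_le_iff₀ heg] at a1
    nlinarith
  have b2 : (x : ℝ) ^ (1 - δ) * (x : ℝ) ^ δ = x := by
    rw [← Real.rpow_add hx0, sub_add_cancel, Real.rpow_one]
  have b3 : 0 ≤ (x : ℝ) ^ (1 - δ) := by positivity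
  rw [← mul_div_assoc, le_div_iff₀ (mul_pos hW hL0)]
  calc (x : ℝ) ^ (1 - δ) * (primorial w * LL w x)
      ≤ (x : ℝ) ^ (1 - δ) * (ε * γ * (x : ℝ) ^ δ) := by gcongr
    _ = ε * (γ * ((x : ℝ) ^ (1 - δ) * (x : ℝ) ^ δ)) := by ring
    _ = ε * (γ * x) := by rw [b2]
    _ ≤ ε * X := by gcongr

/-- `P3.W_cW`. -/
theorem W_LL (w x : ℕ) :
    (primorial w : ℝ) * LL w x = Nat.totient (primorial w) * Real.log x := by
  rw [← P3.W_cW, LL, mul_assoc]

variable {w x a X : ℕ} {G : ℝ}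

theorem Gd.prime (hG : Gd h w x G) : ∀ q ∈ Ps w x, q.Prime := fun q hq => (hG.sh.pr q hq).1

theorem Gd.mem (hG : Gd h w x G) (hX : X ≤ x) {n : ℕ} (hn : n ∈ Iw w x a X) (l : ι) :
    x < n + h l ∧ 1 ≤ n + h l ∧ ((n + h l : ℕ) : ℝ) ≤ 3 * x := by
  unfold Iw cls at hn
  have h2 := mem_Ioc.mp (mem_filter.mp hn).1
  have h3 := hG.sh.lt l
  have h4 := hG.wx
  refine ⟨by omega, by omega, ?_⟩
  exact_mod_cast (by omega : n + h l ≤ 3 * x)

/-- A prime of `n + h l` is coprime to the primorial, so it exceeds `w` (`mass_big`), and it is at most `3 x`. -/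
theorem Gd.mem_P (hG : Gd h w x G) (hX : X ≤ x) {l : ι} (ha : Nat.Coprime (a + h l) (primorial w))
    {n : ℕ} (hn : n ∈ Iw w x a X) {q : ℕ} (hq : q.Prime) (hd : q ∣ n + h l) : q ∈ Ps w x := by
  obtain ⟨-, a2, a3⟩ := hG.mem hX hn l
  have a4 : n + h l ≤ 3 * x := by exact_mod_cast a3
  have hm : n + h l ≡ a + h l [MOD primorial w] := by
    unfold Iw cls at hn
    exact (mem_filter.mp hn).2.add_right _
  have hc : Nat.Coprime (n + h l) (primorial w) := by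
    unfold Nat.Coprime at ha ⊢
    rw [hm.gcd_eq, ha]
  unfold Ps PP
  rw [mem_filter, Nat.mem_primesLE]
  exact ⟨⟨(Nat.le_of_dvd a2 hd).trans a4, hq⟩, mass_big hq hd hc⟩

theorem ev_one_le (hG : Gd h w x G) : (1 : ℝ) ≤ x := by
  have h1 := hG.sh.w10
  have h2 := hG.wx
  exact_mod_cast (by omega : 1 ≤ x)

/-- `abs_aw_le` type bounds need `x ^ t ≤ 3 x`. -/
theorem Gd.rpow_le (hG : Gd h w x G) {t : ℝ} (ht : t ≤ 1) : (x : ℝ) ^ t ≤ 3 * x := by
  have h1 := ev_one_le hG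
  have h2 := Real.rpow_le_rpow_of_exponent_le h1 ht
  rw [Real.rpow_one] at h2
  linarith

theorem Gd.one_le_rpow (hG : Gd h w x G) {t : ℝ} (ht : 0 ≤ t) : 1 ≤ (x : ℝ) ^ t :=
  Real.one_le_rpow (ev_one_le hG) ht

theorem Gd.mert_pow (hG : Gd h w x G) {j k : ℕ} (hjk : j ≤ k) :
    mert (Ps w x) ^ j ≤ Cm ^ k * LL w x ^ j := by
  have h1 := one_le_mert hG.prime
  have h2 := hG.L1
  have h3 := one_le_Cm
  calc mert (Ps w x) ^ j ≤ (Cm * LL w x) ^ j := pow_le_pow_left₀ (by linarith) hG.mL j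
    _ = Cm ^ j * LL w x ^ j := mul_pow _ _ _
    _ ≤ Cm ^ k * LL w x ^ j :=
        mul_le_mul_of_nonneg_right (pow_le_pow_right₀ h3 hjk) (by positivity)

theorem le_sz (ι : Type) [Fintype ι] (X : ℕ) (hL : 1 ≤ LL w x) :
    X / (primorial w * LL w x) ≤ Sz ι w x X := by
  unfold Sz
  have h0 : (0 : ℝ) ≤ X / (primorial w * LL w x) := by positivity
  exact le_mul_of_one_le_right h0 (one_le_pow₀ hL)

theorem sz_mul (i : ι) (X : ℕ) (hL : 1 ≤ LL w x) :
    Sz ι w x X * LL w x ^ 2 = X / primorial w * LL w x ^ Fintype.card ι := by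
  have hc : 0 < Fintype.card ι := Fintype.card_pos_iff.2 ⟨i⟩
  obtain ⟨k, hk⟩ : ∃ k, Fintype.card ι = k + 1 := ⟨Fintype.card ι - 1, by omega⟩
  have hW : (0 : ℝ) < primorial w := by exact_mod_cast primorial_pos w
  have hL0 : 0 < LL w x := by linarith
  unfold Sz
  rw [hk, Nat.add_sub_cancel]
  field_simp
  ring

theorem le_main (X j : ℕ) (hL : 1 ≤ LL w x) :
    X / (primorial w * LL w x) ≤ X / primorial w * LL w x ^ j := by
  have hW : (0 : ℝ) < primorial w := by exact_mod_cast primorial_pos w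
  have h0 : (0 : ℝ) ≤ X / primorial w := by positivity
  calc (X : ℝ) / (primorial w * LL w x) ≤ X / primorial w :=
        div_le_div_of_nonneg_left (Nat.cast_nonneg _) hW (le_mul_of_one_le_right hW.le hL)
    _ ≤ _ := le_mul_of_one_le_right h0 (one_le_pow₀ hL)

end Pool.Agent.Lib.MP_c03ca8_nt.H
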