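import Pool.Agent.Lib.MP_c03ca8_nt.H.Cell
import Pool.Agent.Lib.MP_c03ca8_nt.H.Dec
import Pool.Agent.Lib.MP_c03ca8_nt.H.Ev

set_option autoImplicit false

noncomputable section

namespace Pool.Agent.Lib.MP_c03ca8_nt.H

open Finset Filter Q
open P3 (Rough om xi Xi bxB bil Adm)
open scoped Classical

/-! The diagonal forms of a step function. -/

variable {ι : Type} [Fintype ι] [DecidableEq ι]

theorem iv_smul (M : ℕ) (F : (ι → ℕ) → ℝ) (μ : ℕ → ℝ) (t : ℝ) :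
    Iv M F (fun c => t * μ c) = t ^ Fintype.card ι * Iv M F μ := by
  unfold Iv
  rw [mul_sum]
  refine sum_congr rfl fun j _ => ?_
  rw [prod_mul_distrib, prod_const, card_univ]
  ring

theorem jv_smul (M : ℕ) (F : (ι → ℕ) → ℝ) (μ : ℕ → ℝ) (t : ℝ) (i : ι) :
    Jv M F (fun c => t * μ c) i = t ^ (Fintype.card ι + 1) * Jv M F μ i := by
  unfold Jv
  rw [mul_sum]
  refine sum_congr rfl fun j _ => ?_
  have h := card_erase_add_one (mem_univ i)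
  rw [card_univ] at h
  simp only [mul_left_comm _ t]
  rw [prod_mul_distrib, prod_const, ← mul_sum, ← h]
  ring

theorem iv_nonneg (M : ℕ) (F : (ι → ℕ) → ℝ) {μ : ℕ → ℝ} (hμ : ∀ c, 0 ≤ μ c) : 0 ≤ Iv M F μ :=
  sum_nonneg fun _ _ => mul_nonneg (sq_nonneg _) (prod_nonneg fun _ _ => hμ _)

/-- Both forms are polynomials in `μ 0, …, μ (M - 1)`. For example compose with the continuous map
`(Fin M → ℝ) → (ℕ → ℝ)`, `ν ↦ fun c => if h : c < M then ν ⟨c, h⟩ else 0`, and use `Metric.continuous_iff`,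
`dist_pi_lt_iff`; a continuous function that controls all: `|Iv - Iv| + ∑ i, |Jv - Jv|`. -/
theorem forms_cont (M : ℕ) (F : (ι → ℕ) → ℝ) (μ0 : ℕ → ℝ) {t : ℝ} (ht : 0 < t) : ∃ κ : ℝ, 0 < κ ∧
    ∀ μ : ℕ → ℝ, (∀ c < M, |μ c - μ0 c| ≤ κ) →
      |Iv M F μ - Iv M F μ0| ≤ t ∧ ∀ i, |Jv M F μ i - Jv M F μ0 i| ≤ t := by
  obtain ⟨f, hf⟩ : ∃ f : Filter (ℕ → ℝ), f = comap (fun (μ : ℕ → ℝ) (c : Fin M) => μ c)
    (nhds fun c : Fin M => μ0 c) := ⟨_, rfl⟩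
  have h0 : ∀ c < M, Tendsto (fun μ : ℕ → ℝ => μ c) f (nhds (μ0 c)) := fun c hc => by
    rw [hf]
    exact ((continuous_apply (⟨c, hc⟩ : Fin M)).tendsto fun c : Fin M => μ0 c).comp tendsto_comap
  have hj : ∀ j ∈ Ce ι M, ∀ l, j l < M := fun j hj l => mem_range.1 (Fintype.mem_piFinset.1 hj l)
  have h1 : Tendsto (Iv M F) f (nhds (Iv M F μ0)) :=
    tendsto_finsetSum _ fun j h => (tendsto_finsetProd _ fun l _ => h0 _ (hj j h l)).const_mul _
  have h2 : ∀ i, Tendsto (fun μ => Jv M F μ i) f (nhds (Jv M F μ0 i)) := fun i =>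
    tendsto_finsetSum _ fun j h =>
      ((tendsto_finsetSum _ fun c hc => (h0 c (mem_range.1 hc)).const_mul _).pow 2).mul
        (tendsto_finsetProd _ fun l _ => h0 _ (hj j (mem_filter.1 h).1 l))
  have h3 := (Metric.tendsto_nhds.1 h1 t ht).and
    (eventually_all.2 fun i => Metric.tendsto_nhds.1 (h2 i) t ht)
  rw [hf, eventually_comap, Metric.eventually_nhds_iff] at h3
  obtain ⟨ε, hε, h3⟩ := h3
  refine ⟨ε / 2, half_pos hε, fun μ hμ => ?_⟩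
  obtain ⟨h4, h5⟩ := h3 ((dist_pi_lt_iff hε).2 fun c : Fin M =>
    (hμ c c.2).trans_lt (half_lt_self hε)) μ rfl
  exact ⟨h4.le, fun i => (h5 i).le⟩

theorem cellb_LL (w : ℕ) : Tendsto (fun x : ℕ => LL w x) atTop atTop :=
  (Real.tendsto_log_atTop.comp tendsto_natCast_atTop_atTop).const_mul_atTop (cW_pos w)

/-- `mass` with `Y = R ^ α c`, `Z = R ^ α (c + 1) ≤ R ≤ 3 x`, `log (Z / Y) = θ log x * len α c`,
`0 ≤ len α c ≤ 1`; `4 / w ≤ κ / 2` and `B ≤ κ / 2 * θ L` for large `x`. -/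
theorem mas_near {M : ℕ} {α : ℕ → ℝ} (a0 : α 0 = 0) (mono : Monotone α) (aM : α M ≤ 1) {θ κ : ℝ}
    (hθ0 : 0 < θ) (hθ : θ ≤ 1) (hκ : 0 < κ) : ∀ᶠ w : ℕ in atTop, ∀ᶠ x : ℕ in atTop, ∀ c < M,
      |mas (Ps w x) ((x : ℝ) ^ θ) α c / (θ * LL w x) - len α c| ≤ κ := by
  filter_upwards [eventually_ge_atTop 10,
    tendsto_natCast_atTop_atTop.eventually_ge_atTop (8 / κ)] with w hw hwκ
  obtain ⟨B, hB, h⟩ := mass w hw
  filter_upwards [eventually_ge_atTop 1, (cellb_LL w).eventually_gt_atTop 0,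
    ((cellb_LL w).const_mul_atTop (mul_pos (half_pos hκ) hθ0)).eventually_ge_atTop B]
    with x hx hL hBL c hc
  have hx1 : (1 : ℝ) ≤ x := by exact_mod_cast hx
  have hw0 : (0 : ℝ) < w := by exact_mod_cast (show 0 < w by omega)
  have hR : 1 ≤ (x : ℝ) ^ θ := Real.one_le_rpow hx1 hθ0.le
  have c0 : 0 ≤ α c := a0.ge.trans (mono (Nat.zero_le c))
  have c1 : α c ≤ α (c + 1) := mono (Nat.le_succ c)
  have c2 : α (c + 1) ≤ 1 := (mono hc).trans aM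
  have h1 := h (3 * x) (((x : ℝ) ^ θ) ^ α c) (((x : ℝ) ^ θ) ^ α (c + 1)) (Real.one_le_rpow hR c0)
    (Real.rpow_le_rpow_of_exponent_le hR c1) (by
      have k1 := Real.rpow_le_rpow_of_exponent_le hR c2
      have k2 := Real.rpow_le_rpow_of_exponent_le hx1 hθ
      rw [Real.rpow_one] at k1 k2
      push_cast
      linarith)
  have e1 : cW w * Real.log (((x : ℝ) ^ θ) ^ α (c + 1) / ((x : ℝ) ^ θ) ^ α c) =
      len α c * (θ * LL w x) := by
    rw [← Real.rpow_sub (by linarith), Real.log_rpow (by linarith), Real.log_rpow (by linarith),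
      len, LL]
    ring
  have e2 : mas (Ps w x) ((x : ℝ) ^ θ) α c = ∑ T ∈ (PP w (3 * x)).powerset.filter (fun T =>
      ((x : ℝ) ^ θ) ^ α c ≤ (pr T : ℝ) ∧ (pr T : ℝ) < ((x : ℝ) ^ θ) ^ α (c + 1)), wt T := by
    simp only [mas, cel, Ps, sum_filter, ite_mul, one_mul, zero_mul]
  rw [e1, ← e2] at h1
  have hp : 0 < θ * LL w x := mul_pos hθ0 hL
  rw [div_sub' hp.ne', abs_div, abs_of_pos hp, div_le_iff₀ hp, mul_comm _ (len α c)]
  refine h1.trans ?_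
  have k1 : 4 / (w : ℝ) ≤ κ / 2 := by
    rw [div_le_iff₀ hκ] at hwκ
    rw [div_le_iff₀ hw0]
    linarith
  have k2 : len α c * (θ * LL w x) ≤ θ * LL w x :=
    mul_le_of_le_one_left hp.le (by unfold len; linarith)
  have k3 := mul_le_mul k1 k2 (mul_nonneg (by unfold len; linarith) hp.le) (half_pos hκ).le
  linarith

/-- `dg_zc`, `dg_zm`, `iv_smul`, `jv_smul` with `μ = mas / (θ L)`, `forms_cont`, `mas_near`, `dg_nonneg`. -/
theorem cell_main {M : ℕ} {α : ℕ → ℝ} {F : (ι → ℕ) → ℝ} (hF : Stp M α F) {θ t : ℝ} (hθ0 : 0 < θ)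
    (hθ : θ ≤ 1) (ht : 0 < t) : ∀ᶠ w : ℕ in atTop, ∀ᶠ x : ℕ in atTop,
      Dg (Ps w x) (Zc M F ((x : ℝ) ^ θ) α) ≤
        (θ * LL w x) ^ Fintype.card ι * (Iv M F (len α) + t) ∧
      ∀ i, (θ * LL w x) ^ (Fintype.card ι + 1) * max (Jv M F (len α) i - t) 0 ≤
        Dg (Ps w x) (Zm (Ps w x) i (Zc M F ((x : ℝ) ^ θ) α)) := by
  obtain ⟨κ, hκ, h⟩ := forms_cont M F (len α) ht
  filter_upwards [mas_near hF.a0 hF.mono hF.aM hθ0 hθ hκ] with w hw
  filter_upwards [hw, eventually_ge_atTop 1, (cellb_LL w).eventually_gt_atTop 0] with x hx hx1 hL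
  have hR : 1 ≤ (x : ℝ) ^ θ := Real.one_le_rpow (by exact_mod_cast hx1) hθ0.le
  have hp : 0 < θ * LL w x := mul_pos hθ0 hL
  obtain ⟨h1, h2⟩ := h _ hx
  have e : mas (Ps w x) ((x : ℝ) ^ θ) α =
      fun c => θ * LL w x * (mas (Ps w x) ((x : ℝ) ^ θ) α c / (θ * LL w x)) :=
    funext fun c => (mul_div_cancel₀ _ hp.ne').symm
  refine ⟨?_, fun i => ?_⟩
  · rw [dg_zc hR hF.mono, e, iv_smul]
    exact mul_le_mul_of_nonneg_left (by linarith [(abs_le.1 h1).2]) (pow_pos hp _).le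
  · rw [mul_max_of_nonneg _ _ (pow_pos hp _).le, mul_zero]
    refine max_le ?_ (dg_nonneg (fun q hq => Nat.prime_of_mem_primesLE (mem_filter.1 hq).1) _)
    rw [dg_zm hR hF.mono, e, jv_smul]
    exact mul_le_mul_of_nonneg_left (by linarith [(abs_le.1 (h2 i)).1]) (pow_pos hp _).le

end Pool.Agent.Lib.MP_c03ca8_nt.H
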