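import Pool.Agent.Lib.MP_c03ca8_nt.H.Defs

set_option autoImplicit false

noncomputable section

namespace Pool.Agent.Lib.MP_c03ca8_nt.H

open Finset Filter Q
open P3 (Rough om xi Xi bxB bil Adm)
open scoped Classical

/-! The good integers. -/

variable {ι : Type} [Fintype ι] [DecidableEq ι]

/-- All forms are rough. -/
def ar (h : ι → ℕ) (y : ℝ) (I : Finset ℕ) : Finset ℕ := I.filter fun n => ∀ l, Rough y (n + h l)

/-- All forms are rough and more than `m` of them are prime. -/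
def gd (h : ι → ℕ) (m : ℕ) (y : ℝ) (I : Finset ℕ) : Finset ℕ :=
  I.filter fun n => (∀ l, Rough y (n + h l)) ∧ m + 1 ≤ (univ.filter fun l => (n + h l).Prime).card

/-- Many good integers in `(y, K y]`. -/
def Many (h : ι → ℕ) (m : ℕ) : Prop := ∃ η : ℝ, 0 < η ∧ ∀ w1 : ℕ, ∃ (w a K y0 : ℕ) (δ : ℝ), w1 ≤ w ∧
  (∀ l, Nat.Coprime (a + h l) (primorial w)) ∧ 1 ≤ K ∧ 0 < δ ∧ ∀ y : ℕ, y0 ≤ y →
    δ * y / Real.log y ^ Fintype.card ι ≤
      (gd h m ((y : ℝ) ^ η) (cls y (K * y - y) (primorial w) a)).card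

end Pool.Agent.Lib.MP_c03ca8_nt.H
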