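import Pool.Agent.Lib.MP_c03ca8_nt.H.Tens

set_option autoImplicit false

noncomputable section

namespace Pool.Agent.Lib.MP_c03ca8_nt.H

open Finset Filter Q
open P3 (Rough om xi Xi bxB bil Adm)
open scoped Classical

/-! Step functions as sieve coefficients. -/

variable {ι : Type} [Fintype ι] [DecidableEq ι] {M : ℕ} {α : ℕ → ℝ} {F : (ι → ℕ) → ℝ} {R : ℝ}

theorem cell_disj (hR : 1 ≤ R) (hα : Monotone α) {c c' : ℕ} (h : c < c') (T : Finset ℕ) :
    cel R α c T * cel R α c' T = 0 := by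
  have := Real.rpow_le_rpow_of_exponent_le hR (hα (Nat.succ_le_of_lt h))
  unfold cel
  split_ifs with h1 h2
  · exact absurd (h1.2.trans_le (this.trans h2.1)) (lt_irrefl _)
  all_goals simp

/-- The cells are disjoint. -/
theorem cel_mul (hR : 1 ≤ R) (hα : Monotone α) (c c' : ℕ) (T : Finset ℕ) :
    cel R α c T * cel R α c' T = if c = c' then cel R α c T else 0 := by
  rcases lt_trichotomy c c' with h | h | h
  · rw [if_neg h.ne, cell_disj hR hα h]
  · subst h
    rw [if_pos rfl]
    unfold cel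
    split_ifs <;> simp
  · rw [if_neg h.ne', mul_comm, cell_disj hR hα h]

theorem abs_zc_le (hF : Stp M α F) (R : ℝ) (T : ι → Finset ℕ) : |Zc M F R α T| ≤ 1 := by
  refine (abs_sum_le_sum_abs _ _).trans ((sum_le_sum fun j _ => ?_).trans hF.norm)
  rw [abs_mul, abs_prod]
  refine mul_le_of_le_one_right (abs_nonneg _) (prod_le_one (fun _ _ => abs_nonneg _) fun l _ => ?_)
  unfold cel
  split_ifs <;> simp

/-- `∏ pr (T l) ≤ ∏ R ^ α (j l + 1) = R ^ ∑ α (j l + 1) ≤ R` (`Real.rpow_sum_of_pos`). -/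
theorem lev_zc (hF : Stp M α F) (hR : 1 ≤ R) : Lev (Zc M F R α) R := by
  intro T hT
  obtain ⟨j, -, hj⟩ := exists_ne_zero_of_sum_ne_zero hT
  have h1 : ∀ l, (pr (T l) : ℝ) ≤ R ^ α (j l + 1) := by
    intro l
    have h2 := prod_ne_zero_iff.1 (right_ne_zero_of_mul hj) l (mem_univ l)
    unfold cel at h2
    exact (ite_ne_right_iff.1 h2).1.2.le
  refine (prod_le_prod (fun l _ => Nat.cast_nonneg _) fun l _ => h1 l).trans ?_
  rw [← Real.rpow_sum_of_pos (by linarith)]
  exact (Real.rpow_le_rpow_of_exponent_le hR (hF.supp j (left_ne_zero_of_mul hj))).trans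
    (Real.rpow_one R).le

/-- A general form for the forms of `A`: the square of `∑ j, φ j * ∏ l ∈ A, cel (j l) (T l)` is
`∑ j, φ j ^ 2 * ∏ l ∈ A, cel (j l) (T l)` if the `j ∈ C` are determined by their values on `A`. -/
theorem sq_cel (hR : 1 ≤ R) (hα : Monotone α) (A : Finset ι) (C : Finset (ι → ℕ))
    (hC : ∀ j ∈ C, ∀ j' ∈ C, (∀ l ∈ A, j l = j' l) → j = j') (φ : (ι → ℕ) → ℝ) (T : ι → Finset ℕ) :
    (∑ j ∈ C, φ j * ∏ l ∈ A, cel R α (j l) (T l)) ^ 2 =
      ∑ j ∈ C, φ j ^ 2 * ∏ l ∈ A, cel R α (j l) (T l) := by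
  rw [sq, sum_mul_sum]
  refine sum_congr rfl fun j hj => ?_
  rw [sum_eq_single_of_mem j hj]
  · rw [mul_mul_mul_comm, ← prod_mul_distrib, sq]
    simp only [cel_mul hR hα, if_true]
  · intro j' hj' hne
    obtain ⟨l, hl, h⟩ : ∃ l ∈ A, j l ≠ j' l := by
      by_contra h
      exact hne (hC j hj j' hj' fun l hl => by_contra fun h' => h ⟨l, hl, h'⟩).symm
    rw [mul_mul_mul_comm, ← prod_mul_distrib, prod_eq_zero hl (by rw [cel_mul hR hα, if_neg h]),
      mul_zero]

/-- `sq_cel`, `Finset.prod_univ_sum`. -/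
theorem dg_zc (hR : 1 ≤ R) (hα : Monotone α) (P : Finset ℕ) (M : ℕ) (F : (ι → ℕ) → ℝ) :
    Dg P (Zc M F R α) = Iv M F (mas P R α) := by
  unfold Dg Zc Iv mas Tu
  simp only [sq_cel hR hα univ (Ce ι M) (fun j _ j' _ h => funext fun l => h l (mem_univ l)),
    sum_mul, prod_univ_sum, mul_sum, mul_assoc, ← prod_mul_distrib]
  exact sum_comm

/-- Sum over the tuples of cells by the coordinate `i` and the rest (for `M = 0` both sides vanish). -/
theorem sum_ce (M : ℕ) (i : ι) (f : (ι → ℕ) → ℝ) : ∑ j ∈ Ce ι M, f j =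
    ∑ j ∈ (Ce ι M).filter (fun j => j i = 0), ∑ c ∈ range M, f (Function.update j i c) := by
  rw [← sum_product']
  refine sum_nbij' (fun j => (Function.update j i 0, j i)) (fun p => Function.update p.1 i p.2)
    ?_ ?_ ?_ ?_ ?_
  · intro j hj
    have h := Fintype.mem_piFinset.1 hj
    refine mem_product.2 ⟨mem_filter.2 ⟨Fintype.mem_piFinset.2 fun l => ?_, by simp⟩, h i⟩
    simp only [Function.update_apply]
    split_ifs
    · exact mem_range.2 (Nat.zero_lt_of_lt (mem_range.1 (h i)))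
    · exact h l
  · intro p hp
    obtain ⟨h1, h2⟩ := mem_product.1 hp
    refine Fintype.mem_piFinset.2 fun l => ?_
    rw [Function.update_apply]
    split_ifs
    · exact h2
    · exact Fintype.mem_piFinset.1 (mem_filter.1 h1).1 l
  · intro j _
    simp
  · intro p hp
    have h := (mem_filter.1 (mem_product.1 hp).1).2
    refine Prod.ext ?_ (by simp)
    simp only [Function.update_idem]
    rw [← h, Function.update_eq_self]
  · intro j _
    simp

/-- For `T i = ∅`: `Zm T = ∑ j, j i = 0, (∑ c, F (update j i c) * mas c) * ∏ l ≠ i, cel (j l) (T l)`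
(`sum_ce`); `sq_cel` with `A = univ.erase i`; the sum over the `T` with `T i = ∅` of a product is the product
of the sums (`Finset.prod_univ_sum` with the factor `if T i = ∅ then 1 else 0` at `i`). -/
theorem dg_zm (hR : 1 ≤ R) (hα : Monotone α) (P : Finset ℕ) (M : ℕ) (F : (ι → ℕ) → ℝ) (i : ι) :
    Dg P (Zm P i (Zc M F R α)) = Jv M F (mas P R α) i := by
  have hz : ∀ T : ι → Finset ℕ, ∑ U ∈ P.powerset, Zc M F R α (Function.update T i U) * wt U =
      ∑ j ∈ (Ce ι M).filter (fun j => j i = 0),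
        (∑ c ∈ range M, F (Function.update j i c) * mas P R α c) *
          ∏ l ∈ univ.erase i, cel R α (j l) (T l) := by
    intro T
    have h1 : ∀ (j : ι → ℕ) (U : Finset ℕ), ∏ l, cel R α (j l) (Function.update T i U l) =
        cel R α (j i) U * ∏ l ∈ univ.erase i, cel R α (j l) (T l) := by
      intro j U
      rw [← mul_prod_erase univ _ (mem_univ i), Function.update_self]
      exact congrArg _ (prod_congr rfl fun l hl => by
        rw [Function.update_of_ne (ne_of_mem_erase hl)])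
    simp only [Zc, h1, sum_mul]
    rw [sum_comm, sum_ce M i]
    refine sum_congr rfl fun j _ => sum_congr rfl fun c _ => ?_
    rw [Function.update_self, mas, mul_sum, sum_mul]
    refine sum_congr rfl fun U _ => ?_
    rw [prod_congr rfl fun l hl => by rw [Function.update_of_ne (ne_of_mem_erase hl)]]
    ring
  let g : (ι → ℕ) → ι → Finset ℕ → ℝ := fun j l U =>
    if l = i then (if U = ∅ then 1 else 0) else cel R α (j l) U * wt U
  have key : ∀ T : ι → Finset ℕ, Zm P i (Zc M F R α) T ^ 2 * ∏ l, wt (T l) =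
      ∑ j ∈ (Ce ι M).filter (fun j => j i = 0),
        (∑ c ∈ range M, F (Function.update j i c) * mas P R α c) ^ 2 * ∏ l, g j l (T l) := by
    intro T
    have h1 : ∀ j, ∏ l, g j l (T l) = (if T i = ∅ then 1 else 0) *
        ((∏ l ∈ univ.erase i, cel R α (j l) (T l)) * ∏ l ∈ univ.erase i, wt (T l)) := by
      intro j
      rw [← mul_prod_erase univ _ (mem_univ i), ← prod_mul_distrib]
      simp only [g, if_true]
      exact congrArg _ (prod_congr rfl fun l hl => if_neg (ne_of_mem_erase hl))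
    simp only [h1, Zm]
    split_ifs with h
    · rw [hz, sq_cel hR hα, sum_mul, ← mul_prod_erase univ _ (mem_univ i), h]
      · refine sum_congr rfl fun j _ => ?_
        rw [wt, prod_empty]
        ring
      · intro j hj j' hj' hh
        funext l
        by_cases hl : l = i
        · rw [hl, (mem_filter.1 hj).2, (mem_filter.1 hj').2]
        · exact hh l (mem_erase.2 ⟨hl, mem_univ l⟩)
    · simp
  unfold Dg Jv Tu
  simp only [key]
  rw [sum_comm]
  refine sum_congr rfl fun j _ => ?_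
  rw [← mul_sum, ← prod_univ_sum (fun _ => P.powerset) (g j), ← mul_prod_erase univ _ (mem_univ i)]
  congr 1
  have h1 : ∑ U ∈ P.powerset, g j i U = 1 := by simp [g]
  rw [h1, one_mul]
  refine prod_congr rfl fun l hl => ?_
  simp only [g, if_neg (ne_of_mem_erase hl), mas]

/-- Scale `F` by `1 / (1 + ∑ |F j|)`; both sides of the inequality are homogeneous of degree two. -/
theorem var_norm {r : ℝ} (hV : Var ι r) : ∃ (M : ℕ) (α : ℕ → ℝ) (F : (ι → ℕ) → ℝ), Stp M α F ∧
    r * Iv M F (len α) < ∑ i, Jv M F (len α) i := by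
  obtain ⟨M, α, F, h0, hm, hM, hs, h⟩ := hV
  have h1 : 0 ≤ ∑ j ∈ Ce ι M, |F j| := sum_nonneg fun _ _ => abs_nonneg _
  obtain ⟨s, s0, hs1⟩ : ∃ s : ℝ, 0 < s ∧ s * ∑ j ∈ Ce ι M, |F j| ≤ 1 :=
    ⟨(1 + ∑ j ∈ Ce ι M, |F j|)⁻¹, by positivity, by
      rw [inv_mul_le_iff₀ (by positivity)]; linarith⟩
  refine ⟨M, α, fun j => s * F j, ⟨h0, hm, hM, fun j hj => hs j (right_ne_zero_of_mul hj), ?_⟩, ?_⟩
  · simpa only [abs_mul, abs_of_pos s0, ← mul_sum] using hs1
  · have h2 := mul_lt_mul_of_pos_left h (pow_pos s0 2)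
    simp only [Iv, Jv, mul_assoc, ← mul_sum, mul_pow] at h2 ⊢
    linarith

end Pool.Agent.Lib.MP_c03ca8_nt.H
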