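import Pool.Agent.Lib.MP_c03ca8_nt.H.Loc

set_option autoImplicit false

noncomputable section

namespace Pool.Agent.Lib.MP_c03ca8_nt.H

open Finset Filter Q
open P3 (Rough om xi Xi bxB bil Adm)
open scoped Classical

/-! The Selberg weight for the small primes, and its restriction to multiples of a prime. -/

variable {P : Finset ℕ} {y R0 K : ℝ} {p m : ℕ}

theorem mark_z0 (y R0 : ℝ) (T : Finset ℕ) : z0 y R0 T = 0 ∨ z0 y R0 T = 1 := by
  unfold z0
  split_ifs
  · exact Or.inr rfl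
  · exact Or.inl rfl

theorem mark_lt {T : Finset ℕ} (h : z0 y R0 T ≠ 0) : (pr T : ℝ) < R0 := by
  unfold z0 at h
  split_ifs at h with hc
  · exact hc.2
  · exact absurd rfl h

theorem mark_sub (y R0 : ℝ) (T T' : Finset ℕ) : |z0 y R0 T - z0 y R0 T'| ≤ 1 := by
  rcases mark_z0 y R0 T with h | h <;> rcases mark_z0 y R0 T' with h' | h' <;> simp [h, h']

theorem mark_pr {T : Finset ℕ} (h : p ∉ T) : (pr (insert p T) : ℝ) = p * pr T := by
  unfold pr
  rw [Finset.prod_insert h, Nat.cast_mul]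

theorem abs_z0_le (y R0 : ℝ) (T : Finset ℕ) : |z0 y R0 T| ≤ 1 := by
  rcases mark_z0 y R0 T with h | h <;> simp [h]

theorem z0_sq (y R0 : ℝ) (T : Finset ℕ) : z0 y R0 T ^ 2 = z0 y R0 T := by
  rcases mark_z0 y R0 T with h | h <;> simp [h]

theorem z0_lev {T : Finset ℕ} (h : z0 y R0 T ≠ 0) : (pr T : ℝ) ≤ R0 := by
  exact (mark_lt h).le

theorem gg_nonneg (hP : ∀ q ∈ P, q.Prime) (y R0 : ℝ) : 0 ≤ gg P y R0 := by
  refine Finset.sum_nonneg fun T hT => mul_nonneg ?_
    (expand_wt_nonneg fun q hq => hP q (mem_powerset.1 hT hq))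
  rcases mark_z0 y R0 T with h | h <;> simp [h]

theorem svs_rough (hP : ∀ q ∈ P, q.Prime) (hm : Rough y m) : svs P (z0 y R0) m = gg P y R0 := by
  unfold svs gg
  refine Finset.sum_congr rfl fun T hT => ?_
  unfold z0
  split_ifs with h
  · rw [one_mul, one_mul]
    refine Finset.prod_congr rfl fun q hq => ?_
    unfold zl
    rw [if_neg]
    intro hd
    exact absurd (hm q (hP q (mem_powerset.1 hT hq)) hd) (not_le.2 (h.1 q hq))
  · rw [zero_mul, zero_mul]

/-- Pair `T ∌ p` with `insert p T` (`Finset.sum_powerset_insert` after `P = insert p (P.erase p)`, as in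
`k1_sv_dz`). Both sides are `∑ T ⊆ P.erase p, (z T - z (insert p T)) * ∏ zl * ind p m`, because
`1 / p - (p - 1) / p * zl p m = ind p m` and `zl p m = -1` if `p ∣ m`. -/
theorem svs_zt (hp : p ∈ P) (hp2 : 2 ≤ p) (z : Finset ℕ → ℝ) (m : ℕ) :
    svs P (zt z p) m = ind p m * svs P z m := by
  have hins : P = insert p (P.erase p) := (Finset.insert_erase hp).symm
  have hn : p ∉ P.erase p := Finset.notMem_erase p P
  have hp2' : (2 : ℝ) ≤ p := by exact_mod_cast hp2
  have h0 : (p : ℝ) ≠ 0 := by linarith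
  have h1 : (p : ℝ) - 1 ≠ 0 := by linarith
  unfold svs
  rw [hins, Finset.sum_powerset_insert hn, Finset.sum_powerset_insert hn,
    ← Finset.sum_add_distrib, ← Finset.sum_add_distrib, Finset.mul_sum]
  refine Finset.sum_congr rfl fun T hT => ?_
  have hpT : p ∉ T := fun hh => hn (mem_powerset.1 hT hh)
  rw [Finset.prod_insert hpT]
  unfold zt
  rw [if_neg hpT, if_pos (mem_insert_self p T), Finset.erase_insert hpT]
  by_cases hd : p ∣ m
  · simp only [ind, zl, hd, if_true]
    field_simp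
    ring
  · simp only [ind, zl, hd, if_false]
    field_simp
    ring

theorem abs_zt_le (hp : 1 ≤ p) (y R0 : ℝ) (T : Finset ℕ) : |zt (z0 y R0) p T| ≤ 1 := by
  have hp' : (1 : ℝ) ≤ p := by exact_mod_cast hp
  unfold zt
  split_ifs
  · rw [abs_neg, abs_mul]
    refine mul_le_one₀ ?_ (abs_nonneg _) (mark_sub _ _ _ _)
    rw [abs_of_nonneg (div_nonneg (by linarith) (by linarith)), div_le_one (by linarith)]
    linarith
  · rw [abs_div, abs_of_nonneg (by linarith : (0 : ℝ) ≤ p), div_le_one (by linarith)]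
    exact (mark_sub _ _ _ _).trans hp'

theorem zt_lev (hp : 1 ≤ p) (hy : (p : ℝ) < y) {T : Finset ℕ} (h : zt (z0 y R0) p T ≠ 0) :
    (pr T : ℝ) ≤ R0 * y := by
  have hp' : (1 : ℝ) ≤ p := by exact_mod_cast hp
  have hT0 : (0 : ℝ) ≤ pr T := Nat.cast_nonneg _
  have key : (pr T : ℝ) < R0 → (pr T : ℝ) ≤ R0 * y := fun h1 => by nlinarith
  by_cases h1 : z0 y R0 T = 0
  · unfold zt at h
    split_ifs at h with hpT
    · have h2 : z0 y R0 (T.erase p) ≠ 0 := fun h2 => h (by rw [h1, h2]; simp)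
      have h3 := mark_lt h2
      have h4 := mark_pr (Finset.notMem_erase p T)
      rw [Finset.insert_erase hpT] at h4
      have h5 : (0 : ℝ) ≤ pr (T.erase p) := Nat.cast_nonneg _
      rw [h4, mul_comm]
      exact mul_le_mul h3.le hy.le (by linarith) (by linarith)
    · have h2 : z0 y R0 (insert p T) ≠ 0 := fun h2 => h (by rw [h1, h2]; simp)
      have h3 := mark_lt h2
      rw [mark_pr hpT] at h3
      exact key (by nlinarith)
  · exact key (mark_lt h1)

/-- If `m` is not rough then some `p ∈ P`, `p < y` divides it, and `svs_zt` gives the term. -/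
theorem sq_le (hP : ∀ q ∈ P, q.Prime) (hm : ∀ q : ℕ, q.Prime → q ∣ m → q ∈ P) :
    svs P (z0 y R0) m ^ 2 ≤ (if Rough y m then gg P y R0 ^ 2 else 0) +
      ∑ p ∈ P.filter (fun p : ℕ => (p : ℝ) < y), svs P (zt (z0 y R0) p) m ^ 2 := by
  split_ifs with h
  · rw [svs_rough hP h]
    exact le_add_of_nonneg_right (Finset.sum_nonneg fun _ _ => sq_nonneg _)
  · unfold Rough at h
    push Not at h
    obtain ⟨q, hq, hd, hlt⟩ := h
    have hqP := hm q hq hd
    have h1 := Finset.single_le_sum (f := fun p => svs P (zt (z0 y R0) p) m ^ 2)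
      (fun _ _ => sq_nonneg _) (mem_filter.2 ⟨hqP, hlt⟩ : q ∈ P.filter fun p : ℕ => (p : ℝ) < y)
    rw [zero_add]
    refine le_trans (le_of_eq ?_) h1
    rw [svs_zt hqP hq.two_le, ind, if_pos hd, one_mul]

theorem rw_nonneg (hK : 0 ≤ K) (T : Finset ℕ) : 0 ≤ rw K T := by
  exact Finset.prod_nonneg fun q _ => by positivity

theorem mark_rw (K : ℝ) {T : Finset ℕ} (h : p ∉ T) :
    rw K (insert p T) = (1 + K / p) / p * rw K T := by
  unfold rw
  rw [Finset.prod_insert h]

theorem mark_ind (hp : 1 ≤ p) (hy : (p : ℝ) < y) {T : Finset ℕ} (h : p ∉ T) :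
    |z0 y R0 T - z0 y R0 (insert p T)| ≤
      if (∀ q ∈ T, (q : ℝ) < y) ∧ R0 / p ≤ (pr T : ℝ) ∧ (pr T : ℝ) < R0 then 1 else 0 := by
  have hp' : (1 : ℝ) ≤ p := by exact_mod_cast hp
  have hT0 : (0 : ℝ) ≤ pr T := Nat.cast_nonneg _
  split_ifs with hc
  · exact mark_sub _ _ _ _
  · have : z0 y R0 T = z0 y R0 (insert p T) := by
      unfold z0
      refine if_congr ?_ rfl rfl
      rw [mark_pr h, Finset.forall_mem_insert]
      constructor
      · rintro ⟨a, b⟩
        refine ⟨⟨hy, a⟩, ?_⟩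
        by_contra hb
        exact hc ⟨a, by rw [div_le_iff₀ (by linarith)]; linarith [not_lt.1 hb], b⟩
      · rintro ⟨a, b⟩
        exact ⟨a.2, by nlinarith⟩
    rw [this, sub_self, abs_zero]

/-- Pair `T ∌ p` with `insert p T`; `|z0 T - z0 (insert p T)|` is the indicator of `sm P y (R0 / p) R0`, and
`1 / p + (p - 1) / p * ((1 + K / p) / p) ≤ 3 / p`. -/
theorem sum_zt (hP : ∀ q ∈ P, q.Prime) (hp : p ∈ P) (hy : (p : ℝ) < y) (hK : 0 ≤ K) (hKp : K ≤ p) :
    ∑ T ∈ P.powerset, |zt (z0 y R0) p T| * rw K T ≤ 3 / p * ∑ T ∈ sm P y (R0 / p) R0, rw K T := by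
  have hn : p ∉ P.erase p := Finset.notMem_erase p P
  have hp1 := (hP p hp).one_le
  have hp' : (1 : ℝ) ≤ p := by exact_mod_cast hp1
  have hp0 : (0 : ℝ) < p := by linarith
  have h1 : ∑ T ∈ P.powerset, |zt (z0 y R0) p T| * rw K T ≤ ∑ T ∈ (P.erase p).powerset,
      3 / p * (if (∀ q ∈ T, (q : ℝ) < y) ∧ R0 / p ≤ (pr T : ℝ) ∧ (pr T : ℝ) < R0 then rw K T
        else 0) := by
    conv_lhs => rw [← Finset.insert_erase hp, Finset.sum_powerset_insert hn,
      ← Finset.sum_add_distrib]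
    refine Finset.sum_le_sum fun T hT => ?_
    have hpT : p ∉ T := fun hh => hn (mem_powerset.1 hT hh)
    have h2 := mark_ind (R0 := R0) hp1 hy hpT
    have h3 := rw_nonneg hK T
    have h4 : (1 + K / p) ≤ 2 := by
      have : K / p ≤ 1 := by rwa [div_le_one hp0]
      linarith
    have h5 : ((p : ℝ) - 1) / p ≤ 1 := by
      rw [div_le_one hp0]
      linarith
    have h6 : 0 ≤ ((p : ℝ) - 1) / p := div_nonneg (by linarith) hp0.le
    unfold zt
    rw [if_neg hpT, if_pos (mem_insert_self p T), Finset.erase_insert hpT, mark_rw K hpT, abs_neg,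
      abs_mul, abs_div, abs_of_pos hp0, abs_of_nonneg h6]
    generalize |z0 y R0 T - z0 y R0 (insert p T)| = d at h2
    have h7 : d / p * rw K T + ((p : ℝ) - 1) / p * d * ((1 + K / p) / p * rw K T) =
        (1 + ((p : ℝ) - 1) / p * (1 + K / p)) / p * (d * rw K T) := by ring
    have h8 : 1 + ((p : ℝ) - 1) / p * (1 + K / p) ≤ 3 := by
      have : 0 ≤ 1 + K / p := by positivity
      nlinarith
    rw [h7]
    split_ifs at h2 ⊢
    · calc _ ≤ (1 + ((p : ℝ) - 1) / p * (1 + K / p)) / p * (1 * rw K T) := by gcongr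
        _ ≤ 3 / p * (1 * rw K T) := by gcongr
        _ = _ := by rw [one_mul]
    · rw [mul_zero]
      exact mul_nonpos_of_nonneg_of_nonpos (by positivity) (mul_nonpos_of_nonpos_of_nonneg h2 h3)
  refine h1.trans ?_
  rw [← Finset.mul_sum]
  refine mul_le_mul_of_nonneg_left ?_ (by positivity)
  unfold sm
  rw [Finset.sum_filter]
  refine Finset.sum_le_sum_of_subset_of_nonneg (powerset_mono.2 (erase_subset _ _)) fun T _ _ => ?_
  split_ifs
  · exact rw_nonneg hK T
  · exact le_rfl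

/-- `log A ≤ log (pr T) = ∑ q ∈ T, log q`; swap the sums; `T ↦ T.erase q` is injective on the `T ∋ q`
with values in `sm P y (A / q) (B / q)`, and `rw K T = (1 + K / q) / q * rw K (T.erase q)`. -/
theorem log_trick (hP : ∀ q ∈ P, q.Prime ∧ K ≤ (q : ℝ)) (hK : 0 ≤ K) {A B : ℝ} (hA : 0 < A) :
    Real.log A * ∑ T ∈ sm P y A B, rw K T ≤ ∑ q ∈ P.filter (fun q : ℕ => (q : ℝ) < y),
      2 * (Real.log q / q) * ∑ T ∈ sm P y (A / q) (B / q), rw K T := by
  have h1 : ∀ T ∈ sm P y A B, Real.log A * rw K T ≤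
      ∑ q ∈ P.filter (fun q : ℕ => (q : ℝ) < y), if q ∈ T then Real.log q * rw K T else 0 := by
    intro T hT
    obtain ⟨hTP, hTy, hTA, -⟩ := mem_filter.1 hT
    rw [mem_powerset] at hTP
    have e1 : (P.filter fun q : ℕ => (q : ℝ) < y).filter (fun q => q ∈ T) = T := by
      ext q
      simp only [mem_filter]
      exact ⟨fun h => h.2, fun h => ⟨⟨hTP h, hTy q h⟩, h⟩⟩
    rw [← Finset.sum_filter, e1, ← Finset.sum_mul]
    refine mul_le_mul_of_nonneg_right ?_ (rw_nonneg hK T)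
    refine (Real.log_le_log hA hTA).trans (le_of_eq ?_)
    unfold pr
    rw [Nat.cast_prod, Real.log_prod]
    intro q hq
    exact_mod_cast (hP q (hTP hq)).1.ne_zero
  rw [Finset.mul_sum]
  refine (Finset.sum_le_sum h1).trans ?_
  rw [Finset.sum_comm]
  refine Finset.sum_le_sum fun q hq => ?_
  have hqP := hP q (mem_filter.1 hq).1
  have hq1 : (1 : ℝ) ≤ q := by exact_mod_cast hqP.1.one_le
  have hq0 : (0 : ℝ) < q := by linarith
  have hl : 0 ≤ Real.log q := Real.log_nonneg hq1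
  rw [← Finset.sum_filter]
  have hinj : Set.InjOn (fun T : Finset ℕ => T.erase q)
      ((sm P y A B).filter fun T => q ∈ T : Finset (Finset ℕ)) := by
    intro T hT T' hT' h
    have a := (mem_filter.1 (mem_coe.1 hT)).2
    have b := (mem_filter.1 (mem_coe.1 hT')).2
    have h' : T.erase q = T'.erase q := h
    rw [← Finset.insert_erase a, ← Finset.insert_erase b, h']
  have h2 : ∑ T ∈ (sm P y A B).filter (fun T => q ∈ T), rw K (T.erase q) ≤
      ∑ T ∈ sm P y (A / q) (B / q), rw K T := by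
    rw [← Finset.sum_image (f := rw K) hinj]
    refine Finset.sum_le_sum_of_subset_of_nonneg (fun U hU => ?_) fun U _ _ => rw_nonneg hK U
    obtain ⟨T, hT, rfl⟩ := mem_image.1 hU
    obtain ⟨hT1, hqT⟩ := mem_filter.1 hT
    obtain ⟨hTP, hTy, hTA, hTB⟩ := mem_filter.1 hT1
    have e := mark_pr (Finset.notMem_erase q T)
    rw [Finset.insert_erase hqT] at e
    refine mem_filter.2 ⟨mem_powerset.2 ((erase_subset _ _).trans (mem_powerset.1 hTP)),
      fun r hr => hTy r (mem_of_mem_erase hr), ?_, ?_⟩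
    · rw [div_le_iff₀ hq0]
      linarith
    · rw [lt_div_iff₀ hq0]
      linarith
  refine le_trans ?_ (mul_le_mul_of_nonneg_left h2 (by positivity))
  rw [Finset.mul_sum]
  refine Finset.sum_le_sum fun T hT => ?_
  have hqT := (mem_filter.1 hT).2
  have e := mark_rw K (Finset.notMem_erase q T)
  rw [Finset.insert_erase hqT] at e
  have h3 := rw_nonneg hK (T.erase q)
  have h4 : (1 + K / q) ≤ 2 := by
    have : K / q ≤ 1 := by rw [div_le_one hq0]; exact hqP.2
    linarith
  rw [e]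
  calc Real.log q * ((1 + K / q) / q * rw K (T.erase q)) ≤
        Real.log q * (2 / q * rw K (T.erase q)) := by gcongr
    _ = 2 * (Real.log q / q) * rw K (T.erase q) := by ring

end Pool.Agent.Lib.MP_c03ca8_nt.H
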