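import Pool.Agent.Lib.MP_c03ca8_nt.H.Asy
import Pool.Agent.Lib.MP_c03ca8_nt.H.Cell
import Pool.Agent.Lib.MP_c03ca8_nt.H.Mark

set_option autoImplicit false

noncomputable section

namespace Pool.Agent.Lib.MP_c03ca8_nt.H

open Finset Filter Q
open P3 (Rough om xi Xi bxB bil Adm)
open scoped Classical

/-! Integers with a small prime in one form are negligible. -/

variable {ι : Type} [Fintype ι] [DecidableEq ι]

/-- The coefficients of `ind p (n + h i) * Aw P h Z n`. -/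
def Zt (i : ι) (p : ℕ) (Z : (ι → Finset ℕ) → ℝ) (T : ι → Finset ℕ) : ℝ :=
  zt (fun U => Z (Function.update T i U)) p (T i)

/-- A majorant of `Zt` for a step function. -/
def fz (M : ℕ) (R : ℝ) (α : ℕ → ℝ) (p : ℕ) (U : Finset ℕ) : ℝ := ∑ c ∈ range M, |zt (cel R α c) p U|

variable {P : Finset ℕ} {p M : ℕ} {R K : ℝ} {α : ℕ → ℝ} {F : (ι → ℕ) → ℝ} {Z : (ι → Finset ℕ) → ℝ}

/-- `sum_tu` on both sides; for `T i = ∅` the inner sum is `svs P (fun U => Z (update T i U)) (n + h i)` times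
the product over `l ≠ i`; `svs_zt`, `Function.update_idem`. -/
theorem aw_zt (hp : p ∈ P) (hp2 : 2 ≤ p) (h : ι → ℕ) (i : ι) (Z : (ι → Finset ℕ) → ℝ) (n : ℕ) :
    Aw P h (Zt i p Z) n = ind p (n + h i) * Aw P h Z n := by
  unfold Aw
  rw [sum_tu P i, sum_tu P i (fun T => Z T * ∏ l, ∏ q ∈ T l, zl q (n + h l)), Finset.mul_sum]
  refine Finset.sum_congr rfl fun T _ => ?_
  have h1 := svs_zt hp hp2 (fun U => Z (Function.update T i U)) (n + h i)
  unfold svs at h1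
  simp only [tens_prod (fun l U => ∏ q ∈ U, zl q (n + h l)), Zt, Function.update_idem,
    Function.update_self, ← mul_assoc, ← Finset.sum_mul]
  rw [h1]

/-- One of the two values of `Z` in `zt` is not zero. -/
theorem lev_zt (hp : 1 ≤ p) (hL : Lev Z R) (i : ι) : Lev (Zt i p Z) (p * R) := by
  intro T hT
  have hp' : (1 : ℝ) ≤ p := by exact_mod_cast hp
  have h0 : (0 : ℝ) ≤ ∏ l ∈ univ.erase i, (pr (T l) : ℝ) :=
    Finset.prod_nonneg fun _ _ => Nat.cast_nonneg _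
  have h1 : ∀ U, Z (Function.update T i U) ≠ 0 →
      (pr U : ℝ) * ∏ l ∈ univ.erase i, (pr (T l) : ℝ) ≤ R := fun U hU => by
    have h2 := hL _ hU
    rwa [tens_prod (fun _ U => (pr U : ℝ))] at h2
  have h3 : (0 : ℝ) ≤ pr (T i) * ∏ l ∈ univ.erase i, (pr (T l) : ℝ) :=
    mul_nonneg (Nat.cast_nonneg _) h0
  rw [← Finset.mul_prod_erase univ _ (mem_univ i)]
  by_cases h4 : Z (Function.update T i (T i)) = 0
  · unfold Zt zt at hT
    split_ifs at hT with hpT
    · have h5 := h1 ((T i).erase p) fun h5 => hT (by simp only [h4, h5]; simp)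
      have h6 := mark_pr (Finset.notMem_erase p (T i))
      rw [Finset.insert_erase hpT] at h6
      rw [h6, mul_assoc]
      exact mul_le_mul_of_nonneg_left h5 (by linarith)
    · have h5 := h1 (insert p (T i)) fun h5 => hT (by simp only [h4, h5]; simp)
      rw [mark_pr hpT, mul_assoc] at h5
      have h6 := (le_mul_of_one_le_left h3 hp').trans h5
      exact h6.trans (le_mul_of_one_le_left (h3.trans h6) hp')
  · have h5 := h1 _ h4
    exact h5.trans (le_mul_of_one_le_left (h3.trans h5) hp')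

theorem tiny_cel (R : ℝ) (α : ℕ → ℝ) (c : ℕ) (U : Finset ℕ) : |cel R α c U| ≤ 1 := by
  unfold cel
  split_ifs <;> simp

theorem tiny_sub (R : ℝ) (α : ℕ → ℝ) (c : ℕ) (U V : Finset ℕ) : |cel R α c U - cel R α c V| ≤ 1 := by
  unfold cel
  split_ifs <;> simp

theorem tiny_zt (hp : 1 ≤ p) (R : ℝ) (α : ℕ → ℝ) (c : ℕ) (U : Finset ℕ) :
    |zt (cel R α c) p U| ≤ 1 := by
  have hp' : (1 : ℝ) ≤ p := by exact_mod_cast hp
  unfold zt
  split_ifs
  · rw [abs_neg, abs_mul]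
    refine mul_le_one₀ ?_ (abs_nonneg _) (tiny_sub _ _ _ _ _)
    rw [abs_of_nonneg (div_nonneg (by linarith) (by linarith)), div_le_one (by linarith)]
    linarith
  · rw [abs_div, abs_of_nonneg (by linarith : (0 : ℝ) ≤ p), div_le_one (by linarith)]
    exact (tiny_sub _ _ _ _ _).trans hp'

theorem tiny_lin (p M : ℕ) (F : (ι → ℕ) → ℝ) (R : ℝ) (α : ℕ → ℝ) (i : ι) (T : ι → Finset ℕ) :
    Zt i p (Zc M F R α) T = ∑ j ∈ Ce ι M,
      F j * ((∏ l ∈ univ.erase i, cel R α (j l) (T l)) * zt (cel R α (j i)) p (T i)) := by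
  have h1 : ∀ (j : ι → ℕ) (U : Finset ℕ), ∏ l, cel R α (j l) (Function.update T i U l) =
      cel R α (j i) U * ∏ l ∈ univ.erase i, cel R α (j l) (T l) := fun j U =>
    tens_prod (fun l U => cel R α (j l) U) T i U
  unfold Zt zt
  simp only [Zc, h1]
  split_ifs
  · rw [← Finset.sum_sub_distrib, Finset.mul_sum, ← Finset.sum_neg_distrib]
    exact Finset.sum_congr rfl fun j _ => by ring
  · rw [← Finset.sum_sub_distrib, Finset.sum_div]
    exact Finset.sum_congr rfl fun j _ => by ring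

theorem tiny_abs (hF : Stp M α F) (R : ℝ) (i : ι) (T : ι → Finset ℕ) {B : ℝ} (hB : 0 ≤ B)
    (hc : ∀ c ∈ range M, |zt (cel R α c) p (T i)| ≤ B) : |Zt i p (Zc M F R α) T| ≤ B := by
  rw [tiny_lin]
  have h1 : ∀ j ∈ Ce ι M, |F j * ((∏ l ∈ univ.erase i, cel R α (j l) (T l)) *
      zt (cel R α (j i)) p (T i))| ≤ |F j| * B := by
    intro j hj
    rw [abs_mul, abs_mul, abs_prod]
    refine mul_le_mul_of_nonneg_left ?_ (abs_nonneg _)
    refine (mul_le_of_le_one_left (abs_nonneg _)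
      (prod_le_one (fun _ _ => abs_nonneg _) fun l _ => tiny_cel _ _ _ _)).trans ?_
    exact hc _ (Fintype.mem_piFinset.1 hj i)
  refine (abs_sum_le_sum_abs _ _).trans ((sum_le_sum h1).trans ?_)
  rw [← Finset.sum_mul]
  exact mul_le_of_le_one_left hB hF.norm

/-- `zt` is linear: `Zt T = ∑ j, F j * (∏ l ≠ i, cel (j l) (T l)) * zt (cel R α (j i)) p (T i)`; `cel` is `0` or
`1`, so `|zt (cel …) p U| ≤ 1`; `Stp.norm`. -/
theorem abs_zt_zc (hF : Stp M α F) (hp : 1 ≤ p) (R : ℝ) (i : ι) (T : ι → Finset ℕ) :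
    |Zt i p (Zc M F R α) T| ≤ 1 ∧ |Zt i p (Zc M F R α) T| ≤ fz M R α p (T i) := by
  refine ⟨tiny_abs hF R i T zero_le_one fun c _ => tiny_zt hp _ _ _ _,
    tiny_abs hF R i T (sum_nonneg fun _ _ => abs_nonneg _) fun c hc => ?_⟩
  exact single_le_sum (f := fun c => |zt (cel R α c) p (T i)|) (fun _ _ => abs_nonneg _) hc

theorem tiny_pair (hp : p ∈ P) (hp1 : 1 ≤ p) (hK : 0 ≤ K) (hKp : K ≤ p) (z : Finset ℕ → ℝ) :
    ∑ T ∈ P.powerset, |zt z p T| * rw K T ≤
      3 / p * ∑ T ∈ (P.erase p).powerset, |z T - z (insert p T)| * rw K T := by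
  have hn : p ∉ P.erase p := Finset.notMem_erase p P
  have hp' : (1 : ℝ) ≤ p := by exact_mod_cast hp1
  have hp0 : (0 : ℝ) < p := by linarith
  conv_lhs => rw [← Finset.insert_erase hp, Finset.sum_powerset_insert hn,
    ← Finset.sum_add_distrib]
  rw [Finset.mul_sum]
  refine Finset.sum_le_sum fun T hT => ?_
  have hpT : p ∉ T := fun hh => hn (mem_powerset.1 hT hh)
  have h3 := rw_nonneg hK T
  have h4 : (1 + K / p) ≤ 2 := by
    have : K / p ≤ 1 := by rwa [div_le_one hp0]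
    linarith
  have h5 : ((p : ℝ) - 1) / p ≤ 1 := by
    rw [div_le_one hp0]
    linarith
  have h6 : 0 ≤ ((p : ℝ) - 1) / p := div_nonneg (by linarith) hp0.le
  unfold zt
  rw [if_neg hpT, if_pos (mem_insert_self p T), Finset.erase_insert hpT, mark_rw K hpT, abs_neg,
    abs_mul, abs_div, abs_of_pos hp0, abs_of_nonneg h6]
  have h2 := abs_nonneg (z T - z (insert p T))
  generalize |z T - z (insert p T)| = d at h2
  have h7 : d / p * rw K T + ((p : ℝ) - 1) / p * d * ((1 + K / p) / p * rw K T) =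
      (1 + ((p : ℝ) - 1) / p * (1 + K / p)) / p * (d * rw K T) := by ring
  have h8 : 1 + ((p : ℝ) - 1) / p * (1 + K / p) ≤ 3 := by
    have : 0 ≤ 1 + K / p := by positivity
    nlinarith
  rw [h7]
  exact mul_le_mul_of_nonneg_right (div_le_div_of_nonneg_right h8 hp0.le) (mul_nonneg h2 h3)

theorem tiny_ind (hp : 1 ≤ p) (R : ℝ) (α : ℕ → ℝ) (c : ℕ) {T : Finset ℕ} (h : p ∉ T) :
    |cel R α c T - cel R α c (insert p T)| ≤
      (if R ^ α c / p ≤ (pr T : ℝ) ∧ (pr T : ℝ) < R ^ α c then 1 else 0) +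
        if R ^ α (c + 1) / p ≤ (pr T : ℝ) ∧ (pr T : ℝ) < R ^ α (c + 1) then 1 else 0 := by
  have hp' : (1 : ℝ) ≤ p := by exact_mod_cast hp
  have hp0 : (0 : ℝ) < p := by linarith
  have hT : (pr T : ℝ) ≤ p * pr T := le_mul_of_one_le_left (Nat.cast_nonneg _) hp'
  unfold cel
  rw [mark_pr h]
  simp only [div_le_iff₀' hp0]
  generalize R ^ α c = A
  generalize R ^ α (c + 1) = B
  generalize (p : ℝ) * pr T = u at hT
  generalize (pr T : ℝ) = t at hT
  by_cases a1 : A ≤ t <;> by_cases a2 : t < B <;> by_cases a3 : A ≤ u <;> by_cases a4 : u < B <;>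
    first
    | (exfalso; linarith)
    | simp [a1, a2, a3, a4, not_lt.2, not_le.1, not_lt.1, not_le.2]

/-- As `sum_zt`. With `A = R ^ α c`, `B = R ^ α (c + 1)` and `p ∉ U`:
`|cel U - cel (insert p U)| ≤ 1 {A / p ≤ pr U < A} + 1 {B / p ≤ pr U < B}`; `mass_up`, `exp (K / w) ≤ 3`. -/
theorem sum_fz (w : ℕ) (hw : 1 ≤ w) : ∃ B0 : ℝ, 0 ≤ B0 ∧ ∀ (K : ℝ) (P : Finset ℕ) (p M : ℕ) (R : ℝ)
    (α : ℕ → ℝ), 0 ≤ K → K ≤ w → (∀ q ∈ P, q.Prime ∧ w < q) → p ∈ P → 0 < R →
    ∑ U ∈ P.powerset, fz M R α p U * rw K U ≤ 18 * M * ((cW w * Real.log p + B0) / p) := by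
  obtain ⟨B0, hB0, hB⟩ := mass_up w hw
  refine ⟨B0, hB0, fun K P p M R α hK hKw hP hp hR => ?_⟩
  have hw' : (0 : ℝ) < w := by exact_mod_cast hw
  have hp1 := (hP p hp).1.one_le
  have hp' : (1 : ℝ) ≤ p := by exact_mod_cast hp1
  have hp0 : (0 : ℝ) < p := by linarith
  have hL : 0 ≤ cW w * Real.log p + B0 :=
    add_nonneg (mul_nonneg (cW_pos w).le (Real.log_nonneg hp')) hB0
  have he : Real.exp (K / w) ≤ 3 :=
    (Real.exp_le_exp.2 ((div_le_one hw').2 hKw)).trans (Real.exp_one_lt_d9.le.trans (by norm_num))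
  have h1 : ∀ A : ℝ, 0 < A → ∑ T ∈ (P.erase p).powerset,
      (if A / p ≤ (pr T : ℝ) ∧ (pr T : ℝ) < A then 1 else 0) * rw K T ≤
        3 * (cW w * Real.log p + B0) := by
    intro A hA
    have h2 := hB K hK (P.erase p) (fun q hq => hP q (mem_of_mem_erase hq)) (A / p) A
      (by positivity) (div_le_self hA.le hp')
    rw [show A / (A / p) = p by field_simp, Finset.sum_filter] at h2
    refine le_trans (le_of_eq (Finset.sum_congr rfl fun T _ => ?_))
      (h2.trans (mul_le_mul_of_nonneg_right he hL))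
    split_ifs
    · exact one_mul _
    · exact zero_mul _
  have h3 : ∀ c ∈ range M, ∑ U ∈ P.powerset, |zt (cel R α c) p U| * rw K U ≤
      18 * ((cW w * Real.log p + B0) / p) := by
    intro c _
    refine (tiny_pair hp hp1 hK (hKw.trans (by exact_mod_cast (hP p hp).2.le)) _).trans ?_
    have h4 := h1 _ (Real.rpow_pos_of_pos hR (α c))
    have h5 := h1 _ (Real.rpow_pos_of_pos hR (α (c + 1)))
    have h6 : ∑ T ∈ (P.erase p).powerset, |cel R α c T - cel R α c (insert p T)| * rw K T ≤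
        6 * (cW w * Real.log p + B0) := by
      refine le_trans (Finset.sum_le_sum fun T hT => mul_le_mul_of_nonneg_right
        (tiny_ind hp1 R α c fun hh => Finset.notMem_erase p P (mem_powerset.1 hT hh))
        (rw_nonneg hK T)) ?_
      simp only [add_mul]
      rw [Finset.sum_add_distrib]
      linarith
    refine (mul_le_mul_of_nonneg_left h6 (by positivity)).trans (le_of_eq ?_)
    ring
  unfold fz
  simp only [Finset.sum_mul]
  rw [Finset.sum_comm]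
  refine (Finset.sum_le_card_nsmul _ _ _ h3).trans (le_of_eq ?_)
  rw [card_range, nsmul_eq_mul]
  ring

/-- `mertens1`, `mertens2` (the primes lie in `pI 2 (x ^ η)`), `log log x = o (log x)`; compare `tail`. -/
theorem tiny_sum {η B0 : ℝ} (hη : 0 < η) (hη1 : η ≤ 1) (hB : 0 ≤ B0) (w : ℕ) : ∀ᶠ x : ℕ in atTop,
    ∀ P : Finset ℕ, (∀ q ∈ P, q.Prime) → ∑ p ∈ P.filter (fun p : ℕ => (p : ℝ) < (x : ℝ) ^ η),
      (cW w * Real.log p + B0) / p ≤ 3 * η * LL w x := by
  obtain ⟨C1, -, hm⟩ := mertens1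
  have hc := cW_pos w
  filter_upwards [((Real.tendsto_log_atTop.comp tendsto_natCast_atTop_atTop).const_mul_atTop
    hη).eventually_ge_atTop (2 * C1 + Real.exp (B0 / cW w)), eventually_ge_atTop 2] with x h1 h3 P hP
  have h2 : 2 * C1 + Real.exp (B0 / cW w) ≤ η * Real.log x := h1
  have hx : (1 : ℝ) < x := by exact_mod_cast h3
  have hx0 : (0 : ℝ) < x := by linarith
  have hy : 1 ≤ (x : ℝ) ^ η := Real.one_le_rpow hx.le hη.le
  have hS : ∑ q ∈ P.filter (fun p : ℕ => (p : ℝ) < (x : ℝ) ^ η), Real.log q / q ≤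
      η * Real.log x + C1 := by
    have h4 := (abs_le.1 (hm 1 _ le_rfl hy)).2
    rw [div_one, Real.log_rpow hx0] at h4
    refine le_trans (sum_le_sum_of_subset_of_nonneg (t := pI 1 ((x : ℝ) ^ η)) (fun q hq => ?_)
      fun q _ _ => div_nonneg (Real.log_natCast_nonneg q) (Nat.cast_nonneg q)) (by linarith)
    obtain ⟨q1, q2⟩ := mem_filter.1 hq
    exact mem_filter.2 ⟨Nat.mem_primesLE.2 ⟨Nat.le_floor q2.le, hP q q1⟩,
      by exact_mod_cast (hP q q1).one_le, q2⟩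
  have key : ∀ p ∈ P.filter (fun p : ℕ => (p : ℝ) < (x : ℝ) ^ η), (cW w * Real.log p + B0) / p ≤
      cW w * (2 * (Real.log p / p) + Real.exp (B0 / cW w) * (1 / (p : ℝ) ^ 2)) := by
    intro p hp
    have p0 : (0 : ℝ) < p := by exact_mod_cast (hP p (mem_filter.1 hp).1).pos
    have e2 : B0 ≤ cW w * (Real.log p + Real.exp (B0 / cW w) / p) := by
      have e3 := Real.add_one_le_exp (B0 / cW w - Real.log p)
      rw [Real.exp_sub, Real.exp_log p0] at e3
      rw [← div_le_iff₀' hc]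
      linarith
    calc _ ≤ (cW w * Real.log p + cW w * (Real.log p + Real.exp (B0 / cW w) / p)) / p := by gcongr
      _ = _ := by
        field_simp
        ring
  refine (sum_le_sum key).trans ?_
  rw [← mul_sum, sum_add_distrib, ← mul_sum, ← mul_sum]
  have f2 := mass_inv_sq le_rfl (P.filter (fun p : ℕ => (p : ℝ) < (x : ℝ) ^ η))
    fun q hq => (hP q (mem_filter.1 hq).1).one_lt
  rw [Nat.cast_one, div_one] at f2
  have f4 := mul_le_mul_of_nonneg_left f2 (Real.exp_pos (B0 / cW w)).le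
  calc _ ≤ cW w * (3 * (η * Real.log x)) := mul_le_mul_of_nonneg_left (by linarith) hc.le
    _ = _ := by
      unfold LL
      ring

theorem tiny_ev (M : ℕ) {η : ℝ} (hK : 0 ≤ K) (hη : 0 < η) (hη1 : η ≤ 1) {w : ℕ} (hw : 1 ≤ w) :
    ∀ᶠ x : ℕ in atTop, ∀ (P : Finset ℕ) (R : ℝ) (α : ℕ → ℝ), K ≤ w → (∀ q ∈ P, q.Prime ∧ w < q) →
      0 < R → ∑ p ∈ P.filter (fun p : ℕ => (p : ℝ) < (x : ℝ) ^ η),
        ∑ U ∈ P.powerset, fz M R α p U * rw K U ≤ 54 * M * η * LL w x := by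
  obtain ⟨B0, hB0, hB⟩ := sum_fz w hw
  filter_upwards [tiny_sum hη hη1 hB0 w] with x hx P R α hKw hP hR
  refine (Finset.sum_le_sum fun p hp => hB K P p M R α hK hKw hP (mem_filter.1 hp).1 hR).trans ?_
  rw [← Finset.mul_sum]
  refine (mul_le_mul_of_nonneg_left (hx P fun q hq => (hP q hq).1) (by positivity)).trans
    (le_of_eq ?_)
  ring

theorem tiny_mul {x s t u : ℝ} (hx : 1 ≤ x) (hst : s + t ≤ u) : x ^ s * x ^ t ≤ x ^ u := by
  rw [← Real.rpow_add (by linarith)]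
  exact Real.rpow_le_rpow_of_exponent_le hx hst

/-- If `n + h i` is not rough then a prime `p < x ^ η` of `Ps w x` divides it (`Gd.mem_P`), so the sum is at
most `∑ p, ∑ n, Aw (Zt i p Zc) n ^ 2` (`aw_zt`). `asy_fix` with `f = fz` (level
`x ^ η * x ^ θ ≤ x ^ (7 / 16)`: `lev_zt`, `lev_zc`, `Lev.mono`), `sum_fz`, `tiny_sum`; take
`54 K M η ≤ ε / 2`; the errors are at most `x ^ (η + 15 / 16)`, as in `fund_tail`. -/
theorem tiny (ι : Type) [Fintype ι] [DecidableEq ι] (M : ℕ) {ε : ℝ} (hε : 0 < ε) :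
    ∃ η : ℝ, 0 < η ∧ η ≤ 1 / 64 ∧ ∀ (h : ι → ℕ) (γ θ : ℝ) (α : ℕ → ℝ) (F : (ι → ℕ) → ℝ),
      Function.Injective h → 0 < γ → 0 ≤ θ → θ ≤ 1 / 4 → Stp M α F → Evn h γ fun w x a X => ∀ i : ι,
        ∑ n ∈ (Iw w x a X).filter (fun n => ¬ Rough ((x : ℝ) ^ η) (n + h i)),
          Aw (Ps w x) h (Zc M F ((x : ℝ) ^ θ) α) n ^ 2 ≤
          ε * (X / primorial w * LL w x ^ Fintype.card ι) := by
  obtain ⟨K, hK, hfix⟩ := asy_fix ι
  have hK0 : 0 ≤ K := by linarith
  have hC : 0 < 54 * K * (M + 1) := by positivity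
  obtain ⟨η, hη, hη1, hη2⟩ : ∃ η : ℝ, 0 < η ∧ η ≤ 1 / 64 ∧ 54 * K * (M + 1) * η ≤ ε / 2 := by
    refine ⟨min (1 / 64) (ε / 2 / (54 * K * (M + 1))), lt_min (by norm_num) (by positivity),
      min_le_left _ _, ?_⟩
    rw [← le_div_iff₀' hC]
    exact min_le_right _ _
  refine ⟨η, hη, hη1, fun h γ θ α F hinj hγ hθ hθ1 hF => ?_⟩
  have e1 := evn_x (h := h) (γ := γ)
    ((eventually_ge_atTop 1).mono fun w hw => tiny_ev M hK0 hη (by linarith) hw)
  have e2 := ev_small h hγ (δ := 1 / 32) (ε := ε / 2) (by norm_num) (by positivity)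
  refine (((((hfix h γ hinj).and e1).and e2).and (evn_div h γ K one_pos)).and
    (ev_gd hinj γ one_pos 0)).mono ?_
  rintro w x a X ha - hXx ⟨⟨⟨⟨h1, h2⟩, h3⟩, h4, -⟩, G, hG, -⟩ i
  have hx := ev_one_le hG
  have hR := hG.one_le_rpow hθ
  set y : ℝ := (x : ℝ) ^ η with hy
  set R : ℝ := (x : ℝ) ^ θ with hR0
  set S : Finset ℕ := (Ps w x).filter (fun p : ℕ => (p : ℝ) < y) with hS
  have hS1 : ∀ p ∈ S, 1 ≤ p ∧ (p : ℝ) < y := fun p hp =>
    ⟨(hG.prime p (Finset.mem_filter.1 hp).1).one_le, (Finset.mem_filter.1 hp).2⟩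
  have hL1 : 1 ≤ LL w x := hG.L1
  have hX : (0 : ℝ) ≤ X / primorial w := by positivity
  have k0 : ∑ n ∈ (Iw w x a X).filter (fun n => ¬ Rough y (n + h i)),
      Aw (Ps w x) h (Zc M F R α) n ^ 2 ≤
      ∑ p ∈ S, ∑ n ∈ Iw w x a X, Aw (Ps w x) h (Zt i p (Zc M F R α)) n ^ 2 := by
    rw [Finset.sum_comm, Finset.sum_filter]
    refine Finset.sum_le_sum fun n hn => ?_
    by_cases hr : Rough y (n + h i)
    · rw [if_neg (not_not.2 hr)]
      exact Finset.sum_nonneg fun _ _ => sq_nonneg _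
    · rw [if_pos hr]
      unfold Rough at hr
      push Not at hr
      obtain ⟨q, hq, hd, hlt⟩ := hr
      have hqP := hG.mem_P hXx (ha i) hn hq hd
      refine le_trans (le_of_eq ?_) (Finset.single_le_sum
        (f := fun p => Aw (Ps w x) h (Zt i p (Zc M F R α)) n ^ 2) (fun _ _ => sq_nonneg _)
        (mem_filter.2 ⟨hqP, hlt⟩ : q ∈ S))
      rw [aw_zt hqP hq.two_le, ind, if_pos hd, one_mul]
  have k1 : ∀ p ∈ S, ∑ n ∈ Iw w x a X, Aw (Ps w x) h (Zt i p (Zc M F R α)) n ^ 2 ≤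
      X / primorial w * (K * LL w x ^ (Fintype.card ι - 1)) *
        (∑ T ∈ (Ps w x).powerset, fz M R α p T * rw K T) + (x : ℝ) ^ (15 / 16 : ℝ) := by
    intro p hp
    obtain ⟨hp1, hpy⟩ := hS1 p hp
    have hlev : Lev (Zt i p (Zc M F R α)) ((x : ℝ) ^ (7 / 16 : ℝ)) :=
      (lev_zt hp1 (lev_zc hF hR) i).mono
        ((mul_le_mul_of_nonneg_right hpy.le (by linarith)).trans (tiny_mul hx (by linarith)))
    refine (h1 _ i (fz M R α p) (fun T => (abs_zt_zc hF hp1 R i T).1)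
      (fun T => (abs_zt_zc hF hp1 R i T).2) (fun T => sum_nonneg fun _ _ => abs_nonneg _)
      hlev).trans (le_of_eq ?_)
    ring
  have k2 := h2 (Ps w x) R α h4 hG.sh.pr (by linarith)
  have k3 : (S.card : ℝ) ≤ y :=
    erra_card_le S (by positivity) fun p hp => ⟨(hS1 p hp).1, (hS1 p hp).2.le⟩
  have k4 : (S.card : ℝ) * (x : ℝ) ^ (15 / 16 : ℝ) ≤
      ε / 2 * (X / primorial w * LL w x ^ Fintype.card ι) :=
    calc (S.card : ℝ) * (x : ℝ) ^ (15 / 16 : ℝ) ≤ y * (x : ℝ) ^ (15 / 16 : ℝ) :=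
          mul_le_mul_of_nonneg_right k3 (by positivity)
      _ ≤ (x : ℝ) ^ (1 - 1 / 32 : ℝ) := tiny_mul hx (by linarith)
      _ ≤ ε / 2 * (X / (primorial w * LL w x)) := h3
      _ ≤ _ := mul_le_mul_of_nonneg_left (le_main X _ hL1) (by positivity)
  have k5 : LL w x ^ Fintype.card ι = LL w x ^ (Fintype.card ι - 1) * LL w x := by
    rw [← pow_succ, Nat.sub_add_cancel (Fintype.card_pos_iff.2 ⟨i⟩)]
  have k6 : X / primorial w * (K * LL w x ^ (Fintype.card ι - 1)) *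
      (∑ p ∈ S, ∑ T ∈ (Ps w x).powerset, fz M R α p T * rw K T) ≤
      ε / 2 * (X / primorial w * LL w x ^ Fintype.card ι) := by
    have k7 : 54 * K * M * η ≤ ε / 2 := by nlinarith [mul_pos (by linarith : 0 < K) hη]
    refine (mul_le_mul_of_nonneg_left k2 (by positivity)).trans ((le_of_eq ?_).trans
      (mul_le_mul_of_nonneg_right k7 (by positivity)))
    rw [k5]
    ring
  refine k0.trans ((Finset.sum_le_sum k1).trans ?_)
  rw [Finset.sum_add_distrib, ← Finset.mul_sum, Finset.sum_const, nsmul_eq_mul]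
  linarith

end Pool.Agent.Lib.MP_c03ca8_nt.H
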