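import Pool.Agent.Lib.MP_c03ca8_nt.H.PL
import Pool.Agent.Lib.MP_c03ca8_nt.H.CellB
import Pool.Agent.Lib.MP_c03ca8_nt.H.Tiny
import Pool.Agent.Lib.MP_c03ca8_nt.H.GdD

set_option autoImplicit false

noncomputable section

namespace Pool.Agent.Lib.MP_c03ca8_nt.H

open Finset Filter Q
open P3 (Rough om xi Xi bxB bil Adm)
open scoped Classical

/-! One interval, with the number of good integers. Model: `H/Main.lean` (`main_one`). -/

variable {ι : Type} [Fintype ι] [DecidableEq ι]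

theorem mainc_zl {P : Finset ℕ} (hP : ∀ q ∈ P, q.Prime) {m : ℕ} (h1 : 1 ≤ m) :
    ∑ U ∈ P.powerset, ∏ q ∈ U, |zl q m| ≤ 2 ^ om m * mert P := by
  rw [← prod_one_add]
  have h2 : ∏ q ∈ P, (1 + |zl q m|) ≤ ∏ q ∈ P, ((if q ∣ m then (2 : ℝ) else 1) * (1 + uu q)) := by
    refine prod_le_prod (fun q _ => by positivity) fun q hq => ?_
    have hu := uu_pos (hP q hq).two_le
    unfold zl
    split_ifs
    · rw [abs_neg, abs_one]
      linarith
    · rw [one_mul]
      exact le_of_eq (congrArg _ (abs_of_pos hu))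
  have h3 : ∏ q ∈ P, (if q ∣ m then (2 : ℝ) else 1) ≤ 2 ^ om m := by
    rw [← prod_filter, prod_const]
    refine pow_le_pow_right₀ (by norm_num) (card_le_card fun q hq => ?_)
    exact Nat.mem_primeFactors.2 ⟨hP q (mem_filter.1 hq).1, (mem_filter.1 hq).2, by omega⟩
  rw [prod_mul_distrib, ← mert_eq] at h2
  exact h2.trans (mul_le_mul_of_nonneg_right h3 (by linarith [one_le_mert hP]))

/-- As `abs_aw_le`. -/
theorem abs_aw_om {P : Finset ℕ} (hP : ∀ q ∈ P, q.Prime) {h : ι → ℕ} {Z : (ι → Finset ℕ) → ℝ}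
    (hZ : ∀ T, |Z T| ≤ 1) {n : ℕ} (hn : ∀ l, 1 ≤ n + h l) :
    |Aw P h Z n| ≤ ∏ l, (2 ^ om (n + h l) * mert P) := by
  unfold Aw
  refine (abs_sum_le_sum_abs _ _).trans ?_
  have h1 : ∀ T ∈ Tu ι P, |Z T * ∏ l, ∏ q ∈ T l, zl q (n + h l)| ≤
      ∏ l, ∏ q ∈ T l, |zl q (n + h l)| := by
    intro T _
    rw [abs_mul, abs_prod]
    simp only [abs_prod]
    exact mul_le_of_le_one_left
      (prod_nonneg fun l _ => prod_nonneg fun q _ => abs_nonneg _) (hZ T)
  refine (sum_le_sum h1).trans ?_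
  unfold Tu
  rw [← prod_univ_sum (fun _ : ι => P.powerset) (fun l U => ∏ q ∈ U, |zl q (n + h l)|)]
  exact prod_le_prod (fun l _ => sum_nonneg fun U _ => prod_nonneg fun q _ => abs_nonneg _)
    fun l _ => mainc_zl hP (hn l)

/-- `abs_aw_om`, `P3.om_le` with `ν = 1`, `H = x`, `Gd.mem`, `Gd.mL`. -/
theorem aw_rough (ι : Type) [Fintype ι] [DecidableEq ι] {η : ℝ} (hη : 0 < η) : ∃ C : ℝ, 0 < C ∧
    ∀ (h : ι → ℕ) (γ : ℝ), Function.Injective h → Evn h γ fun w x a X =>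
      ∀ Z : (ι → Finset ℕ) → ℝ, (∀ T, |Z T| ≤ 1) → ∀ n ∈ ar h ((x : ℝ) ^ η) (Iw w x a X),
        Aw (Ps w x) h Z n ^ 2 ≤ C * LL w x ^ (2 * Fintype.card ι) := by
  have hC := one_le_Cm
  refine ⟨(2 ^ ⌈2 * 1 / η⌉₊ * Cm) ^ (2 * Fintype.card ι), by positivity, fun h γ hinj => ?_⟩
  refine (ev_gd hinj γ one_pos 0).mono ?_
  rintro w x a X - - hX ⟨G, hG, -⟩ Z hZ n hn
  obtain ⟨hnI, hr⟩ := mem_filter.1 hn
  have hx : (3 : ℝ) ≤ x := by
    have := hG.wx
    have := hG.sh.w10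
    exact_mod_cast (show 3 ≤ x by omega)
  have hL := hG.L1
  have hm := one_le_mert hG.prime
  have h1 := abs_aw_om hG.prime hZ fun l => (hG.mem hX hnI l).2.1
  have h2 : ∏ l, ((2 : ℝ) ^ om (n + h l) * mert (Ps w x)) ≤
      (2 ^ ⌈2 * 1 / η⌉₊ * Cm * LL w x) ^ Fintype.card ι := by
    rw [← card_univ, ← prod_const]
    refine prod_le_prod (fun l _ => by positivity) fun l _ => ?_
    have h3 := P3.om_le one_pos hη (by linarith) (Real.rpow_one _) hx (hG.mem hX hnI l).2.1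
      (hG.mem hX hnI l).2.2 (hr l)
    rw [mul_assoc]
    exact mul_le_mul (pow_le_pow_right₀ (by norm_num) h3) hG.mL (by linarith) (by positivity)
  calc Aw (Ps w x) h Z n ^ 2 = |Aw (Ps w x) h Z n| ^ 2 := (sq_abs _).symm
    _ ≤ ((2 ^ ⌈2 * 1 / η⌉₊ * Cm * LL w x) ^ Fintype.card ι) ^ 2 :=
        pow_le_pow_left₀ (abs_nonneg _) (h1.trans h2) 2
    _ = _ := by rw [← pow_mul, mul_comm (Fintype.card ι) 2, mul_pow]

/-- The number of prime forms is at most `m`, unless `n` is good or some form is not rough, and it is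
always at most `k`. -/
theorem cnt_pt (I : Finset ℕ) (h : ι → ℕ) (m : ℕ) (y : ℝ) (f : ℕ → ℝ) (hf : ∀ n, 0 ≤ f n) :
    ∑ i, ∑ n ∈ prm I (h i), f n ≤ m * ∑ n ∈ I, f n + Fintype.card ι * ∑ n ∈ gd h m y I, f n +
      Fintype.card ι * ∑ l, ∑ n ∈ I.filter (fun n => ¬ Rough y (n + h l)), f n := by
  unfold prm gd
  simp only [sum_filter]
  rw [sum_comm, sum_comm (s := univ) (t := I), mul_sum, mul_sum, mul_sum, ← sum_add_distrib,
    ← sum_add_distrib]
  refine sum_le_sum fun n _ => ?_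
  have hn := hf n
  have e : ∑ i, (if (n + h i).Prime then f n else 0) =
      ((univ.filter fun l => (n + h l).Prime).card : ℝ) * f n := by
    rw [← sum_filter, sum_const, nsmul_eq_mul]
  have hk : ((univ.filter fun l => (n + h l).Prime).card : ℝ) ≤ Fintype.card ι := by
    exact_mod_cast card_le_univ _
  have hk' := mul_le_mul_of_nonneg_right hk hn
  have hs : 0 ≤ ∑ l, (if ¬ Rough y (n + h l) then f n else 0) :=
    sum_nonneg fun l _ => by split_ifs <;> first | exact hn | exact le_rfl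
  have hm : 0 ≤ (m : ℝ) * f n := by positivity
  have hk0 : (0 : ℝ) ≤ Fintype.card ι := Nat.cast_nonneg _
  have hks := mul_nonneg hk0 hs
  rw [e]
  by_cases h1 : ∀ l, Rough y (n + h l)
  · by_cases h2 : m + 1 ≤ (univ.filter fun l => (n + h l).Prime).card
    · rw [if_pos ⟨h1, h2⟩]
      linarith
    · rw [if_neg fun h' => h2 h'.2]
      have h3 : ((univ.filter fun l => (n + h l).Prime).card : ℝ) ≤ m := by
        exact_mod_cast (by omega : (univ.filter fun l => (n + h l).Prime).card ≤ m)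
      have := mul_le_mul_of_nonneg_right h3 hn
      linarith
  · rw [if_neg fun h' => h1 h'.1]
    obtain ⟨l, hl⟩ := not_forall.1 h1
    have h3 : f n ≤ ∑ l, (if ¬ Rough y (n + h l) then f n else 0) := by
      refine le_trans (le_of_eq (if_pos hl).symm) (single_le_sum
        (f := fun l => if ¬ Rough y (n + h l) then f n else 0) (fun l _ => ?_) (mem_univ l))
      split_ifs <;> first | exact hn | exact le_rfl
    have := mul_le_mul_of_nonneg_left h3 hk0
    linarith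

/-- As `main_one`, with `cnt_pt` in place of `main_count`. Take `ε` with `k * k * ε` at most the gap in `hn`,
`η` from `tiny`, `C` from `aw_rough`. With `S = X / W * L ^ k`:
`(θ L) ^ (k + 1) ∑ J i * card ≤ θ ^ (k + 1) A S + k C L ^ (2 k) card gd`. Divide by `(θ L) ^ (k + 1)`;
`W_LL`, `L ≤ log x`, `L ^ (2 k) ≤ L ^ (k + 1) * log x ^ (k - 1)` (if `ι` is empty the left side is `0` and
`0 ≤ A`). -/
theorem main_cnt {M : ℕ} {α : ℕ → ℝ} {F : (ι → ℕ) → ℝ} (hF : Stp M α F) {m : ℕ} {θ t A : ℝ}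
    (hθ0 : 0 < θ) (hθ : θ < 1 / 4) (ht : 0 < t)
    (hn : m * (θ ^ Fintype.card ι * (Iv M F (len α) + t) + t) + Fintype.card ι * t <
      θ ^ (Fintype.card ι + 1) * A) : ∃ η C : ℝ, 0 < η ∧ 0 < C ∧ ∀ (h : ι → ℕ) (γ : ℝ),
    Function.Injective h → 0 < γ → Evn h γ fun w x a X =>
      ∑ i, max (Jv M F (len α) i - t) 0 * (prm (Iw w x a X) (h i)).card ≤
        A * (X / (Nat.totient (primorial w) * Real.log x)) +
          C * Real.log x ^ (Fintype.card ι - 1) * (gd h m ((x : ℝ) ^ η) (Iw w x a X)).card := by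
  obtain ⟨g, hg⟩ : ∃ g, g = θ ^ (Fintype.card ι + 1) * A -
      (m * (θ ^ Fintype.card ι * (Iv M F (len α) + t) + t) + Fintype.card ι * t) := ⟨_, rfl⟩
  have hg0 : 0 < g := by linarith
  have hk0 : (0 : ℝ) ≤ Fintype.card ι := Nat.cast_nonneg _
  have hε : 0 < g / ((Fintype.card ι : ℝ) * Fintype.card ι + 1) := by positivity
  have hεg : (Fintype.card ι : ℝ) * (Fintype.card ι *
      (g / ((Fintype.card ι : ℝ) * Fintype.card ι + 1))) ≤ g := by
    rw [← mul_assoc, ← mul_div_assoc, div_le_iff₀ (by positivity)]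
    nlinarith
  obtain ⟨η, hη, -, H1⟩ := tiny ι M hε
  generalize g / ((Fintype.card ι : ℝ) * Fintype.card ι + 1) = ε at hε hεg H1
  obtain ⟨C0, hC0, H2⟩ := aw_rough ι hη
  have hθk : 0 < θ ^ (Fintype.card ι + 1) := pow_pos hθ0 _
  refine ⟨η, Fintype.card ι * C0 / θ ^ (Fintype.card ι + 1) + 1, hη, by positivity,
    fun h γ hinj hγ => ?_⟩
  have hx2 : Evn h γ fun _ x _ _ => 2 ≤ x :=
    evn_x (p := fun _ x => 2 ≤ x) (Eventually.of_forall fun _ => eventually_ge_atTop 2)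
  refine ((((((asy_all hinj hγ ht).and (s2_lower hinj hγ hθ0.le hθ ht)).and
    (evn_x (cell_main hF hθ0 (by linarith) ht))).and hx2).and
    (H1 h γ θ α F hinj hγ hθ0.le hθ.le hF)).and (H2 h γ hinj)).mono ?_
  rintro w x a X - hX - ⟨⟨⟨⟨⟨h1, h2⟩, h3, h4⟩, h5⟩, h6⟩, h7⟩
  have hx : (2 : ℝ) ≤ x := by exact_mod_cast h5
  have hx1 : (1 : ℝ) ≤ x := by linarith
  have hlog : 0 < Real.log x := Real.log_pos (by linarith)
  have hL : 0 < LL w x := mul_pos (cW_pos w) hlog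
  have hLl := ev_LL_le w (x := x) (by omega)
  have hW : (0 : ℝ) < primorial w := by exact_mod_cast primorial_pos w
  have hX0 : (0 : ℝ) < X := lt_of_lt_of_le (mul_pos hγ (by linarith)) hX
  have hR : 1 ≤ (x : ℝ) ^ θ := Real.one_le_rpow hx1 hθ0.le
  have hlev := lev_zc hF hR
  have hZ := abs_zc_le hF ((x : ℝ) ^ θ)
  have u1 := (abs_le.1 (h1 _ univ (bd_univ hZ)
    (hlev.mono (Real.rpow_le_rpow_of_exponent_le hx1 (by linarith))))).2
  rw [card_univ] at u1
  rw [← W_LL]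
  have l1 := fun i => h2 i _ hZ hlev
  have r1 := h7 _ hZ
  generalize Zc M F ((x : ℝ) ^ θ) α = Z at u1 l1 h3 h4 h6 r1
  have hS : 0 < X / primorial w * LL w x ^ Fintype.card ι := by positivity
  have u2 : ∑ n ∈ Iw w x a X, Aw (Ps w x) h Z n ^ 2 ≤ X / primorial w * LL w x ^ Fintype.card ι *
      (θ ^ Fintype.card ι * (Iv M F (len α) + t) + t) := by
    have := mul_le_mul_of_nonneg_left h3 (div_pos hX0 hW).le
    rw [mul_pow] at this
    linarith
  have l2 : (θ * LL w x) ^ (Fintype.card ι + 1) *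
      ∑ i, max (Jv M F (len α) i - t) 0 * (prm (Iw w x a X) (h i)).card -
      Fintype.card ι * (t * (X / primorial w * LL w x ^ Fintype.card ι)) ≤
      ∑ i, ∑ n ∈ prm (Iw w x a X) (h i), Aw (Ps w x) h Z n ^ 2 := by
    rw [mul_sum, ← card_univ (α := ι), ← nsmul_eq_mul, ← sum_const, ← sum_sub_distrib, card_univ]
    refine sum_le_sum fun i _ => le_trans ?_ (l1 i)
    have := mul_le_mul_of_nonneg_left (h4 i) (Nat.cast_nonneg (prm (Iw w x a X) (h i)).card)
    linarith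
  have c1 := cnt_pt (Iw w x a X) h m ((x : ℝ) ^ η) (fun n => Aw (Ps w x) h Z n ^ 2)
    fun _ => sq_nonneg _
  have u3 := mul_le_mul_of_nonneg_left u2 (Nat.cast_nonneg (α := ℝ) m)
  have u4 : ∑ n ∈ gd h m ((x : ℝ) ^ η) (Iw w x a X), Aw (Ps w x) h Z n ^ 2 ≤
      (gd h m ((x : ℝ) ^ η) (Iw w x a X)).card * (C0 * LL w x ^ (2 * Fintype.card ι)) := by
    rw [← nsmul_eq_mul, ← sum_const]
    exact sum_le_sum fun n hn => r1 n (mem_filter.2 ⟨(mem_filter.1 hn).1, (mem_filter.1 hn).2.1⟩)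
  have u5 : ∑ l, ∑ n ∈ (Iw w x a X).filter (fun n => ¬ Rough ((x : ℝ) ^ η) (n + h l)),
      Aw (Ps w x) h Z n ^ 2 ≤
      Fintype.card ι * (ε * (X / primorial w * LL w x ^ Fintype.card ι)) := by
    rw [← card_univ (α := ι), ← nsmul_eq_mul, ← sum_const, card_univ]
    exact sum_le_sum fun i _ => h6 i
  have u6 := mul_le_mul_of_nonneg_left u4 hk0
  have u7 := mul_le_mul_of_nonneg_left u5 hk0
  have u8 := mul_le_mul_of_nonneg_right hεg hS.le
  have u9 : (Fintype.card ι : ℝ) * LL w x ^ (2 * Fintype.card ι) ≤ Fintype.card ι *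
      (LL w x ^ (Fintype.card ι + 1) * Real.log x ^ (Fintype.card ι - 1)) := by
    rcases Nat.eq_zero_or_pos (Fintype.card ι) with h0 | h0
    · rw [h0]
      simp
    · refine mul_le_mul_of_nonneg_left ?_ hk0
      rw [show 2 * Fintype.card ι = Fintype.card ι + 1 + (Fintype.card ι - 1) by omega,
        pow_add _ (Fintype.card ι + 1)]
      exact mul_le_mul_of_nonneg_left (pow_le_pow_left₀ hL.le hLl _) (by positivity)
  have hc0 : (0 : ℝ) ≤ (gd h m ((x : ℝ) ^ η) (Iw w x a X)).card := Nat.cast_nonneg _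
  have u10 := mul_le_mul_of_nonneg_left u9 (mul_nonneg hc0 hC0.le)
  have u11 : 0 ≤ (θ * LL w x) ^ (Fintype.card ι + 1) * (Real.log x ^ (Fintype.card ι - 1) *
      (gd h m ((x : ℝ) ^ η) (Iw w x a X)).card) := by positivity
  refine le_of_mul_le_mul_left ?_ (pow_pos (mul_pos hθ0 hL) (Fintype.card ι + 1))
  have e1 : (θ * LL w x) ^ (Fintype.card ι + 1) * (A * (X / (primorial w * LL w x)) +
      (Fintype.card ι * C0 / θ ^ (Fintype.card ι + 1) + 1) * Real.log x ^ (Fintype.card ι - 1) *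
        (gd h m ((x : ℝ) ^ η) (Iw w x a X)).card) =
      θ ^ (Fintype.card ι + 1) * A * (X / primorial w * LL w x ^ Fintype.card ι) +
      (gd h m ((x : ℝ) ^ η) (Iw w x a X)).card * C0 * (Fintype.card ι *
        (LL w x ^ (Fintype.card ι + 1) * Real.log x ^ (Fintype.card ι - 1))) +
      (θ * LL w x) ^ (Fintype.card ι + 1) * (Real.log x ^ (Fintype.card ι - 1) *
        (gd h m ((x : ℝ) ^ η) (Iw w x a X)).card) := by
    rw [mul_pow, pow_succ (LL w x)]
    field_simp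
    ring
  rw [e1]
  rw [hg] at u8
  linarith

end Pool.Agent.Lib.MP_c03ca8_nt.H
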