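import Pool.Agent.Lib.MP_c03ca8_nt.H.CoreC
import Pool.Agent.Lib.MP_c03ca8_nt.H.FifC
import Pool.Agent.Lib.MP_c03ca8_nt.H.ProbB

set_option autoImplicit false

noncomputable section

namespace Pool.Agent.Lib.MP_c03ca8_nt.H

open Finset Filter Q
open P3 (Rough om xi Xi bxB bil Adm)
open scoped Classical

/-! Assembly. -/

/-- An admissible set with `k` elements in `[0, D]`. -/
def Tup (k D : ℕ) : Prop := ∃ H : Finset ℕ, k ≤ H.card ∧ (∀ b ∈ H, b ≤ D) ∧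
  ∀ p : ℕ, p.Prime → p ≤ k → ∃ a, ∀ b ∈ H, ¬ p ∣ a + b

theorem four_of_card {S : Finset ℕ} (h : 4 ≤ S.card) :
    ∃ p ∈ S, ∃ q ∈ S, ∃ r ∈ S, ∃ s ∈ S, p < q ∧ q < r ∧ r < s := by
  let e := S.orderEmbOfCardLe h
  exact ⟨e 0, S.orderEmbOfCardLe_mem h 0, e 1, S.orderEmbOfCardLe_mem h 1, e 2,
    S.orderEmbOfCardLe_mem h 2, e 3, S.orderEmbOfCardLe_mem h 3, e.strictMono (by decide),
    e.strictMono (by decide), e.strictMono (by decide)⟩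

theorem four_of_ok {D : Dat} {n D0 : ℕ} (hD : D.OK n 12) (hT : Tup (n + 1) D0) :
    ∃ c : ℝ, 0 < c ∧ ∃ N0 : ℕ, ∀ N : ℕ, N0 ≤ N →
      c * N ≤ Set.ncard {n : ℕ | 1 ≤ n ∧ n ≤ N ∧ ∃ p q r s : ℕ, p.Prime ∧ q.Prime ∧ r.Prime ∧ s.Prime ∧
        n ^ 5 < p ∧ p < q ∧ q < r ∧ r < s ∧ s < (n + 1) ^ 5 ∧ s ≤ p + D0} := by
  obtain ⟨H, hc, hb, adm⟩ := hT
  obtain ⟨H', hs, hc'⟩ := Finset.exists_subset_card_eq hc
  have hV : Var {b // b ∈ H'} (4 * (3 : ℕ)) :=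
    var_of_ok (by convert hD using 1; norm_num) (by positivity) (by simpa using hc')
  have h1 := many hV (fun b => b.1) Subtype.val_injective fun p hp => by
    by_cases h : p ≤ n + 1
    · obtain ⟨a, ha⟩ := adm p hp h
      exact ⟨a, fun l => ha l.1 (hs l.2)⟩
    · obtain ⟨a, ha⟩ := adm_large H' (p := p) (by omega)
      exact ⟨a, fun l => ha l.1 l.2⟩
  obtain ⟨c, hc0, N0, hN⟩ := fifth Subtype.val_injective h1
  refine ⟨c, hc0, N0, fun N hN0 => (hN N hN0).trans ?_⟩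
  rw [← Set.ncard_coe_finset]
  refine Nat.cast_le.2 (Set.ncard_le_ncard (fun v hv => ?_)
    ((Set.finite_Icc 1 N).subset fun v hv => ⟨hv.1, hv.2.1⟩))
  obtain ⟨hv1, u, hu, hl, h4⟩ := Finset.mem_filter.1 (Finset.mem_coe.1 hv)
  rw [Finset.mem_Icc] at hv1
  have hinj : Function.Injective fun l : {b // b ∈ H'} => u + l.1 := fun l l' e =>
    Subtype.ext (Nat.add_left_cancel e)
  rw [← Finset.card_image_of_injective _ hinj] at h4
  obtain ⟨p, hp, q, hq, r, hr, s, hs', h1, h2, h3⟩ := four_of_card h4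
  simp only [Finset.mem_image, Finset.mem_filter, Finset.mem_univ, true_and] at hp hq hr hs'
  obtain ⟨a1, p1, rfl⟩ := hp
  obtain ⟨a2, p2, rfl⟩ := hq
  obtain ⟨a3, p3, rfl⟩ := hr
  obtain ⟨a4, p4, rfl⟩ := hs'
  have := hb a4.1 (hs a4.2)
  exact ⟨hv1.1, hv1.2, _, _, _, _, p1, p2, p3, p4, by omega, h1, h2, h3, hl a4, by omega⟩

end Pool.Agent.Lib.MP_c03ca8_nt.H
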