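import Pool.Agent.Lib.MP_c03ca8_nt.H.Triv
import Pool.Agent.Lib.MP_c03ca8_nt.H.Dec
import Pool.Agent.Lib.MP_c03ca8_nt.H.Ev

set_option autoImplicit false

noncomputable section

namespace Pool.Agent.Lib.MP_c03ca8_nt.H

open Finset Filter Q
open P3 (Rough om xi Xi bxB bil Adm)
open scoped Classical

/-! Sums of the square of a weight over a class. -/

variable {ι : Type} [Fintype ι] [DecidableEq ι] {h : ι → ℕ} {γ : ℝ}

theorem asy_md (hinj : Function.Injective h) (γ : ℝ) {ε : ℝ} (hε : 0 < ε)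
    {v : ℕ → Finset ι → Finset ι → ℝ} (hv : ∀ P : Finset ℕ, (∀ q ∈ P, q.Prime) → Near P v) :
    Evn h γ fun w x _ _ => ∀ (Z : (ι → Finset ℕ) → ℝ) (A : Finset ι), Bd Z A →
      |Md (Ps w x) v Z - Dg (Ps w x) Z| ≤ ε * LL w x ^ A.card := by
  obtain ⟨K, hK1, hK⟩ := dec ι
  refine ((ev_gd hinj γ one_pos 0).and (evn_div h γ (K * Cm ^ Fintype.card ι) hε)).mono ?_
  rintro w x a X - - - ⟨⟨G, hG, -⟩, -, hw⟩ Z A hZ
  have h1 := hK w (Ps w x) hG.sh.w10 hG.sh.pr v (hv _ hG.prime) Z A hZ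
  have h2 := hG.mert_pow (Finset.card_le_univ A)
  have hL : 0 ≤ LL w x ^ A.card := pow_nonneg (zero_le_one.trans hG.L1) _
  have hK0 : 0 ≤ K / w := div_nonneg (zero_le_one.trans hK1) (Nat.cast_nonneg w)
  calc _ ≤ K / w * mert (Ps w x) ^ A.card := h1
    _ ≤ K / w * (Cm ^ Fintype.card ι * LL w x ^ A.card) := mul_le_mul_of_nonneg_left h2 hK0
    _ = K * Cm ^ Fintype.card ι / w * LL w x ^ A.card := by ring
    _ ≤ ε * LL w x ^ A.card := mul_le_mul_of_nonneg_right hw hL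

theorem asy_triv {w x : ℕ} {G : ℝ} (hG : Gd h w x G)
    (hj : G ^ (6 * Fintype.card ι) ≤ (x : ℝ) ^ (1 / 16 : ℝ)) (a X : ℕ) {Z : (ι → Finset ℕ) → ℝ}
    (hZ : ∀ T, |Z T| ≤ 1) (hL : Lev Z ((x : ℝ) ^ (7 / 16 : ℝ))) :
    |∑ n ∈ Iw w x a X, Aw (Ps w x) h Z n ^ 2 - X / primorial w * Md (Ps w x) vA Z| ≤
      (x : ℝ) ^ (15 / 16 : ℝ) := by
  have hx0 : (0 : ℝ) ≤ x := Nat.cast_nonneg x
  have h1 := triv hG.tame hG.sh x X (primorial w) a (primorial_pos w) hG.cop hZ hL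
    (Real.rpow_nonneg hx0 _) (hG.rpow_le (by norm_num))
  refine h1.trans ?_
  have h2 : (x : ℝ) ^ (15 / 16 : ℝ) = (x : ℝ) ^ (1 / 16 : ℝ) * ((x : ℝ) ^ (7 / 16 : ℝ)) ^ 2 := by
    rw [sq, ← Real.rpow_add' hx0 (by norm_num), ← Real.rpow_add' hx0 (by norm_num)]
    norm_num
  rw [h2]
  exact mul_le_mul_of_nonneg_right hj (sq_nonneg _)

theorem asy_rw_nonneg {K : ℝ} (hK : 0 ≤ K) (T : Finset ℕ) : 0 ≤ rw K T :=
  Finset.prod_nonneg fun q _ => by positivity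

theorem asy_rw_mono {K K' : ℝ} (hK : 0 ≤ K) (hKK : K ≤ K') (T : Finset ℕ) : rw K T ≤ rw K' T :=
  Finset.prod_le_prod (fun q _ => by positivity) fun q _ => by gcongr

/-- `triv` (error `G ^ (6 k) x ^ (7 / 8) ≤ x ^ (15 / 16)`, `ev_gd`, `ev_small`, `le_main`), `dec` with
`near_vA`, `Gd.mert_pow`, `evn_div`. -/
theorem asy_all (hinj : Function.Injective h) (hγ : 0 < γ) {ε : ℝ} (hε : 0 < ε) :
    Evn h γ fun w x a X => ∀ (Z : (ι → Finset ℕ) → ℝ) (A : Finset ι), Bd Z A →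
      Lev Z ((x : ℝ) ^ (7 / 16 : ℝ)) →
      |∑ n ∈ Iw w x a X, Aw (Ps w x) h Z n ^ 2 - X / primorial w * Dg (Ps w x) Z| ≤
        ε * (X / primorial w * LL w x ^ A.card) := by
  have hε2 : 0 < ε / 2 := half_pos hε
  refine (((ev_gd hinj γ (δ := 1 / 16) (by norm_num) (6 * Fintype.card ι)).and
    (ev_small h hγ (δ := 1 / 16) (by norm_num) hε2)).and
    (asy_md hinj γ hε2 fun P hP => near_vA hP)).mono ?_
  rintro w x a X - - - ⟨⟨⟨G, hG, hj⟩, hs⟩, hm⟩ Z A hZ hL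
  have h1 := asy_triv hG hj a X hZ.bd hL
  have h2 := hm Z A hZ
  have h3 := le_main (w := w) (x := x) X A.card hG.L1
  have hc : (0 : ℝ) ≤ X / primorial w := by positivity
  have h4 : (x : ℝ) ^ (15 / 16 : ℝ) ≤ ε / 2 * (X / primorial w * LL w x ^ A.card) := by
    have e : (1 - 1 / 16 : ℝ) = 15 / 16 := by norm_num
    rw [e] at hs
    exact hs.trans (mul_le_mul_of_nonneg_left h3 hε2.le)
  have h5 : |(X : ℝ) / primorial w * Md (Ps w x) vA Z - X / primorial w * Dg (Ps w x) Z| ≤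
      ε / 2 * (X / primorial w * LL w x ^ A.card) := by
    rw [← mul_sub, abs_mul, abs_of_nonneg hc]
    calc _ ≤ (X : ℝ) / primorial w * (ε / 2 * LL w x ^ A.card) := mul_le_mul_of_nonneg_left h2 hc
      _ = _ := by ring
  have h6 := abs_sub_le (∑ n ∈ Iw w x a X, Aw (Ps w x) h Z n ^ 2)
    ((X : ℝ) / primorial w * Md (Ps w x) vA Z) (X / primorial w * Dg (Ps w x) Z)
  linarith

/-- `triv` and `abs_fix` with `near_vA`. -/
theorem asy_fix (ι : Type) [Fintype ι] [DecidableEq ι] : ∃ K : ℝ, 1 ≤ K ∧ ∀ (h : ι → ℕ) (γ : ℝ),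
    Function.Injective h → Evn h γ fun w x a X => ∀ (Z : (ι → Finset ℕ) → ℝ) (i : ι)
      (f : Finset ℕ → ℝ), (∀ T, |Z T| ≤ 1) → (∀ T, |Z T| ≤ f (T i)) → (∀ T, 0 ≤ f T) →
      Lev Z ((x : ℝ) ^ (7 / 16 : ℝ)) →
      ∑ n ∈ Iw w x a X, Aw (Ps w x) h Z n ^ 2 ≤
        X / primorial w * (K * LL w x ^ (Fintype.card ι - 1) * ∑ T ∈ (Ps w x).powerset, f T * rw K T) +
          (x : ℝ) ^ (15 / 16 : ℝ) := by
  obtain ⟨K, hK1, hK⟩ := abs_fix ι
  have hC : 1 ≤ Cm ^ Fintype.card ι := one_le_pow₀ one_le_Cm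
  have hK0 : 0 ≤ K := zero_le_one.trans hK1
  have hKK : K ≤ K * Cm ^ Fintype.card ι := le_mul_of_one_le_right hK0 hC
  refine ⟨K * Cm ^ Fintype.card ι, hK1.trans hKK, fun h γ hinj => ?_⟩
  refine (ev_gd hinj γ (δ := 1 / 16) (by norm_num) (6 * Fintype.card ι)).mono ?_
  rintro w x a X - - - ⟨G, hG, hj⟩ Z i f hZ hf hf0 hL
  have h1 := asy_triv hG hj a X hZ hL
  have h2 := hK w (Ps w x) hG.sh.w10 hG.sh.pr vA (near_vA hG.prime) Z i f hZ hf hf0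
  have h3 := hG.mert_pow (Nat.sub_le (Fintype.card ι) 1)
  have hc : (0 : ℝ) ≤ X / primorial w := by positivity
  have hL0 : 0 ≤ LL w x ^ (Fintype.card ι - 1) := pow_nonneg (zero_le_one.trans hG.L1) _
  have h4 : ∑ T ∈ (Ps w x).powerset, f T * rw K T ≤
      ∑ T ∈ (Ps w x).powerset, f T * rw (K * Cm ^ Fintype.card ι) T :=
    Finset.sum_le_sum fun T _ => mul_le_mul_of_nonneg_left (asy_rw_mono hK0 hKK T) (hf0 T)
  have h5 : 0 ≤ ∑ T ∈ (Ps w x).powerset, f T * rw K T :=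
    Finset.sum_nonneg fun T _ => mul_nonneg (hf0 T) (asy_rw_nonneg hK0 T)
  have h6 : Md (Ps w x) vA Z ≤ K * Cm ^ Fintype.card ι * LL w x ^ (Fintype.card ι - 1) *
      ∑ T ∈ (Ps w x).powerset, f T * rw (K * Cm ^ Fintype.card ι) T := by
    refine (le_abs_self _).trans (h2.trans ?_)
    refine mul_le_mul ?_ h4 h5 (mul_nonneg (hK0.trans hKK) hL0)
    rw [mul_assoc]
    exact mul_le_mul_of_nonneg_left h3 hK0
  have h7 := mul_le_mul_of_nonneg_left h6 hc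
  have h8 := (abs_le.1 h1).2
  linarith

/-- `dec` with `near_vU`. -/
theorem asy_unit (hinj : Function.Injective h) (γ : ℝ) {ε : ℝ} (hε : 0 < ε) :
    Evn h γ fun w x _ _ => ∀ (Z : (ι → Finset ℕ) → ℝ) (A : Finset ι), Bd Z A →
      |Md (Ps w x) vU Z - Dg (Ps w x) Z| ≤ ε * LL w x ^ A.card :=
  asy_md hinj γ hε fun _ hP => near_vU hP

end Pool.Agent.Lib.MP_c03ca8_nt.H
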