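import Pool.Agent.Lib.MP_c03ca8_nt.H.Cfg
import Pool.Agent.Lib.MP_c03ca8_nt.H.Loc

set_option autoImplicit false

noncomputable section

namespace Pool.Agent.Lib.MP_c03ca8_nt.H

open Finset Filter Q
open P3 (Rough om xi Xi bxB bil Adm)
open scoped Classical

/-! The trivial level of distribution. -/

variable {ι : Type} [Fintype ι] [DecidableEq ι] {Y G R : ℝ} {h : ι → ℕ} {w : ℕ} {P : Finset ℕ}
  {Z : (ι → Finset ℕ) → ℝ}

theorem triv_sub {T : ι → Finset ℕ} (hT : T ∈ Tu ι P) (l : ι) : T l ⊆ P :=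
  mem_powerset.1 (Fintype.mem_piFinset.1 hT l)

theorem Lev.le (hL : Lev Z R) (hP : ∀ q ∈ P, q.Prime) {T : ι → Finset ℕ} (hT : T ∈ Tu ι P)
    (h0 : Z T ≠ 0) (l : ι) : (pr (T l) : ℝ) ≤ R := by
  refine le_trans ?_ (hL T h0)
  have h1 : pr (T l) ≤ ∏ l', pr (T l') :=
    Nat.le_of_dvd (prod_pos fun l' _ => pr_pos fun q hq => hP q (triv_sub hT l' hq))
      (dvd_prod_of_mem (fun l' => pr (T l')) (mem_univ l))
  exact_mod_cast h1

/-- `|Z T| ≤ R / ∏ l, pr (T l)` on the support, `Finset.prod_univ_sum`, `sum_pr_le`, `sum_inv_le`. -/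
theorem sum_abs_le (hG : Tame Y G) (hP : ∀ q ∈ P, q.Prime) (hZ : ∀ T, |Z T| ≤ 1) (hL : Lev Z R)
    (hR0 : 0 ≤ R) (hR : R ≤ Y) : ∑ T ∈ Tu ι P, |Z T| ≤ R * G ^ Fintype.card ι := by
  set φ : Finset ℕ → ℝ := fun U => if (pr U : ℝ) ≤ Y then 1 / (pr U : ℝ) else 0 with hφ
  have hφ0 : ∀ U, 0 ≤ φ U := fun U => by
    simp only [hφ]
    split_ifs
    · positivity
    · exact le_rfl
  have h1 : ∀ T ∈ Tu ι P, |Z T| ≤ R * ∏ l, φ (T l) := by
    intro T hT
    by_cases h0 : Z T = 0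
    · rw [h0, abs_zero]
      exact mul_nonneg hR0 (prod_nonneg fun l _ => hφ0 _)
    · have e : ∏ l, φ (T l) = 1 / ∏ l, (pr (T l) : ℝ) := by
        rw [one_div, ← prod_inv_distrib]
        refine prod_congr rfl fun l _ => ?_
        simp only [hφ]
        rw [if_pos ((hL.le hP hT h0 l).trans hR), one_div]
      have hpos : (0 : ℝ) < ∏ l, (pr (T l) : ℝ) := prod_pos fun l _ => by
        exact_mod_cast pr_pos fun q hq => hP q (triv_sub hT l hq)
      rw [e, mul_one_div, le_div_iff₀ hpos]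
      calc |Z T| * ∏ l, (pr (T l) : ℝ) ≤ 1 * R := mul_le_mul (hZ T) (hL T h0) hpos.le zero_le_one
        _ = R := one_mul R
  have h2 : ∑ U ∈ P.powerset, φ U ≤ G := by
    simp only [hφ]
    rw [← sum_filter]
    refine (sum_pr_le hP (fun r => 1 / (r : ℝ)) (fun r => by positivity)
      ((P.powerset.filter fun U => (pr U : ℝ) ≤ Y).image pr) _ (filter_subset _ _)
      fun U hU => mem_image_of_mem _ hU).trans (sum_inv_le hG _ fun n hn => ?_)
    obtain ⟨U, hU, rfl⟩ := mem_image.1 hn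
    exact (mem_filter.1 hU).2
  refine (sum_le_sum h1).trans ?_
  rw [← mul_sum]
  refine mul_le_mul_of_nonneg_left ?_ hR0
  unfold Tu
  rw [← prod_univ_sum (fun _ : ι => P.powerset) (fun _ U => φ U), prod_const, card_univ]
  exact pow_le_pow_left₀ (sum_nonneg fun U _ => hφ0 U) h2 _

theorem triv_three (hG : Tame Y G) (hP : ∀ q ∈ P, q.Prime) (hL : Lev Z R) (hR : R ≤ Y)
    {T : ι → Finset ℕ} (hT : T ∈ Tu ι P) :
    |Z T| * ∏ q ∈ P, (3 : ℝ) ^ (cf T q).card ≤ |Z T| * G ^ (2 * Fintype.card ι) := by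
  by_cases h0 : Z T = 0
  · rw [h0, abs_zero, zero_mul, zero_mul]
  refine mul_le_mul_of_nonneg_left ?_ (abs_nonneg _)
  have e := prod_cf hT fun _ _ => (3 : ℝ)
  simp only [prod_const] at e
  rw [e, pow_mul, ← card_univ, ← prod_const]
  refine prod_le_prod (fun l _ => by positivity) fun l _ => ?_
  have h2 := expand_pow_le hG (fun q hq => hP q (triv_sub hT l hq)) ((hL.le hP hT h0 l).trans hR)
  calc (3 : ℝ) ^ (T l).card ≤ (2 * 2) ^ (T l).card :=
        pow_le_pow_left₀ (by norm_num) (by norm_num) _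
    _ = ((2 : ℝ) ^ (T l).card) ^ 2 := by rw [mul_pow, sq]
    _ ≤ G ^ 2 := pow_le_pow_left₀ (by positivity) h2 _

/-- `aw_sq`, `sum_loc`, `loc_err`; `3 ^ |T l| ≤ G ^ 2` (`expand_pow_le`), `sum_abs_le`. -/
theorem triv (hG : Tame Y G) (hs : Sh h w P) (x X Q a : ℕ) (hQ : 0 < Q)
    (hc : ∀ q ∈ P, Nat.Coprime Q q) (hZ : ∀ T, |Z T| ≤ 1) (hL : Lev Z R) (hR0 : 0 ≤ R) (hR : R ≤ Y) :
    |∑ n ∈ cls x X Q a, Aw P h Z n ^ 2 - X / Q * Md P vA Z| ≤ G ^ (6 * Fintype.card ι) * R ^ 2 := by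
  have hP : ∀ q ∈ P, q.Prime := fun q hq => (hs.pr q hq).1
  have hG0 : (0 : ℝ) ≤ G := by linarith [hG.ten]
  have e : ∑ n ∈ cls x X Q a, Aw P h Z n ^ 2 - X / Q * Md P vA Z =
      ∑ T ∈ Tu ι P, ∑ T' ∈ Tu ι P, Z T * Z T' *
        (∑ n ∈ cls x X Q a, ∏ q ∈ P, (vl q (cf T q) (cf T' q) none +
          ∑ l, ee q (cf T q) (cf T' q) l * ind q (n + h l)) -
        X / Q * ∏ q ∈ P, (vl q (cf T q) (cf T' q) none +
          ∑ l, ee q (cf T q) (cf T' q) l / q)) := by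
    rw [sum_congr rfl fun n _ => aw_sq hs Z n, sum_comm]
    unfold Md
    rw [mul_sum, ← sum_sub_distrib]
    refine sum_congr rfl fun T _ => ?_
    rw [sum_comm, mul_sum, ← sum_sub_distrib]
    refine sum_congr rfl fun T' _ => ?_
    have e' : ∏ q ∈ P, vA q (cf T q) (cf T' q) = ∏ q ∈ P, (vl q (cf T q) (cf T' q) none +
        ∑ l, ee q (cf T q) (cf T' q) l / q) := by
      refine prod_congr rfl fun q _ => ?_
      unfold vA av
      rw [mul_sum]
      congr 1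
      exact sum_congr rfl fun l _ => by ring
    rw [← mul_sum, e']
    ring
  set b : (ι → Finset ℕ) → ℝ := fun T => |Z T| * ∏ q ∈ P, (3 : ℝ) ^ (cf T q).card with hb
  have hb0 : ∀ T, 0 ≤ b T := fun T => mul_nonneg (abs_nonneg _) (by positivity)
  have hbs : ∑ T ∈ Tu ι P, b T ≤ R * G ^ (3 * Fintype.card ι) := by
    refine (sum_le_sum fun T hT => triv_three hG hP hL hR hT).trans ?_
    rw [← sum_mul]
    calc (∑ T ∈ Tu ι P, |Z T|) * G ^ (2 * Fintype.card ι)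
        ≤ R * G ^ Fintype.card ι * G ^ (2 * Fintype.card ι) :=
          mul_le_mul_of_nonneg_right (sum_abs_le hG hP hZ hL hR0 hR) (by positivity)
      _ = R * G ^ (3 * Fintype.card ι) := by ring
  rw [e]
  calc _ ≤ ∑ T ∈ Tu ι P, ∑ T' ∈ Tu ι P, b T * b T' := by
        refine (abs_sum_le_sum_abs _ _).trans (sum_le_sum fun T _ => ?_)
        refine (abs_sum_le_sum_abs _ _).trans (sum_le_sum fun T' _ => ?_)
        have h1 := sum_loc h (fun q => vl q (cf T q) (cf T' q) none)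
          (fun q l => ee q (cf T q) (cf T' q) l) x X P hP Q a hQ hc
        have h2 : ∏ q ∈ P, (|vl q (cf T q) (cf T' q) none| + ∑ l, |ee q (cf T q) (cf T' q) l|) ≤
            ∏ q ∈ P, ((3 : ℝ) ^ (cf T q).card * 3 ^ (cf T' q).card) :=
          prod_le_prod (fun q _ => add_nonneg (abs_nonneg _) (sum_nonneg fun l _ => abs_nonneg _))
            fun q hq => loc_err (hP q hq).two_le _ _
        rw [prod_mul_distrib] at h2
        rw [abs_mul, abs_mul]
        refine (mul_le_mul_of_nonneg_left (h1.trans h2) (by positivity)).trans (le_of_eq ?_)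
        simp only [hb]
        ring
    _ = (∑ T ∈ Tu ι P, b T) ^ 2 := by rw [sq, sum_mul_sum]
    _ ≤ (R * G ^ (3 * Fintype.card ι)) ^ 2 :=
        pow_le_pow_left₀ (sum_nonneg fun T _ => hb0 T) hbs 2
    _ = G ^ (6 * Fintype.card ι) * R ^ 2 := by ring

theorem triv_zl (hG : Tame Y G) (hP : ∀ q ∈ P, q.Prime) (hm : mert P ≤ G) {m : ℕ} (h1 : 1 ≤ m)
    (hY : (m : ℝ) ≤ Y) : ∑ U ∈ P.powerset, ∏ q ∈ U, |zl q m| ≤ G ^ 2 := by
  have hG0 : (0 : ℝ) ≤ G := by linarith [hG.ten]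
  rw [← prod_one_add]
  have h2 : ∏ q ∈ P, (1 + |zl q m|) ≤ ∏ q ∈ P, ((if q ∣ m then (2 : ℝ) else 1) * (1 + uu q)) := by
    refine prod_le_prod (fun q _ => by positivity) fun q hq => ?_
    have hu := uu_pos (hP q hq).two_le
    unfold zl
    split_ifs
    · rw [abs_neg, abs_one]
      linarith
    · rw [one_mul]
      exact le_of_eq (congrArg _ (abs_of_pos hu))
  have h3 : ∏ q ∈ P, (if q ∣ m then (2 : ℝ) else 1) ≤ G := by
    rw [← prod_filter, prod_const]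
    refine le_trans (pow_le_pow_right₀ (by norm_num) (card_le_card fun q hq => ?_)) (hG.pow m h1 hY)
    exact Nat.mem_primeFactors.2 ⟨hP q (mem_filter.1 hq).1, (mem_filter.1 hq).2, by omega⟩
  rw [prod_mul_distrib, ← mert_eq] at h2
  rw [sq]
  exact h2.trans (mul_le_mul h3 hm (by linarith [one_le_mert hP]) hG0)

/-- `∑ T ⊆ P, ∏ q ∈ T, |zl q m| = ∏ q ∈ P, (1 + |zl q m|) ≤ 2 ^ ω m * mert P`. -/
theorem abs_aw_le (hG : Tame Y G) (hP : ∀ q ∈ P, q.Prime) (hm : mert P ≤ G) (hZ : ∀ T, |Z T| ≤ 1)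
    {n : ℕ} (hn : ∀ l, 1 ≤ n + h l ∧ ((n + h l : ℕ) : ℝ) ≤ Y) :
    |Aw P h Z n| ≤ G ^ (2 * Fintype.card ι) := by
  unfold Aw
  refine (abs_sum_le_sum_abs _ _).trans ?_
  have h1 : ∀ T ∈ Tu ι P, |Z T * ∏ l, ∏ q ∈ T l, zl q (n + h l)| ≤
      ∏ l, ∏ q ∈ T l, |zl q (n + h l)| := by
    intro T _
    rw [abs_mul, abs_prod]
    simp only [abs_prod]
    exact mul_le_of_le_one_left
      (prod_nonneg fun l _ => prod_nonneg fun q _ => abs_nonneg _) (hZ T)
  refine (sum_le_sum h1).trans ?_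
  unfold Tu
  rw [← prod_univ_sum (fun _ : ι => P.powerset) (fun l U => ∏ q ∈ U, |zl q (n + h l)|), pow_mul,
    ← card_univ, ← prod_const]
  exact prod_le_prod (fun l _ => sum_nonneg fun U _ => prod_nonneg fun q _ => abs_nonneg _)
    fun l _ => triv_zl hG hP hm (hn l).1 (hn l).2

theorem aw_smul (P : Finset ℕ) (h : ι → ℕ) (Z : (ι → Finset ℕ) → ℝ) (c : ℝ) (n : ℕ) :
    Aw P h (fun T => c * Z T) n = c * Aw P h Z n := by
  unfold Aw
  rw [mul_sum]
  exact sum_congr rfl fun T _ => by ring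

theorem dg_smul (P : Finset ℕ) (Z : (ι → Finset ℕ) → ℝ) (c : ℝ) :
    Dg P (fun T => c * Z T) = c ^ 2 * Dg P Z := by
  unfold Dg
  rw [mul_sum]
  exact sum_congr rfl fun T _ => by ring

end Pool.Agent.Lib.MP_c03ca8_nt.H
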