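import Pool.Agent.Lib.MP_c03ca8_nt.H.Bx
import Pool.Agent.Lib.MP_c03ca8_nt.H.Triv
import Pool.Agent.Lib.MP_c03ca8_nt.H.Ev
import Pool.Agent.Lib.MP_c03ca8_nt.P3.Btx

set_option autoImplicit false

noncomputable section

namespace Pool.Agent.Lib.MP_c03ca8_nt.H

open Finset Filter Q
open P3 (Rough om xi Xi bxB bil Adm)
open scoped Classical

/-! The bilinear term, with explicit parameters. Model: team-store `p3_BtA.lean`. -/

theorem btd_sum {ι : Type} [Fintype ι] [DecidableEq ι] (P : Finset ℕ) (h : ι → ℕ) (i : ι)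
    (Z : (ι → Finset ℕ) → ℝ) (W a x X : ℕ) (f : ℕ → ℝ) :
    ∑ n ∈ cls x X W a, f (n + h i) * (Aw P h Z n ^ 2 - Md P vU Z) =
      ∑ m ∈ Ioc (x + h i) (x + h i + X), f m * Th P h i Z W (a + h i) m := by
  have e : x + h i + X = x + X + h i := by ring
  rw [e, ← Finset.map_add_right_Ioc, Finset.sum_map]
  unfold cls
  rw [Finset.sum_filter]
  refine Finset.sum_congr rfl fun n _ => ?_
  simp only [addRightEmbedding_apply, Th, Nat.add_sub_cancel]
  by_cases hn : n ≡ a [MOD W]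
  · rw [if_pos hn, if_pos (hn.add_right _)]
  · rw [if_neg hn, if_neg fun h' => hn (Nat.ModEq.add_right_cancel' _ h'), mul_zero]

theorem btd_three {x X W u y Q : ℝ} (hu : 10 ≤ u) (hX0 : 0 ≤ X) (hX : X ≤ x) (hy : u ^ 13 ≤ y)
    (hWu : W ≤ u) (hQ0 : 0 ≤ Q) (hQ : Q * u ^ 5 ≤ 2 * √x) :
    √(X * (3 * x / y)) + X / √(1 / u ^ 2 * y) + W * Q * √(X / (1 / u ^ 2)) ≤ 3 * (x / u ^ 2) := by
  have hu0 : 0 < u := by linarith
  have hu1 : 1 ≤ u := by linarith
  have hx0 : 0 ≤ x := hX0.trans hX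
  have hy0 : 0 < y := lt_of_lt_of_le (by positivity) hy
  have t1 : √(X * (3 * x / y)) ≤ x / u ^ 2 := by
    refine Real.sqrt_le_iff.2 ⟨by positivity, ?_⟩
    have h1 : 3 * x / y ≤ x / u ^ 4 := by
      rw [div_le_div_iff₀ hy0 (by positivity)]
      calc 3 * x * u ^ 4 ≤ u * x * u ^ 4 := by
            have : (3 : ℝ) ≤ u := by linarith
            gcongr
        _ = x * u ^ 5 := by ring
        _ ≤ x * u ^ 13 := by gcongr; norm_num
        _ ≤ x * y := by gcongr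
    calc X * (3 * x / y) ≤ x * (x / u ^ 4) := by gcongr
      _ = (x / u ^ 2) ^ 2 := by field_simp
  have t2 : X / √(1 / u ^ 2 * y) ≤ x / u ^ 2 := by
    have h1 : u ^ 2 ≤ √(1 / u ^ 2 * y) := by
      refine Real.le_sqrt_of_sq_le ?_
      rw [one_div_mul_eq_div, le_div_iff₀ (by positivity)]
      calc (u ^ 2) ^ 2 * u ^ 2 = u ^ 6 := by ring
        _ ≤ u ^ 13 := by gcongr; norm_num
        _ ≤ y := hy
    gcongr
  have t3 : W * Q * √(X / (1 / u ^ 2)) ≤ x / u ^ 2 := by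
    have h1 : X / (1 / u ^ 2) = X * u ^ 2 := by field_simp
    rw [h1, Real.sqrt_mul hX0, Real.sqrt_sq hu0.le, le_div_iff₀ (by positivity)]
    have h2 : √X ≤ √x := Real.sqrt_le_sqrt hX
    have h5 : Q * u ^ 4 ≤ √x := by
      have h6 : Q * u ^ 4 * 2 ≤ Q * u ^ 4 * u := by
        have : (2 : ℝ) ≤ u := by linarith
        gcongr
      have h7 : Q * u ^ 4 * u = Q * u ^ 5 := by ring
      linarith
    calc W * Q * (√X * u) * u ^ 2 ≤ u * Q * (√x * u) * u ^ 2 := by gcongr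
      _ = Q * u ^ 4 * √x := by ring
      _ ≤ √x * √x := by gcongr
      _ = x := Real.mul_self_sqrt hx0
  linarith

theorem btd_D {G W F u A : ℝ} (hG : 10 ≤ G) (hW0 : 0 ≤ W) (hWG : W ≤ G)
    (hA : G ^ 14 ≤ u) (hF0 : 0 ≤ F) (hF : F ≤ 2 * u ^ 2) (hA0 : A = W * F) :
    2 * G ^ 8 * u ^ 2 * A ^ 4 ≤ u ^ 11 := by
  have hG0 : 0 < G := by linarith
  have h32 : (32 : ℝ) ≤ G ^ 2 := by nlinarith
  subst hA0
  calc 2 * G ^ 8 * u ^ 2 * (W * F) ^ 4 ≤ 2 * G ^ 8 * u ^ 2 * (G * (2 * u ^ 2)) ^ 4 := by gcongr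
    _ = 32 * G ^ 12 * u ^ 10 := by ring
    _ ≤ G ^ 2 * G ^ 12 * u ^ 10 := by gcongr
    _ = G ^ 14 * u ^ 10 := by ring
    _ ≤ u * u ^ 10 := by gcongr
    _ = u ^ 11 := by ring

theorem btd_fin {x x' X W u y G a1 F S lg : ℝ} {j b : ℕ} (hu : 10 ≤ u) (hX0 : 0 ≤ X) (hX : X ≤ x)
    (hx' : x' * 2 ≤ 3 * x) (hux : u ^ 2 ≤ x) (hy : u ^ 13 ≤ y) (hW1 : 1 ≤ W) (hWG : W ≤ G)
    (hG : 10 ≤ G) (hA : G ^ (j + 4) ≤ u) (hB : G ^ (b + 2) ≤ u) (hF : u ^ 2 ≤ F)
    (hlg0 : 0 ≤ lg) (hlg : lg ≤ G) (hS : S ≤ 3 * (x / u ^ 2)) :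
    12 * (a1 + G ^ j * W / F + G ^ j / y) * X * lg + 4 * (G ^ j * W) * G * S +
      G ^ b * G * (4 * (1 / u ^ 2) * x' + 3 * x / y + 4) ≤ 12 * a1 * X * lg + 10 * x / u := by
  have hu0 : 0 < u := by linarith
  have hu1 : 1 ≤ u := by linarith
  have hW0 : 0 < W := by linarith
  have hG0 : 0 < G := by linarith
  have hx0 : 0 ≤ x := hX0.trans hX
  have hy2 : u ^ 2 ≤ y := le_trans (by gcongr; norm_num) hy
  have hy0 : 0 < y := lt_of_lt_of_le (by positivity) hy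
  have hF0 : 0 < F := lt_of_lt_of_le (by positivity) hF
  have h12 : (12 : ℝ) ≤ G ^ 2 := by nlinarith
  have hA1 : 12 * (G ^ j * W * G) ≤ u := by
    calc 12 * (G ^ j * W * G) ≤ G ^ 2 * (G ^ j * G * G) := by gcongr
      _ = G ^ (j + 4) := by ring
      _ ≤ u := hA
  have hA2 : 10 * (G ^ b * G) ≤ u := by
    calc 10 * (G ^ b * G) ≤ G * (G ^ b * G) := by gcongr
      _ = G ^ (b + 2) := by ring
      _ ≤ u := hB
  have hb : 12 * (G ^ j * W * G) * (x / u ^ 2) ≤ x / u := by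
    calc 12 * (G ^ j * W * G) * (x / u ^ 2) ≤ u * (x / u ^ 2) := by gcongr
      _ = x / u := by field_simp
  have t1 : 12 * (G ^ j * W / F * X * lg) ≤ x / u := by
    calc 12 * (G ^ j * W / F * X * lg) ≤ 12 * (G ^ j * W / u ^ 2 * x * G) := by gcongr
      _ = 12 * (G ^ j * W * G) * (x / u ^ 2) := by ring
      _ ≤ _ := hb
  have t2 : 12 * (G ^ j / y * X * lg) ≤ x / u := by
    have : G ^ j ≤ G ^ j * W := le_mul_of_one_le_right (by positivity) hW1
    calc 12 * (G ^ j / y * X * lg) ≤ 12 * (G ^ j * W / u ^ 2 * x * G) := by gcongr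
      _ = 12 * (G ^ j * W * G) * (x / u ^ 2) := by ring
      _ ≤ _ := hb
  have t3 : 4 * (G ^ j * W * G * S) ≤ x / u := by
    calc 4 * (G ^ j * W * G * S) ≤ 4 * (G ^ j * W * G * (3 * (x / u ^ 2))) := by gcongr
      _ = 12 * (G ^ j * W * G) * (x / u ^ 2) := by ring
      _ ≤ _ := hb
  have s1 : 1 / u ^ 2 * x' ≤ 2 * (x / u ^ 2) := by
    calc 1 / u ^ 2 * x' ≤ 1 / u ^ 2 * (2 * x) := by gcongr; linarith
      _ = 2 * (x / u ^ 2) := by field_simp
  have s2 : 3 * x / y ≤ 3 * (x / u ^ 2) := by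
    calc 3 * x / y ≤ 3 * x / u ^ 2 := by gcongr
      _ = 3 * (x / u ^ 2) := by field_simp
  have s3 : 1 ≤ x / u ^ 2 := by rwa [one_le_div (by positivity)]
  have t4 : G ^ b * G * (4 * (1 / u ^ 2) * x' + 3 * x / y + 4) ≤ 2 * (x / u) := by
    calc G ^ b * G * (4 * (1 / u ^ 2) * x' + 3 * x / y + 4) ≤ G ^ b * G * (20 * (x / u ^ 2)) := by
          gcongr; linarith
      _ = 2 * (10 * (G ^ b * G) * (x / u ^ 2)) := by ring
      _ ≤ 2 * (u * (x / u ^ 2)) := by gcongr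
      _ = 2 * (x / u) := by field_simp
  have h0 : 0 ≤ x / u := by positivity
  have h10 : 10 * x / u = 10 * (x / u) := by ring
  rw [h10]
  nlinarith

theorem btd_theta {ι : Type} [Fintype ι] [DecidableEq ι] {Kd G : ℝ} {h : ι → ℕ} {w x : ℕ}
    (hG : Gd h w x G) (hw : Kd ≤ w) {X : ℕ} {i : ι} {Z : (ι → Finset ℕ) → ℝ} (hX : X ≤ x)
    (hZ : Bd Z (univ.erase i))
    (hd : |Md (Ps w x) vU Z - Dg (Ps w x) Z| ≤ Kd / w * mert (Ps w x) ^ (univ.erase i).card)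
    (W b : ℕ) {m : ℕ} (hm : m ∈ Ioc (x + h i) (x + h i + X)) :
    |Th (Ps w x) h i Z W b m| ≤ G ^ (4 * Fintype.card ι + 1) := by
  have hG10 := hG.tame.ten
  have hG1 : 1 ≤ G := by linarith
  have hwx := hG.wx
  have hw10 := hG.sh.w10
  have hw0 : (0 : ℝ) < w := by exact_mod_cast (by omega : 0 < w)
  rw [mem_Ioc] at hm
  unfold Th
  split_ifs
  · have e1 := abs_aw_le hG.tame hG.prime hG.mG hZ.bd (h := h) (n := m - h i) fun l => by
      have := hG.sh.lt l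
      exact ⟨by omega, by exact_mod_cast (by omega : m - h i + h l ≤ 3 * x)⟩
    have e2 : Aw (Ps w x) h Z (m - h i) ^ 2 ≤ G ^ (4 * Fintype.card ι) := by
      calc Aw (Ps w x) h Z (m - h i) ^ 2 = |Aw (Ps w x) h Z (m - h i)| ^ 2 := (sq_abs _).symm
        _ ≤ (G ^ (2 * Fintype.card ι)) ^ 2 := by gcongr
        _ = G ^ (4 * Fintype.card ι) := by rw [← pow_mul]; congr 1; ring
    have hm1 := one_le_mert hG.prime
    have e3 : mert (Ps w x) ^ (univ.erase i).card ≤ G ^ (4 * Fintype.card ι) := by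
      have e4 : (univ.erase i).card ≤ 4 * Fintype.card ι := by
        have := Finset.card_le_univ (univ.erase i)
        omega
      calc mert (Ps w x) ^ (univ.erase i).card ≤ G ^ (univ.erase i).card := by
            gcongr
            exact hG.mG
        _ ≤ G ^ (4 * Fintype.card ι) := by gcongr
    have e5 : Kd / w * mert (Ps w x) ^ (univ.erase i).card ≤ G ^ (4 * Fintype.card ι) := by
      have e6 : Kd / w ≤ 1 := by rwa [div_le_one hw0]
      calc Kd / w * mert (Ps w x) ^ (univ.erase i).card ≤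
            1 * mert (Ps w x) ^ (univ.erase i).card := by gcongr
        _ ≤ _ := by rw [one_mul]; exact e3
    have e7 := dg_nonneg hG.prime Z
    have e8 := dg_le hG.prime hZ
    have e9 : G ^ (4 * Fintype.card ι) * 3 ≤ G ^ (4 * Fintype.card ι + 1) := by
      rw [pow_succ]
      have : 3 ≤ G := by linarith
      gcongr
    have e10 := sq_nonneg (Aw (Ps w x) h Z (m - h i))
    obtain ⟨d1, d2⟩ := abs_le.mp hd
    rw [abs_le]
    constructor <;> linarith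
  · rw [abs_zero]; positivity

/-- `P3.btx` on the interval `(x + h i, x + h i + X]` with `Θ = Th P h i Z W (a + h i)`, `Y = 3 x`,
`P2 = 3 x / y`, `γ = 1 / u ^ 2`, and the box bound `bx` with `Z1 = u`, `F0 = ⌈u ^ 2⌉₊ ≤ 2 u ^ 2`,
`Q = ⌈R ^ 2⌉₊ ≤ 2 R ^ 2 ≤ 2 √x / u ^ 5`. With `W ≤ G` and `G ^ j ≤ u`, `j` large: `D ≤ u ^ 11`,
`4 β G ≤ u`, `Bd * G ≤ u / 10` where `Bd = G ^ (4 k + 1)` (`abs_aw_le`, `dec`, `dg_le`; take `K` at least the
constant of `dec`), `1 + log (3 x) ≤ 3 log x` for the first term of `α` and `≤ G` for the others. A prime of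
the primorial is at most `w` (`Nat.Prime.dvd_primorial_iff` or `harm_coprime`). -/
theorem bt_det (ι : Type) [Fintype ι] [DecidableEq ι] : ∃ (K Z0 : ℝ) (j : ℕ), 0 < K ∧
    ∀ {h : ι → ℕ} {w x : ℕ} {G : ℝ}, Gd h w x G → K ≤ w → ∀ {a X : ℕ} {i : ι}
    {Z : (ι → Finset ℕ) → ℝ} {R u y : ℝ}, X ≤ x → Nat.Coprime (a + h i) (primorial w) →
    Bd Z (univ.erase i) → Lev Z R → 1 ≤ R → G ^ j ≤ u → Z0 ≤ u → u ^ 13 ≤ y → R ^ 4 * u ^ 10 ≤ x →
    x ≤ u * X → ∀ {B : ℕ → ℕ → ℝ}, Adm y B →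
    |∑ n ∈ Iw w x a X, bil y B (n + h i) * (Aw (Ps w x) h Z n ^ 2 - Md (Ps w x) vU Z)| ≤
      K * mert (Ps w x) ^ (Fintype.card ι - 1) * X * Real.log x /
        (w * Nat.totient (primorial w) * Real.log u ^ 2) + 10 * x / u := by
  obtain ⟨K, Z0, j, hK, hbx⟩ := bx ι
  obtain ⟨Kd, hKd, hdec⟩ := dec ι
  refine ⟨36 * K + Kd, Z0, j + 4 * Fintype.card ι + 14, by linarith, ?_⟩
  intro h w x G hG hKw a X i Z R u y hXx' hcop hZ hL hR hGu hZ0 hy13 hRx hxX B hB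
  have hG10 := hG.tame.ten
  have hG1 : 1 ≤ G := by linarith
  have hw10 := hG.sh.w10
  have hwx := hG.wx
  have hhi := hG.sh.lt i
  have hx10 : (10 : ℝ) ≤ x := by exact_mod_cast (by omega : 10 ≤ x)
  have hx0 : (0 : ℝ) < x := by linarith
  have hXx : (X : ℝ) ≤ x := by exact_mod_cast hXx'
  have hX0 : (0 : ℝ) ≤ X := Nat.cast_nonneg X
  have hW1 : (1 : ℝ) ≤ primorial w := by exact_mod_cast primorial_pos w
  have hw0 : (0 : ℝ) < w := by exact_mod_cast (by omega : 0 < w)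
  have hpow : ∀ n : ℕ, n ≤ j + 4 * Fintype.card ι + 14 → G ^ n ≤ u := fun n hn =>
    (pow_le_pow_right₀ hG1 hn).trans hGu
  have hGu1 : G ≤ u := by
    have := hpow 1 (by omega)
    rwa [pow_one] at this
  have hu10 : 10 ≤ u := hG10.trans hGu1
  have hu0 : 0 < u := by linarith
  have hu1 : 1 ≤ u := by linarith
  have hWu : (primorial w : ℝ) ≤ u := hG.WG.trans hGu1
  have huy : u < y := by
    refine lt_of_lt_of_le ?_ hy13
    exact lt_self_pow₀ (by linarith) (by norm_num)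
  have hy1 : 1 ≤ y := by linarith
  have hR2 : 1 ≤ R ^ 2 := one_le_pow₀ hR
  have f2 : R ^ 2 * u ^ 5 ≤ √(x : ℝ) := by
    refine Real.le_sqrt_of_sq_le ?_
    calc (R ^ 2 * u ^ 5) ^ 2 = R ^ 4 * u ^ 10 := by ring
      _ ≤ (x : ℝ) := hRx
  have hsx : √(x : ℝ) ≤ x := by
    rw [Real.sqrt_le_left hx0.le]; nlinarith
  have hu5 : u ^ 5 ≤ x := ((le_mul_of_one_le_left (by positivity) hR2).trans f2).trans hsx
  have hu2 : u ^ 2 ≤ x := le_trans (by gcongr; norm_num) hu5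
  have hm1 := one_le_mert hG.prime
  have hlx : 1 ≤ Real.log x := by
    rw [Real.le_log_iff_exp_le hx0]
    linarith [Real.exp_one_lt_d9]
  have hlog3 : Real.log (3 * (x : ℝ)) = Real.log 3 + Real.log x :=
    Real.log_mul (by norm_num) hx0.ne'
  have hl3 : 0 ≤ Real.log 3 := Real.log_nonneg (by norm_num)
  have hlg : 1 + Real.log (3 * (x : ℝ)) ≤ 3 * Real.log x := by
    have e1 : Real.log 3 ≤ Real.log x := Real.log_le_log (by norm_num) (by linarith)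
    rw [hlog3]; linarith
  have hlg0 : 0 ≤ 1 + Real.log (3 * (x : ℝ)) := by rw [hlog3]; linarith
  obtain ⟨F0, hF0⟩ : ∃ F0 : ℕ, F0 = ⌈u ^ 2⌉₊ := ⟨_, rfl⟩
  obtain ⟨Q, hQ⟩ : ∃ Q : ℕ, Q = ⌈R ^ 2⌉₊ := ⟨_, rfl⟩
  have hv2 : 1 ≤ u ^ 2 := one_le_pow₀ hu1
  have hF1 : u ^ 2 ≤ F0 := hF0 ▸ Nat.le_ceil _
  have hF2 : (F0 : ℝ) ≤ 2 * u ^ 2 := by
    have := Nat.ceil_lt_add_one (by positivity : (0 : ℝ) ≤ u ^ 2)
    rw [hF0]; linarith
  have hF3 : 1 ≤ F0 := by exact_mod_cast hv2.trans hF1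
  have hQ1 : R ^ 2 ≤ Q := hQ ▸ Nat.le_ceil _
  have hQ2 : (Q : ℝ) ≤ 2 * R ^ 2 := by
    have := Nat.ceil_lt_add_one (by positivity : (0 : ℝ) ≤ R ^ 2)
    rw [hQ]; linarith
  have hQ3 : (Q : ℝ) * u ^ 5 ≤ 2 * √(x : ℝ) := by
    calc (Q : ℝ) * u ^ 5 ≤ 2 * R ^ 2 * u ^ 5 := by gcongr
      _ = 2 * (R ^ 2 * u ^ 5) := by ring
      _ ≤ 2 * √(x : ℝ) := by gcongr
  have hWQ : ((primorial w * Q : ℕ) : ℝ) ≤ 3 * (x : ℝ) := by
    rw [Nat.cast_mul]
    calc (primorial w : ℝ) * Q ≤ u ^ 5 * Q := by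
          gcongr
          exact hWu.trans (le_self_pow₀ hu1 (by norm_num))
      _ = Q * u ^ 5 := mul_comm _ _
      _ ≤ 3 * (x : ℝ) := by linarith
  have hD : 2 * G ^ 8 * u ^ 2 * ((primorial w * F0 : ℕ) : ℝ) ^ 4 ≤ u ^ 11 :=
    btd_D hG10 (by linarith) hG.WG (hpow 14 (by omega)) (Nat.cast_nonneg _) hF2
      (Nat.cast_mul _ _)
  have hxi : ((x + h i : ℕ) : ℝ) * 2 ≤ 3 * (x : ℝ) := by
    exact_mod_cast (by omega : (x + h i) * 2 ≤ 3 * x)
  have hγy : u ^ 11 ≤ 1 / u ^ 2 * y := by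
    rw [one_div_mul_eq_div, le_div_iff₀ (by positivity)]
    calc u ^ 11 * u ^ 2 = u ^ 13 := by ring
      _ ≤ y := hy13
  have key := P3.btx (y := y) (P2 := 3 * (x : ℝ) / y) (γ := 1 / u ^ 2)
    (α := K * mert (Ps w x) ^ (Fintype.card ι - 1) /
      (w * Nat.totient (primorial w) * Real.log u ^ 2) + G ^ j * primorial w / F0 + G ^ j / y)
    (β := G ^ j * primorial w) (D := 2 * G ^ 8 * u ^ 2 * ((primorial w * F0 : ℕ) : ℝ) ^ 4)
    (Q := ((primorial w * Q : ℕ) : ℝ)) (Bd := G ^ (4 * Fintype.card ι + 1)) hG.tame (x + h i) X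
    (by omega) (by linarith) (Th (Ps w x) h i Z (primorial w) (a + h i)) (by positivity)
    (by rwa [div_le_one (by positivity)]) ((one_le_pow₀ hu1).trans hγy) (by positivity)
    (by positivity) (by positivity) (by positivity) (by positivity) (hD.trans hγy)
    (by
      have e1 : 3 * (x : ℝ) / y ≤ X / u ^ 11 := by
        rw [div_le_div_iff₀ (by linarith) (by positivity)]
        calc 3 * (x : ℝ) * u ^ 11 ≤ u * (u * X) * u ^ 11 := by
              have : (3 : ℝ) ≤ u := by linarith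
              gcongr
          _ = X * u ^ 13 := by ring
          _ ≤ X * y := by gcongr
      calc _ ≤ u ^ 11 * (X / u ^ 11) := by gcongr
        _ = X := by field_simp)
    (by
      rw [div_mul_cancel₀ _ (by linarith)]
      exact_mod_cast (by omega : x + h i + X ≤ 3 * x))
    (div_le_self (by positivity) hy1)
    (fun m hm => btd_theta hG (by linarith) hXx' hZ
      (hdec w (Ps w x) hw10 hG.sh.pr vU (near_vU hG.prime) Z _ hZ) _ _ hm)
    (fun J P0 Δ A B' b hJ hJp hAB hb hbr hpr =>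
      hbx hG.tame hG.sh (by linarith) hG.mG Q hZ hL hQ1 (primorial w) (a + h i) F0
        (primorial_pos w) hcop hG.cop hWQ hF3 (by linarith [hG.wG])
        (fun q hq hd => hq.dvd_primorial_iff.1 hd) hZ0 huy.le (by nlinarith) J P0 Δ A B' b hJ hJp
        hAB hb hbr fun p hp r hr' => by
          have := (mem_Ioc.1 (hpr p hp r hr')).2
          exact_mod_cast (by omega : p * r + w ≤ 3 * x)) hB
  unfold Iw
  rw [btd_sum (Ps w x) h i Z (primorial w) a x X (bil y B)]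
  refine key.trans ?_
  rw [Nat.cast_mul (primorial w) Q]
  have k1 := btd_three hu10 hX0 hXx hy13 hWu (Nat.cast_nonneg Q) hQ3
  have k2 := btd_fin (x' := ((x + h i : ℕ) : ℝ)) (j := j) (b := 4 * Fintype.card ι + 1)
    (a1 := K * mert (Ps w x) ^ (Fintype.card ι - 1) /
      (w * Nat.totient (primorial w) * Real.log u ^ 2)) hu10 hX0 hXx hxi hu2 hy13 hW1 hG.WG hG10
    (hpow _ (by omega)) (hpow _ (by omega)) hF1 hlg0 hG.tame.log k1
  have k3 : 12 * (K * mert (Ps w x) ^ (Fintype.card ι - 1) /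
      (w * Nat.totient (primorial w) * Real.log u ^ 2)) * X * (1 + Real.log (3 * (x : ℝ))) ≤
      (36 * K + Kd) * mert (Ps w x) ^ (Fintype.card ι - 1) * X * Real.log x /
        (w * Nat.totient (primorial w) * Real.log u ^ 2) := by
    calc 12 * (K * mert (Ps w x) ^ (Fintype.card ι - 1) /
          (w * Nat.totient (primorial w) * Real.log u ^ 2)) * X * (1 + Real.log (3 * (x : ℝ)))
        ≤ 12 * (K * mert (Ps w x) ^ (Fintype.card ι - 1) /
          (w * Nat.totient (primorial w) * Real.log u ^ 2)) * X * (3 * Real.log x) := by gcongr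
      _ = 36 * K * mert (Ps w x) ^ (Fintype.card ι - 1) * X * Real.log x /
          (w * Nat.totient (primorial w) * Real.log u ^ 2) := by ring
      _ ≤ _ := by gcongr; linarith
  linarith

end Pool.Agent.Lib.MP_c03ca8_nt.H
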