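import Pool.Agent.Lib.MP_c03ca8_nt.H.BtD

set_option autoImplicit false

noncomputable section

namespace Pool.Agent.Lib.MP_c03ca8_nt.H

open Finset Filter Q
open P3 (Rough om xi Xi bxB bil Adm)
open scoped Classical

/-! The bilinear term is negligible. -/

variable {ι : Type} [Fintype ι] [DecidableEq ι] {h : ι → ℕ} {γ : ℝ}

/-- `bt_det` with `u = x ^ κ`, `κ = min (η / 13) ((1 - 4 θ) / 10)`; `ev_gd`, `evn_rpow` (`Z0 ≤ u`,
`1 / γ ≤ u`), `ev_small` and `le_sz` for `10 x / u = 10 x ^ (1 - κ)`. The first term is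
`K / (w κ ^ 2) * mert ^ (k - 1) * X / (φ W log x)`; `W_LL`, `Gd.mert_pow`, `evn_div`. -/
theorem bt_ev (hinj : Function.Injective h) (hγ : 0 < γ) {θ η ε : ℝ} (hθ0 : 0 ≤ θ) (hθ : θ < 1 / 4)
    (hη : 0 < η) (hε : 0 < ε) : Evn h γ fun w x a X => ∀ (i : ι) (Z : (ι → Finset ℕ) → ℝ)
      (B : ℕ → ℕ → ℝ), Bd Z (univ.erase i) → Lev Z ((x : ℝ) ^ θ) → Adm ((x : ℝ) ^ η) B →
      |∑ n ∈ Iw w x a X, bil ((x : ℝ) ^ η) B (n + h i) *
        (Aw (Ps w x) h Z n ^ 2 - Md (Ps w x) vU Z)| ≤ ε * Sz ι w x X := by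
  obtain ⟨K, Z0, j, hK, H⟩ := bt_det ι
  obtain ⟨κ, hκ, k1, k2⟩ : ∃ κ : ℝ, 0 < κ ∧ κ * 13 ≤ η ∧ θ * 4 + κ * 10 ≤ 1 :=
    ⟨min (η / 13) ((1 - 4 * θ) / 10), lt_min (by positivity) (by linarith),
      by linarith [min_le_left (η / 13) ((1 - 4 * θ) / 10)],
      by linarith [min_le_right (η / 13) ((1 - 4 * θ) / 10)]⟩
  refine ((((ev_gd hinj γ hκ j).and (evn_rpow h γ (max Z0 (1 / γ)) hκ)).and
    (ev_small h hγ hκ (by positivity : 0 < ε / 20))).and ((evn_div h γ K one_pos).and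
    (evn_div h γ (K * Cm ^ (Fintype.card ι - 1) / κ ^ 2) (half_pos hε)))).mono ?_
  rintro w x a X ha h1 h2 ⟨⟨⟨⟨G, hG, h3⟩, h4, -⟩, h5⟩, ⟨h6, -⟩, -, h7⟩ i Z B hZ hR hB
  have hw := hG.sh.w10
  have hx := hG.wx
  have hx1 : (1 : ℝ) < x := by exact_mod_cast (by omega : 1 < x)
  have hx0 : (0 : ℝ) < x := by linarith
  have hw0 : (0 : ℝ) < w := by exact_mod_cast (by omega : 0 < w)
  have hu : 0 < (x : ℝ) ^ κ := Real.rpow_pos_of_pos hx0 κ
  refine (H hG h6 h2 (ha i) hZ hR (hG.one_le_rpow hθ0) h3 ((le_max_left _ _).trans h4) ?_ ?_ ?_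
    hB).trans ?_
  · rw [← Real.rpow_natCast, ← Real.rpow_mul hx0.le]
    exact Real.rpow_le_rpow_of_exponent_le hx1.le (by exact_mod_cast k1)
  · rw [← Real.rpow_natCast, ← Real.rpow_natCast, ← Real.rpow_mul hx0.le, ← Real.rpow_mul hx0.le,
      ← Real.rpow_add hx0]
    exact Real.rpow_le_self_of_one_le hx1.le (by exact_mod_cast k2)
  · have h8 := (div_le_iff₀ hγ).1 ((le_max_right _ _).trans h4)
    nlinarith [mul_le_mul_of_nonneg_left h1 hu.le]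
  have hl : 0 < Real.log x := Real.log_pos hx1
  have hφ : (0 : ℝ) < Nat.totient (primorial w) := by
    exact_mod_cast Nat.totient_pos.2 (primorial_pos w)
  have hL : 0 < LL w x := by linarith [hG.L1]
  have hC : 0 < Cm := by linarith [one_le_Cm]
  have e1 : 10 * (x : ℝ) / (x : ℝ) ^ κ ≤ ε / 2 * Sz ι w x X := by
    rw [Real.rpow_sub hx0, Real.rpow_one] at h5
    rw [mul_div_assoc]
    nlinarith [le_sz ι X hG.L1]
  have e2 : K * mert (Ps w x) ^ (Fintype.card ι - 1) * X * Real.log x /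
      (w * Nat.totient (primorial w) * Real.log ((x : ℝ) ^ κ) ^ 2) ≤ ε / 2 * Sz ι w x X :=
    calc _ ≤ K * (Cm ^ (Fintype.card ι - 1) * LL w x ^ (Fintype.card ι - 1)) * X * Real.log x /
          (w * Nat.totient (primorial w) * Real.log ((x : ℝ) ^ κ) ^ 2) := by
          gcongr
          exact hG.mert_pow le_rfl
      _ = K * Cm ^ (Fintype.card ι - 1) / κ ^ 2 / w * Sz ι w x X := by
          rw [Sz, W_LL, Real.log_rpow hx0]
          field_simp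
      _ ≤ _ := mul_le_mul_of_nonneg_right h7 (by unfold Sz; positivity)
  linarith

end Pool.Agent.Lib.MP_c03ca8_nt.H
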