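import Pool.Agent.Lib.MP_c03ca8_nt.H.Dec
import Pool.Agent.Lib.MP_c03ca8_nt.P3.ExG

set_option autoImplicit false

noncomputable section

namespace Pool.Agent.Lib.MP_c03ca8_nt.H

open Finset Filter Q
open P3 (Rough om xi Xi bxB bil Adm)
open scoped Classical

/-! Reduction to character sums. Model: team-store `p3_ExB.lean`. -/

theorem trb_two {ι : Type} [Fintype ι] [DecidableEq ι] {q : ℕ} (hq : 2 ≤ q) (A S S' : Finset ι) :
    ∑ l ∈ A, |ee q S S' l| ≤ 2 * Fintype.card ι := by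
  refine (sum_le_card_nsmul _ _ 2 fun l _ => abs_ee_le hq S S' l).trans ?_
  rw [nsmul_eq_mul, mul_comm]
  exact mul_le_mul_of_nonneg_left (Nat.cast_le.2 (card_le_univ A)) zero_le_two

theorem trb_le {ι : Type} [Fintype ι] [DecidableEq ι] {P : Finset ℕ} (hP : ∀ q ∈ P, q.Prime)
    {Z : (ι → Finset ℕ) → ℝ} {R : ℝ} (hZ : Lev Z R) {Q : ℕ} (hQ : R ^ 2 ≤ Q) {A : Finset ι}
    {U : Finset ℕ} (hU : U ⊆ P) {T T' : ι → Finset ℕ} (hT : T ∈ Tu ι P) (hT' : T' ∈ Tu ι P)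
    (h1 : Z T * Z T' ≠ 0) (h2 : ∏ q ∈ U, ∑ l ∈ A, |ee q (cf T q) (cf T' q) l| ≠ 0) :
    pr U ≤ Q := by
  have h3 : pr U ∣ (∏ l, pr (T l)) * ∏ l, pr (T' l) := by
    refine prod_primes_dvd _ (fun q hq => (hP q (hU hq)).prime) fun q hq => ?_
    obtain ⟨l, -, hl⟩ := exists_ne_zero_of_sum_ne_zero (prod_ne_zero_iff.1 h2 q hq)
    have d : ∀ S : ι → Finset ℕ, l ∈ cf S q → q ∣ ∏ l, pr (S l) := fun S hS =>
      (dvd_prod_of_mem (fun q => q) (mem_filter.1 hS).2).trans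
        (dvd_prod_of_mem (fun l => pr (S l)) (mem_univ l))
    by_cases a : l ∈ cf T q
    · exact (d T a).mul_right _
    by_cases b : l ∈ cf T' q
    · exact (d T' b).mul_left _
    exact absurd (by rw [ee_eq_zero a b, abs_zero]) hl
  have pos : ∀ S ∈ Tu ι P, 0 < ∏ l, pr (S l) := fun S hS => prod_pos fun l _ =>
    prod_pos fun q hq => (hP q (mem_powerset.1 (Fintype.mem_piFinset.1 hS l) hq)).pos
  have h4 := Nat.le_of_dvd (mul_pos (pos T hT) (pos T' hT')) h3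
  have a := hZ T (left_ne_zero_of_mul h1)
  have b := hZ T' (right_ne_zero_of_mul h1)
  rw [← Nat.cast_prod] at a b
  have h5 := mul_le_mul a b (Nat.cast_nonneg _) ((Nat.cast_nonneg _).trans a)
  rw [← Nat.cast_mul, ← sq] at h5
  exact h4.trans (Nat.cast_le.1 (h5.trans hQ))

theorem trb_sum (ι : Type) [Fintype ι] [DecidableEq ι] : ∃ K : ℝ, 1 ≤ K ∧ ∀ (w : ℕ) (P : Finset ℕ),
    10 ≤ w → (∀ q ∈ P, q.Prime ∧ w < q) → ∀ (Z : (ι → Finset ℕ) → ℝ) (A : Finset ι), Bd Z A →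
    ∀ U ⊆ P, wt U * ∑ T ∈ Tu ι P ×ˢ Tu ι P, |Z T.1 * Z T.2| *
      ((∏ q ∈ U, ∑ l ∈ A, |ee q (cf T.1 q) (cf T.2 q) l|) *
        ∏ q ∈ P \ U, |vU q (cf T.1 q) (cf T.2 q)|) ≤
      K * mert P ^ A.card * ∏ q ∈ U, K / (q : ℝ) := by
  obtain ⟨K, hK, hs⟩ := sum_off ι
  have hK0 : 0 ≤ K := zero_le_one.trans hK
  have k0 : (0 : ℝ) ≤ Fintype.card ι := Nat.cast_nonneg _
  have hKK : K ≤ (4 * Fintype.card ι + 1) * K := by nlinarith [mul_nonneg k0 hK0]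
  refine ⟨(4 * Fintype.card ι + 1) * K, hK.trans hKK, fun w P hw hP Z A hZ U hU => ?_⟩
  have hp : ∀ q ∈ P, q.Prime := fun q hq => (hP q hq).1
  have h2 : ∀ q ∈ U, 2 ≤ q := fun q hq => (hp q (hU hq)).two_le
  have s0 := hs w P hw hP vU (near_vU hp) Z A hZ U hU
  have c0 : (0 : ℝ) ≤ ∏ _q ∈ U, 2 * (Fintype.card ι : ℝ) := prod_nonneg fun _ _ => by positivity
  have s1 : ∑ T ∈ Tu ι P ×ˢ Tu ι P, |Z T.1 * Z T.2| *
      ((∏ q ∈ U, ∑ l ∈ A, |ee q (cf T.1 q) (cf T.2 q) l|) *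
        ∏ q ∈ P \ U, |vU q (cf T.1 q) (cf T.2 q)|) ≤
      (∏ _q ∈ U, 2 * (Fintype.card ι : ℝ)) * (K ^ (U.card + 1) * mert P ^ A.card) := by
    refine le_trans ?_ (mul_le_mul_of_nonneg_left s0 c0)
    rw [← sum_product', mul_sum]
    refine sum_le_sum fun T _ => ?_
    rw [mul_left_comm]
    exact mul_le_mul_of_nonneg_right (prod_le_prod (fun _ _ => sum_nonneg fun _ _ => abs_nonneg _)
      fun q hq => trb_two (h2 q hq) A _ _)
      (mul_nonneg (abs_nonneg _) (prod_nonneg fun _ _ => abs_nonneg _))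
  have w0 : ∀ q ∈ U, 0 ≤ uu q := fun q hq => (uu_pos (h2 q hq)).le
  have s2 : wt U * (∏ _q ∈ U, 2 * (Fintype.card ι : ℝ)) * K ^ U.card ≤
      ∏ q ∈ U, (4 * Fintype.card ι + 1) * K / (q : ℝ) := by
    rw [← prod_const, wt, ← prod_mul_distrib, ← prod_mul_distrib]
    refine prod_le_prod (fun q hq => mul_nonneg (mul_nonneg (w0 q hq) (by positivity)) hK0)
      fun q hq => ?_
    calc _ ≤ 2 / (q : ℝ) * (2 * (Fintype.card ι : ℝ)) * K :=
          mul_le_mul_of_nonneg_right (mul_le_mul_of_nonneg_right (uu_le (h2 q hq))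
            (by positivity)) hK0
      _ = 4 * Fintype.card ι * K / (q : ℝ) := by ring
      _ ≤ _ := div_le_div_of_nonneg_right (by linarith) (Nat.cast_nonneg _)
  have m0 : 0 ≤ mert P ^ A.card := pow_nonneg (zero_le_one.trans (one_le_mert hp)) _
  have w1 : 0 ≤ wt U := prod_nonneg w0
  calc _ ≤ wt U * ((∏ _q ∈ U, 2 * (Fintype.card ι : ℝ)) * (K ^ (U.card + 1) * mert P ^ A.card)) :=
        mul_le_mul_of_nonneg_left s1 w1
    _ = K * mert P ^ A.card * (wt U * (∏ _q ∈ U, 2 * (Fintype.card ι : ℝ)) * K ^ U.card) := by ring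
    _ ≤ _ := mul_le_mul (mul_le_mul_of_nonneg_right hKK m0) s2 (by positivity)
        (mul_nonneg (hK0.trans hKK) m0)

/-- `P3.loc_bil` with `𝒯 = Tu ι P ×ˢ Tu ι P`, `A = univ.erase i`, `u = h`, `v = h i` (`h l` and `h i` differ
modulo `q > w`). `∑ l, |ee| ≤ 2 k`, and it is `0` if `cf T q = cf T' q = ∅`. If the term of `(T, T')`, `U` is
not zero then every `q ∈ U` lies in some `T l` or `T' l`, so `pr U ≤ ∏ pr (T l) * ∏ pr (T' l) ≤ R ^ 2 ≤ Q`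
(`pr U` divides the product). Then `sum_off` with `near_vU`, `wt U ≤ ∏ 2 / q`. -/
theorem pst_bil (ι : Type) [Fintype ι] [DecidableEq ι] : ∃ K : ℝ, 1 ≤ K ∧
    ∀ {h : ι → ℕ} {w : ℕ} {P : Finset ℕ}, Sh h w P → ∀ {Z : (ι → Finset ℕ) → ℝ} {i : ι} {R : ℝ} (Q : ℕ),
    Bd Z (univ.erase i) → Lev Z R → R ^ 2 ≤ Q → ∀ (W a : ℕ), 1 ≤ W → Nat.Coprime a W →
    (∀ q ∈ P, Nat.Coprime W q) → ∀ (J S : Finset ℕ) (b : ℕ → ℝ),
    (∀ p ∈ J, ∀ r ∈ S, b r ≠ 0 → Nat.Coprime (p * r) W) →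
    |∑ p ∈ J, ∑ r ∈ S, b r *
      (if p * r ≡ a [MOD W] then Pst P h i Z (p * r) - Md P vU Z else 0)| ≤
      K * mert P ^ (Fintype.card ι - 1) / (Nat.totient W : ℝ) *
        ∑ U ∈ P.powerset.filter (fun U => U ≠ ∅ ∧ pr U ≤ Q),
          (∏ q ∈ U, K / (q : ℝ)) * ∑ c ∈ W.divisors, Xi J S b (c * pr U) := by
  obtain ⟨K, hK, hs⟩ := trb_sum ι
  refine ⟨K, hK, ?_⟩
  intro h w P hS Z i R Q hZ hL hQ W a hW ha hc J S b hb
  have hP := hS.pr
  have huv : ∀ q ∈ P, ∀ l ∈ univ.erase i, ¬ h l ≡ h i [MOD q] := fun q hq l hl e =>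
    ne_of_mem_erase hl (hS.inj (e.eq_of_lt_of_lt ((hS.lt l).trans (hP q hq).2)
      ((hS.lt i).trans (hP q hq).2)))
  have key := P3.loc_bil (Tu ι P ×ˢ Tu ι P) (univ.erase i) P hW ha
    (fun q hq => ⟨(hP q hq).1, hc q hq⟩) h (h i) huv (fun T => Z T.1 * Z T.2)
    (fun T q => vU q (cf T.1 q) (cf T.2 q)) (fun T q l => ee q (cf T.1 q) (cf T.2 q) l) J S b hb
  simp only [Pst, Md, ← sum_product' (Tu ι P) (Tu ι P)]
  refine key.trans ?_
  rw [← filter_filter, sum_filter (fun U => pr U ≤ Q),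
    div_eq_mul_one_div (K * mert P ^ (Fintype.card ι - 1)),
    mul_comm (K * mert P ^ (Fintype.card ι - 1)), mul_assoc,
    mul_sum _ _ (K * mert P ^ (Fintype.card ι - 1))]
  refine mul_le_mul_of_nonneg_left (sum_le_sum fun U hU => ?_) (by positivity)
  have hU' : U ⊆ P := mem_powerset.1 (mem_filter.1 hU).1
  split_ifs with hq
  · have h1 := hs w P hS.w10 hP Z _ hZ U hU'
    rw [card_erase_of_mem (mem_univ i), card_univ] at h1
    rw [← mul_assoc]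
    exact mul_le_mul_of_nonneg_right h1
      (sum_nonneg fun c _ => sum_nonneg fun _ _ => mul_nonneg (norm_nonneg _) (norm_nonneg _))
  · rw [sum_eq_zero (s := Tu ι P ×ˢ Tu ι P), mul_zero, zero_mul, mul_zero]
    intro T hT
    by_contra hne
    exact hq (trb_le (fun q hq => (hP q hq).1) hL hQ hU' (mem_product.1 hT).1 (mem_product.1 hT).2
      (abs_ne_zero.1 (left_ne_zero_of_mul hne)) (left_ne_zero_of_mul (right_ne_zero_of_mul hne)))

end Pool.Agent.Lib.MP_c03ca8_nt.H
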