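import Pool.Agent.Lib.MP_c03ca8_nt.H.Defs

set_option autoImplicit false

noncomputable section

namespace Pool.Agent.Lib.MP_c03ca8_nt.H

open Finset Filter Q
open P3 (Rough om xi Xi bxB bil Adm)
open scoped Classical

/-! Configurations of primes. -/

variable {ι : Type} [Fintype ι] [DecidableEq ι]

/-- `Q.sum_cfg` twice (or once for `ι ⊕ ι`); for two nested sums it may be easier to prove a version of
`sum_cfg` by induction on `P`. -/
theorem sum_pair (P : Finset ℕ) (v : ℕ → Finset ι → Finset ι → ℝ) :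
    ∑ T ∈ Tu ι P, ∑ T' ∈ Tu ι P, ∏ q ∈ P, v q (cf T q) (cf T' q) =
      ∏ q ∈ P, ∑ S, ∑ S', v q S S' := by
  rw [← sum_cfg P fun q S => ∑ S', v q S S']
  exact sum_congr rfl fun T _ => sum_cfg P fun q S' => v q (cf T q) S'

/-- Sum over `T'` by `Q.sum_cfg`, then `Q.sum_cfg_fix`. -/
theorem sum_pair_fix (P : Finset ℕ) (i : ι) (f : Finset ℕ → ℝ) (v : ℕ → Finset ι → Finset ι → ℝ) :
    ∑ T ∈ Tu ι P, ∑ T' ∈ Tu ι P, f (T i) * ∏ q ∈ P, v q (cf T q) (cf T' q) =
      ∑ T0 ∈ P.powerset, f T0 * ∏ q ∈ P,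
        ∑ S ∈ univ.filter (fun S : Finset ι => i ∈ S ↔ q ∈ T0), ∑ S', v q S S' := by
  rw [← sum_cfg_fix P i f fun q S => ∑ S', v q S S']
  refine sum_congr rfl fun T _ => ?_
  rw [← mul_sum]
  exact congrArg _ (sum_cfg P fun q S' => v q (cf T q) S')

theorem prod_cf {P : Finset ℕ} {T : ι → Finset ℕ} (hT : T ∈ Tu ι P) (f : ℕ → ι → ℝ) :
    ∏ q ∈ P, ∏ l ∈ cf T q, f q l = ∏ l, ∏ q ∈ T l, f q l := by
  have hT' : ∀ s, T s ⊆ P := fun s => mem_powerset.1 (Fintype.mem_piFinset.1 hT s)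
  refine prod_comm' fun q s => ?_
  simp only [cf, mem_filter, mem_univ, true_and, and_true]
  exact ⟨fun hh => hh.2, fun hh => ⟨hT' s hh, hh⟩⟩

/-- The product vanishes unless `T = T'`, and then it is `∏ l, wt (T l)`. -/
theorem md_vI (P : Finset ℕ) (Z : (ι → Finset ℕ) → ℝ) : Md P vI Z = Dg P Z := by
  refine sum_congr rfl fun T hT => ?_
  rw [sum_eq_single_of_mem T hT fun T' hT' hne => ?_]
  · rw [sq]
    congr 1
    refine Eq.trans (prod_congr rfl fun q _ => ?_) (prod_cf hT fun q _ => uu q)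
    rw [vI, if_pos rfl, prod_const]
  · obtain ⟨l, hl⟩ := Function.ne_iff.1 hne
    obtain ⟨q, hq⟩ := not_forall.1 (mt Finset.ext hl)
    have hqP : q ∈ P := by
      by_contra hc
      exact hq (iff_of_false (fun e => hc (mem_powerset.1 (Fintype.mem_piFinset.1 hT' l) e))
        fun e => hc (mem_powerset.1 (Fintype.mem_piFinset.1 hT l) e))
    have h0 : vI q (cf T q) (cf T' q) = 0 :=
      if_neg fun e => hq (by simpa [cf] using (Finset.ext_iff.1 e l).symm)
    rw [prod_eq_zero hqP h0, mul_zero]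

omit [Fintype ι] [DecidableEq ι] in
theorem cfg_uniq {h : ι → ℕ} {w : ℕ} {P : Finset ℕ} (hs : Sh h w P) {q : ℕ} (hq : q ∈ P) {n : ℕ}
    {l l' : ι} (h1 : q ∣ n + h l) (h2 : q ∣ n + h l') : l = l' := by
  apply hs.inj
  have a1 := hs.lt l
  have a2 := hs.lt l'
  have a3 := (hs.pr q hq).2
  have h3 := Nat.dvd_sub h2 h1
  have h4 := Nat.dvd_sub h1 h2
  rw [Nat.add_sub_add_left] at h3 h4
  have := Nat.eq_zero_of_dvd_of_lt h3 (by omega)
  have := Nat.eq_zero_of_dvd_of_lt h4 (by omega)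
  omega

/-- A prime `q > w` divides at most one `n + h l` (compare `Q.k1_uniq`, `Q.k1_local`). -/
theorem loc_eq {h : ι → ℕ} {w : ℕ} {P : Finset ℕ} (hs : Sh h w P) {q : ℕ} (hq : q ∈ P)
    (S S' : Finset ι) (n : ℕ) : (∏ l ∈ S, zl q (n + h l)) * ∏ l ∈ S', zl q (n + h l) =
      vl q S S' none + ∑ l, ee q S S' l * ind q (n + h l) := by
  by_cases hex : ∃ l0, q ∣ n + h l0
  · obtain ⟨l0, hl0⟩ := hex
    have key : ∀ l, q ∣ n + h l ↔ l0 = l := fun l =>
      ⟨fun hl => cfg_uniq hs hq hl0 hl, fun e => e ▸ hl0⟩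
    rw [sum_eq_single l0 (fun l _ hl => by
      rw [ind, if_neg fun hd => hl ((key l).1 hd).symm, mul_zero]) (by simp), ind, if_pos hl0,
      mul_one, ee, add_sub_cancel]
    simp only [vl, uu, zl, key, Option.some.injEq]
  · push Not at hex
    simp [vl, uu, ind, zl, hex]

theorem aw_sq {h : ι → ℕ} {w : ℕ} {P : Finset ℕ} (hs : Sh h w P) (Z : (ι → Finset ℕ) → ℝ) (n : ℕ) :
    Aw P h Z n ^ 2 = ∑ T ∈ Tu ι P, ∑ T' ∈ Tu ι P, Z T * Z T' * ∏ q ∈ P,
      (vl q (cf T q) (cf T' q) none + ∑ l, ee q (cf T q) (cf T' q) l * ind q (n + h l)) := by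
  rw [sq, Aw, sum_mul_sum]
  refine sum_congr rfl fun T hT => sum_congr rfl fun T' hT' => ?_
  rw [mul_mul_mul_comm, ← prod_cf hT fun q l => zl q (n + h l),
    ← prod_cf hT' fun q l => zl q (n + h l), ← prod_mul_distrib]
  exact congrArg _ (prod_congr rfl fun q hq => loc_eq hs hq _ _ n)

/-- Copy the proof of `Q.sum_prod_loc` with `ι` in place of `Fin 4`. -/
theorem sum_loc (h : ι → ℕ) (c : ℕ → ℝ) (e : ℕ → ι → ℝ) (x X : ℕ) (U : Finset ℕ)
    (hU : ∀ q ∈ U, q.Prime) (Q a : ℕ) (hQ : 0 < Q) (hc : ∀ q ∈ U, Nat.Coprime Q q) :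
    |∑ n ∈ cls x X Q a, ∏ q ∈ U, (c q + ∑ l, e q l * ind q (n + h l)) -
      X / Q * ∏ q ∈ U, (c q + ∑ l, e q l / q)| ≤ ∏ q ∈ U, (|c q| + ∑ l, |e q l|) := by
  induction U using Finset.induction_on generalizing Q a with
  | empty => simpa using card_cls hQ x X a
  | insert r U hr ih =>
    have hrp := hU r (mem_insert_self _ _)
    have hrr : (0 : ℝ) < r := by exact_mod_cast hrp.pos
    have hQr : (0 : ℝ) < Q := by exact_mod_cast hQ
    have ih' := ih (fun m hm => hU m (mem_insert_of_mem hm))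
    simp only [prod_insert hr]
    choose b hb using fun l => config_split hrp.pos (hc r (mem_insert_self _ _)) a (h l)
    set F : ℕ → ℝ := fun n => ∏ q ∈ U, (c q + ∑ l, e q l * ind q (n + h l)) with hF
    set M : ℝ := ∏ q ∈ U, (c q + ∑ l, e q l / q) with hM
    set E : ℝ := ∏ q ∈ U, (|c q| + ∑ l, |e q l|) with hE
    have h1 := ih' Q a hQ (fun m hm => hc m (mem_insert_of_mem hm))
    have h2 : ∀ l, |∑ n ∈ cls x X (Q * r) (b l), F n - X / ((Q * r : ℕ) : ℝ) * M| ≤ E := by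
      intro l
      refine ih' (Q * r) (b l) (Nat.mul_pos hQ hrp.pos) fun m hm => ?_
      refine Nat.Coprime.mul_left (hc m (mem_insert_of_mem hm)) ?_
      rw [Nat.coprime_primes hrp (hU m (mem_insert_of_mem hm))]
      rintro rfl
      exact hr hm
    have e0 : ∑ n ∈ cls x X Q a, (c r + ∑ l, e r l * ind r (n + h l)) * F n =
        c r * ∑ n ∈ cls x X Q a, F n + ∑ l, e r l * ∑ n ∈ cls x X (Q * r) (b l), F n := by
      simp only [← hb, add_mul, sum_add_distrib, sum_mul, mul_sum, mul_assoc]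
      rw [sum_comm]
    have e1 : ∑ n ∈ cls x X Q a, (c r + ∑ l, e r l * ind r (n + h l)) * F n -
        X / Q * ((c r + ∑ l, e r l / r) * M) =
        c r * (∑ n ∈ cls x X Q a, F n - X / Q * M) + ∑ l, e r l *
          (∑ n ∈ cls x X (Q * r) (b l), F n - X / ((Q * r : ℕ) : ℝ) * M) := by
      rw [e0]
      simp only [mul_sub, sum_sub_distrib, ← sum_mul, ← sum_div]
      push_cast
      field_simp
      ring
    rw [e1]
    have h3 : |∑ l, e r l * (∑ n ∈ cls x X (Q * r) (b l), F n - X / ((Q * r : ℕ) : ℝ) * M)| ≤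
        (∑ l, |e r l|) * E := by
      refine (abs_sum_le_sum_abs _ _).trans ?_
      rw [sum_mul]
      refine sum_le_sum fun l _ => ?_
      rw [abs_mul]
      exact mul_le_mul_of_nonneg_left (h2 l) (abs_nonneg _)
    calc _ ≤ |c r| * E + (∑ l, |e r l|) * E := by
          refine (abs_add_le _ _).trans ?_
          rw [abs_mul]
          exact add_le_add (mul_le_mul_of_nonneg_left h1 (abs_nonneg _)) h3
      _ = _ := by ring

end Pool.Agent.Lib.MP_c03ca8_nt.H
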