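import Pool.Agent.Lib.MP_c03ca8_nt.H.CkProg

/-! The sums over the cells. -/

namespace Pool.Agent.Lib.MP_c03ca8_nt.H.Ck

theorem sums : (Nat.beq (sm wn 15 0) 1208925819613916150682062 &&
    Nat.beq (sm w1 15 0) 11429032499405964121457422633 &&
    Nat.beq (sm w2 15 0) 119009330356671509857780542585781 &&
    Nat.ble (sm gn 15 0) 586130079679078) = true := by decide +kernel

end Pool.Agent.Lib.MP_c03ca8_nt.H.Ck
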