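import Pool.Agent.Lib.MP_c03ca8_nt.H.CkProg

/-! The two scalar products. -/

namespace Pool.Agent.Lib.MP_c03ca8_nt.H.Ck

theorem dots : (Nat.ble dot1 38214023770474884274295 &&
    Nat.ble 156231088980204916844282047188 dot2) = true := by decide +kernel

end Pool.Agent.Lib.MP_c03ca8_nt.H.Ck
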