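import Pool.Agent.Lib.MP_c03ca8_nt.H.CkMain
import Pool.Agent.Lib.MP_c03ca8_nt.H.CkA
import Pool.Agent.Lib.MP_c03ca8_nt.H.CkB

/-! The numerical certificate for `k = 201729`. -/

namespace Pool.Agent.Lib.MP_c03ca8_nt.H

theorem num : ∃ D : Dat, D.OK 201728 12 := by
  have h1 := Ck.sums
  have h2 := Ck.dots
  simp only [Bool.and_eq_true, Nat.beq_eq, Nat.ble_eq] at h1 h2
  exact ⟨Ck.dat, Ck.ok h1.1.1.1 h1.1.1.2 h1.1.2 h1.2 h2.1 h2.2⟩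

end Pool.Agent.Lib.MP_c03ca8_nt.H
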