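import Pool.Agent.Lib.MP_6cad4c_al.BrProg

set_option autoImplicit false

/-! Programs for the numerical certificate, to be run by the kernel. -/

namespace Pool.Agent.Lib.MP_c03ca8_nt.H.Ck

open Pool.Agent.Lib.MP_6cad4c_al.Br (force msk ones dig had Par)

/-- Lower end of the cell `c` in units of `2 ^ (-32)`. -/
def aN (c : ℕ) : ℕ :=
  Nat.sub (Nat.shiftLeft (Nat.add 1700 (Nat.mod c 1700)) (Nat.div c 1700)) 1700

/-- Length of the cell `c`. -/
def dN (c : ℕ) : ℕ := Nat.shiftLeft 1 (Nat.div c 1700)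

/-- Upper end of the cell `c` plus half a lattice step. -/
def yN (c : ℕ) : ℕ := Nat.add (Nat.add (aN c) (dN c)) 8192

/-- The lattice point of the cell `c`. -/
def lam (c : ℕ) : ℕ := Nat.div (yN c) 16384

/-- The rounding error of the cell `c` plus half a lattice step. -/
def rN (c : ℕ) : ℕ := Nat.mod (yN c) 16384

/-- Twice the midpoint of the cell `c`. -/
def xN (c : ℕ) : ℕ := Nat.add (Nat.mul 2 (aN c)) (dN c)

/-- The value of the function on the cell `c` (no property is needed). -/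
def gam (c : ℕ) : ℕ :=
  Nat.div (Nat.shiftLeft 5761838062398 72) (Nat.mul (Nat.add 3515 (xN c))
    (Nat.add (Nat.shiftLeft 1 68) (Nat.mul (xN c) (Nat.add (Nat.shiftLeft 5 33) (Nat.mul 98 (xN c))))))

def gn (c : ℕ) : ℕ := Nat.mul (gam c) (dN c)

def wn (c : ℕ) : ℕ := Nat.mul (gam c) (gn c)

def w1 (c : ℕ) : ℕ := Nat.mul (wn c) (rN c)

def w2 (c : ℕ) : ℕ := Nat.mul (w1 c) (rN c)

/-- The sum of `f` over `2 ^ j` consecutive numbers. -/
noncomputable def sm (f : ℕ → ℕ) (j : ℕ) : ℕ → ℕ :=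
  Nat.rec (motive := fun _ => ℕ → ℕ) f
    (fun i ih a => force (Nat.add a (Nat.shiftLeft 1 i)) fun b => Nat.add (ih a) (ih b)) j

/-- The same with `f c` placed at the digit `pos c`. -/
noncomputable def tr (pos f : ℕ → ℕ) (j : ℕ) : ℕ → ℕ :=
  Nat.rec (motive := fun _ => ℕ → ℕ) f
    (fun i ih a => force (Nat.add a (Nat.shiftLeft 1 i)) fun b =>
      Nat.add (ih a) (Nat.shiftLeft (ih b) (Nat.mul 128 (Nat.sub (pos b) (pos a))))) j

/-- Shift of the digits by `e` bits, keeping `K` bits of `N` digits. -/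
def nrm (e N K X : ℕ) : ℕ :=
  Nat.shiftRight (Nat.land X (Nat.mul (ones 128 N) (Nat.shiftLeft (msk K) e))) e

/-- Digitwise square. -/
noncomputable def hd (N K X : ℕ) : ℕ := had ⟨0, 0, 0, N, 1, 128, 0, 0, 0, K, K, 0⟩ X X K 0

/-- Number of lattice points. -/
def LL : ℕ := 246205

/-- Length of the support of `h`. -/
def LH : ℕ := 86016

/-- Truncated product. -/
def ml (X Y : ℕ) : ℕ := nrm 60 LL 68 (Nat.mul X Y)

/-- One step of the binary powering. -/
noncomputable def pst (W X r : ℕ) : ℕ := Bool.rec (ml (ml X X) W) (ml X X) (Nat.beq r 0)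

/-- Binary powering. -/
noncomputable def pw (W j : ℕ) : ℕ → ℕ :=
  Nat.rec (motive := fun _ => ℕ → ℕ) (fun _ => W)
    (fun _ ih m => pst W (ih (Nat.div m 2)) (Nat.mod m 2)) j

/-- Table of values of `h`. -/
def tab : ℕ := 0x1b091bb91c6d1d241de01e9f1f62202920f421c32296236d24482528260c26f427e028d129c62abf2bbd2cbf2dc62ed12fe130f5320e332b344d3573369e37cd39003a383b743cb43df83f41408c41db4328447445c44717486f49cc4b2d4c934dfe4f6e50e3525d53dc556056ea58795a0d5ba65d445ee86091623f63f265aa6768692b6af36cc06e92706972457426760b77f579e47bd87dd07fcd81ce83d385dc87ea89fb8c108e2990469266948996af98d89b049d339f64a197a3cca603a83baa75acb0aeecb129b365b5a2b7dfba1bbc56be90c0c9c300c534c766c995cbc1cde9d00dd22dd447d65dd86cda74dc76de71e064e24ee42fe606e7d3e996eb4cecf7ee95f025f1a7f31af47df5d0f711f840f95cfa64fb56fc33fcf8fda6fe3afeb3ff10ff51ff73ff75ff55ff12fea9fe19fd60fc7cfb69fa25f8adf6fef513f2e9f079edbeeab0e746e375df30da62d4f4cebec788c371bef1b9e9b430b0faad78a993a528a2b09ffc9cfb999297a895909339908e8f0d8d658b8a8969883486de855c839c829c817e80377eb67dd57cd67baa7a387954784076d6748f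

/-- Nodes of the table. -/
noncomputable def nd (c : ℕ) : ℕ :=
  Bool.rec (Nat.add 2044 (Nat.mul 512 (Nat.sub c 36)))
    (Nat.sub (Nat.shiftLeft (Nat.add 4 (Nat.mod c 4)) (Nat.div c 4)) 4) (Nat.blt c 36)

/-- The digits `0, 1, 2, ...`. -/
def ramp (l : ℕ) : ℕ :=
  Nat.sub (Nat.land (Nat.mul (ones 128 l) (ones 128 l)) (msk (Nat.mul 128 l))) (ones 128 l)

/-- Linear interpolation between two nodes. -/
noncomputable def blk (c : ℕ) : ℕ :=
  force (Nat.sub (nd (Nat.add c 1)) (nd c)) fun l =>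
    Nat.mul (Nat.div 512 l) (Nat.add
      (Nat.mul (dig 16 tab c) (Nat.sub (Nat.mul l (ones 128 l)) (ramp l)))
      (Nat.mul (dig 16 tab (Nat.add c 1)) (ramp l)))

/-- The values of `h` in reversed order. -/
noncomputable def Hr : ℕ := nrm 17 LH 8 (tr nd blk 8 0)

noncomputable def Wp : ℕ := tr lam wn 15 0

noncomputable def Gp : ℕ := tr lam gn 15 0

noncomputable def W1 : ℕ := nrm 20 LL 68 Wp

/-- The exponent. -/
def nn : ℕ := 201728

noncomputable def Vn : ℕ := pw W1 17 nn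

/-- Scalar product of the digits of `V` with the reversed digits of `Y`. -/
def dt (V Y : ℕ) : ℕ := dig 128 (Nat.mul V Y) (Nat.sub LL 1)

/-- The product. -/
def mu (X Y : ℕ) : ℕ := Nat.mul X Y

noncomputable def Ph : ℕ := mu Gp Hr

noncomputable def dot1 : ℕ := dt (ml Vn W1) (hd LH 8 Hr)

noncomputable def dot2 : ℕ := dt Vn (hd LH 19 (nrm 38 LH 19 Ph))

end Pool.Agent.Lib.MP_c03ca8_nt.H.Ck
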