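import Pool.Agent.Lib.MP_6cad4c_al.BrDig
import Pool.Agent.Lib.MP_c03ca8_nt.H.CkProg

set_option autoImplicit false

/-! What the programs compute, digit by digit. -/

namespace Pool.Agent.Lib.MP_c03ca8_nt.H.Ck

open Finset Pool.Agent.Lib.MP_6cad4c_al.Br

theorem sm_spec (f : ℕ → ℕ) (j a : ℕ) : sm f j a = ∑ c ∈ range (2 ^ j), f (a + c) := by
  induction j generalizing a with
  | zero => simp [sm]
  | succ j ih =>
    change force (a + Nat.shiftLeft 1 j) (fun b => sm f j a + sm f j b) = _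
    rw [force_eq, ih, ih, sl_eq, one_mul, pow_succ, mul_two, sum_range_add]
    simp only [add_assoc]

theorem tr_spec {pos : ℕ → ℕ} (hp : Monotone pos) (f : ℕ → ℕ) (j a : ℕ) :
    tr pos f j a * 2 ^ (128 * pos a) =
      ∑ c ∈ range (2 ^ j), f (a + c) * 2 ^ (128 * pos (a + c)) := by
  induction j generalizing a with
  | zero => simp [tr]
  | succ j ih =>
    change force (a + Nat.shiftLeft 1 j) (fun b => tr pos f j a +
      Nat.shiftLeft (tr pos f j b) (128 * (pos b - pos a))) * _ = _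
    rw [force_eq, sl_eq, sl_eq, one_mul, add_mul, ih, mul_assoc, ← pow_add, ← mul_add,
      Nat.sub_add_cancel (hp (Nat.le_add_right _ _)), ih, pow_succ, mul_two, sum_range_add]
    simp only [add_assoc]

theorem dig_sum {B M : ℕ} (pos f : ℕ → ℕ) (h : ∑ c ∈ range M, f c < 2 ^ B) (l : ℕ) :
    dig B (∑ c ∈ range M, f c * 2 ^ (B * pos c)) l =
      ∑ c ∈ range M, if pos c = l then f c else 0 := by
  have h1 : ∑ c ∈ range M, f c * 2 ^ (B * pos c) =
      pk B (fun l => ∑ c ∈ range M, if pos c = l then f c else 0) ((range M).sup pos + l + 1) := by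
    unfold pk
    simp only [sum_mul]
    rw [sum_comm]
    refine sum_congr rfl fun c hc => ?_
    have := le_sup (f := pos) hc
    simp only [ite_mul, zero_mul, sum_ite_eq, mem_range]
    rw [if_pos (by omega)]
  rw [h1, dig_pk, if_pos (by omega)]
  intro i _
  refine lt_of_le_of_lt (sum_le_sum fun c _ => ?_) h
  split_ifs <;> omega

theorem pk_mul_pk (B N : ℕ) (x y : ℕ → ℕ) : pk B x N * pk B y N =
    pk B (fun s => ∑ i ∈ range (s + 1), x i * y (s - i)) N +
      (∑ i ∈ range N, ∑ k ∈ range i, x i * y (N - i + k) * 2 ^ (B * k)) * 2 ^ (B * N) := by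
  have h1 : pk B (fun s => ∑ i ∈ range (s + 1), x i * y (s - i)) N =
      ∑ i ∈ range N, ∑ j ∈ range (N - i), x i * y j * 2 ^ (B * (i + j)) := by
    rw [← sum_range_diag_flip N fun i j => x i * y j * 2 ^ (B * (i + j))]
    unfold pk
    refine sum_congr rfl fun s _ => ?_
    rw [sum_mul]
    refine sum_congr rfl fun i hi => ?_
    rw [Nat.add_sub_cancel' (Nat.lt_succ_iff.1 (mem_range.1 hi))]
  rw [h1, sum_mul, ← sum_add_distrib, pk, sum_mul]
  refine sum_congr rfl fun i hi => ?_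
  have h2 : N - i + i = N := Nat.sub_add_cancel (mem_range.1 hi).le
  have h3 : pk B y N = ∑ j ∈ range (N - i + i), y j * 2 ^ (B * j) := by rw [h2, pk]
  rw [h3, sum_range_add, mul_add, mul_sum, mul_sum, sum_mul]
  congr 1
  · exact sum_congr rfl fun j _ => by ring
  · refine sum_congr rfl fun k _ => ?_
    have h4 : B * i + B * (N - i + k) = B * k + B * N := by
      rw [← mul_add, ← mul_add]
      congr 1
      omega
    rw [mul_mul_mul_comm, ← pow_add, h4, pow_add, ← mul_assoc]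

theorem dig_mul {B N : ℕ} (X Y : ℕ)
    (h : ∀ s < N, ∑ i ∈ range (s + 1), dig B X i * dig B Y (s - i) < 2 ^ B) {s : ℕ} (hs : s < N) :
    dig B (X * Y) s = ∑ i ∈ range (s + 1), dig B X i * dig B Y (s - i) := by
  have h1 := dig_mod B (X * Y) N s
  rw [if_pos hs, Nat.mul_mod, mod_eq_pk B X, mod_eq_pk B Y, pk_mul_pk, Nat.add_mul_mod_self_right,
    Nat.mod_eq_of_lt (pk_lt h), dig_pk h, if_pos hs] at h1
  exact h1.symm

theorem dig_mul' {B N : ℕ} (X Y : ℕ)
    (h : ∀ s < N, ∑ i ∈ range (s + 1), dig B X i * dig B Y (s - i) < 2 ^ B) {s : ℕ} (hs : s < N) :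
    dig B (mu X Y) s = ∑ i ∈ range (s + 1), dig B X i * dig B Y (s - i) :=
  dig_mul X Y h hs

theorem nrm_eq {e K : ℕ} (h : e + K ≤ 128) (N X : ℕ) :
    nrm e N K X = pk 128 (fun i => dig 128 X i / 2 ^ e % 2 ^ K) N := by
  change (X &&& (ones 128 N * Nat.shiftLeft (msk K) e)) >>> e = _
  rw [sl_eq, ← mul_assoc, Nat.shiftRight_and_distrib, ← Nat.shiftLeft_eq, Nat.shiftLeft_shiftRight,
    msk_eq, ones_mul (by norm_num), land_pk fun _ _ => sub_two_pow_lt (by omega)]
  refine pk_congr fun i _ => ?_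
  rw [Nat.and_two_pow_sub_one_eq_mod, dig_shift_mod h]

theorem mod_lt128 {K : ℕ} (h : K ≤ 128) (a : ℕ) : a % 2 ^ K < 2 ^ 128 :=
  (Nat.mod_lt _ (by positivity)).trans_le (Nat.pow_le_pow_right (by norm_num) h)

theorem dig_nrm {e K : ℕ} (h : e + K ≤ 128) (N X i : ℕ) :
    dig 128 (nrm e N K X) i = if i < N then dig 128 X i / 2 ^ e % 2 ^ K else 0 := by
  rw [nrm_eq h, dig_pk fun _ _ => mod_lt128 (by omega) _]

theorem dig_nrm_lt {e K : ℕ} (h : e + K ≤ 128) (N X i : ℕ) : dig 128 (nrm e N K X) i < 2 ^ K := by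
  rw [dig_nrm h]
  split_ifs
  · exact Nat.mod_lt _ (by positivity)
  · positivity

theorem dig_nrm_le {e K : ℕ} (h : e + K ≤ 128) (N X i : ℕ) :
    dig 128 (nrm e N K X) i * 2 ^ e ≤ dig 128 X i := by
  rw [dig_nrm h]
  split_ifs
  · exact (Nat.mul_le_mul_right _ (Nat.mod_le _ _)).trans (Nat.div_mul_le_self _ _)
  · simp

theorem dig_hd {e K : ℕ} (h : e + K ≤ 128) (hK : K + K ≤ 128) (N X i : ℕ) :
    dig 128 (hd N K (nrm e N K X)) i = dig 128 (nrm e N K X) i ^ 2 := by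
  have hS : Par.S ⟨0, 0, 0, N, 1, 128, 0, 0, 0, K, K, 0⟩ = N := Nat.one_mul N
  have hx : ∀ i, dig 128 X i / 2 ^ e % 2 ^ K < 2 ^ K := fun i => Nat.mod_lt _ (by positivity)
  have h1 := had_spec ⟨0, 0, 0, N, 1, 128, 0, 0, 0, K, K, 0⟩ (by norm_num) hK
    (fun i _ => hx i) (fun i _ => hx i)
  rw [hS] at h1
  rw [dig_nrm h, nrm_eq h, hd, h1, dig_pk]
  · split_ifs
    · rw [sq]
    · rfl
  · intro i _
    refine (Nat.mul_lt_mul'' (hx i) (hx i)).trans_le ?_
    rw [← pow_add]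
    exact Nat.pow_le_pow_right (by norm_num) hK

theorem aN_succ (c : ℕ) : aN (c + 1) = aN c + dN c := by
  change Nat.shiftLeft (1700 + (c + 1) % 1700) ((c + 1) / 1700) - 1700 =
    Nat.shiftLeft (1700 + c % 1700) (c / 1700) - 1700 + Nat.shiftLeft 1 (c / 1700)
  rw [sl_eq, sl_eq, sl_eq]
  have h0 : 1 ≤ 2 ^ (c / 1700) := Nat.one_le_two_pow
  by_cases h : c % 1700 = 1699
  · rw [show (c + 1) % 1700 = 0 by omega, show (c + 1) / 1700 = c / 1700 + 1 by omega, h, pow_succ]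
    omega
  · rw [show (c + 1) % 1700 = c % 1700 + 1 by omega, show (c + 1) / 1700 = c / 1700 by omega]
    have : 1700 ≤ (1700 + c % 1700) * 2 ^ (c / 1700) := by nlinarith [Nat.zero_le (c % 1700)]
    rw [← add_assoc, add_mul _ 1]
    omega

theorem aN_mono : Monotone aN := monotone_nat_of_le_succ fun c => by
  rw [aN_succ]
  exact Nat.le_add_right _ _

theorem yN_eq (c : ℕ) : yN c = aN (c + 1) + 8192 := by
  rw [aN_succ]
  rfl

theorem lam_mono : Monotone lam := fun a b h => by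
  change yN a / 16384 ≤ yN b / 16384
  rw [yN_eq, yN_eq]
  exact Nat.div_le_div_right (Nat.add_le_add_right (aN_mono (by omega)) _)

theorem lam_rN (c : ℕ) : 16384 * lam c + rN c = aN (c + 1) + 8192 := by
  rw [← yN_eq]
  exact Nat.div_add_mod _ _

theorem rN_lt (c : ℕ) : rN c < 16384 := Nat.mod_lt _ (by norm_num)

theorem dig_tr (f : ℕ → ℕ) (j : ℕ) (h : sm f j 0 < 2 ^ 128) (l : ℕ) :
    dig 128 (tr lam f j 0) l = ∑ c ∈ range (2 ^ j), if lam c = l then f c else 0 := by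
  have h1 := tr_spec lam_mono f j 0
  have h2 : lam 0 = 0 := by decide
  rw [sm_spec] at h
  simp only [zero_add] at h h1
  rw [h2, mul_zero, pow_zero, mul_one] at h1
  rw [h1, dig_sum lam f h]

end Pool.Agent.Lib.MP_c03ca8_nt.H.Ck
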