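import Pool.Agent.Lib.MP_c03ca8_nt.H.CkDig

set_option autoImplicit false

/-! Rounded powers of a polynomial with nonnegative coefficients. -/

namespace Pool.Agent.Lib.MP_c03ca8_nt.H.Ck

open Finset Polynomial Pool.Agent.Lib.MP_6cad4c_al.Br

/-- Nonnegative coefficients of total mass at most one. -/
structure Pr (p : ℝ[X]) : Prop where
  nn : ∀ s, 0 ≤ p.coeff s
  ms : p.eval 1 ≤ 1

theorem coeff_mul_range (p q : ℝ[X]) (s : ℕ) :
    (p * q).coeff s = ∑ i ∈ range (s + 1), p.coeff i * q.coeff (s - i) := by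
  rw [coeff_mul, Nat.sum_antidiagonal_eq_sum_range_succ fun i j => p.coeff i * q.coeff j]

theorem Pr.sum_le_eval {p : ℝ[X]} (h : ∀ s, 0 ≤ p.coeff s) (N : ℕ) :
    ∑ s ∈ range N, p.coeff s ≤ p.eval 1 := by
  rw [eval_eq_sum_range' (n := N + (p.natDegree + 1)) (by omega), sum_range_add]
  simp only [one_pow, mul_one]
  exact le_add_of_nonneg_right (sum_nonneg fun i _ => h _)

theorem Pr.sum_le {p : ℝ[X]} (h : Pr p) (N : ℕ) : ∑ s ∈ range N, p.coeff s ≤ 1 :=
  (Pr.sum_le_eval h.nn N).trans h.ms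

theorem Pr.mul {p q : ℝ[X]} (hp : Pr p) (hq : Pr q) : Pr (p * q) := by
  refine ⟨fun s => ?_, ?_⟩
  · rw [coeff_mul_range]
    exact sum_nonneg fun i _ => mul_nonneg (hp.nn _) (hq.nn _)
  · have h1 := Pr.sum_le_eval hq.nn 0
    rw [sum_range_zero] at h1
    rw [eval_mul]
    exact mul_le_one₀ hp.ms h1 hq.ms

theorem Pr.pow {p : ℝ[X]} (hp : Pr p) (m : ℕ) : Pr (p ^ m) := by
  induction m with
  | zero =>
    refine ⟨fun s => ?_, by simp⟩
    rw [pow_zero, coeff_one]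
    split_ifs <;> norm_num
  | succ m ih =>
    rw [pow_succ]
    exact ih.mul hp

theorem Pr.coeff_le {p : ℝ[X]} (h : Pr p) (s : ℕ) : p.coeff s ≤ 1 :=
  (single_le_sum (fun i _ => h.nn i) (self_mem_range_succ s)).trans (h.sum_le (s + 1))

/-- The digits of `V` approximate the coefficients of `p` from below. -/
def Ap (p : ℝ[X]) (e : ℝ) (V : ℕ) : Prop :=
  ∀ s < LL, (dig 128 V s : ℝ) ≤ 2 ^ 60 * p.coeff s ∧ 2 ^ 60 * p.coeff s ≤ dig 128 V s + e

theorem Ap.sum_le {p : ℝ[X]} {e : ℝ} {V : ℕ} (h : Ap p e V) (hp : Pr p) {s : ℕ} (hs : s < LL) :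
    ∑ i ∈ range (s + 1), (dig 128 V i : ℝ) ≤ 2 ^ 60 := by
  calc _ ≤ ∑ i ∈ range (s + 1), 2 ^ 60 * p.coeff i :=
        sum_le_sum fun i hi => (h i (by have := mem_range.1 hi; omega)).1
    _ ≤ 2 ^ 60 * 1 := by
        rw [← mul_sum]
        exact mul_le_mul_of_nonneg_left (hp.sum_le _) (by positivity)
    _ = _ := mul_one _

theorem Ap.dig_mul {p : ℝ[X]} {e : ℝ} {V : ℕ} (h : Ap p e V) (hp : Pr p) {Y : ℕ}
    (hY : ∀ j < LL, (dig 128 Y j : ℝ) ≤ 2 ^ 60) {s : ℕ} (hs : s < LL) :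
    (dig 128 (V * Y) s : ℝ) = ∑ i ∈ range (s + 1), (dig 128 V i : ℝ) * dig 128 Y (s - i) := by
  rw [Ck.dig_mul V Y (N := LL) (fun t ht => ?_) hs]
  · push_cast
    rfl
  · have h1 : ∑ i ∈ range (t + 1), (dig 128 V i : ℝ) * dig 128 Y (t - i) ≤
        ∑ i ∈ range (t + 1), (dig 128 V i : ℝ) * 2 ^ 60 :=
      sum_le_sum fun i _ => mul_le_mul_of_nonneg_left (hY _ (by omega)) (by positivity)
    rw [← sum_mul] at h1
    have h2 := h.sum_le hp ht
    have h3 : ((∑ i ∈ range (t + 1), dig 128 V i * dig 128 Y (t - i) : ℕ) : ℝ) < (2 ^ 128 : ℕ) := by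
      push_cast
      nlinarith
    exact_mod_cast h3

theorem ap_nrm {p : ℝ[X]} (hp : Pr p) {k : ℕ} (hk : k ≤ 60) {e : ℝ} {V : ℕ}
    (h : ∀ s < LL, (dig 128 V s : ℝ) ≤ 2 ^ k * (2 ^ 60 * p.coeff s) ∧
      2 ^ k * (2 ^ 60 * p.coeff s) ≤ dig 128 V s + 2 ^ k * e) : Ap p (e + 1) (nrm k LL 68 V) := by
  intro s hs
  obtain ⟨h1, h2⟩ := h s hs
  have h0 : (0 : ℝ) < 2 ^ k := by positivity
  have h3 : ((dig 128 V s / 2 ^ k : ℕ) : ℝ) * 2 ^ k ≤ dig 128 V s := by
    exact_mod_cast Nat.div_mul_le_self _ _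
  have h4 : (dig 128 V s : ℝ) < ((dig 128 V s / 2 ^ k : ℕ) + 1) * 2 ^ k := by
    have := Nat.lt_div_mul_add (a := dig 128 V s) (show 0 < 2 ^ k by positivity)
    rw [add_mul, one_mul]
    exact_mod_cast this
  have h5 : ((dig 128 V s / 2 ^ k : ℕ) : ℝ) ≤ 2 ^ 60 * p.coeff s :=
    le_of_mul_le_mul_right (by linarith) h0
  have h6 : dig 128 V s / 2 ^ k < 2 ^ 68 := by
    have h7 := hp.coeff_le s
    have : ((dig 128 V s / 2 ^ k : ℕ) : ℝ) < (2 ^ 68 : ℕ) := by
      push_cast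
      linarith
    exact_mod_cast this
  rw [dig_nrm (by omega), if_pos hs, Nat.mod_eq_of_lt h6]
  exact ⟨h5, le_of_mul_le_mul_right (by linarith) h0⟩

theorem Ap.ml {p q : ℝ[X]} {e e' : ℝ} {V Y : ℕ} (h : Ap p e V) (h' : Ap q e' Y) (hp : Pr p)
    (hq : Pr q) (he : 0 ≤ e) (he' : 0 ≤ e') : Ap (p * q) (e + e' + 1) (ml V Y) := by
  refine ap_nrm (hp.mul hq) le_rfl fun s hs => ?_
  have h0 : ∀ j < LL, (dig 128 Y j : ℝ) ≤ 2 ^ 60 := fun j hj => by
    have := (h' j hj).1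
    have := hq.coeff_le j
    linarith
  have h1 : (2 : ℝ) ^ 60 * (2 ^ 60 * (p * q).coeff s) =
      ∑ i ∈ range (s + 1), 2 ^ 60 * p.coeff i * (2 ^ 60 * q.coeff (s - i)) := by
    rw [coeff_mul_range, mul_sum, mul_sum]
    exact sum_congr rfl fun i _ => by ring
  change (dig 128 (V * Y) s : ℝ) ≤ _ ∧ _ ≤ (dig 128 (V * Y) s : ℝ) + _
  rw [h.dig_mul hp h0 hs, h1]
  refine ⟨sum_le_sum fun i hi => ?_, ?_⟩
  · have := mem_range.1 hi
    exact mul_le_mul (h i (by omega)).1 (h' _ (by omega)).1 (by positivity)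
      (mul_nonneg (by positivity) (hp.nn i))
  · have h2 : ∑ i ∈ range (s + 1), 2 ^ 60 * p.coeff i * (2 ^ 60 * q.coeff (s - i)) ≤
        ∑ i ∈ range (s + 1), ((dig 128 V i : ℝ) * dig 128 Y (s - i) +
          (e' * dig 128 V i + 2 ^ 60 * e * q.coeff (s - i))) := by
      refine sum_le_sum fun i hi => ?_
      have := mem_range.1 hi
      have h3 := mul_le_mul_of_nonneg_right (h i (by omega)).2
        (mul_nonneg (show (0 : ℝ) ≤ 2 ^ 60 by positivity) (hq.nn (s - i)))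
      have h4 := mul_le_mul_of_nonneg_left (h' (s - i) (by omega)).2
        (Nat.cast_nonneg (α := ℝ) (dig 128 V i))
      linarith
    rw [sum_add_distrib, sum_add_distrib, ← mul_sum, ← mul_sum,
      sum_flip (fun i => q.coeff i)] at h2
    have h5 := mul_le_mul_of_nonneg_left (h.sum_le hp hs) he'
    have h6 := mul_le_mul_of_nonneg_left (hq.sum_le (s + 1))
      (mul_nonneg (show (0 : ℝ) ≤ 2 ^ 60 by positivity) he)
    linarith

theorem pw_spec {p : ℝ[X]} (hp : Pr p) {W : ℕ} (h : Ap p 1 W) (j m : ℕ) (hm : m / 2 ^ j = 1) :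
    Ap (p ^ m) (2 * m - 1) (pw W j m) := by
  induction j generalizing m with
  | zero =>
    rw [pow_zero, Nat.div_one] at hm
    subst hm
    rw [pow_one, Nat.cast_one, show (2 : ℝ) * 1 - 1 = 1 by norm_num]
    exact h
  | succ j ih =>
    have h1 : m / 2 / 2 ^ j = 1 := by rw [Nat.div_div_eq_div_mul, ← pow_succ', hm]
    have h2 := ih _ h1
    have h3 : 1 ≤ m / 2 := h1.ge.trans (Nat.div_le_self _ _)
    have h4 : (0 : ℝ) ≤ 2 * (m / 2 : ℕ) - 1 := by
      have : (1 : ℝ) ≤ (m / 2 : ℕ) := by exact_mod_cast h3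
      linarith
    have h5 := h2.ml h2 (hp.pow _) (hp.pow _) h4 h4
    change Ap _ _ (pst W (pw W j (m / 2)) (m % 2))
    generalize hq : m / 2 = q at *
    rcases Nat.mod_two_eq_zero_or_one m with h6 | h6
    · rw [h6, show m = q + q by omega, pow_add]
      convert h5 using 1
      · push_cast
        ring
      · rfl
    · have h7 := h5.ml h ((hp.pow _).mul (hp.pow _)) hp (by linarith) zero_le_one
      rw [h6, show m = q + q + 1 by omega, pow_succ, pow_add]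
      convert h7 using 1
      · push_cast
        ring
      · rfl

theorem sum_shift {L : ℕ} {H : ℕ → ℝ} (hH : ∀ u, L ≤ u → H u = 0) (p : ℝ[X]) (l : ℕ) (a : ℝ) :
    ∑ u ∈ range L, (p * monomial l a).coeff u * H u =
      ∑ s ∈ range L, p.coeff s * (a * H (s + l)) := by
  have h1 : ∑ u ∈ range (L + l), (p * monomial l a).coeff u * H u =
      ∑ u ∈ range L, (p * monomial l a).coeff u * H u := by
    rw [sum_range_add, sum_eq_zero (s := range l), add_zero]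
    intro i _
    rw [hH _ (Nat.le_add_right _ _), mul_zero]
  rw [← h1, add_comm, sum_range_add, sum_eq_zero, zero_add]
  · refine sum_congr rfl fun s _ => ?_
    rw [add_comm, coeff_mul_monomial, mul_assoc]
  · intro i hi
    rw [← C_mul_X_pow_eq_monomial, ← mul_assoc, coeff_mul_X_pow', if_neg (by simpa using hi),
      zero_mul]

end Pool.Agent.Lib.MP_c03ca8_nt.H.Ck
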