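import Pool.Agent.Lib.MP_c03ca8_nt.H.Num
import Pool.Agent.Lib.MP_c03ca8_nt.H.CkPow

set_option autoImplicit false

/-! The data of the certificate and the reduction to six integers. -/

namespace Pool.Agent.Lib.MP_c03ca8_nt.H.Ck

open Finset Polynomial Pool.Agent.Lib.MP_6cad4c_al.Br

/-- The radial function. -/
noncomputable def hf (s : ℕ) : ℝ := if s < LL then (dig 128 Hr (LL - 1 - s) : ℝ) else 0

/-- The data. -/
noncomputable def dat : Dat where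
  M := 2 ^ 15
  α c := aN c / 2 ^ 32
  g c := gam c / 2 ^ 24
  lam := lam
  ρ c := (rN c - 8192) / 2 ^ 32
  h := hf
  Λ := LL
  δ := 16384 / 2 ^ 32
  B := 261160960 / 2 ^ 32
  ρm := 8192 / 2 ^ 32
  τ := 13021
  Φm := 586130079679078 * 2 ^ 8 / 2 ^ 56

theorem len_eq (c : ℕ) : len dat.α c = dN c / 2 ^ 32 := by
  change ((aN (c + 1) : ℕ) : ℝ) / 2 ^ 32 - aN c / 2 ^ 32 = _
  rw [aN_succ]
  push_cast
  ring

theorem gl_eq (c : ℕ) : dat.g c * len dat.α c = gn c / 2 ^ 56 := by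
  rw [len_eq]
  change (gam c : ℝ) / 2 ^ 24 * _ = ((gam c * dN c : ℕ) : ℝ) / _
  push_cast
  ring

theorem w_eq (c : ℕ) : dat.w c = wn c / 2 ^ 80 := by
  rw [Dat.w, len_eq]
  change ((gam c : ℝ) / 2 ^ 24) ^ 2 * _ = ((gam c * (gam c * dN c) : ℕ) : ℝ) / _
  push_cast
  ring

theorem dig_Hr (j : ℕ) : (dig 128 Hr j : ℝ) ≤ 2 ^ 8 := by
  have h : dig 128 Hr j < 2 ^ 8 := dig_nrm_lt (by norm_num) _ _ _
  exact_mod_cast h.le

theorem hf_nonneg (s : ℕ) : 0 ≤ hf s := by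
  unfold hf
  split_ifs <;> positivity

theorem hf_le (s : ℕ) : hf s ≤ 2 ^ 8 := by
  unfold hf
  split_ifs
  · exact dig_Hr _
  · positivity

theorem hf_zero (s : ℕ) (h : LL ≤ s) : hf s = 0 := if_neg (by omega)

theorem sm_cast (f : ℕ → ℕ) : (sm f 15 0 : ℝ) = ∑ c ∈ range dat.M, (f c : ℝ) := by
  rw [sm_spec, Nat.cast_sum]
  simp only [zero_add]
  rfl

/-- The distribution of the lattice point of one cell. -/
noncomputable def Wr : ℝ[X] := ∑ c ∈ range dat.M, monomial (lam c) (dat.w c)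

theorem sum_theta (D : Dat) (hH : ∀ s, D.Λ ≤ s → D.h s = 0) (n : ℕ) :
    ∑ s ∈ range D.Λ, D.Q n s * D.Θ s = ∑ u ∈ range D.Λ, D.Q (n + 1) u * D.h u ^ 2 := by
  simp only [Dat.Q, pow_succ _ n, mul_sum, finsetSum_coeff, sum_mul, Dat.Θ]
  rw [sum_comm, sum_comm (s := range D.Λ)]
  refine sum_congr rfl fun c _ => ?_
  exact (sum_shift (H := fun u => D.h u ^ 2) (fun u hu => by rw [hH u hu]; norm_num) _ _ _).symm

theorem w_nonneg (c : ℕ) : 0 ≤ dat.w c := by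
  rw [w_eq]
  exact div_nonneg (Nat.cast_nonneg _) (by positivity)

theorem Q_eq (n s : ℕ) : dat.Q n s = (Wr ^ n).coeff s := rfl

theorem coeff_Wr (l : ℕ) :
    Wr.coeff l = (∑ c ∈ range dat.M, if lam c = l then (wn c : ℝ) else 0) / 2 ^ 80 := by
  rw [Wr, finsetSum_coeff, sum_div]
  refine sum_congr rfl fun c _ => ?_
  rw [coeff_monomial, w_eq]
  split_ifs <;> simp

theorem dig_tr_cast (f : ℕ → ℕ) (h : sm f 15 0 < 2 ^ 128) (l : ℕ) :
    (dig 128 (tr lam f 15 0) l : ℝ) = ∑ c ∈ range dat.M, if lam c = l then (f c : ℝ) else 0 := by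
  rw [dig_tr f 15 h, Nat.cast_sum]
  simp only [Nat.cast_ite, Nat.cast_zero]
  rfl

theorem pr_Wr (h : sm wn 15 0 ≤ 2 ^ 80) : Pr Wr := by
  refine ⟨fun s => ?_, ?_⟩
  · rw [coeff_Wr]
    refine div_nonneg (sum_nonneg fun c _ => ?_) (by positivity)
    split_ifs <;> positivity
  · have h1 : (sm wn 15 0 : ℝ) ≤ (2 ^ 80 : ℕ) := Nat.cast_le.2 h
    rw [sm_cast] at h1
    rw [Wr, eval_finsetSum]
    simp only [eval_monomial, one_pow, mul_one, w_eq]
    rw [← sum_div, div_le_one (by positivity)]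
    exact_mod_cast h1

theorem ap_W1 (h : sm wn 15 0 ≤ 2 ^ 80) : Ap Wr 1 W1 := by
  have h1 := ap_nrm (pr_Wr h) (k := 20) (e := 0) (V := Wp) (by norm_num) fun s _ => by
    rw [Wp, dig_tr_cast wn (h.trans_lt (by norm_num)), coeff_Wr]
    constructor <;> apply le_of_eq <;> ring
  rwa [zero_add] at h1

theorem ap_Vn (h : sm wn 15 0 ≤ 2 ^ 80) : Ap (Wr ^ nn) (2 * nn - 1) Vn :=
  pw_spec (pr_Wr h) (ap_W1 h) 17 nn (by decide)

theorem dot_eq {p : ℝ[X]} {e : ℝ} {V : ℕ} (h : Ap p e V) (hp : Pr p) {k K : ℕ} (h1 : k + K ≤ 128)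
    (h2 : K + K ≤ 60) (Y : ℕ) : (dt V (hd LH K (nrm k LH K Y)) : ℝ) =
      ∑ s ∈ range LL, (dig 128 V s : ℝ) * (dig 128 (nrm k LH K Y) (LL - 1 - s) : ℝ) ^ 2 := by
  have hL : LL - 1 + 1 = LL := rfl
  change (dig 128 (V * hd LH K (nrm k LH K Y)) (LL - 1) : ℝ) = _
  rw [h.dig_mul hp (fun j _ => ?_) (by omega), hL]
  · refine sum_congr rfl fun s _ => ?_
    rw [dig_hd h1 (by omega), Nat.cast_pow]
  · have h3 := dig_nrm_lt h1 LH Y j
    have h4 : dig 128 (nrm k LH K Y) j ^ 2 ≤ 2 ^ 60 := by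
      refine (Nat.pow_le_pow_left h3.le 2).trans ?_
      rw [← pow_mul]
      exact Nat.pow_le_pow_right (by norm_num) (by omega)
    rw [dig_hd h1 (by omega)]
    exact_mod_cast h4

theorem lhs_le (h : sm wn 15 0 ≤ 2 ^ 80) : ∑ s ∈ range LL, dat.Q nn s * dat.Θ s ≤
    (dot1 + LL * ((2 * nn + 1) * (2 ^ 8) ^ 2)) / 2 ^ 60 := by
  have hp := pr_Wr h
  have h0 : (0 : ℝ) ≤ 2 * nn - 1 := by norm_num [nn]
  have h1 := (ap_Vn h).ml (ap_W1 h) (hp.pow _) hp h0 zero_le_one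
  have h2 : ∑ s ∈ range LL, dat.Q nn s * dat.Θ s =
      ∑ u ∈ range LL, (Wr ^ nn * Wr).coeff u * hf u ^ 2 := by
    rw [← pow_succ]
    exact sum_theta dat hf_zero nn
  rw [h2, dot1, Hr, dot_eq h1 ((hp.pow _).mul hp) (by norm_num) (by norm_num), ← Hr, le_div_iff₀ (by positivity), sum_mul, ← nsmul_eq_mul, ← card_range LL, ← sum_const,
    card_range, ← sum_add_distrib]
  refine sum_le_sum fun u hu => ?_
  have h4 := (h1 u (mem_range.1 hu)).2
  have h5 : hf u = dig 128 Hr (LL - 1 - u) := if_pos (mem_range.1 hu)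
  have h6 : hf u ^ 2 ≤ (2 ^ 8) ^ 2 := pow_le_pow_left₀ (hf_nonneg u) (hf_le u) 2
  have h7 := mul_le_mul_of_nonneg_right h4 (sq_nonneg (hf u))
  have h8 := mul_le_mul_of_nonneg_left h6 (show (0 : ℝ) ≤ 2 * nn + 1 by linarith)
  rw [← h5]
  linarith

theorem conv_eq {s : ℕ} (hs : s < LL) : ∑ i ∈ range (LL - 1 - s + 1),
    (∑ c ∈ range dat.M, if lam c = i then (gn c : ℝ) else 0) * dig 128 Hr (LL - 1 - s - i) =
      2 ^ 56 * dat.Φ s := by
  simp only [sum_mul, Dat.Φ, gl_eq]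
  rw [sum_comm, mul_sum]
  refine sum_congr rfl fun c _ => ?_
  simp only [ite_mul, zero_mul, sum_ite_eq, mem_range]
  change _ = 2 ^ 56 * (_ * hf (s + lam c))
  unfold hf
  by_cases hc : s + lam c < LL
  · rw [if_pos hc, if_pos (by omega), Nat.sub_add_eq]
    ring
  · rw [if_neg hc, if_neg (by omega)]
    ring

theorem phi_nonneg (s : ℕ) : 0 ≤ dat.Φ s :=
  sum_nonneg fun c _ => mul_nonneg (by rw [gl_eq]; positivity) (hf_nonneg _)

theorem phi_le (h : sm gn 15 0 ≤ 586130079679078) (s : ℕ) : dat.Φ s ≤ dat.Φm := by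
  have h1 : (sm gn 15 0 : ℝ) ≤ (586130079679078 : ℕ) := Nat.cast_le.2 h
  rw [sm_cast] at h1
  calc dat.Φ s ≤ ∑ c ∈ range dat.M, (gn c : ℝ) * (2 ^ 8 / 2 ^ 56) := by
        refine sum_le_sum fun c _ => ?_
        have := mul_le_mul_of_nonneg_left (hf_le (s + lam c)) (Nat.cast_nonneg (α := ℝ) (gn c))
        rw [gl_eq]
        change _ * hf (s + lam c) ≤ _
        linarith
    _ ≤ 586130079679078 * 2 ^ 8 / 2 ^ 56 := by
        rw [← sum_mul]
        push_cast at h1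
        linarith

theorem dig_phi (h : sm gn 15 0 ≤ 586130079679078) {s : ℕ} (hs : s < LL) :
    (dig 128 Ph (LL - 1 - s) : ℝ) = 2 ^ 56 * dat.Φ s := by
  have h1 : ∀ s < LL, ((∑ i ∈ range (LL - 1 - s + 1),
      dig 128 Gp i * dig 128 Hr (LL - 1 - s - i) : ℕ) : ℝ) = 2 ^ 56 * dat.Φ s := fun s hs => by
    rw [← conv_eq hs, Nat.cast_sum]
    refine sum_congr rfl fun i _ => ?_
    rw [Nat.cast_mul, Gp, dig_tr_cast gn (h.trans_lt (by norm_num))]
  rw [Ph, dig_mul' Gp Hr (N := LL) (fun j hj => ?_) (by omega), h1 s hs]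
  have h2 := h1 (LL - 1 - j) (by omega)
  have h3 : dat.Φ (LL - 1 - j) ≤ 586130079679078 * 2 ^ 8 / 2 ^ 56 := phi_le h _
  rw [show LL - 1 - (LL - 1 - j) = j by omega] at h2
  rw [← Nat.cast_lt (α := ℝ), h2]
  push_cast
  linarith

theorem rhs_ge (h : sm wn 15 0 ≤ 2 ^ 80) (h' : sm gn 15 0 ≤ 586130079679078) :
    (dot2 : ℝ) / 2 ^ 96 ≤ ∑ s ∈ range LL, dat.Q nn s * dat.Φ s ^ 2 := by
  have hp := (pr_Wr h).pow nn
  rw [dot2, dot_eq (ap_Vn h) hp (by norm_num) (by norm_num), sum_div]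
  refine sum_le_sum fun s hs => ?_
  have h4 := (ap_Vn h s (mem_range.1 hs)).1
  have h5 : ((dig 128 (nrm 38 LH 19 Ph) (LL - 1 - s) * 2 ^ 38 : ℕ) : ℝ) ≤
      dig 128 Ph (LL - 1 - s) := Nat.cast_le.2 (dig_nrm_le (by norm_num) _ _ _)
  rw [dig_phi h' (mem_range.1 hs)] at h5
  push_cast at h5
  have h6 : (dig 128 (nrm 38 LH 19 Ph) (LL - 1 - s) : ℝ) ≤ 2 ^ 18 * dat.Φ s := by linarith
  have h7 := mul_le_mul h4 (pow_le_pow_left₀ (Nat.cast_nonneg _) h6 2) (sq_nonneg _)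
    (mul_nonneg (by positivity) (hp.nn s))
  rw [div_le_iff₀ (by positivity), Q_eq]
  refine le_trans h7 (le_of_eq ?_)
  ring

theorem exp_le {x : ℝ} (h : |x| ≤ 1 / 40) : Real.exp x ≤ 1 + x + 253 / 500 * x ^ 2 := by
  have h1 := Real.exp_bound (x := x) (by linarith) (n := 3) (by norm_num)
  have h2 : |x| ^ 3 ≤ 1 / 40 * x ^ 2 := by
    rw [pow_succ', sq_abs]
    exact mul_le_mul_of_nonneg_right h (sq_nonneg x)
  simp only [sum_range_succ, sum_range_zero, Nat.factorial] at h1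
  norm_num at h1
  have h3 := (abs_le.1 h1).2
  nlinarith [sq_nonneg x]

theorem tl_le (h0 : sm wn 15 0 = 1208925819613916150682062)
    (h1 : sm w1 15 0 = 11429032499405964121457422633)
    (h2 : sm w2 15 0 = 119009330356671509857780542585781) : dat.Tl nn ≤ 1 / 22026 := by
  have e0 := sm_cast wn
  have e1 := sm_cast w1
  have e2 := sm_cast w2
  rw [h0] at e0
  rw [h1] at e1
  rw [h2] at e2
  have h3 : ∑ c ∈ range dat.M, dat.w c * Real.exp (dat.τ * dat.ρ c) ≤ ∑ c ∈ range dat.M,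
      ((1 - 13021 * 8192 / 2 ^ 32 + 253 / 500 * (13021 * 8192 / 2 ^ 32) ^ 2) / 2 ^ 80 * (wn c : ℝ) +
        ((13021 / 2 ^ 32 - 253 / 500 * (13021 / 2 ^ 32) ^ 2 * 16384) / 2 ^ 80 * (w1 c : ℝ) +
          253 / 500 * (13021 / 2 ^ 32) ^ 2 / 2 ^ 80 * (w2 c : ℝ))) := by
    refine sum_le_sum fun c _ => ?_
    have h4 : (rN c : ℝ) ≤ 16384 := by exact_mod_cast (rN_lt c).le
    have h5 : (0 : ℝ) ≤ rN c := Nat.cast_nonneg _
    have h6 := exp_le (x := 13021 * ((rN c - 8192) / 2 ^ 32)) (abs_le.2 ⟨by linarith, by linarith⟩)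
    refine (mul_le_mul_of_nonneg_left h6 (w_nonneg c)).trans (le_of_eq ?_)
    rw [w_eq]
    change _ = _ * _ + (_ * ((wn c * rN c : ℕ) : ℝ) + _ * ((wn c * rN c * rN c : ℕ) : ℝ))
    push_cast
    ring
  rw [sum_add_distrib, sum_add_distrib, ← mul_sum, ← mul_sum, ← mul_sum, ← e0, ← e1, ← e2] at h3
  have h7 : ∑ c ∈ range dat.M, dat.w c * Real.exp (dat.τ * dat.ρ c) ≤
      Real.exp ((13021 * (261160960 / 2 ^ 32 - 8192 / 2 ^ 32) - 10) / 201728) := by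
    refine h3.trans (le_trans ?_ (Real.add_one_le_exp _))
    norm_num
  have h8 : 0 ≤ ∑ c ∈ range dat.M, dat.w c * Real.exp (dat.τ * dat.ρ c) :=
    sum_nonneg fun c _ => mul_nonneg (w_nonneg c) (Real.exp_pos _).le
  have h9 := pow_le_pow_left₀ h8 h7 nn
  rw [← Real.exp_nat_mul] at h9
  have h10 : (22026 : ℝ) ≤ Real.exp 10 := by
    have := pow_le_pow_left₀ (by norm_num) Real.exp_one_gt_d9.le 10
    rw [Real.exp_one_pow] at this
    refine le_trans (by norm_num) this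
  refine (mul_le_mul_of_nonneg_left h9 (Real.exp_pos _).le).trans ?_
  rw [← Real.exp_add, one_div, le_inv_comm₀ (Real.exp_pos _) (by norm_num), ← Real.exp_neg]
  refine h10.trans (le_of_eq (congrArg _ ?_))
  change _ = -(-(13021 * (261160960 / 2 ^ 32 - 8192 / 2 ^ 32)) + ((201728 : ℕ) : ℝ) * _)
  push_cast
  ring

theorem ok (h0 : sm wn 15 0 = 1208925819613916150682062)
    (h1 : sm w1 15 0 = 11429032499405964121457422633)
    (h2 : sm w2 15 0 = 119009330356671509857780542585781) (hG : sm gn 15 0 ≤ 586130079679078)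
    (d1 : dot1 ≤ 38214023770474884274295) (d2 : 156231088980204916844282047188 ≤ dot2) :
    dat.OK 201728 12 := by
  have h0' : sm wn 15 0 ≤ 2 ^ 80 := h0.le.trans (by norm_num)
  refine ⟨by decide, ?_, fun a b h => ?_, ?_, fun c => ?_, hf_nonneg, hf_zero, ?_, ?_,
    fun c _ => ?_, fun c _ => ?_, ?_, phi_le hG, ?_⟩
  · change ((aN 0 : ℕ) : ℝ) / 2 ^ 32 = 0
    rw [show aN 0 = 0 by decide]
    simp
  · exact div_le_div_of_nonneg_right (Nat.cast_le.2 (aN_mono h)) (by positivity)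
  · change ((aN (2 ^ 15) : ℕ) : ℝ) / 2 ^ 32 ≤ 1
    rw [show aN (2 ^ 15) = 1136654684 by decide]
    norm_num
  · exact div_nonneg (Nat.cast_nonneg _) (by norm_num)
  · change (0 : ℝ) ≤ 16384 / 2 ^ 32
    norm_num
  · change (16384 : ℝ) / 2 ^ 32 * (246205 : ℕ) + 261160960 / 2 ^ 32 ≤ 1 + 16384 / 2 ^ 32
    norm_num
  · have h := congrArg (Nat.cast (R := ℝ)) (lam_rN c)
    push_cast at h
    change ((aN (c + 1) : ℕ) : ℝ) / 2 ^ 32 ≤ 16384 / 2 ^ 32 * lam c + (rN c - 8192) / 2 ^ 32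
    linarith
  · have h : (rN c : ℝ) ≤ 16384 := by exact_mod_cast (rN_lt c).le
    change ((rN c : ℝ) - 8192) / 2 ^ 32 ≤ 8192 / 2 ^ 32
    linarith
  · change (0 : ℝ) ≤ 13021
    norm_num
  · have a1 := lhs_le h0'
    have a2 := rhs_ge h0' hG
    have a3 := tl_le h0 h1 h2
    have a4 : (dot1 : ℝ) ≤ (38214023770474884274295 : ℕ) := Nat.cast_le.2 d1
    have a5 : ((156231088980204916844282047188 : ℕ) : ℝ) ≤ dot2 := Nat.cast_le.2 d2
    have a6 : ((LL : ℕ) : ℝ) = 246205 := by norm_num [LL]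
    have a7 : ((nn : ℕ) : ℝ) = 201728 := by norm_num [nn]
    change 12 * ∑ s ∈ range LL, dat.Q nn s * dat.Θ s + (((201728 : ℕ) : ℝ) + 1) *
      ((586130079679078 * 2 ^ 8 / 2 ^ 56) ^ 2 * dat.Tl nn) <
        (((201728 : ℕ) : ℝ) + 1) * ∑ s ∈ range LL, dat.Q nn s * dat.Φ s ^ 2
    rw [a6, a7] at a1
    push_cast at a4 a5 ⊢
    linarith

end Pool.Agent.Lib.MP_c03ca8_nt.H.Ck
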