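import Pool.Agent.Lib.MP_c03ca8_nt.H.MainC
import Pool.Agent.Lib.MP_c03ca8_nt.H.DirC
import Pool.Agent.Lib.MP_c03ca8_nt.H.Fin

set_option autoImplicit false

noncomputable section

namespace Pool.Agent.Lib.MP_c03ca8_nt.H

open Finset Filter Q
open P3 (Rough om xi Xi bxB bil Adm)
open scoped Classical

/-! Many good integers. Model: `H/Main.lean` (`dhl`). -/

variable {ι : Type} [Fintype ι] [DecidableEq ι]

/-- `var_norm`, `iv_nonneg`, `main_num`, `main_cnt` with `A = (1 - t) (∑ Jv - k t)`; `0 < A`, so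
`0 < ∑ Jv - k t ≤ ∑ max (Jv - t) 0` and `ι` is not empty. `dir_count` with `j = k - 1` and
`g x n = (∀ l, Rough (x ^ η) (n + h l)) ∧ m + 1 ≤ card` (`P3.Rough.mono`); `w ≥ w1` from the eventual set,
`exists_res`; `γ x ≤ ⌈γ x⌉₊ ≤ x` (`Nat.le_ceil`, `Nat.ceil_le`). -/
theorem many {m : ℕ} (hV : Var ι (4 * m)) (h : ι → ℕ) (hinj : Function.Injective h)
    (adm : ∀ p : ℕ, p.Prime → ∃ a, ∀ l, ¬ p ∣ a + h l) : Many h m := by
  obtain ⟨M, α, F, hF, hJ⟩ := var_norm hV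
  have hI : 0 ≤ Iv M F (len α) := iv_nonneg M F fun c => sub_nonneg.2 (hF.mono (Nat.le_succ c))
  obtain ⟨θ, t, hθ0, hθ, ht, ht1, hn⟩ := main_num (Fintype.card ι) m hI hJ
  obtain ⟨η, C, hη, hC, hm⟩ := main_cnt hF hθ0 hθ ht hn
  obtain ⟨γ, hγ, hγ2, hd⟩ := dir_count ι ht ht1
  have l3 : ∑ i, Jv M F (len α) i - Fintype.card ι * t ≤ ∑ i, max (Jv M F (len α) i - t) 0 := by
    rw [← card_univ (α := ι), ← nsmul_eq_mul, ← sum_const, ← sum_sub_distrib]
    exact sum_le_sum fun i _ => le_max_left _ _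
  have h0 : (0 : ℝ) ≤ m * (θ ^ Fintype.card ι * (Iv M F (len α) + t) + t) + Fintype.card ι * t := by
    positivity
  have h1 : 0 < (1 - t) * (∑ i, Jv M F (len α) i - Fintype.card ι * t) :=
    (mul_pos_iff_of_pos_left (pow_pos hθ0 _)).1 (h0.trans_lt hn)
  have h2 : 0 < ∑ i, Jv M F (len α) i - Fintype.card ι * t :=
    (mul_pos_iff_of_pos_left (sub_pos.2 ht1)).1 h1
  have h3 : 0 < ∑ i, max (Jv M F (len α) i - t) 0 := h2.trans_le l3
  have hk : Fintype.card ι - 1 + 1 = Fintype.card ι := by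
    rcases isEmpty_or_nonempty ι with he | he
    · simp at h3
    · exact Nat.sub_add_cancel Fintype.card_pos
  refine ⟨η, hη, fun w1 => ?_⟩
  obtain ⟨w, hw, hw1⟩ := (Filter.Eventually.and (hm h γ hinj hγ) (eventually_ge_atTop w1)).exists
  obtain ⟨a, ha⟩ := exists_res h adm w
  obtain ⟨K, y0, δ, hK, hδ, hy⟩ := hd h (fun i => max (Jv M F (len α) i - t) 0)
    (fun _ => le_max_right _ _) h3 (primorial w) a (primorial_pos w) ha (Fintype.card ι - 1) C
    (fun x n => (∀ l, Rough ((x : ℝ) ^ η) (n + h l)) ∧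
      m + 1 ≤ (univ.filter fun l => (n + h l).Prime).card) hC
    (fun y x n _ hyx hg => ⟨fun l => (hg.1 l).mono
      (Real.rpow_le_rpow (Nat.cast_nonneg y) (Nat.cast_le.2 hyx) hη.le), hg.2⟩) (by
      filter_upwards [hw, eventually_ge_atTop 1] with x hx hx1
      have hx0 : (0 : ℝ) ≤ x := Nat.cast_nonneg x
      have hc : ⌈γ * x⌉₊ ≤ x := Nat.ceil_le.2 (by nlinarith)
      have h4 := hx a ⌈γ * x⌉₊ ha (Nat.le_ceil _) hc
      have hl : 0 ≤ Real.log x := Real.log_natCast_nonneg x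
      have h5 : (0 : ℝ) ≤ (⌈γ * x⌉₊ : ℝ) / (Nat.totient (primorial w) * Real.log x) := by positivity
      have h6 := mul_le_mul_of_nonneg_right (mul_le_mul_of_nonneg_left l3 (sub_pos.2 ht1).le) h5
      unfold Iw at h4
      refine h4.trans (add_le_add h6 (mul_le_mul_of_nonneg_left (Nat.cast_le.2 (card_le_card ?_))
        (mul_nonneg hC.le (pow_nonneg hl _))))
      intro n hn
      simp only [gd, mem_filter] at hn ⊢
      exact hn)
  refine ⟨w, a, K, y0, δ, hw1, ha, hK, hδ, fun y hy0 => ?_⟩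
  have h7 := hy y hy0
  rw [hk] at h7
  refine h7.trans (Nat.cast_le.2 (card_le_card fun n hn => ?_))
  simp only [gd, mem_filter] at hn ⊢
  exact hn

end Pool.Agent.Lib.MP_c03ca8_nt.H
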