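import Mathlib

/-!
Four primes in a bounded window: the variational problem and its one dimensional certificate.
-/

set_option autoImplicit false

noncomputable section

namespace Pool.Agent.Lib.MP_c03ca8_nt.H

open Finset

section

variable {ι : Type} [Fintype ι] [DecidableEq ι]

/-- Tuples of cells. -/
def Ce (ι : Type) [Fintype ι] [DecidableEq ι] (M : ℕ) : Finset (ι → ℕ) :=
  Fintype.piFinset fun _ => range M

/-- The integral of `F ^ 2` when the cell `c` has mass `μ c`. -/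
def Iv (M : ℕ) (F : (ι → ℕ) → ℝ) (μ : ℕ → ℝ) : ℝ := ∑ j ∈ Ce ι M, F j ^ 2 * ∏ l, μ (j l)

/-- The integral of the square of the marginal in the coordinate `i`. -/
def Jv (M : ℕ) (F : (ι → ℕ) → ℝ) (μ : ℕ → ℝ) (i : ι) : ℝ :=
  ∑ j ∈ (Ce ι M).filter (fun j => j i = 0),
    (∑ c ∈ range M, F (Function.update j i c) * μ c) ^ 2 * ∏ l ∈ univ.erase i, μ (j l)

end

/-- Length of the cell `[α c, α (c + 1))`. -/
def len (α : ℕ → ℝ) (c : ℕ) : ℝ := α (c + 1) - α c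

/-- A step function on the simplex with ratio above `r`. -/
def Var (ι : Type) [Fintype ι] [DecidableEq ι] (r : ℝ) : Prop :=
  ∃ (M : ℕ) (α : ℕ → ℝ) (F : (ι → ℕ) → ℝ), α 0 = 0 ∧ Monotone α ∧ α M ≤ 1 ∧
    (∀ j, F j ≠ 0 → ∑ l, α (j l + 1) ≤ 1) ∧ r * Iv M F (len α) < ∑ i, Jv M F (len α) i

/-- Data of a function `h (∑ lam) ∏ g` cut off at `∑ ρ ≤ B`. -/
structure Dat where
  M : ℕ
  α : ℕ → ℝ
  g : ℕ → ℝ
  lam : ℕ → ℕ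
  ρ : ℕ → ℝ
  h : ℕ → ℝ
  Λ : ℕ
  δ : ℝ
  B : ℝ
  ρm : ℝ
  τ : ℝ
  Φm : ℝ

namespace Dat

variable (D : Dat)

/-- Weight of a cell. -/
def w (c : ℕ) : ℝ := D.g c ^ 2 * len D.α c

/-- Weight of the `n`-tuples of cells with `∑ lam = s`. -/
def Q (n s : ℕ) : ℝ :=
  ((∑ c ∈ range D.M, Polynomial.monomial (D.lam c) (D.w c)) ^ n).coeff s

def Φ (s : ℕ) : ℝ := ∑ c ∈ range D.M, D.g c * len D.α c * D.h (s + D.lam c)

def Θ (s : ℕ) : ℝ := ∑ c ∈ range D.M, D.w c * D.h (s + D.lam c) ^ 2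

/-- Exponential moment bound for the weight of the tuples with `∑ ρ > B - ρm`. -/
def Tl (n : ℕ) : ℝ :=
  Real.exp (-(D.τ * (D.B - D.ρm))) * (∑ c ∈ range D.M, D.w c * Real.exp (D.τ * D.ρ c)) ^ n

structure OK (n : ℕ) (r : ℝ) : Prop where
  M_pos : 0 < D.M
  α0 : D.α 0 = 0
  mono : Monotone D.α
  αM : D.α D.M ≤ 1
  g0 : ∀ c, 0 ≤ D.g c
  h0 : ∀ s, 0 ≤ D.h s
  hΛ : ∀ s, D.Λ ≤ s → D.h s = 0
  δ0 : 0 ≤ D.δ
  lev : D.δ * D.Λ + D.B ≤ 1 + D.δ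
  cell : ∀ c < D.M, D.α (c + 1) ≤ D.δ * D.lam c + D.ρ c
  ρle : ∀ c < D.M, D.ρ c ≤ D.ρm
  τ0 : 0 ≤ D.τ
  Φle : ∀ s, D.Φ s ≤ D.Φm
  ineq : r * ∑ s ∈ range D.Λ, D.Q n s * D.Θ s + (n + 1) * (D.Φm ^ 2 * D.Tl n) <
    (n + 1) * ∑ s ∈ range D.Λ, D.Q n s * D.Φ s ^ 2

end Dat

end Pool.Agent.Lib.MP_c03ca8_nt.H
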