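import Pool.Agent.Lib.MP_c03ca8_nt.P3.Basic
import Pool.Agent.Lib.MP_c03ca8_nt.H.Num

set_option autoImplicit false

noncomputable section

namespace Pool.Agent.Lib.MP_c03ca8_nt.H

open Finset Filter Q
open P3 (Rough om xi Xi bxB bil Adm)
open scoped Classical

/-! Four primes in a bounded window: definitions for the sieve. See the blueprint `h3_BP.md`. -/

/-- `1 / (q - 1)`. -/
def uu (q : ℕ) : ℝ := 1 / ((q : ℝ) - 1)

/-- One dimensional weight with coefficients on sets of primes. -/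
def svs (P : Finset ℕ) (z : Finset ℕ → ℝ) (m : ℕ) : ℝ := ∑ T ∈ P.powerset, z T * ∏ q ∈ T, zl q m

/-- `cW w * log x`. -/
def LL (w x : ℕ) : ℝ := cW w * Real.log x

/-- The primes of the sieve. -/
def Ps (w x : ℕ) : Finset ℕ := PP w (3 * x)

/-- The class `a` modulo the primorial inside `(x, x + X]`. -/
def Iw (w x a X : ℕ) : Finset ℕ := cls x X (primorial w) a

/-- The `n ∈ I` with `n + k` rough. -/
def rgh (I : Finset ℕ) (y : ℝ) (k : ℕ) : Finset ℕ := I.filter fun n => Rough y (n + k)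

/-- The `n ∈ I` with `n + k` prime. -/
def prm (I : Finset ℕ) (k : ℕ) : Finset ℕ := I.filter fun n => (n + k).Prime

/-- The `n ∈ I` with `n + k` divisible by the square of a prime above `y`. -/
def sqs (I : Finset ℕ) (y : ℝ) (k : ℕ) : Finset ℕ :=
  I.filter fun n => ∃ p : ℕ, p.Prime ∧ y ≤ (p : ℝ) ∧ p ^ 2 ∣ n + k

/-- A majorant of `wt`. -/
def rw (K : ℝ) (T : Finset ℕ) : ℝ := ∏ q ∈ T, ((1 + K / q) / q)

/-- Coefficients of the Selberg weight for the primes below `y`, of level `R0`. -/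
def z0 (y R0 : ℝ) (T : Finset ℕ) : ℝ := if (∀ q ∈ T, (q : ℝ) < y) ∧ (pr T : ℝ) < R0 then 1 else 0

/-- Its value on rough numbers. -/
def gg (P : Finset ℕ) (y R0 : ℝ) : ℝ := ∑ T ∈ P.powerset, z0 y R0 T * wt T

/-- The coefficients of `ind p m * svs P z m`. -/
def zt (z : Finset ℕ → ℝ) (p : ℕ) (T : Finset ℕ) : ℝ :=
  if p ∈ T then -(((p : ℝ) - 1) / p * (z (T.erase p) - z T)) else (z T - z (insert p T)) / p

/-- Sets of primes below `y` with product in `[A, B)`. -/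
def sm (P : Finset ℕ) (y A B : ℝ) : Finset (Finset ℕ) :=
  P.powerset.filter fun T => (∀ q ∈ T, (q : ℝ) < y) ∧ A ≤ (pr T : ℝ) ∧ (pr T : ℝ) < B

/-- The coefficients in the identity of Ramaré. -/
def Br (y : ℝ) (_p r : ℕ) : ℝ := if Rough y r ∧ 1 < r then 1 / ((om r : ℝ) + 1) else 0

variable {ι : Type} [Fintype ι] [DecidableEq ι]

/-- Tuples of subsets of `P`. -/
def Tu (ι : Type) [Fintype ι] [DecidableEq ι] (P : Finset ℕ) : Finset (ι → Finset ℕ) :=
  Fintype.piFinset fun _ => P.powerset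

/-- The sieve weight. -/
def Aw (P : Finset ℕ) (h : ι → ℕ) (Z : (ι → Finset ℕ) → ℝ) (n : ℕ) : ℝ :=
  ∑ T ∈ Tu ι P, Z T * ∏ l, ∏ q ∈ T l, zl q (n + h l)

/-- The diagonal form. -/
def Dg (P : Finset ℕ) (Z : (ι → Finset ℕ) → ℝ) : ℝ := ∑ T ∈ Tu ι P, Z T ^ 2 * ∏ l, wt (T l)

/-- The forms whose set contains `q`. -/
def cf (T : ι → Finset ℕ) (q : ℕ) : Finset ι := univ.filter fun l => q ∈ T l

/-- The quadratic form given by local factors. -/
def Md (P : Finset ℕ) (v : ℕ → Finset ι → Finset ι → ℝ) (Z : (ι → Finset ℕ) → ℝ) : ℝ :=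
  ∑ T ∈ Tu ι P, ∑ T' ∈ Tu ι P, Z T * Z T' * ∏ q ∈ P, v q (cf T q) (cf T' q)

/-- Value of the local factor when `q` divides the form `o` (no form if `o = none`). -/
def vl (q : ℕ) (S S' : Finset ι) (o : Option ι) : ℝ :=
  (∏ l ∈ S, if o = some l then -1 else uu q) * ∏ l ∈ S', if o = some l then -1 else uu q

/-- Jump of the local factor at the form `l`. -/
def ee (q : ℕ) (S S' : Finset ι) (l : ι) : ℝ := vl q S S' (some l) - vl q S S' none

/-- Mean of the local factor when each form is divisible by `q` with probability `r`. -/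
def av (r : ℝ) (q : ℕ) (S S' : Finset ι) : ℝ := vl q S S' none + r * ∑ l, ee q S S' l

/-- Mean over all residues. -/
def vA (q : ℕ) (S S' : Finset ι) : ℝ := av (1 / (q : ℝ)) q S S'

/-- Mean over the residues for which one further form is a unit. -/
def vU (q : ℕ) (S S' : Finset ι) : ℝ := av (uu q) q S S'

/-- The independent model. -/
def vI (q : ℕ) (S S' : Finset ι) : ℝ := if S = S' then uu q ^ S.card else 0

/-- Local factors close to the independent model. -/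
def Near (P : Finset ℕ) (v : ℕ → Finset ι → Finset ι → ℝ) : Prop :=
  ∀ q ∈ P, ∀ S S', |v q S S' - vI q S S'| ≤ (4 * Fintype.card ι + 3) * uu q ^ 2

/-- Bounded by one, and only the forms of `A` occur. -/
structure Bd (Z : (ι → Finset ℕ) → ℝ) (A : Finset ι) : Prop where
  bd : ∀ T, |Z T| ≤ 1
  al : ∀ T, Z T ≠ 0 → ∀ l, l ∉ A → T l = ∅

/-- Level at most `R`. -/
def Lev (Z : (ι → Finset ℕ) → ℝ) (R : ℝ) : Prop := ∀ T, Z T ≠ 0 → ∏ l, (pr (T l) : ℝ) ≤ R

/-- A coefficient for the form `i` times a coefficient for the other forms. -/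
def tens (i : ι) (z : Finset ℕ → ℝ) (Z : (ι → Finset ℕ) → ℝ) (T : ι → Finset ℕ) : ℝ :=
  z (T i) * Z (Function.update T i ∅)

/-- The shifts are different and below `w`, the primes of `P` are above `w`. -/
structure Sh (h : ι → ℕ) (w : ℕ) (P : Finset ℕ) : Prop where
  inj : Function.Injective h
  lt : ∀ l, h l < w
  w10 : 10 ≤ w
  pr : ∀ q ∈ P, q.Prime ∧ w < q

/-- First `w` large, then `x` large; `a` is a good class and `γ x ≤ X ≤ x`. -/
def Evn (h : ι → ℕ) (γ : ℝ) (Φ : ℕ → ℕ → ℕ → ℕ → Prop) : Prop :=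
  ∀ᶠ w : ℕ in atTop, ∀ᶠ x : ℕ in atTop, ∀ a X : ℕ, (∀ l, Nat.Coprime (a + h l) (primorial w)) →
    γ * x ≤ X → X ≤ x → Φ w x a X

/-- The size `X / (W L) * L ^ (k - 1)`. -/
def Sz (ι : Type) [Fintype ι] (w x X : ℕ) : ℝ :=
  X / (primorial w * LL w x) * LL w x ^ (Fintype.card ι - 1)

/-- The square of the weight as a function on the units, `m = n + h i`. -/
def Pst (P : Finset ℕ) (h : ι → ℕ) (i : ι) (Z : (ι → Finset ℕ) → ℝ) (m : ℕ) : ℝ :=
  ∑ T ∈ Tu ι P, ∑ T' ∈ Tu ι P, Z T * Z T' * ∏ q ∈ P, (vU q (cf T q) (cf T' q) +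
    ∑ l ∈ univ.erase i, ee q (cf T q) (cf T' q) l * xi q (h l) (h i) m)

/-- The centred square on the class `b` modulo `W`, as a function of `m = n + h i`. -/
def Th (P : Finset ℕ) (h : ι → ℕ) (i : ι) (Z : (ι → Finset ℕ) → ℝ) (W b m : ℕ) : ℝ :=
  if m ≡ b [MOD W] then Aw P h Z (m - h i) ^ 2 - Md P vU Z else 0

/-- Indicator of the cell `[R ^ α c, R ^ α (c + 1))`. -/
def cel (R : ℝ) (α : ℕ → ℝ) (c : ℕ) (T : Finset ℕ) : ℝ :=
  if R ^ α c ≤ (pr T : ℝ) ∧ (pr T : ℝ) < R ^ α (c + 1) then 1 else 0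

/-- Mass of a cell. -/
def mas (P : Finset ℕ) (R : ℝ) (α : ℕ → ℝ) (c : ℕ) : ℝ := ∑ T ∈ P.powerset, cel R α c T * wt T

/-- The coefficient given by a step function. -/
def Zc (M : ℕ) (F : (ι → ℕ) → ℝ) (R : ℝ) (α : ℕ → ℝ) (T : ι → Finset ℕ) : ℝ :=
  ∑ j ∈ Ce ι M, F j * ∏ l, cel R α (j l) (T l)

/-- The coefficient seen when the form `i` is a large prime. -/
def Zm (P : Finset ℕ) (i : ι) (Z : (ι → Finset ℕ) → ℝ) (T : ι → Finset ℕ) : ℝ :=
  if T i = ∅ then ∑ U ∈ P.powerset, Z (Function.update T i U) * wt U else 0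

/-- A normalised step function on the simplex. -/
structure Stp (M : ℕ) (α : ℕ → ℝ) (F : (ι → ℕ) → ℝ) : Prop where
  a0 : α 0 = 0
  mono : Monotone α
  aM : α M ≤ 1
  supp : ∀ j, F j ≠ 0 → ∑ l, α (j l + 1) ≤ 1
  norm : ∑ j ∈ Ce ι M, |F j| ≤ 1

end Pool.Agent.Lib.MP_c03ca8_nt.H
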