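import Pool.Agent.Lib.MP_c03ca8_nt.H.Defs
import Pool.Agent.Lib.MP_c03ca8_nt.P3.Rep
import Pool.Agent.Lib.MP_c03ca8_nt.P3.MapB

set_option autoImplicit false

noncomputable section

namespace Pool.Agent.Lib.MP_c03ca8_nt.H

open Finset Filter Q
open P3 (Rough om xi Xi bxB bil Adm)
open scoped Classical

/-! Primes in a fixed class are not rare in all intervals `(x, x + γ x]`. -/

variable {ι : Type} [Fintype ι] [DecidableEq ι]

/-- Lower bound: `1 / n ≥ 1 / (n + k)`, the map `n ↦ n + k` onto the primes of `pI (y + k + 1) (Z + k + 1)`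
in the class `a + k`, `P3.mertens_ap`, and `y + k + 1 ≤ 2 y`. -/
theorem dir_low {W : ℕ} (hW : 1 ≤ W) : ∃ C : ℝ, ∀ a k y Z : ℕ, Nat.Coprime (a + k) W → k + 1 ≤ y → y ≤ Z →
    Real.log (Z / y) / Nat.totient W - C ≤ ∑ n ∈ Ioc y Z,
      (if n ≡ a [MOD W] ∧ (n + k).Prime then Real.log ((n + k : ℕ) : ℝ) else 0) / n := by
  obtain ⟨C, -, hC⟩ := P3.mertens_ap hW
  refine ⟨C + 1, fun a k y Z ha hk hZ => ?_⟩
  have hk' : (k : ℝ) + 1 ≤ y := by exact_mod_cast hk
  have hZ' : (y : ℝ) ≤ Z := by exact_mod_cast hZ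
  have hk0 : (0 : ℝ) ≤ k := Nat.cast_nonneg k
  have hy0 : (0 : ℝ) < y := by linarith
  have hZ0 : (0 : ℝ) < Z := by linarith
  have hφ : (1 : ℝ) ≤ Nat.totient W := by exact_mod_cast Nat.totient_pos.2 hW
  have h1 := (abs_le.1 (hC (a + k) ha (y + k + 1) (Z + k + 1) (by linarith) (by linarith))).1
  have h2 : Real.log (Z / y) - 1 ≤ Real.log ((Z + k + 1) / (y + k + 1)) := by
    have e : Real.log (Z / (2 * y)) = Real.log (Z / y) - Real.log 2 := by
      rw [← Real.log_div (by positivity) two_ne_zero, div_div, mul_comm]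
    have := Real.log_le_log (show (0 : ℝ) < Z / (2 * y) by positivity)
      (div_le_div₀ (show (0 : ℝ) ≤ Z + k + 1 by positivity) (by linarith)
        (show (0 : ℝ) < y + k + 1 by positivity) (by linarith))
    linarith [Real.log_two_lt_d9]
  have h3 := div_le_div_of_nonneg_right h2 (show (0 : ℝ) ≤ Nat.totient W by positivity)
  rw [sub_div] at h3
  have h4 : 1 / (Nat.totient W : ℝ) ≤ 1 := (div_le_one (by positivity)).2 hφ
  have key : ∀ p ∈ (pI (y + k + 1) (Z + k + 1)).filter fun p => p ≡ a + k [MOD W],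
      p.Prime ∧ y + k + 1 ≤ p ∧ p < Z + k + 1 ∧ p ≡ a + k [MOD W] := fun p hp => by
    have h5 := mem_filter.1 hp
    have h6 := (mem_filter.1 h5.1).2
    exact ⟨P3.mapb_prime h5.1, by exact_mod_cast h6.1, by exact_mod_cast h6.2, h5.2⟩
  refine le_trans (by linarith) (P3.rep_inj (f := fun p : ℕ => Real.log p / p)
    (S := (pI (y + k + 1) (Z + k + 1)).filter fun p => p ≡ a + k [MOD W]) (fun p => p - k)
    (fun p hp p' hp' e => ?_) (fun p hp => ?_) (fun p hp => ?_) fun n _ => ?_)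
  · have := key p hp
    have := key p' hp'
    simp only at e
    omega
  · have := key p hp
    exact mem_Ioc.2 ⟨by omega, by omega⟩
  · obtain ⟨p1, p2, p3, p4⟩ := key p hp
    have e : p - k + k = p := by omega
    rw [if_pos ⟨Nat.ModEq.add_right_cancel' k (e.symm ▸ p4), e.symm ▸ p1⟩, e]
    exact div_le_div_of_nonneg_left (Real.log_natCast_nonneg p)
      (by exact_mod_cast (by omega : 0 < p - k)) (by exact_mod_cast Nat.sub_le p k)
  · refine div_nonneg ?_ (Nat.cast_nonneg n)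
    split_ifs
    · exact Real.log_natCast_nonneg _
    · exact le_rfl

theorem dir_tile {W a k x X : ℕ} {L : ℝ} (hk : k ≤ x) (hX : X ≤ x) (hL : Real.log (3 * x) ≤ L) :
    ∑ n ∈ Ioc x (x + X), (if n ≡ a [MOD W] ∧ (n + k).Prime then Real.log ((n + k : ℕ) : ℝ)
      else 0) ≤ (prm (cls x X W a) k).card * L := by
  rw [← sum_filter, prm, cls, filter_filter, ← nsmul_eq_mul]
  refine sum_le_card_nsmul _ _ _ fun n hn => le_trans (Real.log_le_log ?_ ?_) hL
  · exact_mod_cast (mem_filter.1 hn).2.2.pos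
  · have := (mem_Ioc.1 (mem_filter.1 hn).1).2
    exact_mod_cast (by omega : n + k ≤ 3 * x)

/-- If `1 ≤ ε` or `S = ∑ J = 0` the left side is at most `0` (take `X = x`). Else take `γ = min ε 1 / 4` and
suppose that the inequality fails for all `x ≥ y` with `X = ⌈γ x⌉₊ ≤ x`. Put
`f n = ∑ i, J i * (if n ≡ a ∧ (n + h i).Prime then log (n + h i) else 0)`. On `(x, x + X]` one has
`log (n + h i) ≤ log (3 x) ≤ (1 + γ) log x` for large `x`, so `∑ f ≤ C X` with
`C = (1 + γ) (1 - ε) S / φ W`. `P3.tile` with `g = 0` and `dir_low` give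
`S (log (Z / y) / φ W - C0) ≤ C ((1 + 2 γ) log (Z / y) + 2 γ)` for all `Z ≥ y`, which is false for large `Z`
because `(1 + γ) (1 + 2 γ) (1 - ε) ≤ (1 + ε) (1 - ε) < 1`. -/
theorem dir (ι : Type) [Fintype ι] [DecidableEq ι] {ε : ℝ} (hε : 0 < ε) : ∃ γ : ℝ, 0 < γ ∧
    ∀ (h : ι → ℕ) (J : ι → ℝ), (∀ i, 0 ≤ J i) → ∀ W a : ℕ, 1 ≤ W → (∀ i, Nat.Coprime (a + h i) W) →
    ∃ᶠ x : ℕ in atTop, ∃ X : ℕ, γ * x ≤ X ∧ X ≤ x ∧
      (1 - ε) * (∑ i, J i) * (X / (Nat.totient W * Real.log x)) ≤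
        ∑ i, J i * (prm (cls x X W a) (h i)).card := by
  obtain ⟨γ, hγ, hγ1, hγε⟩ : ∃ γ : ℝ, 0 < γ ∧ 4 * γ ≤ 1 ∧ 4 * γ ≤ ε :=
    ⟨min ε 1 / 4, by positivity, by linarith [min_le_right ε 1], by linarith [min_le_left ε 1]⟩
  refine ⟨γ, hγ, fun h J hJ W a hW ha => ?_⟩
  have hS0 : 0 ≤ ∑ i, J i := sum_nonneg fun i _ => hJ i
  have hφ : (0 : ℝ) < Nat.totient W := by exact_mod_cast Nat.totient_pos.2 hW
  by_cases hc : (1 - ε) * ∑ i, J i ≤ 0
  · refine Frequently.of_forall fun x => ⟨x, mul_le_of_le_one_left (Nat.cast_nonneg x)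
      (by linarith), le_rfl, le_trans (mul_nonpos_of_nonpos_of_nonneg hc ?_)
        (sum_nonneg fun i _ => mul_nonneg (hJ i) (Nat.cast_nonneg _))⟩
    exact div_nonneg (Nat.cast_nonneg x) (mul_nonneg hφ.le (Real.log_natCast_nonneg x))
  have hc' := not_le.1 hc
  have hε1 : 0 < 1 - ε := pos_of_mul_pos_left hc' hS0
  have hS : 0 < ∑ i, J i := pos_of_mul_pos_right hc' hε1.le
  by_contra hn
  have hlog : Tendsto (fun x : ℕ => Real.log x) atTop atTop :=
    Real.tendsto_log_atTop.comp tendsto_natCast_atTop_atTop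
  obtain ⟨y, hy⟩ := eventually_atTop.1 ((not_frequently.1 hn).and
    ((eventually_all.2 fun i => eventually_ge_atTop (h i + 1)).and
    (((tendsto_natCast_atTop_atTop.const_mul_atTop hγ).eventually_ge_atTop 1).and
    (((hlog.const_mul_atTop hγ).eventually_ge_atTop (Real.log 3)).and
      (hlog.eventually_gt_atTop 0)))))
  obtain ⟨C0, hC0⟩ := dir_low hW
  obtain ⟨-, y1, y2, -⟩ := hy y le_rfl
  have hy0 : (0 : ℝ) < y := pos_of_mul_pos_left (b := γ) (by linarith) hγ.le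
  have hκ : (1 + γ) * (1 - ε) * (1 + 2 * γ) < 1 := by
    have e1 : (1 + γ) * (1 + 2 * γ) ≤ 1 + ε := by nlinarith
    nlinarith [mul_le_mul_of_nonneg_right e1 hε1.le]
  have hZ : Tendsto (fun Z : ℕ => (1 - (1 + γ) * (1 - ε) * (1 + 2 * γ)) * Real.log (Z / y))
      atTop atTop := (Real.tendsto_log_atTop.comp
    (tendsto_natCast_atTop_atTop.atTop_div_const hy0)).const_mul_atTop (by linarith)
  obtain ⟨Z, hyZ, hZ'⟩ := ((eventually_ge_atTop y).and (hZ.eventually_gt_atTop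
    (Nat.totient W * C0 + (1 + γ) * (1 - ε) * (2 * γ)))).exists
  have h1 := P3.tile (f := fun n => ∑ i, J i * (if n ≡ a [MOD W] ∧ (n + h i).Prime then
      Real.log ((n + h i : ℕ) : ℝ) else 0)) (g := fun _ => 0)
    (C := (1 + γ) * (1 - ε) * (∑ i, J i) / Nat.totient W)
    (fun n => sum_nonneg fun i _ => mul_nonneg (hJ i) (by
      split_ifs
      · exact Real.log_natCast_nonneg _
      · exact le_rfl)) (fun _ => le_rfl) hγ (by linarith) (by positivity) y2 hyZ fun x hx _ => by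
      obtain ⟨x0, x1, x2, x3, x4⟩ := hy x hx
      have hx0 : (0 : ℝ) < x := hy0.trans_le (by exact_mod_cast hx)
      have hX : ⌈γ * x⌉₊ ≤ x := Nat.ceil_le.2 (mul_le_of_le_one_left hx0.le (by linarith))
      have e1 := not_le.1 fun e => x0 ⟨_, Nat.le_ceil _, hX, e⟩
      have e2 : Real.log (3 * x) ≤ (1 + γ) * Real.log x := by
        rw [Real.log_mul (by norm_num) hx0.ne']
        linarith
      rw [sum_const_zero, add_zero, sum_comm]
      simp only [← mul_sum]
      refine (sum_le_sum fun i _ => mul_le_mul_of_nonneg_left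
        (dir_tile (by have := x1 i; omega) hX e2) (hJ i)).trans ?_
      simp only [← mul_assoc]
      rw [← sum_mul, ← sum_mul, mul_assoc]
      refine (mul_le_mul_of_nonneg_right e1.le (by positivity)).trans (le_of_eq ?_)
      field_simp
  have h2 : (∑ i, J i) * (Real.log (Z / y) / Nat.totient W - C0) ≤
      ∑ n ∈ Ioc y Z, (∑ i, J i * (if n ≡ a [MOD W] ∧ (n + h i).Prime then
        Real.log ((n + h i : ℕ) : ℝ) else 0)) / n := by
    simp only [sum_div, mul_div_assoc]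
    rw [sum_comm, sum_mul]
    refine sum_le_sum fun i _ => ?_
    rw [← mul_sum]
    exact mul_le_mul_of_nonneg_left (hC0 a (h i) y Z (ha i) (y1 i) hyZ) (hJ i)
  rw [sum_const_zero, mul_zero, add_zero] at h1
  have h3 : (∑ i, J i) / Nat.totient W * (Real.log (Z / y) - Nat.totient W * C0) ≤
      (∑ i, J i) / Nat.totient W *
        ((1 + γ) * (1 - ε) * ((1 + 2 * γ) * Real.log (Z / y) + 2 * γ)) := by
    refine le_trans (le_of_eq ?_) ((h2.trans h1).trans (le_of_eq (by ring)))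
    field_simp
  have h4 := le_of_mul_le_mul_left h3 (by positivity)
  linarith

end Pool.Agent.Lib.MP_c03ca8_nt.H
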