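import Pool.Agent.Lib.MP_c03ca8_nt.H.Mark

set_option autoImplicit false

noncomputable section

namespace Pool.Agent.Lib.MP_c03ca8_nt.H

open Finset Filter Q
open P3 (Rough om xi Xi bxB bil Adm)
open scoped Classical

/-! A cheap fundamental lemma: the sizes. -/

theorem tail_sub {P : Finset ℕ} {w : ℕ} {y S : ℝ} (hP : ∀ q ∈ P, q.Prime ∧ w < q)
    (hS : ∑ q ∈ pI 1 y, Real.log q / q ≤ S) :
    ∑ q ∈ P.filter (fun q : ℕ => (q : ℝ) < y), Real.log q / q ≤ S := by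
  refine le_trans (sum_le_sum_of_subset_of_nonneg (fun q hq => ?_) fun q _ _ =>
    div_nonneg (Real.log_natCast_nonneg q) (Nat.cast_nonneg q)) hS
  obtain ⟨h1, h2⟩ := mem_filter.1 hq
  exact mem_filter.2 ⟨Nat.mem_primesLE.2 ⟨Nat.le_floor h2.le, (hP q h1).1⟩,
    by exact_mod_cast (hP q h1).1.one_le, h2⟩

theorem tail_step {P : Finset ℕ} {w : ℕ} {K y A0 A B S M : ℝ} (hK : 0 ≤ K) (hKw : K ≤ w)
    (hP : ∀ q ∈ P, q.Prime ∧ w < q) (h0 : 1 < A0) (hA : A0 ≤ A) (hM : 0 ≤ M)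
    (hS : ∑ q ∈ pI 1 y, Real.log q / q ≤ S)
    (h : ∀ q ∈ P.filter (fun q : ℕ => (q : ℝ) < y), ∑ T ∈ sm P y (A / q) (B / q), rw K T ≤ M) :
    ∑ T ∈ sm P y A B, rw K T ≤ 2 * S / Real.log A0 * M := by
  have hl : 0 < Real.log A0 := Real.log_pos h0
  have h1 := log_trick (P := P) (y := y) (K := K) (fun q hq => ⟨(hP q hq).1,
    hKw.trans (by exact_mod_cast (hP q hq).2.le)⟩) hK (A := A) (B := B) (by linarith)
  have h2 : 0 ≤ ∑ T ∈ sm P y A B, rw K T := sum_nonneg fun T _ => rw_nonneg hK T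
  have h3 := mul_le_mul_of_nonneg_right (Real.log_le_log (by linarith) hA) h2
  have h4 : ∑ q ∈ P.filter (fun q : ℕ => (q : ℝ) < y),
      2 * (Real.log q / q) * ∑ T ∈ sm P y (A / q) (B / q), rw K T ≤ 2 * S * M := by
    calc _ ≤ ∑ q ∈ P.filter (fun q : ℕ => (q : ℝ) < y), 2 * (Real.log q / q) * M :=
          sum_le_sum fun q hq => mul_le_mul_of_nonneg_left (h q hq)
            (mul_nonneg zero_le_two (div_nonneg (Real.log_natCast_nonneg q) (Nat.cast_nonneg q)))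
      _ = 2 * (∑ q ∈ P.filter (fun q : ℕ => (q : ℝ) < y), Real.log q / q) * M := by
          rw [mul_sum, sum_mul]
      _ ≤ _ := mul_le_mul_of_nonneg_right (mul_le_mul_of_nonneg_left (tail_sub hP hS) zero_le_two) hM
  rw [div_mul_eq_mul_div, le_div_iff₀ hl]
  linarith

theorem tail_log (c : ℝ) {η : ℝ} (hη : 0 < η) : ∀ᶠ x : ℕ in atTop, c ≤ η * Real.log x :=
  ((Real.tendsto_log_atTop.comp tendsto_natCast_atTop_atTop).const_mul_atTop hη).eventually_ge_atTop c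

/-- `log_trick` twice (`A ≥ A0 y`, `A / q ≥ A0`, so both logarithms are at least `log A0`), then `mass_up`
for `[A / (q q'), B / (q q'))`, whose ratio is `B / A`; `exp (K / w) ≤ 3`. The primes of `P` below `y` lie in
`pI 1 y`. -/
theorem tail_one (w : ℕ) (hw : 1 ≤ w) : ∃ B0 : ℝ, 0 ≤ B0 ∧ ∀ (K : ℝ) (P : Finset ℕ) (y A0 A B S : ℝ),
    0 ≤ K → K ≤ w → (∀ q ∈ P, q.Prime ∧ w < q) → 1 ≤ y → 1 < A0 → A0 * y ≤ A → A ≤ B →
    ∑ q ∈ pI 1 y, Real.log q / q ≤ S →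
    ∑ T ∈ sm P y A B, rw K T ≤
      (2 * S / Real.log A0) ^ 2 * (3 * (cW w * Real.log (B / A) + B0)) := by
  obtain ⟨B0, hB0, hB⟩ := mass_up w hw
  refine ⟨B0, hB0, fun K P y A0 A B S hK hKw hP hy h0 hA hAB hS => ?_⟩
  have hw' : (0 : ℝ) < w := by exact_mod_cast hw
  have hA0 : A0 ≤ A := le_trans (le_mul_of_one_le_right (by linarith) hy) hA
  have hAp : 0 < A := by linarith
  have hl : 0 < Real.log A0 := Real.log_pos h0
  have hS0 : 0 ≤ S := le_trans (sum_nonneg fun q _ =>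
    div_nonneg (Real.log_natCast_nonneg q) (Nat.cast_nonneg q)) hS
  have hL : 0 ≤ cW w * Real.log (B / A) + B0 :=
    add_nonneg (mul_nonneg (cW_pos w).le (Real.log_nonneg ((one_le_div hAp).2 hAB))) hB0
  have he : Real.exp (K / w) ≤ 3 :=
    (Real.exp_le_exp.2 ((div_le_one hw').2 hKw)).trans (Real.exp_one_lt_d9.le.trans (by norm_num))
  rw [sq, mul_assoc]
  refine tail_step hK hKw hP h0 hA0 (by positivity) hS fun q hq => ?_
  obtain ⟨q1, q2⟩ := mem_filter.1 hq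
  have q0 : (0 : ℝ) < q := by exact_mod_cast (hP q q1).1.pos
  refine tail_step hK hKw hP h0 ?_ (by positivity) hS fun r hr => ?_
  · rw [le_div_iff₀ q0]
    exact le_trans (mul_le_mul_of_nonneg_left q2.le (by linarith)) hA
  · have r0 : (0 : ℝ) < r := by exact_mod_cast (hP r (mem_filter.1 hr).1).1.pos
    have h1 := hB K hK P hP (A / q / r) (B / q / r) (by positivity) (by gcongr)
    rw [show B / q / r / (A / q / r) = B / A by field_simp] at h1
    refine le_trans (sum_le_sum_of_subset_of_nonneg (fun T hT => ?_) fun T _ _ => rw_nonneg hK T)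
      (h1.trans (mul_le_mul_of_nonneg_right he hL))
    obtain ⟨t1, t2⟩ := mem_filter.1 hT
    exact mem_filter.2 ⟨t1, t2.2⟩

/-- `sum_zt`, `tail_one` with `A0 = x ^ (3 / 32)`, `A = R0 / p`, `B = R0`, `S = 2 η log x` (`mertens1`, `x`
large). Then `∑ p < y, (cW log p + B0) / p ≤ cW S + B0 ∑ 1 / p ≤ 3 η cW log x` for large `x` (`mertens2`,
`log log x = o (log x)`). -/
theorem tail : ∃ C : ℝ, 0 < C ∧ ∀ η : ℝ, 0 < η → η ≤ 1 / 64 → ∀ w : ℕ, 1 ≤ w → ∀ᶠ x : ℕ in atTop,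
    ∀ (K : ℝ) (P : Finset ℕ), 0 ≤ K → K ≤ w → (∀ q ∈ P, q.Prime ∧ w < q) →
      ∑ p ∈ P.filter (fun p : ℕ => (p : ℝ) < (x : ℝ) ^ η), ∑ T ∈ P.powerset,
        |zt (z0 ((x : ℝ) ^ η) ((x : ℝ) ^ (1 / 8 : ℝ))) p T| * rw K T ≤ C * η ^ 3 * LL w x := by
  obtain ⟨C1, -, hm⟩ := mertens1
  refine ⟨81920, by norm_num, fun η hη hη' w hw => ?_⟩
  obtain ⟨B0, hB0, hB⟩ := tail_one w hw
  have hc := cW_pos w
  filter_upwards [tail_log C1 hη, tail_log (Real.exp (B0 / cW w)) hη, eventually_ge_atTop 2]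
    with x h1 h2 h3 K P hK hKw hP
  have hx : (1 : ℝ) < x := by exact_mod_cast h3
  have hx0 : (0 : ℝ) < x := by linarith
  have hl : 0 < Real.log x := Real.log_pos hx
  have hy : 1 ≤ (x : ℝ) ^ η := Real.one_le_rpow hx.le hη.le
  have hS : ∑ q ∈ pI 1 ((x : ℝ) ^ η), Real.log q / q ≤ 2 * (η * Real.log x) := by
    have h4 := (abs_le.1 (hm 1 _ le_rfl hy)).2
    rw [div_one, Real.log_rpow hx0] at h4
    linarith
  have hA0 : 1 < (x : ℝ) ^ (3 / 32 : ℝ) := Real.one_lt_rpow hx (by norm_num)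
  have hR : (x : ℝ) ^ (3 / 32 : ℝ) * (x : ℝ) ^ η * (x : ℝ) ^ η ≤ (x : ℝ) ^ (1 / 8 : ℝ) := by
    rw [← Real.rpow_add hx0, ← Real.rpow_add hx0]
    exact Real.rpow_le_rpow_of_exponent_le hx.le (by linarith)
  have hR0 : 0 < (x : ℝ) ^ (1 / 8 : ℝ) := by positivity
  have key : ∀ p ∈ P.filter (fun p : ℕ => (p : ℝ) < (x : ℝ) ^ η), ∑ T ∈ P.powerset,
      |zt (z0 ((x : ℝ) ^ η) ((x : ℝ) ^ (1 / 8 : ℝ))) p T| * rw K T ≤
        16384 * η ^ 2 * cW w * (2 * (Real.log p / p) + Real.exp (B0 / cW w) * (1 / (p : ℝ) ^ 2)) := by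
    intro p hp
    obtain ⟨p1, p2⟩ := mem_filter.1 hp
    have p3 : (1 : ℝ) ≤ p := by exact_mod_cast (hP p p1).1.one_le
    have p0 : (0 : ℝ) < p := by linarith
    have e1 := hB K P _ _ ((x : ℝ) ^ (1 / 8 : ℝ) / p) ((x : ℝ) ^ (1 / 8 : ℝ)) _ hK hKw hP hy hA0
      (by
        rw [le_div_iff₀ p0]
        exact le_trans (mul_le_mul_of_nonneg_left p2.le (by positivity)) hR)
      (div_le_self hR0.le p3) hS
    rw [show (x : ℝ) ^ (1 / 8 : ℝ) / ((x : ℝ) ^ (1 / 8 : ℝ) / p) = p by field_simp,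
      Real.log_rpow hx0, show 2 * (2 * (η * Real.log x)) / (3 / 32 * Real.log x) = 128 / 3 * η by
        field_simp
        norm_num] at e1
    have e2 : B0 ≤ cW w * (Real.log p + Real.exp (B0 / cW w) / p) := by
      have e3 := Real.add_one_le_exp (B0 / cW w - Real.log p)
      rw [Real.exp_sub, Real.exp_log p0] at e3
      rw [← div_le_iff₀' hc]
      linarith
    refine (sum_zt (fun q hq => (hP q hq).1) p1 p2 hK
      (hKw.trans (by exact_mod_cast (hP p p1).2.le))).trans ?_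
    calc _ ≤ 3 / (p : ℝ) * ((128 / 3 * η) ^ 2 * (3 * (cW w * Real.log p +
          cW w * (Real.log p + Real.exp (B0 / cW w) / p)))) :=
          mul_le_mul_of_nonneg_left (e1.trans (by gcongr)) (by positivity)
      _ = _ := by
          field_simp
          ring
  refine (sum_le_sum key).trans ?_
  rw [← mul_sum, sum_add_distrib, ← mul_sum, ← mul_sum]
  have f1 := tail_sub hP hS
  have f2 := mass_inv_sq hw (P.filter (fun p : ℕ => (p : ℝ) < (x : ℝ) ^ η))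
    fun q hq => (hP q (mem_filter.1 hq).1).2
  have f3 : 1 / (w : ℝ) ≤ 1 := by
    rw [div_le_one (by exact_mod_cast hw)]
    exact_mod_cast hw
  have f4 := mul_le_mul_of_nonneg_left (f2.trans f3) (Real.exp_pos (B0 / cW w)).le
  calc _ ≤ 16384 * η ^ 2 * cW w * (5 * (η * Real.log x)) :=
        mul_le_mul_of_nonneg_left (by linarith) (by positivity)
    _ = _ := by
        unfold LL
        ring

/-- The `T` with `pr T < y` count (`q ≤ pr T`); `mass` with `Y = 1`, `Z = y`, `4 / w ≤ 4 / 10`. -/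
theorem gg_ge {η : ℝ} (hη : 0 < η) (hη8 : η ≤ 1 / 8) (w : ℕ) (hw : 10 ≤ w) : ∀ᶠ x : ℕ in atTop,
    η / 2 * LL w x ≤ gg (Ps w x) ((x : ℝ) ^ η) ((x : ℝ) ^ (1 / 8 : ℝ)) := by
  obtain ⟨B, -, hB⟩ := mass w hw
  have hc := cW_pos w
  filter_upwards [tail_log (10 * B) (mul_pos hc hη), eventually_ge_atTop 1] with x h1 h2
  have hx : (1 : ℝ) ≤ x := by exact_mod_cast h2
  have hx0 : (0 : ℝ) < x := by linarith
  have hl : 0 ≤ Real.log x := Real.log_nonneg hx
  have hy : 1 ≤ (x : ℝ) ^ η := Real.one_le_rpow hx hη.le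
  have h3 : (x : ℝ) ^ η ≤ ((3 * x : ℕ) : ℝ) := by
    have := Real.rpow_le_rpow_of_exponent_le hx (show η ≤ 1 by linarith)
    rw [Real.rpow_one] at this
    push_cast
    linarith
  have h4 := (abs_le.1 (hB (3 * x) 1 _ le_rfl hy h3)).1
  rw [div_one, Real.log_rpow hx0] at h4
  have hw' : (10 : ℝ) ≤ w := by exact_mod_cast hw
  have h5 : 4 / (w : ℝ) * (cW w * (η * Real.log x)) ≤ 4 / 10 * (cW w * (η * Real.log x)) :=
    mul_le_mul_of_nonneg_right (div_le_div_of_nonneg_left (by norm_num) (by norm_num) hw')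
      (by positivity)
  have hp : ∀ T ∈ (PP w (3 * x)).powerset, ∀ q ∈ T, q.Prime := fun T hT q hq =>
    Nat.prime_of_mem_primesLE (mem_filter.1 (mem_powerset.1 hT hq)).1
  have h6 : ∑ T ∈ (PP w (3 * x)).powerset.filter
      (fun T => (1 : ℝ) ≤ (pr T : ℝ) ∧ (pr T : ℝ) < (x : ℝ) ^ η), wt T ≤
      gg (Ps w x) ((x : ℝ) ^ η) ((x : ℝ) ^ (1 / 8 : ℝ)) := by
    rw [sum_filter]
    refine sum_le_sum fun T hT => ?_
    have w0 : 0 ≤ wt T := prod_nonneg fun q hq => by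
      have : (2 : ℝ) ≤ q := by exact_mod_cast (hp T hT q hq).two_le
      exact div_nonneg zero_le_one (by linarith)
    unfold z0
    split_ifs with c1 c2 c3
    · rw [one_mul]
    · refine absurd ⟨fun q hq => lt_of_le_of_lt ?_ c1.2,
        c1.2.trans_le (Real.rpow_le_rpow_of_exponent_le hx hη8)⟩ c2
      exact_mod_cast Nat.le_of_dvd (pr_pos (hp T hT)) (dvd_prod_of_mem (fun q : ℕ => q) hq)
    · rwa [one_mul]
    · rw [zero_mul]
  unfold LL
  linarith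

end Pool.Agent.Lib.MP_c03ca8_nt.H
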