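import Pool.Agent.Lib.MP_c03ca8_nt.H.Triv

set_option autoImplicit false

noncomputable section

namespace Pool.Agent.Lib.MP_c03ca8_nt.H

open Finset Filter Q
open P3 (Rough om xi Xi bxB bil Adm)
open scoped Classical

/-! Splitting off one form. -/

variable {ι : Type} [Fintype ι] [DecidableEq ι] {P : Finset ℕ} {h : ι → ℕ} {i : ι} {z : Finset ℕ → ℝ}
  {Z : (ι → Finset ℕ) → ℝ} {R R0 : ℝ}

theorem tens_mem {T : ι → Finset ℕ} : T ∈ Tu ι P ↔ ∀ l, T l ⊆ P := by
  simp [Tu, Fintype.mem_piFinset]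

theorem tens_upd {T : ι → Finset ℕ} (hT : T ∈ Tu ι P) (i : ι) {U : Finset ℕ} (hU : U ⊆ P) :
    Function.update T i U ∈ Tu ι P := by
  refine tens_mem.2 fun l => ?_
  by_cases hl : l = i
  · rw [hl, Function.update_self]
    exact hU
  · rw [Function.update_of_ne hl]
    exact tens_mem.1 hT l

theorem tens_prod (g : ι → Finset ℕ → ℝ) (T : ι → Finset ℕ) (i : ι) (U : Finset ℕ) :
    ∏ l, g l (Function.update T i U l) = g i U * ∏ l ∈ univ.erase i, g l (T l) := by
  rw [← Finset.mul_prod_erase univ _ (mem_univ i), Function.update_self]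
  congr 1
  exact Finset.prod_congr rfl fun l hl => by rw [Function.update_of_ne (ne_of_mem_erase hl)]

theorem tens_prod0 {g : ι → Finset ℕ → ℝ} (hg : g i ∅ = 1) {T : ι → Finset ℕ} (hT : T i = ∅) :
    ∏ l, g l (T l) = ∏ l ∈ univ.erase i, g l (T l) := by
  rw [← Finset.mul_prod_erase univ _ (mem_univ i), hT, hg, one_mul]

/-- Sum over the tuples by the coordinate `i` and the rest. -/
theorem sum_tu (P : Finset ℕ) (i : ι) (f : (ι → Finset ℕ) → ℝ) : ∑ T ∈ Tu ι P, f T =
    ∑ T ∈ (Tu ι P).filter (fun T => T i = ∅), ∑ U ∈ P.powerset, f (Function.update T i U) := by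
  rw [← Finset.sum_product']
  refine Finset.sum_nbij' (fun T => (Function.update T i ∅, T i))
    (fun p => Function.update p.1 i p.2) ?_ ?_ ?_ ?_ ?_
  · intro T hT
    exact mem_product.2 ⟨mem_filter.2 ⟨tens_upd hT i (empty_subset _), Function.update_self ..⟩,
      mem_powerset.2 (tens_mem.1 hT i)⟩
  · intro p hp
    obtain ⟨h1, h2⟩ := mem_product.1 hp
    exact tens_upd (mem_filter.1 h1).1 i (mem_powerset.1 h2)
  · intro T _
    simp
  · intro p hp
    obtain ⟨h1, -⟩ := mem_product.1 hp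
    have h3 := (mem_filter.1 h1).2
    refine Prod.ext ?_ (by simp)
    simp only [Function.update_idem]
    rw [← h3, Function.update_eq_self]
  · intro T _
    simp

theorem tens_split (a : Finset ℕ → ℝ) {b : (ι → Finset ℕ) → ℝ} (hb : ∀ T, b T ≠ 0 → T i = ∅)
    {g : ι → Finset ℕ → ℝ} (hg : g i ∅ = 1) :
    ∑ T ∈ Tu ι P, a (T i) * b (Function.update T i ∅) * ∏ l, g l (T l) =
      (∑ U ∈ P.powerset, a U * g i U) * ∑ T ∈ Tu ι P, b T * ∏ l, g l (T l) := by
  rw [sum_tu P i, Finset.mul_sum, Finset.sum_filter]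
  refine Finset.sum_congr rfl fun T _ => ?_
  by_cases hT : T i = ∅
  · rw [if_pos hT, Finset.sum_mul]
    refine Finset.sum_congr rfl fun U _ => ?_
    have e : Function.update T i ∅ = T := by rw [← hT, Function.update_eq_self]
    rw [tens_prod, Function.update_self, Function.update_idem, e, tens_prod0 hg hT]
    ring
  · have h0 : b T = 0 := by
      by_contra h0
      exact hT (hb T h0)
    rw [if_neg hT, h0]
    simp

theorem Bd.empty (hZ : Bd Z (univ.erase i)) (T : ι → Finset ℕ) (h0 : Z T ≠ 0) : T i = ∅ := by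
  exact hZ.al T h0 i (by simp)

theorem bd_univ (hZ : ∀ T, |Z T| ≤ 1) : Bd Z univ := by
  exact ⟨hZ, fun T _ l hl => absurd (mem_univ l) hl⟩

theorem Lev.mono (hL : Lev Z R) (hR : R ≤ R0) : Lev Z R0 := by
  exact fun T hT => (hL T hT).trans hR

theorem aw_tens (hZ : ∀ T, Z T ≠ 0 → T i = ∅) (n : ℕ) :
    Aw P h (tens i z Z) n = svs P z (n + h i) * Aw P h Z n := by
  exact tens_split z hZ (g := fun l U => ∏ q ∈ U, zl q (n + h l)) (Finset.prod_empty)

theorem dg_tens (hZ : ∀ T, Z T ≠ 0 → T i = ∅) :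
    Dg P (tens i z Z) = (∑ T ∈ P.powerset, z T ^ 2 * wt T) * Dg P Z := by
  have := tens_split (P := P) (i := i) (fun T => z T ^ 2) (b := fun T => Z T ^ 2)
    (fun T hT => hZ T fun h0 => hT (by rw [h0]; norm_num)) (g := fun _ U => wt U)
    (Finset.prod_empty)
  unfold Dg tens
  simp only [mul_pow]
  exact this

theorem lev_tens (hz : ∀ T, z T ≠ 0 → (pr T : ℝ) ≤ R0) (hL : Lev Z R) :
    Lev (tens i z Z) (R0 * R) := by
  intro T hT
  have h1 := hz _ (left_ne_zero_of_mul hT)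
  have h2 := hL _ (right_ne_zero_of_mul hT)
  rw [tens_prod (fun _ U => (pr U : ℝ))] at h2
  have h3 : ((pr ∅ : ℕ) : ℝ) = 1 := by simp [pr]
  rw [h3, one_mul] at h2
  rw [← Finset.mul_prod_erase univ _ (mem_univ i)]
  exact mul_le_mul h1 h2 (Finset.prod_nonneg fun _ _ => Nat.cast_nonneg _)
    ((Nat.cast_nonneg _).trans h1)

theorem abs_tens_le (hZ : ∀ T, |Z T| ≤ 1) (T : ι → Finset ℕ) : |tens i z Z T| ≤ |z (T i)| := by
  rw [tens, abs_mul]
  exact mul_le_of_le_one_right (abs_nonneg _) (hZ _)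

theorem bd_tens {A : Finset ι} (h1 : ∀ T, |z T| ≤ 1) (hZ : Bd Z A) :
    Bd (tens i z Z) (insert i A) := by
  refine ⟨fun T => (abs_tens_le hZ.bd T).trans (h1 _), fun T hT l hl => ?_⟩
  rw [mem_insert, not_or] at hl
  have := hZ.al _ (right_ne_zero_of_mul hT) l hl.2
  rwa [Function.update_of_ne hl.1] at this

/-- The coefficient of the constant weight. -/
def Z1 (ι : Type) [Fintype ι] (T : ι → Finset ℕ) : ℝ := if ∀ l, T l = ∅ then 1 else 0

theorem tens_one (P : Finset ℕ) (f : (ι → Finset ℕ) → ℝ) :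
    ∑ T ∈ Tu ι P, Z1 ι T * f T = f fun _ => ∅ := by
  rw [Finset.sum_eq_single_of_mem (fun _ => ∅) (tens_mem.2 fun _ => empty_subset _)]
  · simp [Z1]
  · intro T _ hT
    rw [Z1, if_neg fun h0 => hT (funext h0), zero_mul]

theorem aw_one (P : Finset ℕ) (h : ι → ℕ) (n : ℕ) : Aw P h (Z1 ι) n = 1 := by
  rw [Aw, tens_one]
  simp

theorem dg_one (P : Finset ℕ) : Dg P (Z1 ι) = 1 := by
  have e : ∀ T, Z1 ι T ^ 2 = Z1 ι T := fun T => by
    unfold Z1
    split_ifs <;> norm_num
  unfold Dg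
  simp only [e]
  rw [tens_one]
  simp [wt]

theorem bd_one : Bd (Z1 ι) ∅ := by
  refine ⟨fun T => ?_, fun T hT l _ => ?_⟩
  · unfold Z1
    split_ifs <;> norm_num
  · by_contra h0
    exact hT (if_neg fun h1 => h0 (h1 l))

theorem lev_one : Lev (Z1 ι) 1 := by
  intro T hT
  have h1 := bd_one.al T hT
  refine le_of_eq (Finset.prod_eq_one fun l _ => ?_)
  rw [h1 l (notMem_empty l)]
  simp [pr]

/-- For `q ∈ T i` one has `q ≤ R < n + h i`, so `zl q (n + h i) = 1 / (q - 1)`. -/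
theorem aw_zm (hP : ∀ q ∈ P, q.Prime) (hL : Lev Z R) {n : ℕ} (hp : (n + h i).Prime)
    (hR : R < ((n + h i : ℕ) : ℝ)) : Aw P h Z n = Aw P h (Zm P i Z) n := by
  unfold Aw
  rw [sum_tu P i, Finset.sum_filter]
  refine Finset.sum_congr rfl fun T hT => ?_
  unfold Zm
  by_cases h0 : T i = ∅
  · rw [if_pos h0, if_pos h0, Finset.sum_mul]
    refine Finset.sum_congr rfl fun U hU => ?_
    by_cases hZ : Z (Function.update T i U) = 0
    · rw [hZ]
      simp
    · have h1 := hL.le hP (tens_upd hT i (mem_powerset.1 hU)) hZ i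
      rw [Function.update_self] at h1
      have hU' : ∀ q ∈ U, q.Prime := fun q hq => hP q (mem_powerset.1 hU hq)
      have h2 : ∏ q ∈ U, zl q (n + h i) = wt U := by
        refine Finset.prod_congr rfl fun q hq => if_neg fun hd => ?_
        have h3 : q ≤ pr U := Nat.le_of_dvd (pr_pos hU') (Finset.dvd_prod_of_mem (fun q => q) hq)
        have h4 : q = n + h i := (Nat.prime_dvd_prime_iff_eq (hU' q hq) hp).1 hd
        have h5 : (q : ℝ) ≤ pr U := by exact_mod_cast h3
        rw [← h4] at hR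
        linarith
      rw [tens_prod (fun l U => ∏ q ∈ U, zl q (n + h l)), h2,
        tens_prod0 (g := fun l U => ∏ q ∈ U, zl q (n + h l)) Finset.prod_empty h0]
      ring
  · rw [if_neg h0, if_neg h0, zero_mul]

theorem lev_zm (hP : ∀ q ∈ P, q.Prime) (hL : Lev Z R) : Lev (Zm P i Z) R := by
  intro T hT
  have h0 : T i = ∅ := by
    by_contra h0
    exact hT (if_neg h0)
  rw [Zm, if_pos h0] at hT
  obtain ⟨U, hU, hZ⟩ := Finset.exists_ne_zero_of_sum_ne_zero hT
  have h1 := hL _ (left_ne_zero_of_mul hZ)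
  rw [tens_prod (fun _ U => (pr U : ℝ))] at h1
  rw [tens_prod0 (g := fun _ U => (pr U : ℝ)) (by simp [pr]) h0]
  have h2 : (1 : ℝ) ≤ pr U := by
    exact_mod_cast pr_pos fun q hq => hP q (mem_powerset.1 hU hq)
  exact (le_mul_of_one_le_left (Finset.prod_nonneg fun _ _ => Nat.cast_nonneg _) h2).trans h1

/-- `sum_wt`. -/
theorem bd_zm (hP : ∀ q ∈ P, q.Prime) (hZ : ∀ T, |Z T| ≤ 1) :
    Bd (fun T => (mert P)⁻¹ * Zm P i Z T) (univ.erase i) := by
  have hm : 0 < mert P := zero_lt_one.trans_le (one_le_mert hP)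
  refine ⟨fun T => ?_, fun T hT l hl => ?_⟩
  · rw [abs_mul, abs_of_pos (inv_pos.2 hm), inv_mul_le_iff₀ hm, mul_one]
    unfold Zm
    split_ifs
    · rw [← sum_wt]
      refine (Finset.abs_sum_le_sum_abs _ _).trans (Finset.sum_le_sum fun U hU => ?_)
      have h1 : 0 ≤ wt U := Finset.prod_nonneg fun q hq => by
        have h2 : (1 : ℝ) ≤ q := by exact_mod_cast (hP q (mem_powerset.1 hU hq)).one_le
        exact div_nonneg zero_le_one (by linarith)
      rw [abs_mul, abs_of_nonneg h1]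
      exact mul_le_of_le_one_left h1 (hZ _)
    · rw [abs_zero]
      exact hm.le
  · have h1 : l = i := by simpa using hl
    by_contra h0
    exact right_ne_zero_of_mul hT (if_neg fun h2 => h0 (h1 ▸ h2))

end Pool.Agent.Lib.MP_c03ca8_nt.H
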