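import Pool.Agent.Lib.MP_c03ca8_nt.H.Asy
import Pool.Agent.Lib.MP_c03ca8_nt.H.Tens
import Pool.Agent.Lib.MP_c03ca8_nt.H.Tail

set_option autoImplicit false

noncomputable section

namespace Pool.Agent.Lib.MP_c03ca8_nt.H

open Finset Filter Q
open P3 (Rough om xi Xi bxB bil Adm)
open scoped Classical

/-! A cheap fundamental lemma. -/

variable {ι : Type} [Fintype ι] [DecidableEq ι] {h : ι → ℕ} {γ : ℝ}

theorem fund_x {w x : ℕ} {G : ℝ} (hG : Gd h w x G) : (1 : ℝ) ≤ x := by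
  have h1 := hG.wx
  have h2 := hG.sh.w10
  exact_mod_cast (by omega : 1 ≤ x)

theorem fund_mul {x s t u : ℝ} (hx : 1 ≤ x) (hst : s + t ≤ u) : x ^ s * x ^ t ≤ x ^ u := by
  rw [← Real.rpow_add (by linarith)]
  exact Real.rpow_le_rpow_of_exponent_le hx hst

theorem fund_gg (P : Finset ℕ) (y R0 : ℝ) :
    ∑ T ∈ P.powerset, z0 y R0 T ^ 2 * wt T = gg P y R0 :=
  Finset.sum_congr rfl fun T _ => by rw [z0_sq]

theorem fund_ev (h : ι → ℕ) (γ : ℝ) {η : ℝ} (hη : 0 < η) (hη1 : η ≤ 1 / 64) :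
    Evn h γ fun w x _ _ => η / 2 * LL w x ≤ gg (Ps w x) ((x : ℝ) ^ η) ((x : ℝ) ^ (1 / 8 : ℝ)) :=
  evn_x ((eventually_ge_atTop 10).mono fun w hw => gg_ge hη (by linarith) w hw)

/-- `g ^ 2 * card ≤ ∑ s ^ 2` with `s = svs P z0 (n + h i) = Aw P h (tens i z0 (Z1 ι)) n` (`svs_rough`,
`aw_tens`, `aw_one`); `asy_all` with `A = insert i ∅` and `ε η ^ 2 / 4`, `dg_tens`, `z0_sq`, `gg_ge`. -/
theorem fund_up (hinj : Function.Injective h) (hγ : 0 < γ) {η ε : ℝ} (hη : 0 < η) (hη1 : η ≤ 1 / 64)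
    (hε : 0 < ε) : Evn h γ fun w x a X => ∀ i : ι,
      ((rgh (Iw w x a X) ((x : ℝ) ^ η) (h i)).card : ℝ) ≤
        X / (primorial w * gg (Ps w x) ((x : ℝ) ^ η) ((x : ℝ) ^ (1 / 8 : ℝ))) +
          ε * (X / (primorial w * LL w x)) := by
  have hε' : 0 < ε * η ^ 2 / 4 := by positivity
  refine (((asy_all hinj hγ hε').and (fund_ev h γ hη hη1)).and (ev_gd hinj γ one_pos 0)).mono ?_
  rintro w x a X - - - ⟨⟨h1, h2⟩, G, hG, -⟩ i
  set y : ℝ := (x : ℝ) ^ η with hy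
  set R0 : ℝ := (x : ℝ) ^ (1 / 8 : ℝ) with hR0
  set g : ℝ := gg (Ps w x) y R0 with hg
  set L : ℝ := LL w x with hL
  have hL1 : 1 ≤ L := hG.L1
  have hg0 : 0 < g := lt_of_lt_of_le (by positivity) h2
  have hW : (0 : ℝ) < primorial w := by exact_mod_cast primorial_pos w
  have hZ : ∀ T, Z1 ι T ≠ 0 → T i = ∅ := fun T hT => bd_one.al T hT i (Finset.notMem_empty i)
  have hlev : Lev (tens i (z0 y R0) (Z1 ι)) ((x : ℝ) ^ (7 / 16 : ℝ)) := by
    refine (lev_tens (fun T hT => z0_lev hT) lev_one).mono ?_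
    rw [mul_one]
    exact Real.rpow_le_rpow_of_exponent_le (fund_x hG) (by norm_num)
  have k1 := (abs_le.1 (h1 _ _ (bd_tens (i := i) (abs_z0_le y R0) bd_one) hlev)).2
  rw [dg_tens hZ, dg_one, fund_gg, mul_one, Finset.insert_empty, Finset.card_singleton,
    pow_one] at k1
  have k2 : ((rgh (Iw w x a X) y (h i)).card : ℝ) * g ^ 2 ≤
      ∑ n ∈ Iw w x a X, Aw (Ps w x) h (tens i (z0 y R0) (Z1 ι)) n ^ 2 := by
    rw [← nsmul_eq_mul, ← Finset.sum_const]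
    refine le_trans (Finset.sum_le_sum fun n hn => le_of_eq ?_)
      (Finset.sum_le_sum_of_subset_of_nonneg (Finset.filter_subset _ _) fun n _ _ => sq_nonneg _)
    rw [aw_tens hZ, aw_one, mul_one, svs_rough hG.prime (Finset.mem_filter.1 hn).2]
  have hX : (0 : ℝ) ≤ X / primorial w := by positivity
  have k3 : (η / 2 * L) ^ 2 ≤ g ^ 2 := pow_le_pow_left₀ (by positivity) h2 2
  have k4 : ε * η ^ 2 / 4 * (X / primorial w * L) ≤ ε * (X / (primorial w * L)) * g ^ 2 := by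
    calc ε * η ^ 2 / 4 * (X / primorial w * L)
        = ε * (X / (primorial w * L)) * (η / 2 * L) ^ 2 := by field_simp; ring
      _ ≤ _ := mul_le_mul_of_nonneg_left k3 (by positivity)
  have k5 : X / primorial w * g = X / (primorial w * g) * g ^ 2 := by field_simp
  refine le_of_mul_le_mul_right ?_ (pow_pos hg0 2)
  rw [add_mul]
  linarith

/-- The terms with a small prime: `aw_tens`, `asy_fix` for `tens i (zt z0 p) Z` with `f = |zt z0 p|`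
(level `x ^ (1 / 8) * x ^ η * x ^ (1 / 4) ≤ x ^ (7 / 16)`), `tail`; at most `x ^ η` primes `p`
(`erra_card_le`), `x ^ (η + 15 / 16) ≤ x ^ (1 - 1 / 32)`, `ev_small`, `le_main`. -/
theorem fund_tail (ι : Type) [Fintype ι] [DecidableEq ι] : ∃ C : ℝ, 0 < C ∧ ∀ (h : ι → ℕ) (γ η : ℝ),
    Function.Injective h → 0 < γ → 0 < η → η ≤ 1 / 64 → Evn h γ fun w x a X =>
      ∀ (i : ι) (Z : (ι → Finset ℕ) → ℝ), Bd Z (univ.erase i) → Lev Z ((x : ℝ) ^ (1 / 4 : ℝ)) →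
      ∑ p ∈ (Ps w x).filter (fun p : ℕ => (p : ℝ) < (x : ℝ) ^ η), ∑ n ∈ Iw w x a X,
        svs (Ps w x) (zt (z0 ((x : ℝ) ^ η) ((x : ℝ) ^ (1 / 8 : ℝ))) p) (n + h i) ^ 2 *
          Aw (Ps w x) h Z n ^ 2 ≤ C * η ^ 3 * (X / primorial w * LL w x ^ Fintype.card ι) := by
  obtain ⟨K, hK, hfix⟩ := asy_fix ι
  obtain ⟨C, hC, htail⟩ := tail
  refine ⟨K * C + 1, by positivity, fun h γ η hinj hγ hη hη1 => ?_⟩
  have e1 := evn_x (h := h) (γ := γ)
    ((eventually_ge_atTop 1).mono fun w hw => htail η hη hη1 w hw)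
  have e2 := ev_small h hγ (δ := 1 / 32) (ε := η ^ 3) (by norm_num) (by positivity)
  refine (((((hfix h γ hinj).and e1).and e2).and (evn_div h γ K one_pos)).and
    (ev_gd hinj γ one_pos 0)).mono ?_
  rintro w x a X - - - ⟨⟨⟨⟨h1, h2⟩, h3⟩, h4, -⟩, G, hG, -⟩ i Z hZ hL
  have hx := fund_x hG
  set y : ℝ := (x : ℝ) ^ η with hy
  set R0 : ℝ := (x : ℝ) ^ (1 / 8 : ℝ) with hR0
  set S : Finset ℕ := (Ps w x).filter (fun p : ℕ => (p : ℝ) < y) with hS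
  have hS1 : ∀ p ∈ S, 1 ≤ p ∧ (p : ℝ) < y := fun p hp =>
    ⟨(hG.prime p (Finset.mem_filter.1 hp).1).one_le, (Finset.mem_filter.1 hp).2⟩
  have hL1 : 1 ≤ LL w x := hG.L1
  have hX : (0 : ℝ) ≤ X / primorial w := by positivity
  have k1 : ∀ p ∈ S, ∑ n ∈ Iw w x a X,
      svs (Ps w x) (zt (z0 y R0) p) (n + h i) ^ 2 * Aw (Ps w x) h Z n ^ 2 ≤
      X / primorial w * (K * LL w x ^ (Fintype.card ι - 1)) *
        (∑ T ∈ (Ps w x).powerset, |zt (z0 y R0) p T| * rw K T) + (x : ℝ) ^ (15 / 16 : ℝ) := by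
    intro p hp
    obtain ⟨hp1, hpy⟩ := hS1 p hp
    have hlev : Lev (tens i (zt (z0 y R0) p) Z) ((x : ℝ) ^ (7 / 16 : ℝ)) := by
      refine (lev_tens (fun T hT => zt_lev hp1 hpy hT) hL).mono ?_
      rw [hR0, hy, ← Real.rpow_add (by linarith)]
      exact fund_mul hx (by linarith)
    have a1 := h1 (tens i (zt (z0 y R0) p) Z) i (fun T => |zt (z0 y R0) p T|)
      (fun T => (abs_tens_le hZ.bd T).trans (abs_zt_le hp1 _ _ _)) (abs_tens_le hZ.bd)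
      (fun T => abs_nonneg _) hlev
    rw [Finset.sum_congr rfl fun n _ => by rw [aw_tens hZ.empty, mul_pow]] at a1
    refine a1.trans (le_of_eq ?_)
    ring
  have k2 := h2 K (Ps w x) (by linarith) h4 hG.sh.pr
  have k3 : (S.card : ℝ) ≤ y :=
    erra_card_le S (by positivity) fun p hp => ⟨(hS1 p hp).1, (hS1 p hp).2.le⟩
  have k4 : (S.card : ℝ) * (x : ℝ) ^ (15 / 16 : ℝ) ≤
      η ^ 3 * (X / primorial w * LL w x ^ Fintype.card ι) :=
    calc (S.card : ℝ) * (x : ℝ) ^ (15 / 16 : ℝ) ≤ y * (x : ℝ) ^ (15 / 16 : ℝ) :=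
          mul_le_mul_of_nonneg_right k3 (by positivity)
      _ ≤ (x : ℝ) ^ (1 - 1 / 32 : ℝ) := fund_mul hx (by linarith)
      _ ≤ η ^ 3 * (X / (primorial w * LL w x)) := h3
      _ ≤ _ := mul_le_mul_of_nonneg_left (le_main X _ hL1) (by positivity)
  have k5 : LL w x ^ Fintype.card ι = LL w x ^ (Fintype.card ι - 1) * LL w x := by
    rw [← pow_succ, Nat.sub_add_cancel (Fintype.card_pos_iff.2 ⟨i⟩)]
  have k6 : X / primorial w * (K * LL w x ^ (Fintype.card ι - 1)) *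
      (∑ p ∈ S, ∑ T ∈ (Ps w x).powerset, |zt (z0 y R0) p T| * rw K T) ≤
      K * C * η ^ 3 * (X / primorial w * LL w x ^ Fintype.card ι) := by
    refine (mul_le_mul_of_nonneg_left k2 (by positivity)).trans (le_of_eq ?_)
    rw [k5]
    ring
  refine (Finset.sum_le_sum k1).trans ?_
  rw [Finset.sum_add_distrib, ← Finset.mul_sum, Finset.sum_const, nsmul_eq_mul]
  linarith

/-- `sq_le` (with `Gd.mem_P`) times `Aw ^ 2`: `g ^ 2 ∑ rough ≥ ∑ (s Aw) ^ 2 - tail`. `asy_all` for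
`tens i z0 Z` with `A = univ` and `ε η ^ 2 / 8`; `fund_tail` with `C η ≤ ε / 8`; `sz_mul`, `gg_ge`. -/
theorem fund_low (ι : Type) [Fintype ι] [DecidableEq ι] {ε : ℝ} (hε : 0 < ε) :
    ∃ η : ℝ, 0 < η ∧ η ≤ 1 / 64 ∧ ∀ (h : ι → ℕ) (γ : ℝ), Function.Injective h → 0 < γ →
      Evn h γ fun w x a X => ∀ (i : ι) (Z : (ι → Finset ℕ) → ℝ), Bd Z (univ.erase i) →
        Lev Z ((x : ℝ) ^ (1 / 4 : ℝ)) →
        X / (primorial w * gg (Ps w x) ((x : ℝ) ^ η) ((x : ℝ) ^ (1 / 8 : ℝ))) * Dg (Ps w x) Z -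
          ε * Sz ι w x X ≤ ∑ n ∈ rgh (Iw w x a X) ((x : ℝ) ^ η) (h i), Aw (Ps w x) h Z n ^ 2 := by
  obtain ⟨C, hC, htail⟩ := fund_tail ι
  obtain ⟨η, hη, hη1, hη2⟩ : ∃ η : ℝ, 0 < η ∧ η ≤ 1 / 64 ∧ C * η ≤ ε / 8 := by
    refine ⟨min (1 / 64) (ε / 8 / C), lt_min (by norm_num) (by positivity), min_le_left _ _, ?_⟩
    rw [← le_div_iff₀' hC]
    exact min_le_right _ _
  refine ⟨η, hη, hη1, fun h γ hinj hγ => ?_⟩
  have hε' : 0 < ε * η ^ 2 / 8 := by positivity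
  refine ((((asy_all hinj hγ hε').and (fund_ev h γ hη hη1)).and (htail h γ η hinj hγ hη hη1)).and
    (ev_gd hinj γ one_pos 0)).mono ?_
  rintro w x a X ha - hXx ⟨⟨⟨h1, h2⟩, h3⟩, G, hG, -⟩ i Z hZ hL
  have k0 := h3 i Z hZ hL
  have hx := fund_x hG
  set y : ℝ := (x : ℝ) ^ η with hy
  set R0 : ℝ := (x : ℝ) ^ (1 / 8 : ℝ) with hR0
  set g : ℝ := gg (Ps w x) y R0 with hg
  have hL1 : 1 ≤ LL w x := hG.L1
  have hg0 : 0 < g := lt_of_lt_of_le (by positivity) h2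
  have hW : (0 : ℝ) < primorial w := by exact_mod_cast primorial_pos w
  have hlev : Lev (tens i (z0 y R0) Z) ((x : ℝ) ^ (7 / 16 : ℝ)) :=
    (lev_tens (fun T hT => z0_lev hT) hL).mono (fund_mul hx (by norm_num))
  have k1 := (abs_le.1 (h1 _ _
    (bd_univ fun T => (abs_tens_le (i := i) hZ.bd T).trans (abs_z0_le y R0 _)) hlev)).1
  rw [dg_tens hZ.empty, fund_gg, Finset.card_univ] at k1
  have k2 : ∑ n ∈ Iw w x a X, Aw (Ps w x) h (tens i (z0 y R0) Z) n ^ 2 ≤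
      g ^ 2 * ∑ n ∈ rgh (Iw w x a X) y (h i), Aw (Ps w x) h Z n ^ 2 +
        ∑ p ∈ (Ps w x).filter (fun p : ℕ => (p : ℝ) < y), ∑ n ∈ Iw w x a X,
          svs (Ps w x) (zt (z0 y R0) p) (n + h i) ^ 2 * Aw (Ps w x) h Z n ^ 2 := by
    rw [Finset.sum_comm, rgh, Finset.sum_filter, Finset.mul_sum, ← Finset.sum_add_distrib]
    refine Finset.sum_le_sum fun n hn => ?_
    have a1 := mul_le_mul_of_nonneg_right
      (sq_le (y := y) (R0 := R0) hG.prime fun q hq hd => hG.mem_P hXx (ha i) hn hq hd)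
      (sq_nonneg (Aw (Ps w x) h Z n))
    rw [aw_tens hZ.empty, mul_pow, ← Finset.sum_mul]
    refine a1.trans (le_of_eq ?_)
    split_ifs <;> ring
  have hS : 0 ≤ Sz ι w x X := le_trans (by positivity) (le_sz ι X hL1)
  have hM : 0 ≤ X / primorial w * LL w x ^ Fintype.card ι := by positivity
  have k3 : (η / 2 * LL w x) ^ 2 ≤ g ^ 2 := pow_le_pow_left₀ (by positivity) h2 2
  have k4 : ε * η ^ 2 / 4 * (X / primorial w * LL w x ^ Fintype.card ι) ≤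
      ε * Sz ι w x X * g ^ 2 := by
    rw [← sz_mul i X hL1]
    calc ε * η ^ 2 / 4 * (Sz ι w x X * LL w x ^ 2)
        = ε * Sz ι w x X * (η / 2 * LL w x) ^ 2 := by ring
      _ ≤ _ := mul_le_mul_of_nonneg_left k3 (by positivity)
  have k5 : X / primorial w * (g * Dg (Ps w x) Z) =
      X / (primorial w * g) * Dg (Ps w x) Z * g ^ 2 := by field_simp
  have k6 : C * η ^ 3 * (X / primorial w * LL w x ^ Fintype.card ι) ≤
      ε * η ^ 2 / 8 * (X / primorial w * LL w x ^ Fintype.card ι) := by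
    refine mul_le_mul_of_nonneg_right ?_ hM
    calc C * η ^ 3 = C * η * η ^ 2 := by ring
      _ ≤ ε / 8 * η ^ 2 := mul_le_mul_of_nonneg_right hη2 (by positivity)
      _ = _ := by ring
  refine le_of_mul_le_mul_right ?_ (pow_pos hg0 2)
  rw [sub_mul]
  linarith

end Pool.Agent.Lib.MP_c03ca8_nt.H
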