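import Pool.Agent.Lib.MP_c03ca8_nt.H.Triv
import Pool.Agent.Lib.MP_c03ca8_nt.H.Ev

set_option autoImplicit false

noncomputable section

namespace Pool.Agent.Lib.MP_c03ca8_nt.H

open Finset Filter Q
open P3 (Rough om xi Xi bxB bil Adm)
open scoped Classical

/-! Primes are the rough numbers minus a bilinear form. Model: team-store `p3_Ram.lean`. -/

/-- A rough `r > 1` is at least its least prime factor. -/
theorem adm_Br (y : ℝ) : Adm y (Br y) := by
  refine ⟨fun p r => ?_, fun p r h => ?_, fun p p' r hp hpp => ?_⟩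
  · unfold Br
    split_ifs with hc
    · have : (0 : ℝ) ≤ om r := Nat.cast_nonneg _
      rw [abs_of_nonneg (by positivity)]
      exact div_le_one_of_le₀ (by linarith) (by linarith)
    · simp
  · have hc : Rough y r ∧ 1 < r := by
      by_contra hc
      exact h (if_neg hc)
    refine ⟨hc.1, ?_⟩
    exact (hc.1 _ (Nat.minFac_prime hc.2.ne') (Nat.minFac_dvd r)).trans
      (by exact_mod_cast Nat.minFac_le (by omega))
  · have hp0 : (0 : ℝ) < p := by exact_mod_cast hp
    have hl : Real.log p ≤ Real.log p' := Real.log_le_log hp0 (by exact_mod_cast hpp)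
    have e : Br y p r = Br y p' r := rfl
    rw [e, sub_self, abs_zero]
    linarith

/-- If `m` has a prime `q < y` then `q ∣ m / p` for each prime `p ≥ y` of `m`, so `bil = 0`. If `m` is prime
then `m / m = 1`. If `m` is rough and not prime then the sum runs over all `om m` primes of `m`, each
`m / p` is rough and exceeds `1`, `om m ≤ om (m / p) + 1`, with equality if `p ^ 2 ∤ m` (`P3.om_mul`). -/
theorem ram_pt {y : ℝ} {m : ℕ} (hm : 2 ≤ m) (hy : y ≤ (m : ℝ)) :
    0 ≤ bil y (Br y) m ∧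
    (if m.Prime then 1 else 0) + bil y (Br y) m ≤ (if Rough y m then 1 else 0) ∧
    (if Rough y m then 1 else 0) ≤ (if m.Prime then 1 else 0) + bil y (Br y) m +
      if ∃ p : ℕ, p.Prime ∧ y ≤ (p : ℝ) ∧ p ^ 2 ∣ m then 1 else 0 := by
  have h0 : 0 ≤ bil y (Br y) m := by
    refine Finset.sum_nonneg fun p _ => ?_
    unfold Br
    split_ifs
    · positivity
    · exact le_rfl
  have hs : (0 : ℝ) ≤ if ∃ p : ℕ, p.Prime ∧ y ≤ (p : ℝ) ∧ p ^ 2 ∣ m then 1 else 0 := by
    split_ifs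
    · exact zero_le_one
    · exact le_rfl
  refine ⟨h0, ?_⟩
  by_cases hr : Rough y m
  · rw [if_pos hr]
    have h1 : m.primeFactors.filter (fun p : ℕ => y ≤ (p : ℝ)) = m.primeFactors :=
      Finset.filter_true_of_mem fun p hp =>
        hr p (Nat.prime_of_mem_primeFactors hp) (Nat.dvd_of_mem_primeFactors hp)
    by_cases hp : m.Prime
    · have h2 : bil y (Br y) m = 0 := by
        unfold bil
        rw [h1, hp.primeFactors, Finset.sum_singleton, Nat.div_self hp.pos]
        exact if_neg fun h => lt_irrefl _ h.2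
      rw [if_pos hp, h2]
      constructor <;> linarith
    · rw [if_neg hp, zero_add]
      have hom : (0 : ℝ) < om m := by
        have : 0 < om m := Finset.card_pos.2 (Nat.nonempty_primeFactors.2 (by omega))
        exact_mod_cast this
      have h2 : ∀ p ∈ m.primeFactors, m = p * (m / p) ∧ m / p ≠ 0 ∧
          Br y p (m / p) = 1 / ((om (m / p) : ℝ) + 1) := fun p hp' => by
        have h := Nat.mem_primeFactors.1 hp'
        have e : m = p * (m / p) := (Nat.mul_div_cancel' h.2.1).symm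
        have e0 : m / p ≠ 0 := fun h0 => h.2.2 (by rw [e, h0, mul_zero])
        have e1 : m / p ≠ 1 := fun h0 => hp (by rw [e, h0, mul_one]; exact h.1)
        exact ⟨e, e0, if_pos ⟨hr.of_dvd (Nat.div_dvd_of_dvd h.2.1),
          Nat.one_lt_iff_ne_zero_and_ne_one.2 ⟨e0, e1⟩⟩⟩
      have h3 : ∑ _p ∈ m.primeFactors, 1 / (om m : ℝ) = 1 := by
        rw [Finset.sum_const, nsmul_eq_mul]
        change (om m : ℝ) * _ = _
        field_simp
      constructor
      · unfold bil
        rw [h1, ← h3]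
        refine Finset.sum_le_sum fun p hp' => ?_
        obtain ⟨a1, a2, a3⟩ := h2 p hp'
        have hpp := Nat.prime_of_mem_primeFactors hp'
        have a4 : om m ≤ om (m / p) + 1 := by
          conv_lhs => rw [a1]
          unfold om
          rw [Nat.primeFactors_mul hpp.ne_zero a2, hpp.primeFactors, ← Finset.insert_eq]
          exact Finset.card_insert_le _ _
        rw [a3]
        exact one_div_le_one_div_of_le hom (by exact_mod_cast a4)
      · split_ifs with hq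
        · linarith
        · have h4 : bil y (Br y) m = 1 := by
            unfold bil
            rw [h1, ← h3]
            refine Finset.sum_congr rfl fun p hp' => ?_
            obtain ⟨a1, a2, a3⟩ := h2 p hp'
            have hpp := Nat.prime_of_mem_primeFactors hp'
            have a4 : om m = om (m / p) + 1 := by
              conv_lhs => rw [a1]
              refine P3.om_mul hpp a2 fun hd => hq
                ⟨p, hpp, hr p hpp (Nat.dvd_of_mem_primeFactors hp'), ?_⟩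
              rw [a1, sq]
              exact mul_dvd_mul_left p hd
            rw [a3, a4]
            push_cast
            rfl
          linarith
  · have hp : ¬m.Prime := fun hp => hr (P3.rough_prime hp hy)
    have h2 : bil y (Br y) m = 0 := by
      refine Finset.sum_eq_zero fun p hp' => if_neg fun h => hr ?_
      obtain ⟨hp1, hp2⟩ := Finset.mem_filter.1 hp'
      rw [← Nat.mul_div_cancel' (Nat.dvd_of_mem_primeFactors hp1)]
      exact (P3.rough_prime (Nat.prime_of_mem_primeFactors hp1) hp2).mul h.1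
    rw [if_neg hr, if_neg hp, h2]
    constructor <;> linarith

/-- Copy `erra_card_sq`. -/
theorem card_sqs {x X W a k : ℕ} {y : ℝ} (hy : 1 ≤ y) (hX : X ≤ x) (hk : k ≤ x) :
    ((sqs (cls x X W a) y k).card : ℝ) ≤ 2 * (X / y) + 2 * √(x : ℝ) := by
  obtain ⟨S, hS⟩ : ∃ S : Finset ℕ, S = (range (3 * x + 1)).filter
    fun p : ℕ => 1 ≤ p ∧ y ≤ (p : ℝ) ∧ p ^ 2 ≤ 3 * x := ⟨_, rfl⟩
  have hm : ∀ p, p ∈ S ↔ p < 3 * x + 1 ∧ 1 ≤ p ∧ y ≤ (p : ℝ) ∧ p ^ 2 ≤ 3 * x := fun p => by
    rw [hS, mem_filter, mem_range]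
  have h1 : sqs (cls x X W a) y k ⊆
      S.biUnion fun p => (Ioc x (x + X)).filter fun n => p ^ 2 ∣ n + k := by
    intro n hn
    unfold sqs at hn
    obtain ⟨hI, p, hp, hpy, hd⟩ := mem_filter.mp hn
    have a1 := (mem_filter.mp hI).1
    have a2 := mem_Ioc.mp a1
    have a4 : p ^ 2 ≤ 3 * x := (Nat.le_of_dvd (by omega) hd).trans (by omega)
    have a5 : p ≤ p ^ 2 := Nat.le_self_pow (by norm_num) p
    exact mem_biUnion.mpr ⟨p, (hm p).mpr ⟨by omega, hp.one_le, hpy, a4⟩, mem_filter.mpr ⟨a1, hd⟩⟩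
  have h2 : ((sqs (cls x X W a) y k).card : ℝ) ≤
      ∑ p ∈ S, (((Ioc x (x + X)).filter fun n => p ^ 2 ∣ n + k).card : ℝ) := by
    exact_mod_cast (card_le_card h1).trans card_biUnion_le
  have h3 : ∑ p ∈ S, (((Ioc x (x + X)).filter fun n => p ^ 2 ∣ n + k).card : ℝ) ≤
      ∑ p ∈ S, (X * (1 / (p : ℝ) ^ 2) + 1) := by
    refine sum_le_sum fun p hp => ?_
    have hp1 : 1 ≤ p := ((hm p).mp hp).2.1
    have := erra_card_dvd (d := p ^ 2) (by positivity) x X k
    rw [Nat.cast_pow] at this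
    rw [mul_one_div]
    exact this
  have h4 := erra_sum_inv_sq S hy fun p hp => ((hm p).mp hp).2.2.1
  have h5 : (S.card : ℝ) ≤ 2 * √(x : ℝ) := by
    refine erra_card_le S (by positivity) fun p hp => ⟨((hm p).mp hp).2.1, ?_⟩
    have a1 : ((p : ℝ)) ^ 2 ≤ 3 * x := by exact_mod_cast ((hm p).mp hp).2.2.2
    have a2 : (0 : ℝ) ≤ x := Nat.cast_nonneg _
    refine (pow_le_pow_iff_left₀ (by positivity) (by positivity) two_ne_zero).mp ?_
    rw [mul_pow, Real.sq_sqrt a2]
    linarith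
  rw [sum_add_distrib, ← mul_sum, sum_const, nsmul_eq_mul, mul_one] at h3
  have h6 : (X : ℝ) * ∑ p ∈ S, 1 / (p : ℝ) ^ 2 ≤ X * (2 / y) := by gcongr
  have h7 : (X : ℝ) * (2 / y) = 2 * (X / y) := by ring
  linarith

variable {ι : Type} [Fintype ι] [DecidableEq ι] {h : ι → ℕ} {γ : ℝ}

/-- `card_sqs`, `abs_aw_le`; with `δ = min η (1 / 2)` the number of terms is at most `4 x ^ (1 - δ)` and
`G ^ (4 k + 1) ≤ x ^ (δ / 2)`; `ev_gd`, `ev_small`, `le_sz`. -/
theorem sq_small (hinj : Function.Injective h) (hγ : 0 < γ) {η ε : ℝ} (hη : 0 < η) (hε : 0 < ε) :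
    Evn h γ fun w x a X => ∀ (i : ι) (Z : (ι → Finset ℕ) → ℝ), (∀ T, |Z T| ≤ 1) →
      ∑ n ∈ sqs (Iw w x a X) ((x : ℝ) ^ η) (h i), Aw (Ps w x) h Z n ^ 2 ≤ ε * Sz ι w x X := by
  obtain ⟨δ, hδ, hδ1, hδ2⟩ : ∃ δ : ℝ, 0 < δ ∧ δ ≤ η ∧ δ ≤ 1 / 2 :=
    ⟨min η (1 / 2), lt_min hη (by norm_num), min_le_left _ _, min_le_right _ _⟩
  refine ((ev_gd hinj γ (half_pos hδ) (2 * Fintype.card ι * 2)).and
    (ev_small h hγ (half_pos hδ) (by positivity : 0 < ε / 4))).mono ?_
  rintro w x a X - - hX ⟨⟨G, hG, hGx⟩, hsm⟩ i Z hZ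
  have hw := hG.sh.w10
  have hwx := hG.wx
  have hi := hG.sh.lt i
  have x1 : (1 : ℝ) ≤ x := by exact_mod_cast (by omega : 1 ≤ x)
  have x0 : (0 : ℝ) < x := by linarith
  have hb : ∀ n ∈ sqs (Iw w x a X) ((x : ℝ) ^ η) (h i),
      Aw (Ps w x) h Z n ^ 2 ≤ (x : ℝ) ^ (δ / 2) := by
    intro n hn
    have hI : n ∈ Iw w x a X := (mem_filter.mp hn).1
    have h1 := abs_aw_le hG.tame hG.prime hG.mG hZ (h := h) (n := n)
      fun l => (hG.mem hX hI l).2
    rw [← sq_abs]
    refine (pow_le_pow_left₀ (abs_nonneg _) h1 2).trans ?_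
    rwa [← pow_mul]
  have hc := card_sqs (x := x) (X := X) (W := primorial w) (a := a) (k := h i)
    (hG.one_le_rpow hη.le) hX (by omega)
  have t1 : (X : ℝ) / (x : ℝ) ^ η ≤ (x : ℝ) ^ (1 - δ) := by
    have a1 : (X : ℝ) ≤ x := by exact_mod_cast hX
    refine (div_le_div_of_nonneg_right a1 (by positivity)).trans ?_
    have a2 : (x : ℝ) / (x : ℝ) ^ η = (x : ℝ) ^ (1 - η) := by rw [Real.rpow_sub x0, Real.rpow_one]
    rw [a2]
    exact Real.rpow_le_rpow_of_exponent_le x1 (by linarith)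
  have t2 : √(x : ℝ) ≤ (x : ℝ) ^ (1 - δ) := by
    rw [Real.sqrt_eq_rpow]
    exact Real.rpow_le_rpow_of_exponent_le x1 (by linarith)
  have t3 : (x : ℝ) ^ (1 - δ) * (x : ℝ) ^ (δ / 2) = (x : ℝ) ^ (1 - δ / 2) := by
    rw [← Real.rpow_add x0]
    exact congrArg _ (by ring)
  have t4 := le_sz ι X hG.L1
  refine (sum_le_card_nsmul _ _ _ hb).trans ?_
  rw [nsmul_eq_mul]
  calc ((sqs (Iw w x a X) ((x : ℝ) ^ η) (h i)).card : ℝ) * (x : ℝ) ^ (δ / 2)
      ≤ (4 * (x : ℝ) ^ (1 - δ)) * (x : ℝ) ^ (δ / 2) :=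
        mul_le_mul_of_nonneg_right (hc.trans (by linarith)) (by positivity)
    _ = 4 * (x : ℝ) ^ (1 - δ / 2) := by rw [mul_assoc, t3]
    _ ≤ ε * (X / (primorial w * LL w x)) := by linarith
    _ ≤ ε * Sz ι w x X := mul_le_mul_of_nonneg_left t4 hε.le

end Pool.Agent.Lib.MP_c03ca8_nt.H
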