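import Pool.Agent.Lib.MP_c03ca8_nt.H.Fund
import Pool.Agent.Lib.MP_c03ca8_nt.H.BtE
import Pool.Agent.Lib.MP_c03ca8_nt.H.Ram

set_option autoImplicit false

noncomputable section

namespace Pool.Agent.Lib.MP_c03ca8_nt.H

open Finset Filter Q
open P3 (Rough om xi Xi bxB bil Adm)
open scoped Classical

/-! The weight summed over primes. -/

variable {ι : Type} [Fintype ι] [DecidableEq ι] {h : ι → ℕ} {γ : ℝ}

/-- One integer: `a` is the square of the weight. -/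
theorem pl_pt {p r b s a c0 c1 : ℝ} (ha : 0 ≤ a) (hc : 0 ≤ c0) (hb : 0 ≤ b) (hp : 0 ≤ p)
    (h1 : p + b ≤ r) (h2 : r ≤ p + b + s) :
    p * c0 + r * a - r * c0 - b * (a - c1) - r * |c1 - c0| - s * a ≤ p * a := by
  have h3 := mul_nonneg (sub_nonneg.2 h2) ha
  have h4 := mul_nonneg (sub_nonneg.2 h1) hc
  have h5 := mul_le_mul_of_nonneg_left (le_abs_self (c1 - c0)) hb
  have h6 := mul_nonneg (show 0 ≤ r - b by linarith) (abs_nonneg (c1 - c0))
  linarith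

theorem pl_sum {I : Finset ℕ} {y c0 : ℝ} (c1 : ℝ) {k : ℕ} {a : ℕ → ℝ} (ha : ∀ n, 0 ≤ a n) (hc : 0 ≤ c0)
    (hI : ∀ n ∈ I, 2 ≤ n + k ∧ y ≤ ((n + k : ℕ) : ℝ)) :
    (prm I k).card * c0 + ∑ n ∈ rgh I y k, a n - (rgh I y k).card * c0 -
      ∑ n ∈ I, bil y (Br y) (n + k) * (a n - c1) - (rgh I y k).card * |c1 - c0| -
      ∑ n ∈ sqs I y k, a n ≤ ∑ n ∈ prm I k, a n := by
  simp only [prm, rgh, sqs, card_filter, sum_filter, Nat.cast_sum, sum_mul, ← sum_add_distrib,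
    ← sum_sub_distrib]
  refine sum_le_sum fun n hn => ?_
  obtain ⟨h1, h2, h3⟩ := ram_pt (hI n hn).1 (hI n hn).2
  have h4 := pl_pt (c1 := c1) (ha n) hc h1 (by split_ifs <;> norm_num) h2 h3
  simpa only [Nat.cast_ite, Nat.cast_one, Nat.cast_zero, ite_mul, one_mul, zero_mul] using h4

/-- Sum `pl_pt` over `n ∈ Iw` with `ram_pt`, `c0 = Dg`, `c1 = Md vU`. Take `η` from `fund_low` for `ε / 5`. Then
`fund_up` and `dg_le`, `Gd.mert_pow` (`c0 ≤ Cm ^ k L ^ (k - 1)`), `bt_ev` with `adm_Br`, `sq_small`, and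
`asy_unit` with `card rgh ≤ (2 / η + 1) X / (W L)` (`fund_up` with `ε = 1`, `gg_ge`). `Lev.mono`. -/
theorem prime_lower (hinj : Function.Injective h) (hγ : 0 < γ) {θ ε : ℝ} (hθ0 : 0 ≤ θ)
    (hθ : θ < 1 / 4) (hε : 0 < ε) : Evn h γ fun w x a X => ∀ (i : ι) (Z : (ι → Finset ℕ) → ℝ),
      Bd Z (univ.erase i) → Lev Z ((x : ℝ) ^ θ) →
      (prm (Iw w x a X) (h i)).card * Dg (Ps w x) Z - ε * Sz ι w x X ≤
        ∑ n ∈ prm (Iw w x a X) (h i), Aw (Ps w x) h Z n ^ 2 := by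
  have hε5 : 0 < ε / 5 := by positivity
  obtain ⟨η, hη, hη1, H1⟩ := fund_low ι hε5
  have hC : 0 < Cm ^ Fintype.card ι := pow_pos (zero_lt_one.trans_le one_le_Cm) _
  have hD : 0 < 2 / η + 1 := by positivity
  have H7 : Evn h γ fun w x _ _ =>
      η / 2 * LL w x ≤ gg (Ps w x) ((x : ℝ) ^ η) ((x : ℝ) ^ (1 / 8 : ℝ)) :=
    evn_x ((eventually_ge_atTop 10).mono fun w hw => gg_ge hη (by linarith) w hw)
  refine (((((((H1 h γ hinj hγ).and (fund_up hinj hγ hη hη1 (div_pos hε5 hC))).and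
    (fund_up hinj hγ hη hη1 one_pos)).and (bt_ev hinj hγ hθ0 hθ hη hε5)).and
    (sq_small hinj hγ hη hε5)).and (asy_unit hinj γ (div_pos hε5 hD))).and
    (H7.and (ev_gd hinj γ one_pos 0))).mono ?_
  rintro w x a X - - hX ⟨⟨⟨⟨⟨⟨h1, h2⟩, h3⟩, h4⟩, h5⟩, h6⟩, h7, G, hG, -⟩ i Z hZ hL
  have hx : (1 : ℝ) ≤ x := by
    have := hG.wx
    have := hG.sh.w10
    exact_mod_cast (show 1 ≤ x by omega)
  have hL1 := hG.L1
  have hW : (0 : ℝ) < primorial w := by exact_mod_cast primorial_pos w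
  have hk : (univ.erase i).card = Fintype.card ι - 1 := by
    rw [card_erase_of_mem (mem_univ i), card_univ]
  have a0 := pl_sum (I := Iw w x a X) (y := (x : ℝ) ^ η) (Md (Ps w x) vU Z) (k := h i)
    (fun n => sq_nonneg (Aw (Ps w x) h Z n)) (dg_nonneg hG.prime Z) fun n hn => by
      have b1 := (hG.mem hX hn i).1
      have b2 : (x : ℝ) ^ η ≤ (x : ℝ) ^ (1 : ℝ) :=
        Real.rpow_le_rpow_of_exponent_le hx (by linarith)
      have b3 : 1 ≤ x := by exact_mod_cast hx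
      rw [Real.rpow_one] at b2
      exact ⟨by omega, b2.trans (by exact_mod_cast b1.le)⟩
  have a1 := h1 i Z hZ (hL.mono (Real.rpow_le_rpow_of_exponent_le hx hθ.le))
  have a2 := mul_le_mul_of_nonneg_right (h2 i) (dg_nonneg hG.prime Z)
  have a3 : Dg (Ps w x) Z ≤ Cm ^ Fintype.card ι * LL w x ^ (Fintype.card ι - 1) :=
    (dg_le hG.prime hZ).trans (hk ▸ hG.mert_pow (hk ▸ Nat.sub_le _ _))
  have a4 := (le_abs_self _).trans (h4 i Z _ hZ hL (adm_Br _))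
  have a5 := h5 i Z hZ.bd
  have a6 := h6 Z _ hZ
  have hu : 0 ≤ X / (primorial w * LL w x) := by positivity
  have a7 : X / (primorial w * gg (Ps w x) ((x : ℝ) ^ η) ((x : ℝ) ^ (1 / 8 : ℝ))) ≤
      2 / η * (X / (primorial w * LL w x)) := by
    refine (div_le_div_of_nonneg_left (Nat.cast_nonneg X) (by positivity)
      (mul_le_mul_of_nonneg_left h7 hW.le)).trans (le_of_eq ?_)
    field_simp
  have a8 : ((rgh (Iw w x a X) ((x : ℝ) ^ η) (h i)).card : ℝ) ≤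
      (2 / η + 1) * (X / (primorial w * LL w x)) := by linarith [h3 i]
  have a9 := mul_le_mul a8 a6 (abs_nonneg _) (by positivity)
  have b1 := mul_le_mul_of_nonneg_left a3 (mul_nonneg (div_pos hε5 hC).le hu)
  have b2 : ε / 5 / Cm ^ Fintype.card ι * (X / (primorial w * LL w x)) *
      (Cm ^ Fintype.card ι * LL w x ^ (Fintype.card ι - 1)) = ε / 5 * Sz ι w x X := by
    rw [Sz]
    field_simp
  have b3 : (2 / η + 1) * (X / (primorial w * LL w x)) *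
      (ε / 5 / (2 / η + 1) * LL w x ^ (univ.erase i).card) = ε / 5 * Sz ι w x X := by
    rw [Sz, hk]
    field_simp
  rw [add_mul] at a2
  linarith

/-- `prime_lower` with `ε / Cm ^ 2` for `mert⁻¹ * Zm` (`bd_zm`, `lev_zm`, `aw_smul`, `dg_smul`), multiply by
`mert ^ 2 ≤ Cm ^ 2 L ^ 2`; `aw_zm` (`x ^ θ ≤ x < n + h i`), `sz_mul`. -/
theorem s2_lower (hinj : Function.Injective h) (hγ : 0 < γ) {θ ε : ℝ} (hθ0 : 0 ≤ θ)
    (hθ : θ < 1 / 4) (hε : 0 < ε) : Evn h γ fun w x a X => ∀ (i : ι) (Z : (ι → Finset ℕ) → ℝ),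
      (∀ T, |Z T| ≤ 1) → Lev Z ((x : ℝ) ^ θ) →
      (prm (Iw w x a X) (h i)).card * Dg (Ps w x) (Zm (Ps w x) i Z) -
        ε * (X / primorial w * LL w x ^ Fintype.card ι) ≤
        ∑ n ∈ prm (Iw w x a X) (h i), Aw (Ps w x) h Z n ^ 2 := by
  have hC : 0 < Cm ^ 2 := pow_pos (zero_lt_one.trans_le one_le_Cm) _
  refine ((prime_lower hinj hγ hθ0 hθ (div_pos hε hC)).and (ev_gd hinj γ one_pos 0)).mono ?_
  rintro w x a X - - hX ⟨h1, G, hG, -⟩ i Z hZ hL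
  have hx : (1 : ℝ) ≤ x := by
    have := hG.wx
    have := hG.sh.w10
    exact_mod_cast (show 1 ≤ x by omega)
  have hL1 := hG.L1
  have hm : 0 < mert (Ps w x) := zero_lt_one.trans_le (one_le_mert hG.prime)
  have a1 := h1 i _ (bd_zm hG.prime hZ) fun T hT =>
    lev_zm hG.prime hL T (right_ne_zero_of_mul hT)
  have a2 : ∑ n ∈ prm (Iw w x a X) (h i), Aw (Ps w x) h Z n ^ 2 = mert (Ps w x) ^ 2 *
      ∑ n ∈ prm (Iw w x a X) (h i),
        Aw (Ps w x) h (fun T => (mert (Ps w x))⁻¹ * Zm (Ps w x) i Z T) n ^ 2 := by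
    rw [mul_sum]
    refine sum_congr rfl fun n hn => ?_
    obtain ⟨b1, b2⟩ := mem_filter.1 hn
    have b3 : (x : ℝ) ^ θ ≤ (x : ℝ) ^ (1 : ℝ) := Real.rpow_le_rpow_of_exponent_le hx (by linarith)
    rw [Real.rpow_one] at b3
    rw [aw_smul, aw_zm hG.prime hL b2 (b3.trans_lt (by exact_mod_cast (hG.mem hX b1 i).1))]
    field_simp
  have a3 := mul_le_mul_of_nonneg_left a1 (sq_nonneg (mert (Ps w x)))
  have a4 : 0 ≤ ε / Cm ^ 2 * Sz ι w x X := by
    rw [Sz]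
    positivity
  have a5 := mul_le_mul_of_nonneg_right (hG.mert_pow (le_refl 2)) a4
  have a6 : Cm ^ 2 * LL w x ^ 2 * (ε / Cm ^ 2 * Sz ι w x X) =
      ε * (X / primorial w * LL w x ^ Fintype.card ι) := by
    have := one_le_Cm
    rw [← sz_mul i X hL1]
    field_simp
  have a7 : mert (Ps w x) ^ 2 * ((prm (Iw w x a X) (h i)).card *
      ((mert (Ps w x))⁻¹ ^ 2 * Dg (Ps w x) (Zm (Ps w x) i Z))) =
      (prm (Iw w x a X) (h i)).card * Dg (Ps w x) (Zm (Ps w x) i Z) := by field_simp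
  rw [dg_smul, mul_sub] at a3
  linarith

end Pool.Agent.Lib.MP_c03ca8_nt.H
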