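import Pool.Agent.Lib.MP_c03ca8_nt.H.Cell

set_option autoImplicit false

noncomputable section

namespace Pool.Agent.Lib.MP_c03ca8_nt.H

open Finset Filter Q
open P3 (Rough om xi Xi bxB bil Adm)
open scoped Classical

/-! The certificate: sums over tuples of cells. -/

variable {ι : Type} [Fintype ι] [DecidableEq ι]

/-- `Finset.prod_univ_sum` with the factor `if c = 0 then 1 else 0` at `i`. -/
theorem sum_fix {A : Type} [CommSemiring A] {M : ℕ} (hM : 0 < M) (i : ι) (f : ℕ → A) :
    ∑ j ∈ (Ce ι M).filter (fun j => j i = 0), ∏ l ∈ univ.erase i, f (j l) =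
      (∑ c ∈ range M, f c) ^ (Fintype.card ι - 1) := by
  have h1 := Finset.prod_univ_sum (fun _ : ι => range M)
    (fun l c => if l = i then (if c = 0 then (1 : A) else 0) else f c)
  rw [← Finset.mul_prod_erase univ _ (mem_univ i)] at h1
  have h2 : ∑ c ∈ range M, (if i = i then (if c = 0 then (1 : A) else 0) else f c) = 1 := by
    simp [hM]
  have h3 : ∏ l ∈ univ.erase i,
      ∑ c ∈ range M, (if l = i then (if c = 0 then (1 : A) else 0) else f c) =
      (∑ c ∈ range M, f c) ^ (Fintype.card ι - 1) := by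
    rw [← Finset.card_univ, ← Finset.card_erase_of_mem (mem_univ i), ← Finset.prod_const]
    refine Finset.prod_congr rfl fun l hl => Finset.sum_congr rfl fun c _ => ?_
    exact if_neg (Finset.ne_of_mem_erase hl)
  rw [h2, h3, one_mul] at h1
  rw [h1, Finset.sum_filter]
  refine Finset.sum_congr rfl fun j _ => ?_
  rw [← Finset.mul_prod_erase univ _ (mem_univ i), if_pos rfl, ite_mul, one_mul, zero_mul]
  refine if_congr Iff.rfl (Finset.prod_congr rfl fun l hl => ?_) rfl
  exact (if_neg (Finset.ne_of_mem_erase hl)).symm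

omit [Fintype ι] in
theorem proba_prod (s : Finset ι) (a : ι → ℕ) (b : ι → ℝ) :
    ∏ l ∈ s, Polynomial.monomial (a l) (b l) = Polynomial.monomial (∑ l ∈ s, a l) (∏ l ∈ s, b l) := by
  induction s using Finset.induction_on with
  | empty => simp
  | insert x s hx ih =>
    rw [Finset.prod_insert hx, Finset.prod_insert hx, Finset.sum_insert hx, ih,
      Polynomial.monomial_mul_monomial]

/-- `sum_fix` for the monomials; a product of monomials is `monomial (∑ lam) (∏ w)`. Compare the
coefficients and use `Finset.sum_fiberwise_of_maps_to` or swap the sums. -/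
theorem sum_Q (D : Dat) (hM : 0 < D.M) (i : ι) (φ : ℕ → ℝ) (hφ : ∀ s, D.Λ ≤ s → φ s = 0) :
    ∑ j ∈ (Ce ι D.M).filter (fun j => j i = 0),
      (∏ l ∈ univ.erase i, D.w (j l)) * φ (∑ l ∈ univ.erase i, D.lam (j l)) =
      ∑ s ∈ range D.Λ, D.Q (Fintype.card ι - 1) s * φ s := by
  unfold Dat.Q
  rw [← sum_fix hM i fun c => Polynomial.monomial (D.lam c) (D.w c)]
  simp only [proba_prod, Polynomial.finsetSum_coeff, Polynomial.coeff_monomial, Finset.sum_mul,
    ite_mul, zero_mul]
  rw [Finset.sum_comm]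
  refine Finset.sum_congr rfl fun j _ => ?_
  rw [Finset.sum_ite_eq]
  split_ifs with h
  · rfl
  · rw [hφ _ (by simpa using h), mul_zero]

/-- `1 ≤ exp (τ (∑ ρ - (B - ρm)))` on the set, `Real.exp_sum`, `sum_fix`. -/
theorem tail_le (D : Dat) (hM : 0 < D.M) (hw : ∀ c, 0 ≤ D.w c) (hτ : 0 ≤ D.τ) (i : ι) :
    ∑ j ∈ ((Ce ι D.M).filter (fun j => j i = 0)).filter
      (fun j => D.B - D.ρm < ∑ l ∈ univ.erase i, D.ρ (j l)), ∏ l ∈ univ.erase i, D.w (j l) ≤
      D.Tl (Fintype.card ι - 1) := by
  unfold Dat.Tl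
  rw [← sum_fix hM i fun c => D.w c * Real.exp (D.τ * D.ρ c), Finset.mul_sum, Finset.sum_filter]
  refine Finset.sum_le_sum fun j _ => ?_
  have h0 : 0 ≤ ∏ l ∈ univ.erase i, D.w (j l) := Finset.prod_nonneg fun l _ => hw _
  rw [Finset.prod_mul_distrib, ← Real.exp_sum, ← Finset.mul_sum, mul_left_comm, ← Real.exp_add]
  split_ifs with h
  · refine le_mul_of_one_le_right h0 (Real.one_le_exp ?_)
    have := mul_le_mul_of_nonneg_left h.le hτ
    linarith
  · positivity

end Pool.Agent.Lib.MP_c03ca8_nt.H
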