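import Pool.Agent.Lib.MP_c03ca8_nt.H.Asy
import Pool.Agent.Lib.MP_c03ca8_nt.H.Mark
import Pool.Agent.Lib.MP_c03ca8_nt.H.GdD

set_option autoImplicit false

noncomputable section

namespace Pool.Agent.Lib.MP_c03ca8_nt.H

open Finset Filter Q
open P3 (Rough om xi Xi bxB bil Adm)
open scoped Classical

/-! Upper bound sieve in a short interval. Model: `P3/Rb4.lean`. -/

variable {ι : Type} [Fintype ι] [DecidableEq ι]

/-- `Finset.prod_univ_sum`. -/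
theorem aw_prod (P : Finset ℕ) (h : ι → ℕ) (z : Finset ℕ → ℝ) (n : ℕ) :
    Aw P h (fun T => ∏ l, z (T l)) n = ∏ l, svs P z (n + h l) := by
  unfold Aw svs Tu
  rw [Finset.prod_univ_sum]
  exact Finset.sum_congr rfl fun T _ => Finset.prod_mul_distrib.symm

theorem rbk_log (c : ℝ) {η : ℝ} (hη : 0 < η) : ∀ᶠ x : ℕ in atTop, c ≤ η * Real.log x :=
  ((Real.tendsto_log_atTop.comp tendsto_natCast_atTop_atTop).const_mul_atTop hη).eventually_ge_atTop c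

/-- As `gg_ge` in `H/Tail.lean`. -/
theorem gg_ge' {η : ℝ} (hη : 0 < η) (hη1 : η ≤ 1) (w : ℕ) (hw : 10 ≤ w) : ∀ᶠ x : ℕ in atTop,
    η / 2 * LL w x ≤ gg (Ps w x) ((x : ℝ) ^ η) ((x : ℝ) ^ η) := by
  obtain ⟨B, -, hB⟩ := mass w hw
  have hc := cW_pos w
  filter_upwards [rbk_log (10 * B) (mul_pos hc hη), eventually_ge_atTop 1] with x h1 h2
  have hx : (1 : ℝ) ≤ x := by exact_mod_cast h2
  have hx0 : (0 : ℝ) < x := by linarith
  have hl : 0 ≤ Real.log x := Real.log_nonneg hx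
  have hy : 1 ≤ (x : ℝ) ^ η := Real.one_le_rpow hx hη.le
  have h3 : (x : ℝ) ^ η ≤ ((3 * x : ℕ) : ℝ) := by
    have := Real.rpow_le_rpow_of_exponent_le hx hη1
    rw [Real.rpow_one] at this
    push_cast
    linarith
  have h4 := (abs_le.1 (hB (3 * x) 1 _ le_rfl hy h3)).1
  rw [div_one, Real.log_rpow hx0] at h4
  have hw' : (10 : ℝ) ≤ w := by exact_mod_cast hw
  have h5 : 4 / (w : ℝ) * (cW w * (η * Real.log x)) ≤ 4 / 10 * (cW w * (η * Real.log x)) :=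
    mul_le_mul_of_nonneg_right (div_le_div_of_nonneg_left (by norm_num) (by norm_num) hw')
      (by positivity)
  have hp : ∀ T ∈ (PP w (3 * x)).powerset, ∀ q ∈ T, q.Prime := fun T hT q hq =>
    Nat.prime_of_mem_primesLE (mem_filter.1 (mem_powerset.1 hT hq)).1
  have h6 : ∑ T ∈ (PP w (3 * x)).powerset.filter
      (fun T => (1 : ℝ) ≤ (pr T : ℝ) ∧ (pr T : ℝ) < (x : ℝ) ^ η), wt T ≤
      gg (Ps w x) ((x : ℝ) ^ η) ((x : ℝ) ^ η) := by
    rw [sum_filter]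
    refine sum_le_sum fun T hT => ?_
    have w0 : 0 ≤ wt T := prod_nonneg fun q hq => by
      have : (2 : ℝ) ≤ q := by exact_mod_cast (hp T hT q hq).two_le
      exact div_nonneg zero_le_one (by linarith)
    unfold z0
    split_ifs with c1 c2 c3
    · rw [one_mul]
    · refine absurd ⟨fun q hq => lt_of_le_of_lt ?_ c1.2, c1.2⟩ c2
      exact_mod_cast Nat.le_of_dvd (pr_pos (hp T hT)) (dvd_prod_of_mem (fun q : ℕ => q) hq)
    · rwa [one_mul]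
    · rw [zero_mul]
  unfold LL
  linarith

theorem rbk_card {P : Finset ℕ} (hP : ∀ q ∈ P, q.Prime) (h : ι → ℕ) (y R0 : ℝ) (I : Finset ℕ) :
    ((ar h y I).card : ℝ) * (gg P y R0 ^ Fintype.card ι) ^ 2 ≤
      ∑ n ∈ I, Aw P h (fun T => ∏ l, z0 y R0 (T l)) n ^ 2 := by
  have h1 : ∑ n ∈ ar h y I, Aw P h (fun T => ∏ l, z0 y R0 (T l)) n ^ 2 =
      ((ar h y I).card : ℝ) * (gg P y R0 ^ Fintype.card ι) ^ 2 := by
    rw [← nsmul_eq_mul, ← sum_const]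
    refine sum_congr rfl fun n hn => ?_
    have hn' := (mem_filter.1 hn).2
    rw [aw_prod, prod_congr rfl fun l _ => svs_rough hP (hn' l), prod_const, card_univ]
  rw [← h1]
  exact sum_le_sum_of_subset_of_nonneg (filter_subset _ _) fun n _ _ => sq_nonneg _

theorem rbk_bd (y R0 : ℝ) : Bd (fun T : ι → Finset ℕ => ∏ l, z0 y R0 (T l)) univ := by
  refine ⟨fun T => ?_, fun T _ l hl => absurd (mem_univ l) hl⟩
  rw [Finset.abs_prod]
  exact Finset.prod_le_one (fun l _ => abs_nonneg _) fun l _ => abs_z0_le _ _ _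

theorem rbk_lev (y R0 : ℝ) {R : ℝ} (hR : R0 ^ Fintype.card ι ≤ R) :
    Lev (fun T : ι → Finset ℕ => ∏ l, z0 y R0 (T l)) R := by
  intro T hT
  refine le_trans ?_ hR
  rw [← card_univ, ← prod_const]
  exact Finset.prod_le_prod (fun l _ => Nat.cast_nonneg _) fun l _ =>
    z0_lev (Finset.prod_ne_zero_iff.1 hT l (mem_univ l))

/-- `y = x ^ η`, `Z T = ∏ l, z0 y y (T l)` has level `y ^ k ≤ x ^ (1 / 10)`, and `Aw = g ^ k` on `ar`
(`aw_prod`, `svs_rough`). `triv`, `dec` with `near_vA` and `A = univ`, `dg_le`: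
`g ^ (2 k) card ≤ X / W (1 + K) mert ^ k + G ^ (6 k) x ^ (1 / 5)`, and
`G ^ (6 k + 1) x ^ (1 / 5) ≤ x ^ (4 / 5) ≤ X` (`ev_gd`, `Gd.WG`). -/
theorem rbk (ι : Type) [Fintype ι] [DecidableEq ι] {η : ℝ} (hη : 0 < η) (hη1 : η ≤ 1)
    (hk : η * Fintype.card ι ≤ 1 / 10) : ∃ C : ℝ, 0 < C ∧ ∀ h : ι → ℕ, Function.Injective h →
      Evn h 0 fun w x a X => (x : ℝ) ^ (4 / 5 : ℝ) ≤ X →
        ((ar h ((x : ℝ) ^ η) (Iw w x a X)).card : ℝ) ≤
          C * (X / (primorial w * LL w x ^ Fintype.card ι)) := by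
  obtain ⟨K, hK1, hK⟩ := dec ι
  have hC : 1 ≤ Cm ^ Fintype.card ι := one_le_pow₀ one_le_Cm
  refine ⟨((1 + K) * Cm ^ Fintype.card ι + 1) / ((η / 2) ^ Fintype.card ι) ^ 2, by positivity,
    fun h hinj => ?_⟩
  have hgg : Evn h 0 fun w x _ _ => η / 2 * LL w x ≤ gg (Ps w x) ((x : ℝ) ^ η) ((x : ℝ) ^ η) :=
    evn_x (p := fun w x => η / 2 * LL w x ≤ gg (Ps w x) ((x : ℝ) ^ η) ((x : ℝ) ^ η))
      ((eventually_ge_atTop 10).mono fun w hw => gg_ge' hη hη1 w hw)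
  refine ((ev_gd hinj 0 (δ := 3 / 5) (by norm_num) (6 * Fintype.card ι + 1)).and hgg).mono ?_
  rintro w x a X - - - ⟨⟨G, hG, hj⟩, hg⟩ hX
  have hw10 := hG.sh.w10
  have hwx := hG.wx
  have hx1 : (1 : ℝ) ≤ x := by exact_mod_cast (by omega : 1 ≤ x)
  have hx0 : (0 : ℝ) < x := by linarith
  have hw1 : (1 : ℝ) ≤ w := by exact_mod_cast (by omega : 1 ≤ w)
  have hW0 : (0 : ℝ) < primorial w := by exact_mod_cast primorial_pos w
  have hG0 : 0 ≤ G := by linarith [hG.tame.ten]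
  have hL1 := hG.L1
  have hL0 : 0 < LL w x := by linarith
  have hLk : 1 ≤ LL w x ^ Fintype.card ι := one_le_pow₀ hL1
  have hR : ((x : ℝ) ^ η) ^ Fintype.card ι ≤ (x : ℝ) ^ (1 / 10 : ℝ) := by
    rw [← Real.rpow_natCast, ← Real.rpow_mul hx0.le]
    exact Real.rpow_le_rpow_of_exponent_le hx1 hk
  have hZ := rbk_bd (ι := ι) ((x : ℝ) ^ η) ((x : ℝ) ^ η)
  have h1 := triv hG.tame hG.sh x X (primorial w) a (primorial_pos w) hG.cop hZ.bd
    (rbk_lev ((x : ℝ) ^ η) ((x : ℝ) ^ η) hR) (Real.rpow_nonneg hx0.le _) (hG.rpow_le (by norm_num))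
  have h2 := hK w (Ps w x) hw10 hG.sh.pr vA (near_vA hG.prime) _ _ hZ
  have h3 := dg_le hG.prime hZ
  have h4 := hG.mert_pow (le_refl (Fintype.card ι))
  have h5 := rbk_card hG.prime h ((x : ℝ) ^ η) ((x : ℝ) ^ η) (Iw w x a X)
  rw [card_univ] at h2 h3
  have hm0 : 0 ≤ mert (Ps w x) ^ Fintype.card ι :=
    pow_nonneg (zero_le_one.trans (one_le_mert hG.prime)) _
  have hc : (0 : ℝ) ≤ X / primorial w := by positivity
  have herr : G ^ (6 * Fintype.card ι) * ((x : ℝ) ^ (1 / 10 : ℝ)) ^ 2 ≤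
      X / primorial w * LL w x ^ Fintype.card ι := by
    refine le_trans ?_ (le_mul_of_one_le_right hc hLk)
    rw [le_div_iff₀ hW0]
    have e : (x : ℝ) ^ (3 / 5 : ℝ) * ((x : ℝ) ^ (1 / 10 : ℝ)) ^ 2 = (x : ℝ) ^ (4 / 5 : ℝ) := by
      rw [sq, ← Real.rpow_add hx0, ← Real.rpow_add hx0]
      norm_num
    calc G ^ (6 * Fintype.card ι) * ((x : ℝ) ^ (1 / 10 : ℝ)) ^ 2 * primorial w
        ≤ G ^ (6 * Fintype.card ι) * ((x : ℝ) ^ (1 / 10 : ℝ)) ^ 2 * G :=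
          mul_le_mul_of_nonneg_left hG.WG (by positivity)
      _ = G ^ (6 * Fintype.card ι + 1) * ((x : ℝ) ^ (1 / 10 : ℝ)) ^ 2 := by ring
      _ ≤ (x : ℝ) ^ (3 / 5 : ℝ) * ((x : ℝ) ^ (1 / 10 : ℝ)) ^ 2 :=
          mul_le_mul_of_nonneg_right hj (sq_nonneg _)
      _ = (x : ℝ) ^ (4 / 5 : ℝ) := e
      _ ≤ X := hX
  have hM : Md (Ps w x) vA (fun T : ι → Finset ℕ => ∏ l, z0 ((x : ℝ) ^ η) ((x : ℝ) ^ η) (T l)) ≤
      (1 + K) * Cm ^ Fintype.card ι * LL w x ^ Fintype.card ι := by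
    have a2 : K / w * mert (Ps w x) ^ Fintype.card ι ≤ K * mert (Ps w x) ^ Fintype.card ι :=
      mul_le_mul_of_nonneg_right (div_le_self (by linarith) hw1) hm0
    have a3 := (abs_le.1 h2).2
    have a4 : (1 + K) * mert (Ps w x) ^ Fintype.card ι ≤
        (1 + K) * (Cm ^ Fintype.card ι * LL w x ^ Fintype.card ι) :=
      mul_le_mul_of_nonneg_left h4 (by linarith)
    linarith
  have hsum : ∑ n ∈ Iw w x a X, Aw (Ps w x) h
      (fun T : ι → Finset ℕ => ∏ l, z0 ((x : ℝ) ^ η) ((x : ℝ) ^ η) (T l)) n ^ 2 ≤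
      ((1 + K) * Cm ^ Fintype.card ι + 1) * (X / primorial w * LL w x ^ Fintype.card ι) := by
    have a1 := (abs_le.1 h1).2
    have a2 := mul_le_mul_of_nonneg_left hM hc
    unfold Iw
    linarith
  have h8 : ((η / 2 * LL w x) ^ Fintype.card ι) ^ 2 ≤
      (gg (Ps w x) ((x : ℝ) ^ η) ((x : ℝ) ^ η) ^ Fintype.card ι) ^ 2 :=
    pow_le_pow_left₀ (by positivity) (pow_le_pow_left₀ (by positivity) hg _) 2
  have hfin := ((mul_le_mul_of_nonneg_left h8 (Nat.cast_nonneg _)).trans h5).trans hsum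
  rw [← le_div_iff₀ (by positivity)] at hfin
  refine hfin.trans (le_of_eq ?_)
  rw [mul_pow]
  field_simp

end Pool.Agent.Lib.MP_c03ca8_nt.H
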