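import Pool.Agent.Lib.MP_c03ca8_nt.H.Cfg
import Pool.Agent.Lib.MP_c03ca8_nt.H.Loc

set_option autoImplicit false

noncomputable section

namespace Pool.Agent.Lib.MP_c03ca8_nt.H

open Finset Filter Q
open P3 (Rough om xi Xi bxB bil Adm)
open scoped Classical

/-! The weight on rough numbers as a function on the units. Model: team-store `p3_ExA.lean`. -/

section

variable {ι : Type} [Fintype ι] [DecidableEq ι]

/-- The local factor of the square of the weight. -/
def tra_a (h : ι → ℕ) (i : ι) (n q : ℕ) (S S' : Finset ι) : ℝ :=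
  if i ∉ S ∧ i ∉ S' then vl q S S' none + ∑ l, ee q S S' l * ind q (n + h l) else 0

/-- The local factor of the function on the units. -/
def tra_b (h : ι → ℕ) (i : ι) (n q : ℕ) (S S' : Finset ι) : ℝ :=
  if i ∉ S ∧ i ∉ S' then
    vU q S S' + ∑ l ∈ univ.erase i, ee q S S' l * xi q (h l) (h i) (n + h i) else 0

theorem tra_count {Y G : ℝ} (hG : Tame Y G) {P : Finset ℕ} (hP : ∀ q ∈ P, q.Prime) {N : ℕ}
    (h1 : 1 ≤ N) (hY : (N : ℝ) ≤ Y) : (2 : ℝ) ^ (P.filter fun q => q ∣ N).card ≤ G := by
  refine le_trans (pow_le_pow_right₀ (by norm_num) (card_le_card fun q hq => ?_)) (hG.pow N h1 hY)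
  rw [mem_filter] at hq
  exact Nat.mem_primeFactors.2 ⟨hP q hq.1, hq.2, by omega⟩

theorem tra_local (h : ι → ℕ) {q : ℕ} (hq : 2 ≤ q) (i : ι) (n : ℕ) (S S' : Finset ι) :
    |tra_a h i n q S S' - tra_b h i n q S S'| ≤
      if q ∣ n + h i then 2 * Fintype.card ι * uu q else 0 := by
  have hu := uu_pos hq
  by_cases hO : i ∉ S ∧ i ∉ S'
  · have e0 : ee q S S' i = 0 := ee_eq_zero hO.1 hO.2
    have e2 : ∀ l, xi q (h l) (h i) (n + h i) =
        ind q (n + h l) - if q ∣ n + h i then 0 else uu q := by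
      intro l
      have e : n + h i + h l ≡ h i [MOD q] ↔ q ∣ n + h l := by
        rw [← Nat.modEq_zero_iff_dvd, show n + h i + h l = n + h l + h i by ring]
        constructor
        · intro hh
          exact Nat.ModEq.add_right_cancel' (h i) (by simpa using hh)
        · intro hh
          simpa using hh.add_right (h i)
      simp only [xi, ind, e, uu]
    have e3 : tra_a h i n q S S' - tra_b h i n q S S' =
        -∑ l ∈ univ.erase i, ee q S S' l * if q ∣ n + h i then uu q else 0 := by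
      rw [tra_a, tra_b, if_pos hO, if_pos hO, vU, av, ← add_sum_erase univ _ (mem_univ i),
        ← add_sum_erase univ (ee q S S') (mem_univ i), e0, zero_mul, zero_add, zero_add, add_assoc,
        add_sub_add_left_eq_sub, mul_sum, ← sum_add_distrib, ← sum_sub_distrib, ← sum_neg_distrib]
      refine sum_congr rfl fun l _ => ?_
      rw [e2]
      split_ifs <;> ring
    rw [e3, abs_neg]
    split_ifs
    · refine (abs_sum_le_sum_abs _ _).trans ?_
      have e4 : ∀ l ∈ univ.erase i, |ee q S S' l * uu q| ≤ 2 * uu q := by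
        intro l _
        rw [abs_mul, abs_of_pos hu]
        exact mul_le_mul_of_nonneg_right (abs_ee_le hq S S' l) hu.le
      refine (sum_le_sum e4).trans ?_
      have e5 : ((univ.erase i).card : ℝ) ≤ Fintype.card ι := by exact_mod_cast card_le_univ _
      rw [sum_const, nsmul_eq_mul]
      nlinarith
    · simp
  · rw [tra_a, tra_b, if_neg hO, if_neg hO, sub_zero, abs_zero]
    positivity

theorem tra_abs (h : ι → ℕ) {q : ℕ} (hq : 2 ≤ q) (i : ι) (n : ℕ) (S S' : Finset ι) :
    |tra_a h i n q S S'| ≤ 1 + 2 * Fintype.card ι ∧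
      ((∀ l, ¬q ∣ n + h l) → |tra_a h i n q S S'| ≤ uu q ^ S.card * uu q ^ S'.card) := by
  have hu := uu_pos hq
  unfold tra_a
  split_ifs
  · refine ⟨(abs_add_le _ _).trans (add_le_add (abs_vl_le hq S S' none)
      ((abs_sum_le_sum_abs _ _).trans ?_)), fun hn => le_of_eq ?_⟩
    · refine (sum_le_card_nsmul _ _ 2 fun l _ => ?_).trans (by simp [mul_comm])
      unfold ind
      split_ifs
      · simpa using abs_ee_le hq S S' l
      · simp
    · rw [sum_eq_zero fun l _ => by rw [ind, if_neg (hn l), mul_zero], add_zero, vl_none, pow_add,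
        abs_of_pos (by positivity)]
  · rw [abs_zero]
    exact ⟨by positivity, fun _ => by positivity⟩

omit [DecidableEq ι] in
theorem tra_const {c : ℝ} (hc : c ≤ 1 + 4 * Fintype.card ι) :
    ∑ _S : Finset ι, ∑ _S' : Finset ι, c ≤ 2 ^ (6 * Fintype.card ι) := by
  have e : 1 + 4 * (Fintype.card ι : ℝ) ≤ 2 ^ (4 * Fintype.card ι) := by
    have := Nat.lt_two_pow_self (n := 4 * Fintype.card ι)
    exact_mod_cast (by omega : 1 + 4 * Fintype.card ι ≤ 2 ^ (4 * Fintype.card ι))
  simp only [sum_const, card_univ, Fintype.card_finset, nsmul_eq_mul, Nat.cast_pow, Nat.cast_ofNat]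
  calc _ ≤ (2 : ℝ) ^ Fintype.card ι * (2 ^ Fintype.card ι * 2 ^ (4 * Fintype.card ι)) := by
        gcongr
        exact hc.trans e
    _ = _ := by ring

theorem tra_max (h : ι → ℕ) {q : ℕ} (hq : 2 ≤ q) (i : ι) (n : ℕ) :
    ∑ S, ∑ S', max |tra_a h i n q S S'| |tra_b h i n q S S'| ≤ (1 + uu q) ^ (2 * Fintype.card ι) *
      ∏ l, if q ∣ n + h l then (2 : ℝ) ^ (6 * Fintype.card ι) else 1 := by
  have hu := uu_pos hq
  have hb : ∀ S S', |tra_b h i n q S S'| ≤
      |tra_a h i n q S S'| + if q ∣ n + h i then 2 * Fintype.card ι * uu q else 0 := fun S S' => by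
    have e1 := tra_local h hq i n S S'
    have e2 := abs_sub_abs_le_abs_sub (tra_b h i n q S S') (tra_a h i n q S S')
    rw [abs_sub_comm] at e2
    linarith
  by_cases hn : ∀ l, ¬q ∣ n + h l
  · have e := sum_pow_card (uu q) (univ : Finset ι)
    rw [powerset_univ, card_univ] at e
    rw [prod_eq_one fun l _ => if_neg (hn l), mul_one, two_mul, pow_add, ← e, sum_mul_sum]
    refine sum_le_sum fun S _ => sum_le_sum fun S' _ => ?_
    have e1 := (tra_abs h hq i n S S').2 hn
    have e2 := hb S S'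
    rw [if_neg (hn i), add_zero] at e2
    exact max_le e1 (e2.trans e1)
  · push Not at hn
    obtain ⟨l0, hl0⟩ := hn
    have hk : (0 : ℝ) ≤ Fintype.card ι := Nat.cast_nonneg _
    have e1 : ∀ S S', max |tra_a h i n q S S'| |tra_b h i n q S S'| ≤ 1 + 4 * Fintype.card ι :=
      fun S S' => by
        have e2 := (tra_abs h hq i n S S').1
        have e3 := hb S S'
        have e4 := mul_le_mul_of_nonneg_left (uu_le_one hq) hk
        refine max_le (by linarith) ?_
        split_ifs at e3 <;> linarith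
    have e5 : (2 : ℝ) ^ (6 * Fintype.card ι) ≤
        ∏ l, if q ∣ n + h l then (2 : ℝ) ^ (6 * Fintype.card ι) else 1 := by
      rw [← mul_prod_erase univ _ (mem_univ l0), if_pos hl0]
      refine le_mul_of_one_le_right (by positivity) (one_le_prod fun l _ => ?_)
      split_ifs
      · exact one_le_pow₀ one_le_two
      · exact le_rfl
    have e6 : (1 : ℝ) ≤ (1 + uu q) ^ (2 * Fintype.card ι) := one_le_pow₀ (by linarith)
    refine (sum_le_sum fun S _ => sum_le_sum fun S' _ => e1 S S').trans ((tra_const le_rfl).trans ?_)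
    exact e5.trans (le_mul_of_one_le_left (le_trans (by positivity) e5) e6)

end

/-- Put `n = m - h i`, `k = card ι`, expand with `aw_sq`. Only `T`, `T'` with `T i = T' i = ∅` count, so
`i ∉ S ∪ S'` and `ee q S S' i = 0`. The local factor is `φ = vl none + ∑ l, ee l * ind q (n + h l)`, and
`ψ = vU + ∑ l ≠ i, ee l * xi`. If `q ∤ m` then `φ = ψ` (`q ∣ n + h l ↔ m + h l ≡ h i [MOD q]`). If `q ∣ m`
then `xi = 0` and `ind q (n + h l) = 0` for `l ≠ i` (`h l`, `h i` differ modulo `q > w`), so
`|φ - ψ| = uu q * |∑ ee| ≤ 4 k / y` and `y ≤ q`. `abs_prod_sub_prod`, `sum_pair` (with the local functions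
set to zero unless `i ∉ S`, `i ∉ S'`): at most `G` primes `q0 ∣ m`; at a prime dividing no form both factors
are `uu q ^ (|S| + |S'|)` with sum `(1 + uu q) ^ (2 k)`; at a prime dividing some form the sum of
`max |φ| |ψ|` is at most `4 ^ k (1 + 2 k) ≤ 2 ^ (4 k)`, which gives `G ^ (4 k k)` (`Tame.pow` for each
`n + h l`). Constants are at most powers of `G ≥ 10`. -/
theorem pst_err (ι : Type) [Fintype ι] [DecidableEq ι] : ∃ j : ℕ, ∀ {Y G y : ℝ}, Tame Y G →
    ∀ {h : ι → ℕ} {w : ℕ} {P : Finset ℕ}, Sh h w P → mert P ≤ G →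
    ∀ {Z : (ι → Finset ℕ) → ℝ} {i : ι}, Bd Z (univ.erase i) → 0 < y → ∀ {m : ℕ}, h i < m →
    (m : ℝ) + w ≤ Y → Rough y m → |Aw P h Z (m - h i) ^ 2 - Pst P h i Z m| ≤ G ^ j / y := by
  refine ⟨1 + (2 * Fintype.card ι + 6 * Fintype.card ι * Fintype.card ι) + 6 * Fintype.card ι, ?_⟩
  intro Y G y hG h w P hs hm2 Z i hZ hy m hm hmY hr
  set k := Fintype.card ι with hk
  obtain ⟨n, rfl⟩ : ∃ n, m = n + h i := ⟨m - h i, by omega⟩
  rw [Nat.add_sub_cancel]
  have hP1 : ∀ q ∈ P, q.Prime := fun q hq => (hs.pr q hq).1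
  have hG10 := hG.ten
  have hG0 : (0 : ℝ) < G := by linarith
  have hn1 : 1 ≤ n := by omega
  have hnY : ∀ l, ((n + h l : ℕ) : ℝ) ≤ Y := fun l => by
    have e : n + h l ≤ n + h i + w := by have := hs.lt l; omega
    have e' : ((n + h l : ℕ) : ℝ) ≤ ((n + h i + w : ℕ) : ℝ) := by exact_mod_cast e
    push_cast at e' hmY ⊢
    linarith
  set a := tra_a h i n with ha
  set b := tra_b h i n with hb
  set c : ℕ → ℝ := fun q =>
    (1 + uu q) ^ (2 * k) * ∏ l, if q ∣ n + h l then (2 : ℝ) ^ (6 * k) else 1 with hc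
  have hc1 : ∀ q ∈ P, 1 ≤ c q := fun q hq => by
    have e := uu_pos (hP1 q hq).two_le
    refine one_le_mul_of_one_le_of_one_le (one_le_pow₀ (by linarith)) (one_le_prod fun l _ => ?_)
    split_ifs
    · exact one_le_pow₀ one_le_two
    · exact le_rfl
  have hcP : ∏ q ∈ P, c q ≤ G ^ (2 * k + 6 * k * k) := by
    have e1 : ∏ q ∈ P, (1 + uu q) ^ (2 * k) ≤ G ^ (2 * k) := by
      rw [prod_pow]
      exact pow_le_pow_left₀ (zero_le_one.trans (one_le_mert hP1)) hm2 _
    have e2 : ∏ q ∈ P, ∏ l, (if q ∣ n + h l then (2 : ℝ) ^ (6 * k) else 1) ≤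
        ∏ _l : ι, G ^ (6 * k) := by
      rw [Finset.prod_comm]
      refine prod_le_prod (fun l _ => prod_nonneg fun q _ => by positivity) fun l _ => ?_
      rw [← prod_filter, prod_const, ← pow_mul, mul_comm, pow_mul]
      exact pow_le_pow_left₀ (by positivity) (tra_count hG hP1 (by omega) (hnY l)) _
    rw [hc, prod_mul_distrib]
    refine (mul_le_mul e1 e2 (prod_nonneg fun q _ => prod_nonneg fun l _ => by positivity)
      (by positivity)).trans (le_of_eq ?_)
    rw [prod_const, card_univ, pow_add, ← pow_mul]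
  have hstep : ∀ q0 ∈ P, ∏ q ∈ P, ∑ S, ∑ S',
      (if q = q0 then |a q S S' - b q S S'| else max |a q S S'| |b q S S'|) ≤
      if q0 ∣ n + h i then G ^ (2 * k + 6 * k * k) * (G ^ (6 * k) / y) else 0 := by
    intro q0 hq0
    have h2 := (hP1 q0 hq0).two_le
    have hd : ∑ S, ∑ S', |a q0 S S' - b q0 S S'| ≤
        if q0 ∣ n + h i then G ^ (6 * k) / y else 0 := by
      refine (sum_le_sum fun S _ => sum_le_sum fun S' _ => tra_local h h2 i n S S').trans ?_
      split_ifs with hq
      · have e1 : uu q0 ≤ 2 / y := (uu_le h2).trans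
          (div_le_div_of_nonneg_left zero_le_two hy (hr q0 (hP1 q0 hq0) hq))
        have e2 : 2 * (k : ℝ) * uu q0 * y ≤ 1 + 4 * k := by
          rw [le_div_iff₀ hy] at e1
          nlinarith [Nat.cast_nonneg (α := ℝ) k]
        rw [le_div_iff₀ hy]
        simp only [sum_mul]
        exact (tra_const e2).trans (pow_le_pow_left₀ zero_le_two (by linarith) _)
      · simp
    have hd0 : (0 : ℝ) ≤ if q0 ∣ n + h i then G ^ (6 * k) / y else 0 := by positivity
    calc _ ≤ ∏ q ∈ P, (c q * if q = q0 then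
            (if q0 ∣ n + h i then G ^ (6 * k) / y else 0) else 1) := by
          refine prod_le_prod (fun q _ => sum_nonneg fun S _ => sum_nonneg fun S' _ => ?_)
            fun q hq => ?_
          · split_ifs
            · exact abs_nonneg _
            · exact le_max_of_le_left (abs_nonneg _)
          · by_cases e : q = q0
            · subst e
              simp only [if_true]
              exact hd.trans (le_mul_of_one_le_left hd0 (hc1 q hq))
            · simp only [if_neg e, mul_one]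
              exact tra_max h (hP1 q hq).two_le i n
      _ = (∏ q ∈ P, c q) * if q0 ∣ n + h i then G ^ (6 * k) / y else 0 := by
          rw [prod_mul_distrib, prod_ite_eq' P q0, if_pos hq0]
      _ ≤ G ^ (2 * k + 6 * k * k) * if q0 ∣ n + h i then G ^ (6 * k) / y else 0 :=
          mul_le_mul_of_nonneg_right hcP hd0
      _ = _ := by split_ifs <;> simp
  have hcount : ((P.filter fun q => q ∣ n + h i).card : ℝ) ≤ G := by
    refine le_trans ?_ (tra_count hG hP1 (by omega) (hnY i))
    exact_mod_cast Nat.lt_two_pow_self.le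
  have hout : ∀ T, Z T ≠ 0 → ∀ q, i ∉ cf T q := fun T hT q => by
    simp [cf, hZ.al T hT i (notMem_erase i univ)]
  rw [aw_sq hs, Pst, ← sum_sub_distrib]
  calc _ ≤ ∑ T ∈ Tu ι P, ∑ T' ∈ Tu ι P, ∑ q0 ∈ P, ∏ q ∈ P,
          (if q = q0 then |a q (cf T q) (cf T' q) - b q (cf T q) (cf T' q)|
            else max |a q (cf T q) (cf T' q)| |b q (cf T q) (cf T' q)|) := by
        refine (abs_sum_le_sum_abs _ _).trans (sum_le_sum fun T _ => ?_)
        rw [← sum_sub_distrib]
        refine (abs_sum_le_sum_abs _ _).trans (sum_le_sum fun T' _ => ?_)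
        refine le_trans ?_ (abs_prod_sub_prod P _ _)
        rw [← mul_sub, abs_mul]
        by_cases h0 : Z T * Z T' = 0
        · rw [h0, abs_zero, zero_mul]
          exact abs_nonneg _
        · have o : ∀ q, i ∉ cf T q ∧ i ∉ cf T' q := fun q =>
            ⟨hout T (left_ne_zero_of_mul h0) q, hout T' (right_ne_zero_of_mul h0) q⟩
          simp only [ha, hb, tra_a, tra_b, if_pos (o _)]
          refine mul_le_of_le_one_left (abs_nonneg _) ?_
          rw [abs_mul]
          exact mul_le_one₀ (hZ.bd T) (abs_nonneg _) (hZ.bd T')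
    _ = ∑ q0 ∈ P, ∏ q ∈ P, ∑ S, ∑ S',
          (if q = q0 then |a q S S' - b q S S'| else max |a q S S'| |b q S S'|) := by
        rw [sum_congr rfl fun T _ => sum_comm, sum_comm]
        exact sum_congr rfl fun q0 _ => sum_pair P fun q S S' =>
          if q = q0 then |a q S S' - b q S S'| else max |a q S S'| |b q S S'|
    _ ≤ ∑ q0 ∈ P, if q0 ∣ n + h i then G ^ (2 * k + 6 * k * k) * (G ^ (6 * k) / y) else 0 :=
        sum_le_sum hstep
    _ = (P.filter fun q => q ∣ n + h i).card * (G ^ (2 * k + 6 * k * k) * (G ^ (6 * k) / y)) := by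
        rw [← sum_filter, sum_const, nsmul_eq_mul]
    _ ≤ G * (G ^ (2 * k + 6 * k * k) * (G ^ (6 * k) / y)) := by gcongr
    _ = _ := by ring

end Pool.Agent.Lib.MP_c03ca8_nt.H
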