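import Mathlib

/-!
A checker for admissible sets. The halves of the elements are the set bits of a list of blocks of
`3 ^ 10` bits; for every odd prime a residue class is given, and the kernel checks that it is missed.
-/

set_option autoImplicit false

namespace Pool.Agent.Lib.MP_c03ca8_nt.H

open Finset

/-- Bits at the multiples `i * p`, `i < 2 ^ j`. -/
noncomputable def tRep (p j : ℕ) : ℕ :=
  Nat.rec 1 (fun j x => Nat.lor x (Nat.shiftLeft x (Nat.mul p (Nat.pow 2 j)))) j

/-- Bits at all multiples of `p` inside a block. -/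
noncomputable def tMask (p : ℕ) : ℕ :=
  Bool.rec (tRep p (Nat.succ (Nat.log2 (Nat.div 59049 p)))) 1 (Nat.ble 59049 p)

/-- The class `i` modulo `p` is missed. -/
noncomputable def tWalk (p m d : ℕ) (l : List ℕ) : ℕ → Bool :=
  List.rec (motive := fun _ => ℕ → Bool) (fun _ => true)
    (fun b _ ih i => Bool.rec false (ih (Nat.mod (Nat.add i d) p))
      (Nat.beq (Nat.land (Nat.shiftRight b i) m) 0)) l

noncomputable def tCls (l : List ℕ) (p r : ℕ) : Bool :=
  tWalk p (tMask p) (Nat.sub p (Nat.mod 59049 p)) l (Nat.mod r p)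

/-- `n` is visibly composite. -/
def tSkip (F n : ℕ) : Bool := Nat.ble 470 n && Nat.ble 2 (Nat.gcd n F)

/-- The numbers `n, n + 2, …`, with the classes stored in `t` in base `2 ^ 20`. -/
noncomputable def tIn (l : List ℕ) (F c : ℕ) : ℕ → ℕ → Bool :=
  Nat.rec (motive := fun _ => ℕ → ℕ → Bool) (fun _ _ => true)
    (fun _ ih n t => Bool.rec
      (Bool.rec false (ih (Nat.add n 2) (Nat.shiftRight t 20)) (tCls l n (Nat.mod t 1048576)))
      (ih (Nat.add n 2) t) (tSkip F n)) c

noncomputable def tOut (l : List ℕ) (F : ℕ) (data : List ℕ) : ℕ → Bool :=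
  List.rec (motive := fun _ => ℕ → Bool) (fun _ => true)
    (fun t _ ih n => Bool.rec false (ih (Nat.add n 512)) (tIn l F 256 n t)) data

noncomputable def tFac (n : ℕ) : ℕ := Nat.rec 1 (fun k x => Nat.mul (Nat.succ k) x) n

noncomputable def tRun (l data : List ℕ) (n : ℕ) : Bool := tOut l (tFac 469) data n

/-- The number of set bits among the lowest `3 ^ d`. -/
noncomputable def tPc (d : ℕ) : ℕ → ℕ :=
  Nat.rec (motive := fun _ => ℕ → ℕ) (fun x => Nat.mod x 2)
    (fun d ih x =>
      Nat.add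
        (ih (Nat.land (Nat.xor (Nat.xor x (Nat.shiftRight x (Nat.pow 3 d)))
          (Nat.shiftRight x (Nat.mul 2 (Nat.pow 3 d)))) (Nat.sub (Nat.pow 2 (Nat.pow 3 d)) 1)))
        (Nat.mul 2 (ih (Nat.land (Nat.lor (Nat.land x (Nat.shiftRight x (Nat.pow 3 d)))
          (Nat.land (Nat.shiftRight x (Nat.mul 2 (Nat.pow 3 d)))
            (Nat.lor x (Nat.shiftRight x (Nat.pow 3 d))))) (Nat.sub (Nat.pow 2 (Nat.pow 3 d)) 1))))) d

noncomputable def tCnt (l : List ℕ) : ℕ := List.rec 0 (fun b _ ih => Nat.add (tPc 10 b) ih) l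

/-- A bound for the elements. -/
noncomputable def tHi (l : List ℕ) : ℕ :=
  List.rec 0 (fun b bs ih => Bool.rec (Nat.add 59049 ih) (Nat.log2 b) bs.isEmpty) l

/-- The set given by the blocks. -/
def tSet : List ℕ → Finset ℕ
  | [] => ∅
  | b :: bs => (range 59049).filter (fun i => b.testBit i = true) ∪ (tSet bs).image (· + 59049)

theorem tRep_succ (p j : ℕ) : tRep p (j + 1) = tRep p j ||| (tRep p j <<< (p * 2 ^ j)) := rfl

theorem tRep_bit (p j : ℕ) : ∀ i, i < 2 ^ j → (tRep p j).testBit (i * p) = true := by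
  induction j with
  | zero =>
    intro i hi
    obtain rfl : i = 0 := by omega
    simp [tRep]
  | succ j ih =>
    intro i hi
    rw [tRep_succ, Nat.testBit_or, Nat.testBit_shiftLeft, Bool.or_eq_true]
    by_cases h : i < 2 ^ j
    · exact Or.inl (ih i h)
    · right
      obtain ⟨i', rfl⟩ : ∃ i', i = 2 ^ j + i' := ⟨i - 2 ^ j, by omega⟩
      have e : (2 ^ j + i') * p = p * 2 ^ j + i' * p := by ring
      rw [e, Nat.add_sub_cancel_left, ih i' (by rw [pow_succ] at hi; omega)]
      simp

theorem tMask_bit {p i : ℕ} (hp : 0 < p) (hi : i * p < 59049) : (tMask p).testBit (i * p) = true := by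
  unfold tMask
  cases h : Nat.ble 59049 p
  · refine tRep_bit p _ i ?_
    have h1 : i ≤ 59049 / p := (Nat.le_div_iff_mul_le hp).2 hi.le
    exact lt_of_le_of_lt h1 Nat.lt_log2_self
  · have h1 : 59049 ≤ p := Nat.le_of_ble_eq_true h
    obtain rfl : i = 0 := by
      by_contra h0
      have : p ≤ i * p := Nat.le_mul_of_pos_left p (Nat.pos_of_ne_zero h0)
      omega
    simp

theorem tWalk_ok {p d : ℕ} (hp : 0 < p) (hd : (d + 59049) % p = 0) (l : List ℕ) :
    ∀ i, tWalk p (tMask p) d l i = true → ∀ n ∈ tSet l, n % p ≠ i := by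
  induction l with
  | nil => intro i _ n hn; simp [tSet] at hn
  | cons b bs ih =>
    intro i h n hn hni
    have e : tWalk p (tMask p) d (b :: bs) i = Bool.rec false
        (tWalk p (tMask p) d bs ((i + d) % p)) (Nat.beq ((b >>> i) &&& tMask p) 0) := rfl
    rw [e] at h
    cases hb : Nat.beq ((b >>> i) &&& tMask p) 0
    · rw [hb] at h
      exact Bool.false_ne_true h
    · rw [hb] at h
      have h0 : (b >>> i) &&& tMask p = 0 := Nat.eq_of_beq_eq_true hb
      simp only [tSet, mem_union, mem_filter, mem_range, mem_image] at hn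
      rcases hn with ⟨h1, h2⟩ | ⟨n', h1, rfl⟩
      · have h3 : n = i + n / p * p := by
          have := Nat.mod_add_div' n p
          omega
        have h4 := congrArg (fun x => x.testBit (n / p * p)) h0
        simp only [Nat.testBit_and, Nat.testBit_shiftRight, Nat.zero_testBit] at h4
        rw [← h3, h2, tMask_bit hp (by omega)] at h4
        exact Bool.false_ne_true h4.symm
      · refine ih _ h n' h1 ?_
        rw [← hni, Nat.mod_add_mod, add_assoc, add_comm 59049 d, Nat.add_mod, hd, add_zero,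
          Nat.mod_mod]

theorem tCls_ok {l : List ℕ} {p r : ℕ} (hp : 0 < p) (h : tCls l p r = true) :
    ∃ a, ∀ b ∈ tSet l, ¬ p ∣ a + b := by
  have hd : (p - 59049 % p + 59049) % p = 0 := by
    have h1 := Nat.mod_lt 59049 hp
    have h2 := Nat.mod_add_div 59049 p
    have e : p - 59049 % p + 59049 = p * (59049 / p + 1) := by
      rw [mul_add, mul_one]
      omega
    rw [e, Nat.mul_mod_right]
  refine ⟨p - r % p, fun b hb hdvd => tWalk_ok hp hd l (r % p) h b hb ?_⟩
  have h1 := Nat.mod_lt r hp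
  have h2 : p - r % p + b + r % p ≡ 0 + r % p [MOD p] :=
    ((Nat.modEq_zero_iff_dvd).2 hdvd).add_right _
  have e : p - r % p + b + r % p = p + b := by omega
  rw [e, zero_add] at h2
  have h3 : (p + b) % p = r % p % p := h2
  rwa [Nat.add_mod_left, Nat.mod_mod] at h3

theorem tFac_eq (n : ℕ) : tFac n = n.factorial := by
  induction n with
  | zero => rfl
  | succ n ih => rw [Nat.factorial_succ, ← ih]; rfl

theorem tSkip_ok {n : ℕ} (h : tSkip (tFac 469) n = true) : ¬ n.Prime := by
  intro hp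
  rw [tSkip, Bool.and_eq_true, tFac_eq] at h
  have h1 : 470 ≤ n := Nat.le_of_ble_eq_true h.1
  have h2 : 2 ≤ Nat.gcd n (Nat.factorial 469) := Nat.le_of_ble_eq_true h.2
  have h3 : ¬ n ∣ Nat.factorial 469 := fun hd => by
    have := hp.dvd_factorial.1 hd
    omega
  have h4 : Nat.gcd n (Nat.factorial 469) = 1 := (hp.coprime_iff_not_dvd).2 h3
  omega

theorem tIn_ok (l : List ℕ) (c : ℕ) : ∀ n t, tIn l (tFac 469) c n t = true →
    ∀ j, j < c → (n + 2 * j).Prime → ∃ a, ∀ b ∈ tSet l, ¬ (n + 2 * j) ∣ a + b := by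
  induction c with
  | zero => intro n t _ j hj; omega
  | succ c ih =>
    intro n t h j hj hp
    have e : tIn l (tFac 469) (c + 1) n t = Bool.rec
      (Bool.rec false (tIn l (tFac 469) c (n + 2) (t >>> 20)) (tCls l n (t % 1048576)))
      (tIn l (tFac 469) c (n + 2) t) (tSkip (tFac 469) n) := rfl
    rw [e] at h
    have next : ∀ t', tIn l (tFac 469) c (n + 2) t' = true → j ≠ 0 →
        ∃ a, ∀ b ∈ tSet l, ¬ (n + 2 * j) ∣ a + b := by
      intro t' h' hj0
      obtain ⟨j', rfl⟩ : ∃ j', j = j' + 1 := ⟨j - 1, by omega⟩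
      have e' : n + 2 * (j' + 1) = n + 2 + 2 * j' := by ring
      rw [e'] at hp ⊢
      exact ih _ _ h' j' (by omega) hp
    cases hs : tSkip (tFac 469) n
    · rw [hs] at h
      cases hc : tCls l n (t % 1048576)
      · rw [hc] at h
        exact absurd h Bool.false_ne_true
      · rw [hc] at h
        by_cases hj0 : j = 0
        · subst hj0
          exact tCls_ok hp.pos hc
        · exact next _ h hj0
    · rw [hs] at h
      refine next _ h fun hj0 => ?_
      subst hj0
      exact tSkip_ok hs hp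

theorem tRun_ok (l data : List ℕ) : ∀ n, tRun l data n = true →
    ∀ j, j < 256 * data.length → (n + 2 * j).Prime → ∃ a, ∀ b ∈ tSet l, ¬ (n + 2 * j) ∣ a + b := by
  unfold tRun
  induction data with
  | nil => intro n _ j hj; simp at hj
  | cons t ts ih =>
    intro n h j hj hp
    have e : tOut l (tFac 469) (t :: ts) n =
      Bool.rec false (tOut l (tFac 469) ts (n + 512)) (tIn l (tFac 469) 256 n t) := rfl
    rw [e] at h
    cases hc : tIn l (tFac 469) 256 n t
    · rw [hc] at h
      exact absurd h Bool.false_ne_true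
    · rw [hc] at h
      by_cases hj' : j < 256
      · exact tIn_ok l 256 n t hc j hj' hp
      · obtain ⟨j', rfl⟩ : ∃ j', j = 256 + j' := ⟨j - 256, by omega⟩
        have e' : n + 2 * (256 + j') = n + 512 + 2 * j' := by ring
        rw [e'] at hp ⊢
        exact ih _ h j' (by rw [List.length_cons] at hj; omega) hp

theorem tPc_eq (d : ℕ) : ∀ x, tPc d x = ∑ i ∈ range (3 ^ d), (x.testBit i).toNat := by
  induction d with
  | zero =>
    intro x
    have e : tPc 0 x = x % 2 := rfl
    rw [e, pow_zero, sum_range_one, Nat.testBit_zero]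
    rcases Nat.mod_two_eq_zero_or_one x with h | h <;> simp [h]
  | succ d ih =>
    intro x
    have e : tPc (d + 1) x =
      tPc d (((x ^^^ (x >>> 3 ^ d)) ^^^ (x >>> (2 * 3 ^ d))) &&& (2 ^ 3 ^ d - 1)) +
        2 * tPc d (((x &&& (x >>> 3 ^ d)) ||| ((x >>> (2 * 3 ^ d)) &&& (x ||| (x >>> 3 ^ d)))) &&&
          (2 ^ 3 ^ d - 1)) := rfl
    have e3 : 3 ^ (d + 1) = 3 ^ d + 3 ^ d + 3 ^ d := by ring
    rw [e, ih, ih, e3, sum_range_add, sum_range_add, mul_sum, ← sum_add_distrib, ← sum_add_distrib,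
      ← sum_add_distrib]
    refine sum_congr rfl fun i hi => ?_
    have hi' : i < 3 ^ d := mem_range.1 hi
    simp only [Nat.testBit_and, Nat.testBit_or, Nat.testBit_xor, Nat.testBit_shiftRight,
      Nat.testBit_two_pow_sub_one, hi', decide_true, Bool.and_true, two_mul (3 ^ d)]
    cases x.testBit i <;> cases x.testBit (3 ^ d + i) <;> cases x.testBit (3 ^ d + 3 ^ d + i) <;> rfl

theorem tPc_card (d b : ℕ) : tPc d b = ((range (3 ^ d)).filter fun i => b.testBit i = true).card := by
  rw [tPc_eq, card_filter]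
  refine sum_congr rfl fun i _ => ?_
  cases b.testBit i <;> rfl

theorem tCnt_eq (l : List ℕ) : tCnt l = (tSet l).card := by
  induction l with
  | nil => rfl
  | cons b bs ih =>
    have e : tCnt (b :: bs) = tPc 10 b + tCnt bs := rfl
    have e1 : (3 : ℕ) ^ 10 = 59049 := by norm_num
    rw [e, tSet, card_union_of_disjoint, card_image_of_injective _ (add_left_injective _), ih,
      tPc_card, e1]
    rw [Finset.disjoint_left]
    intro n h1 h2
    obtain ⟨n', -, rfl⟩ := mem_image.1 h2
    have := mem_range.1 (mem_filter.1 h1).1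
    omega

theorem tHi_ok (l : List ℕ) : ∀ n ∈ tSet l, n ≤ tHi l := by
  induction l with
  | nil => intro n hn; simp [tSet] at hn
  | cons b bs ih =>
    intro n hn
    have e : tHi (b :: bs) = Bool.rec (59049 + tHi bs) (Nat.log2 b) bs.isEmpty := rfl
    rw [e]
    simp only [tSet, mem_union, mem_filter, mem_range, mem_image] at hn
    cases bs with
    | nil =>
      rcases hn with ⟨-, h2⟩ | ⟨n', h1, -⟩
      · have h3 := Nat.ge_two_pow_of_testBit h2
        have h4 : b ≠ 0 := by
          have := Nat.two_pow_pos n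
          omega
        exact (Nat.le_log2 h4).2 h3
      · simp [tSet] at h1
    | cons b' bs' =>
      show n ≤ 59049 + tHi (b' :: bs')
      rcases hn with ⟨h1, -⟩ | ⟨n', h1, rfl⟩
      · omega
      · have := ih n' h1
        omega

/-- Double the elements. -/
theorem tup_of (l : List ℕ) {k D : ℕ} (hk : k ≤ tCnt l) (hD : 2 * tHi l ≤ D)
    (h : ∀ j, 3 + 2 * j ≤ k → (3 + 2 * j).Prime → ∃ a, ∀ b ∈ tSet l, ¬ (3 + 2 * j) ∣ a + b) :
    ∃ H : Finset ℕ, k ≤ H.card ∧ (∀ b ∈ H, b ≤ D) ∧
      ∀ p : ℕ, p.Prime → p ≤ k → ∃ a, ∀ b ∈ H, ¬ p ∣ a + b := by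
  refine ⟨(tSet l).image (2 * ·), ?_, fun b hb => ?_, fun p hp hpk => ?_⟩
  · rw [card_image_of_injective _ (mul_right_injective₀ two_ne_zero), ← tCnt_eq]
    exact hk
  · obtain ⟨n, hn, rfl⟩ := mem_image.1 hb
    have h1 := tHi_ok l n hn
    omega
  · rcases hp.eq_two_or_odd with rfl | hodd
    · refine ⟨1, fun b hb => ?_⟩
      obtain ⟨n, -, rfl⟩ := mem_image.1 hb
      omega
    · have h2 := hp.two_le
      obtain ⟨j, rfl⟩ : ∃ j, p = 3 + 2 * j := ⟨(p - 3) / 2, by omega⟩
      obtain ⟨a, ha⟩ := h j hpk hp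
      refine ⟨2 * a, fun b hb hd => ?_⟩
      obtain ⟨n, hn, rfl⟩ := mem_image.1 hb
      rw [← mul_add] at hd
      rcases (Nat.Prime.dvd_mul hp).1 hd with h3 | h3
      · have := Nat.le_of_dvd two_pos h3
        omega
      · exact ha n hn h3

end Pool.Agent.Lib.MP_c03ca8_nt.H
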